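import Pool.Agent.MP_e46b50_co.Mg.Main

-- part MP_e46b50_co.H93.Til
section

set_option autoImplicit false

namespace Pool.Agent.MP_e46b50_co.H93

open Finset

variable {β : Type} [DecidableEq β]

/-- partitions into pieces with property `P` -/
inductive Tile (P : Finset β → Prop) : Finset β → Prop
  | nil : Tile P ∅
  | add {c S : Finset β} : P c → Tile P S → Disjoint c S → Tile P (c ∪ S)

variable {P Q R : Finset β → Prop}

theorem Tile.one {c : Finset β} (h : P c) : Tile P c :=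
  union_empty c ▸ Tile.add h .nil (disjoint_empty_right c)

theorem Tile.union {S S' : Finset β} (h : Tile P S) (h' : Tile P S') (hd : Disjoint S S') :
    Tile P (S ∪ S') := by
  induction h with
  | nil => rwa [empty_union]
  | add h1 _ h3 ih =>
    rw [disjoint_union_left] at hd
    rw [union_assoc]
    exact .add h1 (ih hd.2) (disjoint_union_right.mpr ⟨h3, hd.1⟩)

theorem Tile.lift {A : Finset β} (h : Tile P A) {f : Finset β → Finset β} (h0 : f ∅ = ∅)
    (hu : ∀ c S, f (c ∪ S) = f c ∪ f S)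
    (hd : ∀ c ⊆ A, ∀ S ⊆ A, Disjoint c S → Disjoint (f c) (f S))
    (hc : ∀ c ⊆ A, P c → Tile R (f c)) : Tile R (f A) := by
  induction h with
  | nil => exact h0.symm ▸ .nil
  | add h1 _ h3 ih =>
    rw [hu]
    exact (hc _ subset_union_left h1).union (ih (fun c a S b => hd c (a.trans subset_union_right) S
      (b.trans subset_union_right)) fun c a => hc c (a.trans subset_union_right))
      (hd _ subset_union_left _ subset_union_right h3)

theorem Tile.mono {A : Finset β} (h : Tile P A) (hc : ∀ c, P c → Q c) : Tile Q A :=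
  h.lift (f := id) rfl (fun _ _ => rfl) (fun _ _ _ _ h => h) fun c _ h => .one (hc c h)

theorem Tile.sing (A : Finset β) : Tile (fun c => ∃ x, c = {x}) A := by
  induction A using Finset.induction_on with
  | empty => exact .nil
  | insert x A hx ih => exact insert_eq x A ▸ .add ⟨x, rfl⟩ ih (disjoint_singleton_left.mpr hx)

theorem Tile.cls {S : Finset β} (h : Tile P S) : ∃ cl : β → Finset β, ∀ x ∈ S,
    x ∈ cl x ∧ cl x ⊆ S ∧ P (cl x) ∧ ∀ y ∈ cl x, cl y = cl x := by
  induction h with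
  | nil => exact ⟨fun _ => ∅, by simp⟩
  | @add c S h1 _ h3 ih =>
    obtain ⟨cl, h⟩ := ih
    refine ⟨fun x => if x ∈ c then c else cl x, fun x hx => ?_⟩
    by_cases hc : x ∈ c
    · simp only [if_pos hc]
      exact ⟨hc, subset_union_left, h1, fun y hy => if_pos hy⟩
    · simp only [if_neg hc]
      obtain ⟨a1, a2, a3, a4⟩ := h x ((mem_union.mp hx).resolve_left hc)
      exact ⟨a1, a2.trans subset_union_right, a3, fun y hy =>
        (if_neg (disjoint_right.mp h3 (a2 hy))).trans (a4 y hy)⟩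

variable (Γ : SimpleGraph β)

def K2 (c : Finset β) : Prop := ∃ x y, Γ.Adj x y ∧ c = {x, y}

def P3 (c : Finset β) : Prop := ∃ x y z, Γ.Adj x y ∧ Γ.Adj y z ∧ x ≠ z ∧ c = {x, y, z}

def K3 (c : Finset β) : Prop := ∃ x y z, Γ.Adj x y ∧ Γ.Adj y z ∧ Γ.Adj x z ∧ c = {x, y, z}

def Pn (n : ℕ) (c : Finset β) : Prop := c.card = n ∧ ∃ a b, Pth Γ (c : Set β) a b n

/-- `op` embeds the product of the graphs on `A` and on `B` -/
structure Bx (op : β → β → β) (A B : Finset β) : Prop where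
  inj : ∀ a ∈ A, ∀ b ∈ B, ∀ a' ∈ A, ∀ b' ∈ B, op a b = op a' b' → a = a' ∧ b = b'
  l : ∀ a ∈ A, ∀ a' ∈ A, ∀ b ∈ B, Γ.Adj a a' → Γ.Adj (op a b) (op a' b)
  r : ∀ a ∈ A, ∀ b ∈ B, ∀ b' ∈ B, Γ.Adj b b' → Γ.Adj (op a b) (op a b')

def St (q j : ℕ) (A : Finset β) : Prop :=
  ∃ O ⊆ A, Tile (K2 Γ) (A \ O) ∧ ∃ (lb : β → ZMod q) (w : ℕ → β → β),
    (∀ x ∈ O, ∀ a < j, w a x ∈ A \ O ∧ Γ.Adj x (w a x)) ∧
    ∀ x ∈ O, ∀ z ∈ O, ∀ a < j, ∀ b < j, w a x = w b z → a = b ∧ (lb x = lb z → x = z)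

variable {Γ} {op : β → β → β} {A B : Finset β}

omit [DecidableEq β] in
theorem Bx.mono (h : Bx Γ op A B) {A' B' : Finset β} (hA : A' ⊆ A) (hB : B' ⊆ B) : Bx Γ op A' B' :=
  ⟨fun a h1 b h2 a' h3 b' h4 => h.inj a (hA h1) b (hB h2) a' (hA h3) b' (hB h4),
    fun a h1 a' h2 b h3 => h.l a (hA h1) a' (hA h2) b (hB h3),
    fun a h1 b h2 b' h3 => h.r a (hA h1) b (hB h2) b' (hB h3)⟩

omit [DecidableEq β] in
theorem Bx.flip (h : Bx Γ op A B) : Bx Γ (fun b a => op a b) B A :=
  ⟨fun b h1 a h2 b' h3 a' h4 e => (h.inj a h2 b h1 a' h4 b' h3 e).symm,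
    fun b h1 b' h2 a h3 => h.r a h3 b h1 b' h2, fun b h1 a h2 a' h3 => h.l a h2 a' h3 b h1⟩

theorem Bx.disj (h : Bx Γ op A B) {c c' d d' : Finset β} (h1 : c ⊆ A) (h2 : c' ⊆ A) (h3 : d ⊆ B)
    (h4 : d' ⊆ B) (hd : Disjoint c c' ∨ Disjoint d d') :
    Disjoint (image₂ op c d) (image₂ op c' d') := by
  rw [disjoint_left]
  intro x hx hx'
  obtain ⟨a, ha, b, hb, rfl⟩ := mem_image₂.mp hx
  obtain ⟨a', ha', b', hb', e⟩ := mem_image₂.mp hx'
  obtain ⟨rfl, rfl⟩ := h.inj _ (h2 ha') _ (h4 hb') _ (h1 ha) _ (h3 hb) e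
  exact hd.elim (fun hd => disjoint_left.mp hd ha ha') fun hd => disjoint_left.mp hd hb hb'

theorem Bx.left (h : Bx Γ op A B) (hA : Tile P A) (hc : ∀ c ⊆ A, P c → Tile R (image₂ op c B)) :
    Tile R (image₂ op A B) :=
  hA.lift (f := fun c => image₂ op c B) image₂_empty_left (fun _ _ => image₂_union_left)
    (fun _ h1 _ h2 h3 => h.disj h1 h2 Subset.rfl Subset.rfl (Or.inl h3)) hc

theorem Bx.right (h : Bx Γ op A B) (hB : Tile P B) (hc : ∀ c ⊆ B, P c → Tile R (image₂ op A c)) :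
    Tile R (image₂ op A B) :=
  hB.lift (f := fun c => image₂ op A c) image₂_empty_right (fun _ _ => image₂_union_right)
    (fun _ h1 _ h2 h3 => h.disj Subset.rfl Subset.rfl h1 h2 (Or.inr h3)) hc

theorem Bx.k2l (h : Bx Γ op A B) (hA : Tile (K2 Γ) A) : Tile (K2 Γ) (image₂ op A B) := by
  refine h.left hA ?_
  rintro _ hc ⟨x, y, hxy, rfl⟩
  refine (h.mono hc Subset.rfl).right (Tile.sing B) ?_
  rintro _ hd ⟨b, rfl⟩
  exact .one ⟨op x b, op y b, h.l _ (hc (by simp)) _ (hc (by simp)) _ (hd (by simp)) hxy,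
    by simp [image₂_singleton_right]⟩

theorem Bx.k2r (h : Bx Γ op A B) (hB : Tile (K2 Γ) B) : Tile (K2 Γ) (image₂ op A B) :=
  image₂_swap op A B ▸ h.flip.k2l hB

theorem Pth.map {c : Finset β} {a b : β} {n : ℕ} (h : Pth Γ (c : Set β) a b n) (f : β → β)
    (hi : ∀ x ∈ c, ∀ y ∈ c, f x = f y → x = y)
    (ha : ∀ x ∈ c, ∀ y ∈ c, Γ.Adj x y → Γ.Adj (f x) (f y)) :
    Pth Γ (c.image f : Finset β) (f a) (f b) n := by
  obtain ⟨p, h1, h2, rfl⟩ := h
  suffices Pth Γ (f '' {y | y ∈ p.support}) (f a) (f b) (p.length + 1) from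
    this.mono (by rw [coe_image]; exact Set.image_mono h2)
  induction p with
  | nil => exact Pth.single (by simp)
  | @cons u v w hadj q ih =>
    rw [SimpleGraph.Walk.cons_isPath_iff] at h1
    have h3 : ∀ y ∈ q.support, y ∈ (c : Set β) := fun y hy => h2 y (by simp [hy])
    refine (ih h1.1 h3).cons (ha _ (h2 u (by simp)) _ (h3 v q.start_mem_support) hadj) ?_
      ⟨u, by simp, rfl⟩ (Set.image_mono fun y hy => by simp [show y ∈ q.support from hy])
    rintro ⟨y, hy, e⟩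
    exact h1.2 (hi _ (h3 y hy) _ (h2 u (by simp)) e ▸ hy)

theorem Bx.snake (h : Bx Γ op A B) {n : ℕ} (hA : Pn Γ n A) (hB : P3 Γ B) :
    Pn Γ (3 * n) (image₂ op A B) := by
  obtain ⟨h1, a, b, h2⟩ := hA
  obtain ⟨x, y, z, hxy, hyz, hxz, rfl⟩ := hB
  have key : ∀ u ∈ ({x, y, z} : Finset β), Pth Γ (image₂ op A {u} : Finset β) (op a u) (op b u) n :=
    fun u hu => image₂_singleton_right (f := op) ▸ Pth.map h2 (fun t => op t u)
      (fun s hs t ht e => (h.inj s hs u hu t ht u hu e).1) fun s hs t ht => h.l s hs t ht u hu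
  have sub : ∀ d ⊆ ({x, y, z} : Finset β), ∀ d', d ⊆ d' → ((image₂ op A d : Finset β) : Set β) ⊆
    (image₂ op A d' : Finset β) := fun d _ d' h => coe_subset.mpr (image₂_subset_left h)
  refine ⟨?_, op a x, op b z, ?_⟩
  · rw [card_image₂_iff.mpr fun s hs t ht e => Prod.ext_iff.mpr
      (h.inj _ hs.1 _ hs.2 _ ht.1 _ ht.2 e), h1, card_eq_three.mpr ⟨x, y, z, hxy.ne, hxz, hyz.ne, rfl⟩,
      mul_comm]
  · rw [show 3 * n = n + n + n by omega]
    refine ((key x (by simp)).join (C := (image₂ op A {x, y} : Finset β)) (key y (by simp)).rev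
      (h.r _ h2.right _ (by simp) _ (by simp) hxy) (fun t ht => disjoint_left.mp (h.disj (d := {x})
        (d' := {y}) Subset.rfl Subset.rfl (by simp) (by simp) (Or.inr (by simp [hxy.ne]))) ht)
      (sub _ (by simp) _ (by simp)) (sub _ (by simp) _ (by simp))).join (key z (by simp))
      (h.r _ h2.left _ (by simp) _ (by simp) hyz) (fun t ht => disjoint_left.mp (h.disj
        (d := {x, y}) (d' := {z}) Subset.rfl Subset.rfl (by intro; simp; tauto) (by simp)
        (Or.inr (by simp [hyz.ne', hxz.symm]))) ht)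
      (sub _ (by intro; simp; tauto) _ (by intro; simp; tauto)) (sub _ (by simp) _ (by simp))

theorem Bx.long (h : Bx Γ op A B) {n : ℕ} (hA : Tile (fun c => K2 Γ c ∨ Pn Γ n c) A)
    (hB : Tile (fun c => K2 Γ c ∨ P3 Γ c) B) :
    Tile (fun c => K2 Γ c ∨ Pn Γ (3 * n) c) (image₂ op A B) := by
  refine h.left hA fun c hc hc' => (h.mono hc Subset.rfl).right hB fun d hd hd' => ?_
  rcases hc' with hc' | hc'
  · exact ((h.mono hc hd).k2l (.one hc')).mono fun _ => Or.inl
  rcases hd' with hd' | hd'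
  · exact ((h.mono hc hd).k2r (.one hd')).mono fun _ => Or.inl
  exact .one (Or.inr ((h.mono hc hd).snake hc' hd'))

theorem St.base {q : ℕ} (tg : ZMod q → β → β) (hi : ∀ l x z, tg l x = tg l z → x = z)
    (h : ∀ x ∈ A, ∃ l, tg l x ∈ A ∧ Γ.Adj x (tg l x)) : St Γ q 1 A := by
  classical
  obtain ⟨S, h1, h2⟩ := exists_max_image (A.powerset.filter (Tile (K2 Γ))) card
    ⟨∅, mem_filter.mpr ⟨by simp, .nil⟩⟩
  obtain ⟨h3, h4⟩ := mem_filter.mp h1
  rw [mem_powerset] at h3
  choose! lb h5 h6 using h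
  refine ⟨A \ S, sdiff_subset, ?_, lb, fun _ x => tg (lb x) x, fun x hx _ _ => ⟨?_, ?_⟩, ?_⟩
  · rwa [Finset.sdiff_sdiff_eq_self h3]
  · rw [Finset.sdiff_sdiff_eq_self h3]
    by_contra hc
    obtain ⟨a1, a2⟩ := mem_sdiff.mp hx
    have hd : Disjoint {x, tg (lb x) x} S := by simp [a2, hc]
    have := h2 _ (mem_filter.mpr ⟨mem_powerset.mpr (union_subset (by
      simp [insert_subset_iff, a1, h5 x a1]) h3), .add ⟨_, _, h6 x a1, rfl⟩ h4 hd⟩)
    rw [card_union_of_disjoint hd, card_pair (h6 x a1).ne] at this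
    omega
  · exact h6 x (mem_sdiff.mp hx).1
  · exact fun x _ z _ a ha b hb e => ⟨by omega, fun e' => hi (lb z) _ _ (by simpa only [e'] using e)⟩

theorem St.step {q j : ℕ} (h : Bx Γ op A B) (hA : St Γ q j A) (hB : St Γ q 1 B) :
    St Γ q (j + 1) (image₂ op A B) := by
  classical
  obtain ⟨O, a1, a2, lb, w, a3, a4⟩ := hA
  obtain ⟨O', b1, b2, lb', w', b3, b4⟩ := hB
  have hp : ∀ x, ∃ p : β × β, ∀ a ∈ A, ∀ b ∈ B, op a b = x → p = (a, b) := by
    intro x
    by_cases hx : ∃ a ∈ A, ∃ b ∈ B, op a b = x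
    · obtain ⟨a, ha, b, hb, rfl⟩ := hx
      exact ⟨(a, b), fun a' ha' b' hb' e => Prod.ext_iff.mpr (h.inj _ ha _ hb _ ha' _ hb' e.symm)⟩
    · exact ⟨(x, x), fun a ha b hb e => absurd ⟨a, ha, b, hb, e⟩ hx⟩
  choose p hp using hp
  have e : image₂ op A B \ image₂ op O O' = image₂ op (A \ O) B ∪ image₂ op O (B \ O') := by
    ext x
    simp only [mem_sdiff, mem_union, mem_image₂]
    constructor
    · rintro ⟨⟨a, ha, b, hb, rfl⟩, h1⟩
      by_cases h2 : a ∈ O
      · exact Or.inr ⟨a, h2, b, ⟨hb, fun h3 => h1 ⟨a, h2, b, h3, rfl⟩⟩, rfl⟩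
      · exact Or.inl ⟨a, ⟨ha, h2⟩, b, hb, rfl⟩
    · rintro (⟨a, ha, b, hb, rfl⟩ | ⟨a, ha, b, hb, rfl⟩)
      · exact ⟨⟨a, ha.1, b, hb, rfl⟩, fun ⟨a', ha', b', hb', e⟩ =>
          ha.2 ((h.inj _ (a1 ha') _ (b1 hb') _ ha.1 _ hb e).1 ▸ ha')⟩
      · exact ⟨⟨a, a1 ha, b, hb.1, rfl⟩, fun ⟨a', ha', b', hb', e⟩ =>
          hb.2 ((h.inj _ (a1 ha') _ (b1 hb') _ (a1 ha) _ hb.1 e).2 ▸ hb')⟩
  refine ⟨image₂ op O O', image₂_subset a1 b1, ?_, fun x => lb (p x).1 + lb' (p x).2,
    fun a x => if a < j then op (w a (p x).1) (p x).2 else op (p x).1 (w' 0 (p x).2), ?_, ?_⟩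
  · rw [e]
    exact ((h.mono sdiff_subset Subset.rfl).k2l a2).union ((h.mono a1 sdiff_subset).k2r b2)
      (h.disj sdiff_subset a1 Subset.rfl sdiff_subset (Or.inl sdiff_disjoint))
  · intro x hx a _
    obtain ⟨s, hs, t, ht, rfl⟩ := mem_image₂.mp hx
    simp only [hp _ s (a1 hs) t (b1 ht) rfl, e]
    split_ifs with ha
    · exact ⟨mem_union_left _ (mem_image₂_of_mem (a3 s hs a ha).1 (b1 ht)),
        h.l _ (a1 hs) _ (mem_sdiff.mp (a3 s hs a ha).1).1 _ (b1 ht) (a3 s hs a ha).2⟩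
    · exact ⟨mem_union_right _ (mem_image₂_of_mem hs (b3 t ht 0 one_pos).1),
        h.r _ (a1 hs) _ (b1 ht) _ (mem_sdiff.mp (b3 t ht 0 one_pos).1).1 (b3 t ht 0 one_pos).2⟩
  · intro x hx z hz a ha b hb
    obtain ⟨s, hs, t, ht, rfl⟩ := mem_image₂.mp hx
    obtain ⟨s', hs', t', ht', rfl⟩ := mem_image₂.mp hz
    simp only [hp _ s (a1 hs) t (b1 ht) rfl, hp _ s' (a1 hs') t' (b1 ht') rfl]
    have c1 := mem_sdiff.mp (b3 t ht 0 one_pos).1
    have c2 := mem_sdiff.mp (b3 t' ht' 0 one_pos).1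
    split_ifs with h1 h2 h2 <;> intro e
    · obtain ⟨e1, rfl⟩ := h.inj _ (mem_sdiff.mp (a3 s hs a h1).1).1 _ (b1 ht) _
        (mem_sdiff.mp (a3 s' hs' b h2).1).1 _ (b1 ht') e
      exact ⟨(a4 s hs s' hs' a h1 b h2 e1).1, fun e' => by
        rw [(a4 s hs s' hs' a h1 b h2 e1).2 (add_right_cancel e')]⟩
    · exact absurd ((h.inj _ (mem_sdiff.mp (a3 s hs a h1).1).1 _ (b1 ht) _ (a1 hs') _ c2.1 e).2 ▸ ht)
        c2.2
    · exact absurd ((h.inj _ (a1 hs) _ c1.1 _ (mem_sdiff.mp (a3 s' hs' b h2).1).1 _ (b1 ht') e).2 ▸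
        ht') c1.2
    · obtain ⟨rfl, e1⟩ := h.inj _ (a1 hs) _ c1.1 _ (a1 hs') _ c2.1 e
      exact ⟨by omega, fun e' => by
        rw [(b4 t ht t' ht' 0 one_pos 0 one_pos e1).2 (add_left_cancel e')]⟩

theorem attach (f : β → β) {S : Finset β} (h : Tile (K2 Γ) S) : ∀ O : Finset β, Disjoint O S →
    (∀ x ∈ O, f x ∈ S ∧ Γ.Adj x (f x)) → (∀ x ∈ O, ∀ z ∈ O, f x = f z → x = z) →
    Tile (fun c => K2 Γ c ∨ P3 Γ c) (S ∪ O) := by
  induction h with
  | nil =>
    intro O _ h _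
    rw [eq_empty_of_forall_notMem fun x hx => notMem_empty _ (h x hx).1]
    exact .nil
  | @add c S h1 _ h3 ih =>
    intro O hd h4 h5
    obtain ⟨x, y, hxy, rfl⟩ := h1
    have key : ∀ u, O.filter (f · = u) = ∅ ∨ ∃ o ∈ O, Γ.Adj o u ∧ O.filter (f · = u) = {o} := by
      intro u
      refine (O.filter (f · = u)).eq_empty_or_nonempty.imp_right fun ⟨o, ho⟩ => ?_
      obtain ⟨a1, a2⟩ := mem_filter.mp ho
      exact ⟨o, a1, a2 ▸ (h4 o a1).2, eq_singleton_iff_unique_mem.mpr ⟨ho, fun z hz =>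
        h5 z (mem_filter.mp hz).1 o a1 ((mem_filter.mp hz).2.trans a2.symm)⟩⟩
    have e : {x, y} ∪ S ∪ O = ({x, y} ∪ O.filter (f · = x) ∪ O.filter (f · = y)) ∪
        (S ∪ O.filter (f · ∈ S)) := by
      ext z
      have := h4 z
      simp only [mem_union, mem_filter, mem_insert, mem_singleton] at this ⊢
      tauto
    have hx : ∀ o ∈ O, o ≠ x ∧ o ≠ y := fun o ho => by
      have := disjoint_left.mp hd ho
      simp only [mem_union, mem_insert, mem_singleton, not_or] at this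
      exact this.1
    rw [e]
    refine Tile.union ?_ (ih _ ((hd.mono_right subset_union_right).mono_left (filter_subset _ _))
      (fun z hz => ⟨(mem_filter.mp hz).2, (h4 z (mem_filter.mp hz).1).2⟩) fun z hz z' hz' =>
      h5 z (mem_filter.mp hz).1 z' (mem_filter.mp hz').1) (disjoint_left.mpr fun z a b => ?_)
    · rcases key x with a | ⟨o, a1, a2, a⟩ <;> rcases key y with b | ⟨o', b1, b2, b⟩
      · rw [a, b]
        exact .one (Or.inl ⟨x, y, hxy, by simp⟩)
      · rw [a, b]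
        exact .one (Or.inr ⟨x, y, o', hxy, b2.symm, (hx o' b1).1.symm, by ext; simp⟩)
      · rw [a, b]
        exact .one (Or.inr ⟨o, x, y, a2, hxy, (hx o a1).2, by ext; simp; tauto⟩)
      · have hne : o ≠ o' := fun e => hxy.ne
          ((mem_filter.mp (a.symm ▸ mem_singleton_self o : o ∈ O.filter (f · = x))).2.symm.trans
            (mem_filter.mp (b.symm ▸ mem_singleton.mpr e : o ∈ O.filter (f · = y))).2)
        rw [a, b, show ({x, y} ∪ {o} ∪ {o'} : Finset β) = {o, x} ∪ {o', y} by ext; simp only [insert_union, singleton_union, mem_insert, mem_singleton, union_insert]; tauto]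
        exact .add (Or.inl ⟨_, _, a2, rfl⟩) (.one (Or.inl ⟨_, _, b2, rfl⟩))
          (by simp [hne.symm, hxy.ne', (hx o a1).2.symm, (hx o' b1).1])
    · have c1 := @disjoint_left.mp h3 z
      have c2 := @disjoint_left.mp h3 (f z)
      have c3 := @disjoint_left.mp hd z
      simp only [mem_union, mem_filter, mem_insert, mem_singleton] at a b c1 c2 c3
      tauto

theorem St.fin {q : ℕ} [NeZero q] (h : St Γ q q A) : Tile (fun c => K2 Γ c ∨ P3 Γ c) A := by
  obtain ⟨O, h1, h2, lb, w, h3, h4⟩ := h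
  have := attach (fun x => w (lb x).val x) h2 O disjoint_sdiff
    (fun x hx => h3 x hx _ (ZMod.val_lt _)) fun x hx z hz e => by
      have := h4 x hx z hz _ (ZMod.val_lt _) _ (ZMod.val_lt _) e
      exact this.2 (ZMod.val_injective q this.1)
  rwa [sdiff_union_of_subset h1] at this

end Pool.Agent.MP_e46b50_co.H93

end

-- part MP_e46b50_co.H93.Thr
section

set_option autoImplicit false

namespace Pool.Agent.MP_e46b50_co.H93

open Finset

variable {β : Type} [DecidableEq β] {Γ : SimpleGraph β} {op : β → β → β} {A B : Finset β}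

theorem inv_tile (τ : β → β) (S : Finset β) :
    (∀ x ∈ S, τ x ∈ S ∧ τ (τ x) = x ∧ Γ.Adj x (τ x)) → Tile (K2 Γ) S := by
  induction S using Finset.strongInduction with
  | H S ih =>
  intro h
  rcases S.eq_empty_or_nonempty with rfl | ⟨x, hx⟩
  · exact .nil
  have hs : {x, τ x} ⊆ S := by simp [insert_subset_iff, hx, (h x hx).1]
  rw [← union_sdiff_of_subset hs]
  refine .add ⟨_, _, (h x hx).2.2, rfl⟩ (ih _ (sdiff_ssubset hs (by simp)) fun y hy => ?_)
    disjoint_sdiff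
  simp only [mem_sdiff, mem_insert, mem_singleton, not_or] at hy ⊢
  obtain ⟨a1, a2, a3⟩ := h y hy.1
  exact ⟨⟨a1, fun e => hy.2.2 (by rw [← e, a2]), fun e => hy.2.1 (by rw [← a2, e, (h x hx).2.1])⟩,
    a2, a3⟩

theorem hor_tile (p : ℕ → β) {n : ℕ} (hi : ∀ i < n, ∀ j < n, p i = p j → i = j)
    (ha : ∀ i, i + 1 < n → Γ.Adj (p i) (p (i + 1))) (h : ℕ) :
    ∀ a, a + 2 * h = n → Tile (K2 Γ) ((Ico a n).image p) := by
  induction h with
  | zero =>
    rintro a rfl
    simpa using Tile.nil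
  | succ h ih =>
    intro a e
    rw [show Ico a n = {a, a + 1} ∪ Ico (a + 2) n by ext; simp only [mem_Ico, insert_union, singleton_union, mem_insert]; omega, image_union]
    refine .add ⟨_, _, ha a (by omega), by simp⟩ (ih _ (by omega)) (disjoint_left.mpr fun x h1 h2 => ?_)
    obtain ⟨i, h3, rfl⟩ := mem_image.mp h1
    obtain ⟨j, h4, e⟩ := mem_image.mp h2
    simp only [mem_insert, mem_singleton, mem_Ico] at h3 h4
    have := hi j (by omega) i (by omega) e
    omega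

/-- a forest on `K` whose roots are attached to both ends of an edge outside `K` -/
structure Fo (Γ : SimpleGraph β) (A K : Finset β) (φ τ : β → β) (ρ : β → ℕ) : Prop where
  up : ∀ T ∈ A, T ∈ K → φ T ∈ A ∧ Γ.Adj T (φ T) ∧ ρ T < ρ (φ T) ∧ (φ T ∉ K → Γ.Adj T (τ (φ T)))
  inv : ∀ T ∈ A, T ∉ K → τ T ∈ A ∧ τ T ∉ K ∧ τ (τ T) = T ∧ Γ.Adj T (τ T)

variable {K : Finset β} {φ τ : β → β} {ρ : β → ℕ}

theorem thread (h : Bx Γ op A B) (f : Fo Γ A K φ τ ρ) (m : ℕ) : ∀ A' ⊆ A, ∀ T ∈ A', ∀ x, ∀ u ∈ B,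
    ∀ w ∈ B, Γ.Adj u w → A.sup ρ ≤ ρ T + m → (∀ T' ∈ A', T' ∈ K → ρ T ≤ ρ T' → φ T' ∈ A') →
    (∀ T' ∈ A', T' ∉ K → τ T' ∈ A') → x ∉ image₂ op A' {u, w} → Γ.Adj x (op T u) →
    (T ∉ K → Γ.Adj x (op (τ T) u)) →
    Tile (fun c => K2 Γ c ∨ K3 Γ c) (insert x (image₂ op A' {u, w})) := by
  induction m using Nat.strong_induction_on with
  | _ m ih =>
  intro A' hA T hT x u hu w hw huw hm h1 h2 hx h3 h4
  have hB : {u, w} ⊆ B := by simp [insert_subset_iff, hu, hw]
  by_cases hK : T ∈ K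
  · obtain ⟨a1, a2, a3, a4⟩ := f.up T (hA hT) hK
    have a5 := le_sup (f := ρ) a1
    have hd := (h.disj (c := {T}) (c' := A'.erase T) (by simp [hA hT]) ((erase_subset _ _).trans hA)
      hB hB (Or.inl (by simp)))
    have e : insert x (image₂ op A' {u, w}) =
        {x, op T u} ∪ insert (op T w) (image₂ op (A'.erase T) {w, u}) := by
      rw [← insert_erase hT, image₂_insert_left, erase_insert (notMem_erase _ _), pair_comm w]
      ext
      simp only [mem_insert, mem_union, image_insert, image_singleton, mem_singleton]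
      tauto
    have hφ : φ T ∈ A'.erase T := mem_erase.mpr ⟨a2.ne', h1 T hT hK le_rfl⟩
    rw [e]
    refine .add (Or.inl ⟨_, _, h3, rfl⟩) (ih (m - 1) (by omega) _ ((erase_subset _ _).trans hA) _ hφ
      _ w hw u hu huw.symm (by omega) (fun T' a b c => mem_erase.mpr ⟨fun e => ?_,
        h1 T' (mem_of_mem_erase a) b (by omega)⟩) (fun T' a b => mem_erase.mpr ⟨fun e =>
        (f.inv T' (hA (mem_of_mem_erase a)) b).2.1 (e ▸ hK), h2 T' (mem_of_mem_erase a) b⟩)
      (pair_comm u w ▸ disjoint_left.mp hd (mem_image₂_of_mem (by simp) (by simp)))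
      (h.l _ (hA hT) _ a1 _ hw a2) fun a => h.l _ (hA hT) _ (f.inv _ a1 a).1 _ hw (a4 a)) ?_
    · have := (f.up T' (hA (mem_of_mem_erase a)) b).2.2.1
      rw [e] at this
      omega
    · rw [pair_comm w u]
      simp only [disjoint_insert_left, disjoint_singleton_left, mem_insert, not_or]
      exact ⟨⟨fun e => hx (e ▸ mem_image₂_of_mem hT (by simp)), fun e =>
        hx (image₂_subset_right (erase_subset _ _) e)⟩, (h.r _ (hA hT) _ hu _ hw huw).ne,
        disjoint_left.mp hd (mem_image₂_of_mem (by simp) (by simp))⟩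
  · obtain ⟨a1, -, -, a4⟩ := f.inv T (hA hT) hK
    have hs : {T, τ T} ⊆ A' := by simp [insert_subset_iff, hT, h2 T hT hK]
    have e : insert x (image₂ op A' {u, w}) = insert x (image₂ op {T, τ T} {u}) ∪
        (image₂ op {T, τ T} {w} ∪ image₂ op (A' \ {T, τ T}) {u, w}) := by
      rw [insert_union, ← union_assoc, ← image₂_union_right, ← insert_eq, ← image₂_union_left,
        union_sdiff_of_subset hs]
    have b1 : {u} ⊆ B := by simp [hu]
    have b2 : {w} ⊆ B := by simp [hw]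
    have b3 := sdiff_subset (t := {T, τ T}).trans hA
    rw [e]
    refine .add (Or.inr ⟨x, _, _, h3, h.l _ (hA hT) _ a1 _ hu a4, h4 hK,
      by simp [image₂_singleton_right]⟩) (Tile.mono (.union ((h.mono (hs.trans hA) b2).k2l
        (.one ⟨_, _, a4, rfl⟩)) ((h.mono b3 hB).k2r (.one ⟨_, _, huw, rfl⟩))
        (h.disj (hs.trans hA) b3 b2 hB (Or.inl disjoint_sdiff))) fun _ => Or.inl) ?_
    rw [disjoint_insert_left, disjoint_union_right]
    exact ⟨fun a => hx (union_subset (image₂_subset hs (by simp))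
      (image₂_subset_right sdiff_subset) a), h.disj (hs.trans hA) (hs.trans hA) b1 b2
      (Or.inr (by simp [huw.ne])), h.disj (hs.trans hA) b3 b1 hB (Or.inl disjoint_sdiff)⟩

theorem layer (p : ℕ → β) {n : ℕ} (h : Bx Γ op A ((range (2 * n + 1)).image p))
    (f : Fo Γ A K φ τ ρ) (hi : ∀ i < 2 * n + 1, ∀ j < 2 * n + 1, p i = p j → i = j)
    (ha : ∀ i, i + 1 < 2 * n + 1 → Γ.Adj (p i) (p (i + 1))) (m : ℕ) : ∀ A' ⊆ A, ∀ j,
    (A' ∩ K).card = m → j + m ≤ n → (∀ T ∈ A', T ∈ K → φ T ∈ A') → (∀ T ∈ A', T ∉ K → τ T ∈ A') →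
    Tile (fun c => K2 Γ c ∨ K3 Γ c) (image₂ op A' ((Ico (2 * j) (2 * n + 1)).image p)) := by
  have hs : ∀ a, (Ico a (2 * n + 1)).image p ⊆ (range (2 * n + 1)).image p := fun a =>
    image_subset_image fun i hi => mem_range.mpr (mem_Ico.mp hi).2
  have hd : ∀ S S' : Finset ℕ, (∀ i ∈ S, i < 2 * n + 1) → (∀ i ∈ S', i < 2 * n + 1) →
      Disjoint S S' → Disjoint (S.image p) (S'.image p) := fun S S' a b c =>
    disjoint_left.mpr fun x h1 h2 => by
      obtain ⟨i, h3, rfl⟩ := mem_image.mp h1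
      obtain ⟨j, h4, e⟩ := mem_image.mp h2
      exact disjoint_left.mp c h3 (hi j (b j h4) i (a i h3) e ▸ h4)
  induction m with
  | zero =>
    intro A' hA j h1 _ _ h4
    have hK : ∀ T ∈ A', T ∉ K := fun T a b => notMem_empty T (card_eq_zero.mp h1 ▸ mem_inter_of_mem a b)
    exact ((h.mono hA (hs _)).k2l (inv_tile τ A' fun T a =>
      ⟨h4 T a (hK T a), (f.inv T (hA a) (hK T a)).2.2⟩)).mono fun _ => Or.inl
  | succ m ih =>
    intro A' hA j h1 h2 h3 h4
    obtain ⟨D, hD, hmin⟩ := exists_min_image (A' ∩ K) ρ (card_pos.mp (by omega))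
    obtain ⟨d1, d2⟩ := mem_inter.mp hD
    obtain ⟨a1, a2, a3, a4⟩ := f.up D (hA d1) d2
    have hA' := (erase_subset D A').trans hA
    have c1 : ∀ T ∈ A'.erase D, T ∈ K → φ T ∈ A'.erase D := fun T a b =>
      mem_erase.mpr ⟨fun e => by
        have := (f.up T (hA' a) b).2.2.1
        have := hmin T (mem_inter_of_mem (mem_of_mem_erase a) b)
        rw [e] at *
        omega, h3 T (mem_of_mem_erase a) b⟩
    have c2 : ∀ T ∈ A'.erase D, T ∉ K → τ T ∈ A'.erase D := fun T a b =>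
      mem_erase.mpr ⟨fun e => (f.inv T (hA' a) b).2.1 (e ▸ d2), h4 T (mem_of_mem_erase a) b⟩
    have m0 : p (2 * j) ∈ (range (2 * n + 1)).image p := mem_image_of_mem _ (mem_range.mpr (by omega))
    have m1 : p (2 * j + 1) ∈ (range (2 * n + 1)).image p :=
      mem_image_of_mem _ (mem_range.mpr (by omega))
    have s0 : {D} ⊆ A := by simp [hA d1]
    have s1 : {p (2 * j)} ⊆ (range (2 * n + 1)).image p := singleton_subset_iff.mpr m0
    have s2 : {p (2 * j), p (2 * j + 1)} ⊆ (range (2 * n + 1)).image p :=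
      insert_subset m0 (singleton_subset_iff.mpr m1)
    have n1 : Disjoint {D} (A'.erase D) := by simp
    have e : image₂ op A' ((Ico (2 * j) (2 * n + 1)).image p) =
        (image₂ op {D} {p (2 * j)} ∪ image₂ op (A'.erase D) {p (2 * j), p (2 * j + 1)}) ∪
        (image₂ op {D} ((Ico (2 * j + 1) (2 * n + 1)).image p) ∪
          image₂ op (A'.erase D) ((Ico (2 * (j + 1)) (2 * n + 1)).image p)) := by
      rw [union_union_union_comm, ← image₂_union_right, ← image₂_union_right, ← image_singleton p,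
        ← image_singleton p, ← image_insert, ← image_union, ← image_union,
        show {2 * j} ∪ Ico (2 * j + 1) (2 * n + 1) = Ico (2 * j) (2 * n + 1) by ext; simp only [singleton_union, mem_insert, mem_Ico, Order.add_one_le_iff, Order.lt_add_one_iff]; omega,
        show {2 * j, 2 * j + 1} ∪ Ico (2 * (j + 1)) (2 * n + 1) = Ico (2 * j) (2 * n + 1) by
          ext; simp only [insert_union, singleton_union, mem_insert, mem_Ico, Order.lt_add_one_iff]; omega, ← image₂_union_left, ← insert_eq, insert_erase d1]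
    rw [e]
    refine Tile.union ?_ (.union (((h.mono s0 (hs _)).k2r (hor_tile p hi ha (n - j) _
      (by omega))).mono fun _ => Or.inl) (ih _ hA' (j + 1) (by
        rw [erase_inter, card_erase_of_mem hD, h1]; rfl) (by omega) c1 c2)
      (h.disj s0 hA' (hs _) (hs _) (Or.inl n1))) ?_
    · rw [image₂_singleton, ← insert_eq]
      exact thread h f (A.sup ρ) _ hA' _ (mem_erase.mpr ⟨a2.ne', h3 D d1 d2⟩) _ _ m0 _ m1
        (ha _ (by omega)) (by omega) (fun T a b _ => c1 T a b) c2 (disjoint_left.mp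
          (h.disj s0 hA' s1 s2 (Or.inl n1)) (by simp)) (h.l _ (hA d1) _ a1 _ m0 a2)
        fun a => h.l _ (hA d1) _ (f.inv _ a1 a).1 _ m0 (a4 a)
    · simp only [disjoint_union_left, disjoint_union_right]
      refine ⟨⟨h.disj s0 s0 s1 (hs _) (Or.inr ?_), h.disj hA' s0 s2 (hs _) (Or.inl n1.symm)⟩,
        h.disj s0 hA' s1 (hs _) (Or.inl n1), h.disj hA' hA' s2 (hs _) (Or.inr ?_)⟩
      · rw [← image_singleton p]
        exact hd _ _ (by simp only [mem_singleton, Order.lt_add_one_iff, forall_eq, Order.lt_two_iff, zero_le, mul_le_mul_iff_right₀]; omega) (by simp only [mem_Ico, Order.add_one_le_iff, Order.lt_add_one_iff, and_imp, imp_self, implies_true]) (by simp only [disjoint_singleton_left, mem_Ico, add_le_iff_nonpos_right, nonpos_iff_eq_zero, one_ne_zero, Order.lt_add_one_iff, Order.lt_two_iff, zero_le, mul_le_mul_iff_right₀, false_and, not_false_eq_true])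
      · rw [← image_singleton p, ← image_insert]
        exact hd _ _ (by simp only [mem_insert, mem_singleton, Order.lt_add_one_iff, forall_eq_or_imp, Order.lt_two_iff, zero_le, mul_le_mul_iff_right₀, forall_eq, Order.add_one_le_iff, mul_lt_mul_iff_right₀]; omega) (by simp only [mem_Ico, Order.lt_add_one_iff, and_imp, imp_self, implies_true]) (by simp only [disjoint_insert_left, mem_Ico, Order.lt_two_iff, zero_le, mul_le_mul_iff_right₀, add_le_iff_nonpos_right, nonpos_iff_eq_zero, one_ne_zero, Order.lt_add_one_iff, false_and, not_false_eq_true, disjoint_singleton_left, Order.add_one_le_iff, mul_lt_mul_iff_right₀, not_and, not_lt, true_and]; omega)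

theorem Bx.kp (h : Bx Γ op A B) (f : Fo Γ A K φ τ ρ) {n : ℕ} (hn : A.card ≤ n)
    (hB : Tile (fun c => K2 Γ c ∨ Pn Γ (2 * n + 1) c) B) :
    Tile (fun c => K2 Γ c ∨ K3 Γ c) (image₂ op A B) := by
  refine h.right hB ?_
  rintro c hc (h1 | ⟨h1, a, b, q, h2, h3, h4⟩)
  · exact ((h.mono Subset.rfl hc).k2r (.one h1)).mono fun _ => Or.inl
  have hi : ∀ i < 2 * n + 1, ∀ j < 2 * n + 1, q.getVert i = q.getVert j → i = j :=
    fun i a j b e => h2.getVert_injOn (by simp; omega) (by simp; omega) e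
  have e : (range (2 * n + 1)).image q.getVert = c := eq_of_subset_of_card_le
    (fun x hx => by
      obtain ⟨i, -, rfl⟩ := mem_image.mp hx
      exact h3 _ (q.getVert_mem_support i))
    (by rw [card_image_of_injOn fun i a j b => hi i (mem_range.mp a) j (mem_range.mp b), h1,
      card_range])
  have := layer q.getVert (e ▸ h.mono Subset.rfl hc) f hi (fun i a => q.adj_getVert_succ (by omega))
    _ A Subset.rfl 0 rfl (by have := card_le_card (inter_subset_left (s₁ := A) (s₂ := K)); omega)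
    (fun T a b => (f.up T a b).1) fun T a b => (f.inv T a b).1
  rwa [mul_zero, ← range_eq_Ico, e] at this

end Pool.Agent.MP_e46b50_co.H93

end

-- part MP_e46b50_co.H93.Loc
section

set_option autoImplicit false

namespace Pool.Agent.MP_e46b50_co.H93

open Finset
open scoped symmDiff Classical

variable {V : Type} [Fintype V] [DecidableEq V] (G : SimpleGraph V)

def ca (u w : V) : Prop := u = w ∨ G.Adj u w

noncomputable def reg (C : Finset V) : Finset V := univ.filter fun w => ∃ v ∈ C, ca G v w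

noncomputable def Loc (T R : Finset V) : Finset (Finset V) :=
  R.powerset.filter fun s => Dominating G (T \ R ∪ s)

def Sep (R R' : Finset V) : Prop := ∀ w, ∀ a ∈ R, ∀ b ∈ R', ca G w a → ca G w b → False

variable {G}

omit [Fintype V] [DecidableEq V] in
theorem dom_iff {T : Finset V} : Dominating G T ↔ ∀ w, ∃ x ∈ T, ca G w x :=
  ⟨fun h w => if hw : w ∈ T then ⟨w, hw, Or.inl rfl⟩ else
    let ⟨u, h1, h2⟩ := h w hw; ⟨u, h1, Or.inr h2⟩,
   fun h w hw => let ⟨u, h1, h2⟩ := h w; ⟨u, h1, h2.resolve_left fun e => hw (e ▸ h1)⟩⟩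

omit [Fintype V] [DecidableEq V] in
theorem dom_mix {X Y Z R R' : Finset V} (hX : Dominating G X) (hY : Dominating G Y)
    (h : Sep G R R') (h1 : ∀ x ∈ X, x ∉ R → x ∈ Z) (h2 : ∀ x ∈ Y, x ∉ R' → x ∈ Z) :
    Dominating G Z := by
  rw [dom_iff] at *
  intro w
  obtain ⟨x, a1, a2⟩ := hX w
  obtain ⟨y, b1, b2⟩ := hY w
  by_cases hx : x ∈ R
  · exact ⟨y, h2 y b1 fun hy => h w x hx y hy a2 b2, b2⟩
  · exact ⟨x, h1 x a1 hx, a2⟩

omit [Fintype V] [DecidableEq V] in
theorem Sep.symm {R R' : Finset V} (h : Sep G R R') : Sep G R' R :=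
  fun w a ha b hb h1 h2 => h w b hb a ha h2 h1

omit [Fintype V] [DecidableEq V] in
theorem Sep.disj {R R' : Finset V} (h : Sep G R R') {x : V} (h1 : x ∈ R) : x ∉ R' :=
  fun h2 => h x x h1 x h2 (Or.inl rfl) (Or.inl rfl)

omit [Fintype V] in
theorem mem_Loc {T R s : Finset V} : s ∈ Loc G T R ↔ s ⊆ R ∧ Dominating G (T \ R ∪ s) := by
  simp [Loc]

omit [Fintype V] in
theorem loc_union {T R R' : Finset V} (hT : Dominating G T) (h : Sep G R R') :
    Loc G T (R ∪ R') = image₂ (· ∪ ·) (Loc G T R) (Loc G T R') := by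
  ext s
  simp only [mem_Loc, mem_image₂]
  constructor
  · rintro ⟨h1, h2⟩
    refine ⟨s ∩ R, ⟨inter_subset_right, dom_mix hT h2 h (by simp only [mem_union, mem_sdiff, mem_inter]; tauto) fun x a b => ?_⟩,
      s ∩ R', ⟨inter_subset_right, dom_mix hT h2 h.symm (by simp only [mem_union, mem_sdiff, mem_inter]; tauto) fun x a b => ?_⟩,
      by rw [← inter_union_distrib_left, inter_eq_left.mpr h1]⟩ <;>
    · have := @h1 x
      simp only [mem_union, mem_sdiff, mem_inter] at *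
      tauto
  · rintro ⟨a, ⟨a1, a2⟩, b, ⟨b1, b2⟩, rfl⟩
    exact ⟨union_subset_union a1 b1, dom_mix a2 b2 h.symm (by simp only [mem_union, mem_sdiff, not_or]; tauto) (by simp only [mem_union, mem_sdiff, not_or]; tauto)⟩

omit [Fintype V] in
theorem adj_union {a a' b : Finset V} (h : (gam G).Adj a a') (h1 : Disjoint b a)
    (h2 : Disjoint b a') : (gam G).Adj (a ∪ b) (a' ∪ b) := by
  have e : ∀ (Z : Finset V) (f : V), f ∉ b → Z.erase f ∪ b = (Z ∪ b).erase f := fun Z f hf => by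
    rw [erase_union_distrib, erase_eq_of_notMem hf]
  rcases adj_cases h with ⟨f, hf, rfl⟩ | ⟨f, hf, rfl⟩ | ⟨Z, f, hf, g, hg, h3, rfl, rfl⟩
  · exact e _ _ (disjoint_right.mp h1 hf) ▸ adj_erase (mem_union_left _ hf)
  · exact e _ _ (disjoint_right.mp h2 hf) ▸ (adj_erase (mem_union_left _ hf)).symm
  · rw [e _ _ (disjoint_right.mp h2 (mem_erase.mpr ⟨h3.ne, hf⟩)),
      e _ _ (disjoint_right.mp h1 (mem_erase.mpr ⟨h3.ne', hg⟩))]
    exact adj_slide (mem_union_left _ hf) (mem_union_left _ hg) h3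

omit [Fintype V] in
theorem Sep.bx {T R R' : Finset V} (h : Sep G R R') :
    Bx (gam G) (· ∪ ·) (Loc G T R) (Loc G T R') := by
  have hd : ∀ a ∈ Loc G T R, ∀ b ∈ Loc G T R', Disjoint a b := fun a ha b hb =>
    disjoint_left.mpr fun x h1 h2 => h.disj ((mem_Loc.mp ha).1 h1) ((mem_Loc.mp hb).1 h2)
  refine ⟨fun a ha b hb a' ha' b' hb' e => ?_, fun a ha a' ha' b hb e =>
    adj_union e (hd a ha b hb).symm (hd a' ha' b hb).symm, fun a ha b hb b' hb' e => ?_⟩
  · constructor <;> ext x <;>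
    · have := Finset.ext_iff.mp e x
      have := @disjoint_left.mp (hd a ha b' hb') x
      have := @disjoint_left.mp (hd a' ha' b hb) x
      simp only [mem_union] at *
      tauto
  · simp only [union_comm a]
    exact adj_union e (hd a ha b hb) (hd a ha b' hb')

omit [Fintype V] in
theorem adj_tog (x : Finset V) (y : V) : (gam G).Adj x (x ∆ {y}) :=
  ⟨fun e => by simpa [mem_symmDiff] using Finset.ext_iff.mp e y,
    Or.inl (Or.inl (by rw [symmDiff_symmDiff_cancel_left, card_singleton]))⟩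

omit [Fintype V] in
theorem tog_mem {x : Finset V} {y : V} (h : y ∈ x) : x ∆ {y} = x.erase y := by
  ext z
  by_cases e : z = y <;> simp [mem_symmDiff, e, h]

omit [Fintype V] in
theorem tog_not {x : Finset V} {y : V} (h : y ∉ x) : x ∆ {y} = insert y x := by
  ext z
  by_cases e : z = y <;> simp [mem_symmDiff, e, h]

omit [Fintype V] in
theorem Loc_up {T R s : Finset V} (h : s ∈ Loc G T R) {y : V} (hy : y ∈ R) :
    insert y s ∈ Loc G T R :=
  mem_Loc.mpr ⟨insert_subset hy (mem_Loc.mp h).1,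
    Dominating.up (union_subset_union_right (subset_insert _ _)) (mem_Loc.mp h).2⟩

omit [DecidableEq V] in
theorem mem_reg {C : Finset V} {w : V} : w ∈ reg G C ↔ ∃ v ∈ C, ca G v w := by simp only [reg, mem_filter, mem_univ, true_and]

theorem loc_erase {T s : Finset V} {v u : V} (hu : G.Adj v u) (h : s ∈ Loc G T (reg G {v}))
    (hs : ∀ w, G.Adj v w → w ∈ s) : s.erase v ∈ Loc G T (reg G {v}) := by
  obtain ⟨h1, h2⟩ := mem_Loc.mp h
  refine mem_Loc.mpr ⟨(erase_subset _ _).trans h1, dom_iff.mpr fun w => ?_⟩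
  obtain ⟨x, a1, a2⟩ := dom_iff.mp h2 w
  by_cases hx : x = v
  · subst hx
    rcases a2 with rfl | a2
    · exact ⟨u, mem_union_right _ (mem_erase.mpr ⟨hu.ne', hs u hu⟩), Or.inr hu⟩
    · exact ⟨w, mem_union_right _ (mem_erase.mpr ⟨a2.ne, hs w a2.symm⟩), Or.inl rfl⟩
  · exact ⟨x, by simp only [mem_union, mem_erase] at *; tauto, a2⟩

theorem st_one {q : ℕ} [NeZero q] {T : Finset V} {v u : V} (hu : G.Adj v u)
    (hq : (reg G {v}).card ≤ q) : St (gam G) q 1 (Loc G T (reg G {v})) := by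
  have hv : v ∈ reg G {v} := mem_reg.mpr ⟨v, by simp, Or.inl rfl⟩
  obtain ⟨g⟩ := Function.Embedding.nonempty_of_card_le (α := reg G {v}) (β := ZMod q) (by simpa only [Fintype.card_coe, ZMod.card])
  have : Nonempty (reg G {v}) := ⟨⟨v, hv⟩⟩
  refine St.base (fun l x => x ∆ {(Function.invFun g l).1}) (fun l x z e => symmDiff_left_injective _ e)
    fun x hx => ?_
  suffices ∃ y ∈ reg G {v}, x ∆ {y} ∈ Loc G T (reg G {v}) by
    obtain ⟨y, h1, h2⟩ := this
    exact ⟨g ⟨y, h1⟩, by rwa [Function.leftInverse_invFun g.injective], adj_tog _ _⟩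
  by_cases h : ∃ y ∈ reg G {v}, y ∉ x
  · obtain ⟨y, h1, h2⟩ := h
    exact ⟨y, h1, tog_not h2 ▸ Loc_up hx h1⟩
  · push Not at h
    exact ⟨v, hv, tog_mem (h v hv) ▸ loc_erase hu hx fun w hw =>
      h w (mem_reg.mpr ⟨v, by simp, Or.inr hw⟩)⟩

theorem fo_one {T : Finset V} {v u : V} (hu : G.Adj v u) : ∃ K φ τ,
    Fo (gam G) (Loc G T (reg G {v})) K φ τ card := by
  have hv : v ∈ reg G {v} := mem_reg.mpr ⟨v, by simp, Or.inl rfl⟩
  have h : ∀ s, ∃ w, s ∈ Loc G T (reg G {v}) → s.erase v ∉ Loc G T (reg G {v}) →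
      G.Adj v w ∧ w ∉ s := by
    intro s
    by_contra h
    push Not at h
    exact (h u).2.1 (loc_erase hu (h u).1 fun w => (h w).2.2)
  choose w hw using h
  refine ⟨(Loc G T (reg G {v})).filter fun s => v ∈ s ∧ s.erase v ∉ Loc G T (reg G {v}),
    fun s => insert (w s) s, fun s => s ∆ {v}, fun s h1 h2 => ?_, fun s h1 h2 => ?_⟩
  · obtain ⟨a1, a2⟩ := (mem_filter.mp h2).2
    obtain ⟨a3, a4⟩ := hw s h1 a2
    refine ⟨Loc_up h1 (mem_reg.mpr ⟨v, by simp, Or.inr a3⟩), tog_not a4 ▸ adj_tog _ _,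
      by rw [card_insert_of_notMem a4]; omega, fun _ => ?_⟩
    have := adj_slide (mem_insert_self (w s) s) (mem_insert_of_mem a1) a3.symm
    rwa [erase_insert a4, ← tog_mem (mem_insert_of_mem a1)] at this
  · refine ⟨?_, fun h => ?_, symmDiff_symmDiff_cancel_right _ _, adj_tog _ _⟩
    · by_cases h : v ∈ s
      · rw [tog_mem h]
        by_contra h'
        exact h2 (mem_filter.mpr ⟨h1, h, h'⟩)
      · exact tog_not h ▸ Loc_up h1 hv
    · obtain ⟨a1, a2⟩ := (mem_filter.mp h).2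
      rw [← tog_mem a1, symmDiff_symmDiff_cancel_right] at a2
      exact a2 h1

/-- scattered centres -/
structure Sc (G : SimpleGraph V) (q : ℕ) (C : Finset V) : Prop where
  nb : ∀ v ∈ C, ∃ u, G.Adj v u
  deg : ∀ v ∈ C, (reg G {v}).card ≤ q
  far : ∀ u ∈ C, ∀ v ∈ C, u ≠ v → 7 ≤ G.edist u v

omit [Fintype V] [DecidableEq V] in
theorem ca.edist {u w : V} (h : ca G u w) : G.edist u w ≤ 1 := by
  rcases h with rfl | h
  · simp
  · exact (SimpleGraph.edist_eq_one_iff_adj.mpr h).le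

omit [Fintype V] [DecidableEq V] in
theorem ca.symm {u w : V} (h : ca G u w) : ca G w u := h.imp Eq.symm fun h => h.symm

omit [DecidableEq V] in
theorem Sc.zone {q : ℕ} {C C₁ C₂ : Finset V} (h : Sc G q C) (h1 : C₁ ⊆ C) (h2 : C₂ ⊆ C)
    (hd : Disjoint C₁ C₂) {y a b w w' : V} (ha : a ∈ reg G C₁) (hb : b ∈ reg G C₂)
    (a1 : ca G w a) (a2 : ca G w y) (b1 : ca G w' b) (b2 : ca G w' y) : False := by
  obtain ⟨u, hu, a0⟩ := mem_reg.mp ha
  obtain ⟨v, hv, b0⟩ := mem_reg.mp hb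
  have t : ∀ {x y z : V} {n : ℕ∞}, G.edist x y ≤ n → ca G y z → G.edist x z ≤ n + 1 :=
    fun h h' => SimpleGraph.edist_triangle.trans (add_le_add h h'.edist)
  have := (h.far u (h1 hu) v (h2 hv) fun e => disjoint_left.mp hd hu (e ▸ hv)).trans
    (t (t (t (t (t a0.edist a1.symm) a2) b2.symm) b1) b0.symm)
  exact absurd this (by decide)

omit [DecidableEq V] in
theorem Sc.sep {q : ℕ} {C C₁ C₂ : Finset V} (h : Sc G q C) (h1 : C₁ ⊆ C) (h2 : C₂ ⊆ C)
    (hd : Disjoint C₁ C₂) : Sep G (reg G C₁) (reg G C₂) :=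
  fun _ _ ha _ hb a b => h.zone h1 h2 hd ha hb a (Or.inl rfl) b (Or.inl rfl)

theorem reg_union (C C' : Finset V) : reg G (C ∪ C') = reg G C ∪ reg G C' := by
  ext
  simp only [mem_reg, mem_union, or_and_right, exists_or]

variable {q : ℕ} [NeZero q] {C₀ T : Finset V} (h : Sc G q C₀) (hT : Dominating G T)
include h hT

theorem Sc.st (C : Finset V) : C ⊆ C₀ → St (gam G) q C.card (Loc G T (reg G C)) := by
  induction C using Finset.induction_on with
  | empty => exact fun _ => ⟨_, Subset.rfl, by simpa only [sdiff_self, bot_eq_empty] using Tile.nil, fun _ => 0, fun _ x => x,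
      by simp only [card_empty, not_lt_zero, sdiff_self, bot_eq_empty, notMem_empty, SimpleGraph.irrefl, and_self, imp_self, implies_true], by simp⟩
  | insert v C hv ih =>
    intro hC
    rw [insert_subset_iff] at hC
    have s := h.sep hC.2 (singleton_subset_iff.mpr hC.1) (disjoint_singleton_right.mpr hv)
    obtain ⟨u, hu⟩ := h.nb v hC.1
    rw [card_insert_of_notMem hv, insert_eq, union_comm, reg_union, loc_union hT s]
    exact St.step s.bx (ih hC.2) (st_one hu (h.deg v hC.1))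

theorem Sc.pp (s : ℕ) : ∀ C ⊆ C₀, C.card = q * s →
    Tile (fun c => K2 (gam G) c ∨ Pn (gam G) (3 ^ s) c) (Loc G T (reg G C)) := by
  induction s with
  | zero =>
    intro C _ hc
    obtain rfl := card_eq_zero.mp hc
    have : Loc G T (reg G ∅) = {∅} := by
      ext s
      simp +contextual only [reg, notMem_empty, false_and, exists_false, filter_false, mem_Loc, subset_empty, sdiff_empty, mem_singleton, and_iff_left_iff_imp, union_empty, hT, implies_true]
    exact this ▸ .one (Or.inr ⟨rfl, ∅, ∅, Pth.single (by simp)⟩)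
  | succ s ih =>
    intro C hC hc
    obtain ⟨D, h1, h2⟩ := exists_subset_card_eq (s := C) (n := q) (by rw [hc]; nlinarith only [])
    have s := h.sep (sdiff_subset.trans hC) (h1.trans hC) sdiff_disjoint
    rw [← sdiff_union_of_subset h1, reg_union, loc_union hT s, pow_succ']
    exact s.bx.long (ih _ (sdiff_subset.trans hC) (by rw [card_sdiff_of_subset h1, hc, h2]; simp [mul_add]))
      (St.fin (h2 ▸ h.st hT D (h1.trans hC)))

theorem Sc.kp {C : Finset V} (hC : C ⊆ C₀) (hc : C.card = q * (q + 1) + 1) :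
    Tile (fun c => K2 (gam G) c ∨ K3 (gam G) c) (Loc G T (reg G C)) := by
  obtain ⟨v, hv⟩ := card_pos.mp (show 0 < C.card by omega)
  have s := h.sep (singleton_subset_iff.mpr (hC hv)) ((erase_subset v C).trans hC) (by simp)
  obtain ⟨u, hu⟩ := h.nb v (hC hv)
  obtain ⟨K, φ, τ, f⟩ := fo_one (T := T) hu
  obtain ⟨n, hn⟩ : Odd (3 ^ (q + 1)) := Odd.pow (by decide)
  rw [← insert_erase hv, insert_eq, reg_union, loc_union hT s]
  refine s.bx.kp f (n := n) ?_ (hn ▸ h.pp hT _ _ ((erase_subset v C).trans hC)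
    (by rw [card_erase_of_mem hv, hc]; rfl))
  have h1 : (Loc G T (reg G {v})).card ≤ 2 ^ q := (card_filter_le _ _).trans
    (by rw [card_powerset]; exact Nat.pow_le_pow_right two_pos (h.deg v (hC hv)))
  have h2 : 2 ^ (q + 1) < 3 ^ (q + 1) := Nat.pow_lt_pow_left (by norm_num) (by omega)
  rw [pow_succ] at h2
  omega

end Pool.Agent.MP_e46b50_co.H93

end
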