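import Pool.Agent.MP_e46b50_co.H93.Tab9
import Pool.Agent.MP_e46b50_co.Mg.H93_Loc

-- part MP_e46b50_co.H93.Mrg
section

set_option autoImplicit false

namespace Pool.Agent.MP_e46b50_co.H93

open Finset

variable {β : Type} [DecidableEq β] (Γ : SimpleGraph β)

/-- a detour with `j` inner vertices from `S` -/
def Br (S : Finset β) (u v : β) (j : ℕ) : Prop :=
  (j = 0 ∧ Γ.Adj u v) ∨ ∃ x y, Γ.Adj u x ∧ Γ.Adj y v ∧ Pth Γ (S : Set β) x y j

def DB (S : Finset β) (u v : β) : Prop := Dn (Br Γ S u v) 0 S.card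

def img (A : Fin 9 → Bool) (s : Fin 9 → β) : Finset β := (univ.filter fun p => A p).image s

structure Sl (A : Fin 9 → Bool) (s : Fin 9 → β) : Prop where
  inj : ∀ p q, A p → A q → s p = s q → p = q
  adj : ∀ p q, A p → A q → ad9 p q → Γ.Adj (s p) (s q)

def Two (A : Fin 9 → Bool) (a b : Fin 9) (e f : Fin 9 × Fin 9) : Prop :=
  ∃ e' f' l₁ l₂ l₃, c3 A a b e' f' l₁ l₂ l₃ ∧ ((eqv e' e ∧ eqv f' f) ∨ (eqv e' f ∧ eqv f' e))

variable {Γ}

omit [DecidableEq β] in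
theorem Br.symm {S : Finset β} {u v : β} {j : ℕ} (h : Br Γ S u v j) : Br Γ S v u j := by
  rcases h with h | ⟨x, y, h1, h2, h3⟩
  · exact Or.inl ⟨h.1, h.2.symm⟩
  · exact Or.inr ⟨y, x, h2.symm, h1.symm, h3.rev⟩

omit [DecidableEq β] in
theorem Br.eqv {S : Finset β} {s : Fin 9 → β} {e f : Fin 9 × Fin 9} {j : ℕ} (h : eqv e f)
    (h' : Br Γ S (s f.1) (s f.2) j) : Br Γ S (s e.1) (s e.2) j := by
  simp only [H93.eqv, Bool.or_eq_true, beq_iff_eq] at h
  rcases h with rfl | rfl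
  · exact h'
  · exact h'.symm

theorem Br.join {A S B : Finset β} {a u v b : β} {i j k : ℕ} (h : Pth Γ (A : Set β) a u i)
    (h' : Br Γ S u v j) (h'' : Pth Γ (B : Set β) v b k) (d1 : Disjoint A S) (d2 : Disjoint A B)
    (d3 : Disjoint S B) : Pth Γ (A ∪ S ∪ B : Finset β) a b (i + j + k) := by
  rcases h' with ⟨rfl, h'⟩ | ⟨x, y, h1, h2, h3⟩
  · exact h.join h'' h' (fun y hy => disjoint_left.mp d2 hy)
      (coe_subset.mpr (subset_union_left.trans subset_union_left)) (coe_subset.mpr subset_union_right)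
  · exact (h.join (C := (A ∪ S : Finset β)) h3 h1 (fun y hy => disjoint_left.mp d1 hy)
      (coe_subset.mpr subset_union_left) (coe_subset.mpr subset_union_right)).join h'' h2
      (fun y hy => disjoint_left.mp (disjoint_union_left.mpr ⟨d2, d3⟩) hy)
      (coe_subset.mpr subset_union_left) (coe_subset.mpr subset_union_right)

omit [DecidableEq β] in
theorem DB.empty {u v : β} (h : Γ.Adj u v) : DB Γ ∅ u v := Dn.single (Or.inl ⟨rfl, h⟩)

omit [DecidableEq β] in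
theorem DB.of {S : Finset β} {u v x y : β} (h : Γ.Adj u v) (h1 : Γ.Adj u x) (h2 : Γ.Adj y v)
    (h3 : Dn (Pth Γ (S : Set β) x y) 2 S.card) : DB Γ S u v :=
  (Dn.single (Or.inl ⟨rfl, h⟩)).glue (h3.mono fun _ hj => Or.inr ⟨x, y, h1, h2, hj⟩) le_rfl
    (Nat.zero_le _)

theorem wk_mem {A : Fin 9 → Bool} {b : Fin 9} : ∀ (l : List (Fin 9)) (a : Fin 9),
    wk A b a l → ∀ p ∈ l, A p
  | [], _, h => by simp [wk] at h
  | [x], _, h => by
    simp only [wk, Bool.and_eq_true] at h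
    simpa using h.2
  | x :: y :: l, _, h => by
    simp only [wk, Bool.and_eq_true] at h
    intro p hp
    rcases List.mem_cons.mp hp with rfl | hp
    · exact h.1.1.2
    · exact wk_mem _ _ h.2 p hp

theorem Sl.pth {A : Fin 9 → Bool} {s : Fin 9 → β} (hs : Sl Γ A s) {b : Fin 9} :
    ∀ (l : List (Fin 9)) (a : Fin 9), wk A b a l → l.Nodup →
      Pth Γ (l.toFinset.image s : Finset β) (s a) (s b) l.length
  | [], _, h, _ => by simp [wk] at h
  | [x], _, h, _ => by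
    simp only [wk, Bool.and_eq_true, beq_iff_eq] at h
    obtain ⟨⟨rfl, rfl⟩, -⟩ := h
    exact Pth.single (by simp)
  | x :: y :: l, _, h, hn => by
    simp only [wk, Bool.and_eq_true, beq_iff_eq] at h
    obtain ⟨⟨⟨rfl, h1⟩, h2⟩, h3⟩ := h
    rw [List.nodup_cons] at hn
    refine (hs.pth _ _ h3 hn.2).cons (hs.adj _ _ h1 (wk_mem _ _ h3 y (by simp)) h2) ?_ (by simp only [List.toFinset_cons, image_insert, coe_insert, coe_image, List.coe_toFinset, Set.mem_insert_iff, Set.mem_image, Set.mem_ofPred_eq, true_or])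
      (coe_subset.mpr (image_subset_image (by intro; simp; tauto)))
    intro hx
    obtain ⟨p, hp, e⟩ := mem_image.mp hx
    rw [List.mem_toFinset] at hp
    exact hn.1 (hs.inj _ _ (wk_mem _ _ h3 p hp) h1 e ▸ hp)

theorem wk_sub {A : Fin 9 → Bool} {s : Fin 9 → β} {a b : Fin 9} {l : List (Fin 9)}
    (h : wk A b a l) : l.toFinset.image s ⊆ img A s :=
  image_subset_image fun p hp => mem_filter.mpr ⟨mem_univ _, wk_mem _ _ h p (List.mem_toFinset.mp hp)⟩

theorem Sl.card {A : Fin 9 → Bool} {s : Fin 9 → β} (hs : Sl Γ A s) : (img A s).card = cnt A :=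
  card_image_of_injOn fun p hp q hq => hs.inj p q (mem_filter.mp hp).2 (mem_filter.mp hq).2

theorem Sl.disj {A : Fin 9 → Bool} {s : Fin 9 → β} (hs : Sl Γ A s) {a b c d : Fin 9}
    {l l' : List (Fin 9)} (h : wk A b a l) (h' : wk A d c l') (hd : List.Disjoint l l') :
    Disjoint (l.toFinset.image s) (l'.toFinset.image s) := by
  rw [disjoint_left]
  intro x h1 h2
  obtain ⟨p, hp, rfl⟩ := mem_image.mp h1
  obtain ⟨q, hq, e⟩ := mem_image.mp h2
  rw [List.mem_toFinset] at hp hq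
  exact hd hp (hs.inj _ _ (wk_mem _ _ h' q hq) (wk_mem _ _ h p hp) e ▸ hq)

theorem Sl.three {A : Fin 9 → Bool} {s : Fin 9 → β} (hs : Sl Γ A s) {a b : Fin 9}
    {e f : Fin 9 × Fin 9} {l₁ l₂ l₃ : List (Fin 9)} (h : c3 A a b e f l₁ l₂ l₃) {S S' : Finset β}
    {i j : ℕ} (h1 : Br Γ S (s e.1) (s e.2) i) (h2 : Br Γ S' (s f.1) (s f.2) j)
    (d1 : Disjoint (img A s) S) (d2 : Disjoint (img A s) S') (d3 : Disjoint S S') :
    Pth Γ (img A s ∪ S ∪ S' : Finset β) (s a) (s b) (cnt A + i + j) := by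
  simp only [c3, Bool.and_eq_true, decide_eq_true_eq, beq_iff_eq, List.length_append] at h
  obtain ⟨⟨⟨⟨w1, w2⟩, w3⟩, hn⟩, hl⟩ := h
  rw [List.nodup_append', List.nodup_append', List.disjoint_append_left] at hn
  obtain ⟨⟨n1, n2, n3⟩, n4, n5, n6⟩ := hn
  have := Br.join (Br.join (hs.pth _ _ w1 n1) h1 (hs.pth _ _ w2 n2) (d1.mono_left (wk_sub w1))
    (hs.disj w1 w2 n3) (d1.mono_left (wk_sub w2)).symm) h2 (hs.pth _ _ w3 n4)
    (by simp only [disjoint_union_left]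
        exact ⟨⟨d2.mono_left (wk_sub w1), d3⟩, d2.mono_left (wk_sub w2)⟩)
    (by simp only [disjoint_union_left]
        exact ⟨⟨hs.disj w1 w3 n5, (d1.mono_left (wk_sub w3)).symm⟩, hs.disj w2 w3 n6⟩)
    (d2.mono_left (wk_sub w3)).symm
  rw [show cnt A + i + j = l₁.length + i + l₂.length + j + l₃.length by omega]
  refine this.mono (coe_subset.mpr fun x hx => ?_)
  have a1 := @wk_sub _ _ _ s _ _ _ w1 x
  have a2 := @wk_sub _ _ _ s _ _ _ w2 x
  have a3 := @wk_sub _ _ _ s _ _ _ w3 x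
  simp only [mem_union] at hx ⊢
  tauto

theorem Sl.node {A : Fin 9 → Bool} {s : Fin 9 → β} (hs : Sl Γ A s) {a b : Fin 9}
    (hab : isE A (a, b)) (hp : part A a b) {e f : Fin 9 × Fin 9} (h : Two A a b e f)
    {S S' : Finset β} (h1 : DB Γ S (s e.1) (s e.2)) (h2 : DB Γ S' (s f.1) (s f.2))
    (d1 : Disjoint (img A s) S) (d2 : Disjoint (img A s) S') (d3 : Disjoint S S') :
    Dn (Pth Γ (img A s ∪ S ∪ S' : Finset β) (s a) (s b)) 2 (img A s ∪ S ∪ S').card := by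
  simp only [isE, Bool.and_eq_true] at hab
  have hsub : ((img A s : Finset β) : Set β) ⊆ (img A s ∪ S ∪ S' : Finset β) := by
    intro; simp; tauto
  have h2' : Pth Γ (img A s : Finset β) (s a) (s b) 2 := Pth.two (hs.adj _ _ hab.1.1 hab.1.2 hab.2)
    (mem_image_of_mem _ (by simp [hab.1.1])) (mem_image_of_mem _ (by simp [hab.1.2]))
  have h3 : Dn (Pth Γ (img A s ∪ S ∪ S' : Finset β) (s a) (s b)) 2 (cnt A) := by
    refine ⟨hs.card ▸ h2'.le_card, h2'.mono hsub, fun k k1 k2 => ?_⟩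
    have h9 : cnt A ≤ 9 := (card_filter_le _ _).trans (by simp)
    simp only [part, List.all_eq_true, List.mem_range, Bool.or_eq_true, decide_eq_true_eq,
      List.any_eq_true, Bool.and_eq_true] at hp
    rcases hp k (by omega) with (h | h) | ⟨l, -, ⟨w, n⟩, h⟩
    · exact ⟨2, h, by omega, by omega, h2'.mono hsub⟩
    · omega
    · have := (hs.pth _ _ w n).mono (coe_subset.mpr (wk_sub w))
      exact ⟨_, h.1, h.2, hs.card ▸ this.le_card, this.mono hsub⟩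
  have h4 : ∀ i j, Br Γ S (s e.1) (s e.2) i → Br Γ S' (s f.1) (s f.2) j →
      Pth Γ (img A s ∪ S ∪ S' : Finset β) (s a) (s b) (cnt A + (i + j)) := by
    intro i j b1 b2
    obtain ⟨e', f', l₁, l₂, l₃, c, ⟨e1, e2⟩ | ⟨e1, e2⟩⟩ := h
    · exact add_assoc _ i j ▸ hs.three c (b1.eqv e1) (b2.eqv e2) d1 d2 d3
    · have := hs.three c (b2.eqv e1) (b1.eqv e2) d2 d1 d3.symm
      rwa [union_right_comm, add_assoc, add_comm j] at this
  rw [card_union_of_disjoint (disjoint_union_left.mpr ⟨d2, d3⟩), card_union_of_disjoint d1, hs.card]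
  have h5 := Dn.seq (T := fun k => Pth Γ (img A s ∪ S ∪ S' : Finset β) (s a) (s b) (cnt A + k)) h1
    fun i hi => Dn.mono h2 fun j hj => h4 i j hi hj
  exact h3.glue (((Dn.single (P := fun i => i = cnt A) rfl).seq fun i hi => hi ▸ h5).cast rfl
    (add_assoc _ _ _).symm) (by omega) (by omega)

theorem eqv_trans {e f g : Fin 9 × Fin 9} (h : eqv e g) (h' : eqv f g) : eqv e f := by
  simp only [eqv, Bool.or_eq_true, beq_iff_eq] at *
  rcases h with rfl | rfl <;> rcases h' with rfl | rfl <;> simp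

theorem c2_two {A : Fin 9 → Bool} {a b : Fin 9} {l : List (Fin 9)} {i j : ℕ} {e : Fin 9 × Fin 9}
    (he : eqv (ed l i) e) (h : c2 A a b l i j) :
    isE A (ed l i) ∧ isE A (ed l j) ∧ Two A a b e (ed l j) := by
  simp only [c2, Bool.and_eq_true] at h
  refine ⟨h.1.1, h.1.2, _, _, _, _, _, h.2, ?_⟩
  rcases le_total i j with hij | hij
  · rw [min_eq_left hij, max_eq_right hij]
    exact Or.inl ⟨he, by simp [eqv]⟩
  · rw [min_eq_right hij, max_eq_left hij]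
    exact Or.inr ⟨by simp [eqv], he⟩

theorem full_two {A : Fin 9 → Bool} {a b : Fin 9} {e : Fin 9 × Fin 9} (h : full A a b e)
    (e' : Fin 9 × Fin 9) : isE A e ∧ ∃ f, isE A f ∧ eqv f e' = false ∧ Two A a b e f := by
  simp only [full, List.any_eq_true, Bool.and_eq_true, Bool.not_eq_true'] at h
  obtain ⟨l, -, -, i, -, ⟨⟨h1, h2⟩, h3⟩, h4⟩ := h
  refine ⟨?_, ?_⟩
  · have := (c2_two h1 h2).1
    simp only [eqv, Bool.or_eq_true, beq_iff_eq] at h1
    rcases h1 with h1 | h1 <;> rw [h1] at this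
    · exact this
    · simp only [isE, Bool.and_eq_true, Prod.fst_swap, Prod.snd_swap, ad9] at this ⊢
      exact ⟨this.1.symm, by simpa only [bne_iff_ne, ne_eq, beq_eq_beq, BEq.comm] using this.2⟩
  by_cases hc : eqv (ed l (if i = 0 then 1 else 0)) e' = true
  · exact ⟨_, (c2_two h1 h3).2.1, Bool.eq_false_iff.mpr fun h =>
      Bool.eq_false_iff.mp h4 (eqv_trans hc h), (c2_two h1 h3).2.2⟩
  · exact ⟨_, (c2_two h1 h2).2.1, Bool.eq_false_iff.mpr hc, (c2_two h1 h2).2.2⟩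

section chain
variable {A : Fin 9 → Bool} (S : β → Fin 9 → β) (B : β → Finset β) (rq : β → Fin 9 × Fin 9)

structure Gd (A : Fin 9 → Bool) (Γ : SimpleGraph β) (T : β) : Prop where
  sl : Sl Γ A (S T)
  sub : img A (S T) ⊆ B T
  e : isE A (rq T)
  db : DB Γ (B T \ img A (S T)) (S T (rq T).1) (S T (rq T).2)

variable {S B rq}

theorem head_step {A' : Fin 9 → Bool} {T : β} {L : List β} {X : Finset β} (hs : Sl Γ A' (S T))
    (hsub : img A' (S T) ⊆ X) {a b : Fin 9} {e : Fin 9 × Fin 9} (hab : isE A' (a, b))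
    (hp : part A' a b) (hf : full A' a b e) (db : DB Γ (X \ img A' (S T)) (S T e.1) (S T e.2))
    (hd : ∀ T' ∈ L, Disjoint X (B T'))
    (ih : ∀ f, isE A' f → eqv f (rq (L.headD T)) = false →
      DB Γ (L.toFinset.biUnion B) (S T f.1) (S T f.2)) :
    Dn (Pth Γ (X ∪ L.toFinset.biUnion B : Finset β) (S T a) (S T b)) 2
      (X ∪ L.toFinset.biUnion B).card := by
  obtain ⟨-, f, h1, h2, h3⟩ := full_two hf (rq (L.headD T))
  have hd' : Disjoint X (L.toFinset.biUnion B) :=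
    (disjoint_biUnion_right _ _ _).mpr fun T' hT' => hd T' (List.mem_toFinset.mp hT')
  have := hs.node hab hp h3 db (ih f h1 h2) disjoint_sdiff (hd'.mono_left hsub)
    (hd'.mono_left sdiff_subset)
  rwa [union_sdiff_of_subset hsub] at this

theorem tail_db (hA : ∀ f, isE A f → part A f.1 f.2 ∧ ∀ e, isE A e → eqv f e = false →
      full A f.1 f.2 e) : ∀ (L : List β) (T : β),
    List.IsChain (fun T T' => ∀ p, A p → Γ.Adj (S T p) (S T' p)) (T :: L) → Sl Γ A (S T) →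
    L.Pairwise (fun T T' => Disjoint (B T) (B T')) → (∀ T' ∈ L, Gd S B rq A Γ T') →
    ∀ f, isE A f → eqv f (rq (L.headD T)) = false →
      DB Γ (L.toFinset.biUnion B) (S T f.1) (S T f.2)
  | [], T, _, hs, _, _, f, hf, _ => by
    simp only [isE, Bool.and_eq_true] at hf
    exact DB.empty (hs.adj _ _ hf.1.1 hf.1.2 hf.2)
  | T' :: L, T, hc, hs, hd, hg, f, hf, he => by
    rw [List.isChain_cons_cons] at hc
    rw [List.pairwise_cons] at hd
    have g := hg T' (by simp)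
    have := head_step g.sl g.sub hf (hA f hf).1 ((hA f hf).2 _ g.e he) g.db hd.1
      (tail_db hA L T' hc.2 g.sl hd.2 fun T'' h => hg T'' (by simp [h]))
    simp only [isE, Bool.and_eq_true] at hf
    rw [List.toFinset_cons, biUnion_insert]
    exact DB.of (hs.adj _ _ hf.1.1 hf.1.2 hf.2) (hc.1 _ hf.1.1) (hc.1 _ hf.1.2).symm this

end chain

end Pool.Agent.MP_e46b50_co.H93

end

-- part MP_e46b50_co.H93.Prd
section

set_option autoImplicit false

namespace Pool.Agent.MP_e46b50_co.H93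

open Finset Relation

variable {β ι : Type} [DecidableEq β] [DecidableEq ι]

/-- coordinates: `F` is a disjoint union of products of edges and triangles -/
structure Co (Γ : SimpleGraph β) (F : Finset β) (ln ps : ι → β → ℕ) (mv : ι → β → ℕ → β) :
    Prop where
  two : ∀ i, ∀ x ∈ F, ln i x = 2 ∨ ln i x = 3
  lt : ∀ i, ∀ x ∈ F, ps i x < ln i x
  self : ∀ i, ∀ x ∈ F, mv i x (ps i x) = x
  mem : ∀ i, ∀ x ∈ F, ∀ k < ln i x, mv i x k ∈ F
  lnm : ∀ i j, ∀ x ∈ F, ∀ k < ln i x, ln j (mv i x k) = ln j x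
  psm : ∀ i, ∀ x ∈ F, ∀ k < ln i x, ps i (mv i x k) = k
  psn : ∀ i j, j ≠ i → ∀ x ∈ F, ∀ k < ln i x, ps j (mv i x k) = ps j x
  idem : ∀ i, ∀ x ∈ F, ∀ k < ln i x, ∀ k', mv i (mv i x k) k' = mv i x k'
  comm : ∀ i j, i ≠ j → ∀ x ∈ F, ∀ k < ln i x, ∀ k' < ln j x,
    mv j (mv i x k) k' = mv i (mv j x k') k
  adj : ∀ i, ∀ x ∈ F, ∀ k < ln i x, ∀ k' < ln i x, k ≠ k' → Γ.Adj (mv i x k) (mv i x k')

def Sp (F : Finset β) (ln : ι → β → ℕ) (mv : ι → β → ℕ → β) (J : List ι) (x z : β) : Prop :=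
  x ∈ F ∧ ∃ i ∈ J, ∃ k < ln i x, z = mv i x k

def RT (F : Finset β) (ln : ι → β → ℕ) (mv : ι → β → ℕ → β) (J : List ι) : β → β → Prop :=
  ReflTransGen (Sp F ln mv J)

variable {Γ : SimpleGraph β} {F : Finset β} {ln ps : ι → β → ℕ} {mv : ι → β → ℕ → β}

omit [DecidableEq β] [DecidableEq ι] in
theorem RT.mono {J J' : List ι} (hJ : ∀ i ∈ J, i ∈ J') {x z : β} (h : RT F ln mv J x z) :
    RT F ln mv J' x z := by
  induction h with
  | refl => exact .refl
  | tail _ h ih =>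
    obtain ⟨h1, i, h2, h3⟩ := h
    exact .tail ih ⟨h1, i, hJ i h2, h3⟩

omit [DecidableEq β] [DecidableEq ι] in
theorem RT.one {J : List ι} {x : β} (hx : x ∈ F) {i : ι} (hi : i ∈ J) {k : ℕ} (hk : k < ln i x) :
    RT F ln mv J x (mv i x k) := ReflTransGen.single ⟨hx, i, hi, k, hk, rfl⟩

variable (c : Co Γ F ln ps mv)
include c

omit [DecidableEq β] [DecidableEq ι]

theorem Co.rt {J : List ι} {x z : β} (hx : x ∈ F) (h : RT F ln mv J x z) :
    z ∈ F ∧ RT F ln mv J z x ∧ (∀ i, ln i z = ln i x) ∧ ∀ i ∉ J, ps i z = ps i x := by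
  induction h with
  | refl => exact ⟨hx, .refl, fun _ => rfl, fun _ _ => rfl⟩
  | tail _ h ih =>
    obtain ⟨h1, i, h2, k, h3, rfl⟩ := h
    refine ⟨c.mem i _ h1 k h3, ReflTransGen.head ⟨c.mem i _ h1 k h3, i, h2, _, ?_,
      ((c.idem i _ h1 k h3 _).trans (c.self i _ h1)).symm⟩ ih.2.1,
      fun j => (c.lnm i j _ h1 k h3).trans (ih.2.2.1 j), fun j hj =>
        (c.psn i j (fun e => hj (e ▸ h2)) _ h1 k h3).trans (ih.2.2.2 j hj)⟩
    rw [c.lnm i i _ h1 k h3]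
    exact c.lt i _ h1

theorem Co.norm {J : List ι} {i : ι} (hi : i ∉ J) {x z : β} (hx : x ∈ F)
    (h : RT F ln mv (i :: J) x z) {k : ℕ} (hk : k < ln i x) :
    RT F ln mv J (mv i x k) (mv i z k) := by
  induction h with
  | refl => exact .refl
  | tail h0 h ih =>
    obtain ⟨h1, j, h2, k', h3, rfl⟩ := h
    rw [← (c.rt hx h0).2.2.1 i] at hk
    rcases List.mem_cons.mp h2 with rfl | h2
    · rwa [c.idem _ _ h1 k' h3]
    · rw [c.comm j i (fun e => hi (e ▸ h2)) _ h1 k' h3 k hk]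
      exact ih.trans (RT.one (c.mem i _ h1 k hk) h2 ((c.lnm i j _ h1 k hk).symm ▸ h3))

theorem Co.norm' {J : List ι} {i : ι} (hi : i ∉ J) {x z : β} (hx : x ∈ F)
    (h : RT F ln mv (i :: J) x z) (e : ps i z = ps i x) : RT F ln mv J x z := by
  have := c.norm hi hx h (c.lt i x hx)
  rwa [c.self i x hx, ← e, c.self i z (c.rt hx h).1] at this

theorem Co.hp_step {J : List ι} {i : ι} (hi : i ∉ J)
    (ih : ∀ x ∈ F, ∃ L, List.IsChain (Sp F ln mv J) (x :: L) ∧ (x :: L).Nodup ∧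
      ∀ z, z ∈ x :: L ↔ RT F ln mv J x z) : ∀ ks : List ℕ, ∀ x ∈ F, (ps i x :: ks).Nodup →
    (∀ k ∈ ks, k < ln i x) → ∃ L, List.IsChain (Sp F ln mv (i :: J)) (x :: L) ∧ (x :: L).Nodup ∧
      ∀ z, z ∈ x :: L ↔ RT F ln mv (i :: J) x z ∧ ps i z ∈ ps i x :: ks := by
  have base : ∀ x ∈ F, ∃ L, List.IsChain (Sp F ln mv (i :: J)) (x :: L) ∧ (x :: L).Nodup ∧
      ∀ z, z ∈ x :: L ↔ RT F ln mv (i :: J) x z ∧ ps i z = ps i x := by
    intro x hx
    obtain ⟨L, h1, h2, h3⟩ := ih x hx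
    refine ⟨L, h1.imp fun _ _ ⟨a, j, b, d⟩ => ⟨a, j, List.mem_cons_of_mem _ b, d⟩, h2, fun z => ?_⟩
    rw [h3]
    exact ⟨fun h => ⟨h.mono fun _ => List.mem_cons_of_mem _, (c.rt hx h).2.2.2 i hi⟩,
      fun h => c.norm' hi hx h.1 h.2⟩
  intro ks
  induction ks with
  | nil => simpa only [List.nodup_cons, List.not_mem_nil, not_false_eq_true, List.nodup_nil, and_self, IsEmpty.forall_iff, implies_true, List.mem_cons, or_false, forall_const] using base
  | cons k ks ih' =>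
    intro x hx hn hk
    obtain ⟨L, h1, h2, h3⟩ := base x hx
    have he := (h3 _).mp (List.getLast_mem (List.cons_ne_nil x L))
    obtain ⟨e1, e2, e3, -⟩ := c.rt hx he.1
    have hk0 : k < ln i ((x :: L).getLast (List.cons_ne_nil x L)) := e3 i ▸ hk k (by simp)
    have hs := RT.one (mv := mv) e1 (List.mem_cons_self (a := i) (l := J)) hk0
    obtain ⟨f1, f2, f3, -⟩ := c.rt e1 hs
    rw [List.nodup_cons] at hn
    obtain ⟨L', g1, g2, g3⟩ := ih' _ f1 (by rw [c.psm i _ e1 k hk0]; exact hn.2)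
      fun k' h => by rw [f3, e3]; exact hk k' (List.mem_cons_of_mem _ h)
    rw [c.psm i _ e1 k hk0] at g3
    refine ⟨L ++ mv i ((x :: L).getLast (List.cons_ne_nil x L)) k :: L', ?_, ?_, fun z => ?_⟩
    · rw [← List.cons_append, List.isChain_append]
      refine ⟨h1, g1, ?_⟩
      intro a ha b hb
      rw [List.getLast?_eq_some_getLast (List.cons_ne_nil x L)] at ha
      obtain rfl := Option.some.inj ha
      obtain rfl := Option.some.inj hb
      exact ⟨e1, i, by simp, k, hk0, rfl⟩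
    · rw [← List.cons_append, List.nodup_append']
      exact ⟨h2, g2, fun z a b => hn.1 (((h3 z).mp a).2 ▸ ((g3 z).mp b).2)⟩
    · rw [← List.cons_append, List.mem_append, h3, g3, List.mem_cons (b := ps i x), and_or_left]
      exact or_congr_right (and_congr_left fun _ =>
        ⟨fun h => (he.1.trans hs).trans h, fun h => (f2.trans e2).trans h⟩)

theorem Co.hp : ∀ J : List ι, J.Nodup → ∀ x ∈ F, ∃ L, List.IsChain (Sp F ln mv J) (x :: L) ∧
    (x :: L).Nodup ∧ ∀ z, z ∈ x :: L ↔ RT F ln mv J x z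
  | [], _, x, _ => ⟨[], by simp, by simp, fun z => by
      rw [List.mem_singleton]
      refine ⟨fun h => h ▸ .refl, fun h => ?_⟩
      rcases ReflTransGen.cases_head h with h | ⟨_, ⟨_, _, h, _⟩, _⟩
      · exact h.symm
      · simp at h⟩
  | i :: J, hJ, x, hx => by
    rw [List.nodup_cons] at hJ
    obtain ⟨L, h1, h2, h3⟩ := c.hp_step hJ.1 (Co.hp J hJ.2) ((List.range (ln i x)).erase (ps i x))
      x hx (List.nodup_cons.mpr ⟨List.nodup_range.not_mem_erase, List.nodup_range.erase _⟩)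
      fun k hk => List.mem_range.mp (List.mem_of_mem_erase hk)
    refine ⟨L, h1, h2, fun z => (h3 z).trans (and_iff_left_of_imp fun h => ?_)⟩
    obtain ⟨a, -, b, -⟩ := c.rt hx h
    by_cases e : ps i z = ps i x
    · simp [e]
    · exact List.mem_cons_of_mem _ ((List.mem_erase_of_ne e).mpr
        (List.mem_range.mpr (b i ▸ c.lt i z a)))

theorem Co.goto (a : ι → ℕ) (ha : ∀ i, a i < 2) : ∀ J : List ι, J.Nodup → ∀ x ∈ F,
    ∃ z, RT F ln mv J x z ∧ ∀ i ∈ J, ps i z = a i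
  | [], _, x, _ => ⟨x, .refl, by simp⟩
  | i :: J, hJ, x, hx => by
    rw [List.nodup_cons] at hJ
    have hk : a i < ln i x := by have := c.two i x hx; have := ha i; omega
    obtain ⟨z, h1, h2⟩ := Co.goto a ha J hJ.2 _ (c.mem i x hx _ hk)
    refine ⟨z, (RT.one hx (by simp) hk).trans (h1.mono fun _ => List.mem_cons_of_mem _), ?_⟩
    intro j hj
    rcases List.mem_cons.mp hj with rfl | hj
    · rw [(c.rt (c.mem j x hx _ hk) h1).2.2.2 j hJ.1, c.psm j x hx _ hk]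
    · exact h2 j hj

section slab
variable {i₁ i₂ : ι} (h12 : i₁ ≠ i₂)
include h12

omit c h12 in
/-- the slab through `T` -/
def sb (mv : ι → β → ℕ → β) (i₁ i₂ : ι) (T : β) (p : Fin 9) : β :=
  mv i₁ (mv i₂ T (p.1 % 3)) (p.1 / 3)

omit c h12 in
def po (ps : ι → β → ℕ) (i₁ i₂ : ι) (w : β) : Fin 9 := Fin.ofNat 9 (3 * ps i₁ w + ps i₂ w)

omit c h12 in
def lab (ps : ι → β → ℕ) (mv : ι → β → ℕ → β) (i₁ i₂ : ι) (z w : β) : β :=
  mv i₂ (mv i₁ w (ps i₁ z)) (ps i₂ z)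

omit h12 in
theorem Co.po_val {w : β} (hw : w ∈ F) :
    (po ps i₁ i₂ w).1 / 3 = ps i₁ w ∧ (po ps i₁ i₂ w).1 % 3 = ps i₂ w := by
  have := c.two i₁ w hw
  have := c.two i₂ w hw
  have := c.lt i₁ w hw
  have := c.lt i₂ w hw
  simp only [po, Fin.val_ofNat]
  omega

theorem Co.sb_prop {T : β} (hT : T ∈ F) {p : Fin 9} (hp : al (ln i₁ T) (ln i₂ T) p) :
    RT F ln mv [i₁, i₂] T (sb mv i₁ i₂ T p) ∧ ps i₁ (sb mv i₁ i₂ T p) = p.1 / 3 ∧
      ps i₂ (sb mv i₁ i₂ T p) = p.1 % 3 ∧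
      mv i₂ (mv i₁ (sb mv i₁ i₂ T p) (ps i₁ T)) (ps i₂ T) = T ∧
      sb mv i₁ i₂ T p = mv i₂ (mv i₁ T (p.1 / 3)) (p.1 % 3) := by
  simp only [al, Bool.and_eq_true, decide_eq_true_eq] at hp
  have h1 := c.mem i₂ T hT _ hp.2
  have h2 : p.1 / 3 < ln i₁ (mv i₂ T (p.1 % 3)) := (c.lnm i₂ i₁ T hT _ hp.2).symm ▸ hp.1
  refine ⟨(RT.one hT (by simp) hp.2).trans (RT.one h1 (by simp) h2), c.psm _ _ h1 _ h2,
    (c.psn _ _ h12.symm _ h1 _ h2).trans (c.psm _ _ hT _ hp.2), ?_,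
    (c.comm _ _ h12 T hT _ hp.1 _ hp.2).symm⟩
  rw [sb, c.idem _ _ h1 _ h2, ← c.psn _ _ h12 _ hT _ hp.2, c.self _ _ h1, c.idem _ _ hT _ hp.2,
    c.self _ _ hT]

theorem Co.sl {T : β} (hT : T ∈ F) : Sl Γ (al (ln i₁ T) (ln i₂ T)) (sb mv i₁ i₂ T) := by
  refine ⟨fun p q hp hq e => ?_, fun p q hp hq e => ?_⟩
  · obtain ⟨-, a1, a2, -⟩ := c.sb_prop h12 hT hp
    obtain ⟨-, b1, b2, -⟩ := c.sb_prop h12 hT hq
    rw [e] at a1 a2
    exact Fin.ext (by omega)
  · have a := (c.sb_prop h12 hT hp).2.2.2.2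
    have b := (c.sb_prop h12 hT hq).2.2.2.2
    simp only [al, Bool.and_eq_true, decide_eq_true_eq] at hp hq
    by_cases h : p.1 / 3 = q.1 / 3
    · rw [a, b, ← h]
      exact c.adj _ _ (c.mem _ _ hT _ hp.1) _ ((c.lnm _ _ T hT _ hp.1).symm ▸ hp.2) _
        ((c.lnm _ _ T hT _ hp.1).symm ▸ hq.2) (by simpa [ad9, h] using e)
    · have h' : p.1 % 3 = q.1 % 3 := by simpa [ad9, h] using e
      rw [sb, sb, ← h']
      exact c.adj _ _ (c.mem _ _ hT _ hp.2) _ ((c.lnm _ _ T hT _ hp.2).symm ▸ hp.1) _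
        ((c.lnm _ _ T hT _ hp.2).symm ▸ hq.1) h

theorem Co.par {J : List ι} (h1 : i₁ ∉ J) (h2 : i₂ ∉ J) {T T' : β} (h : Sp F ln mv J T T')
    (hne : T ≠ T') {p : Fin 9} (hp : al (ln i₁ T) (ln i₂ T) p) :
    Γ.Adj (sb mv i₁ i₂ T p) (sb mv i₁ i₂ T' p) := by
  obtain ⟨hT, j, hj, k, hk, rfl⟩ := h
  have j1 : j ≠ i₁ := fun e => h1 (e ▸ hj)
  have j2 : j ≠ i₂ := fun e => h2 (e ▸ hj)
  obtain ⟨a1, -, a2, a3⟩ := c.rt hT (c.sb_prop h12 hT hp).1
  simp only [al, Bool.and_eq_true, decide_eq_true_eq] at hp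
  have e : sb mv i₁ i₂ (mv j T k) p = mv j (sb mv i₁ i₂ T p) k := by
    rw [sb, sb, c.comm _ _ j2 T hT k hk _ hp.2, c.comm _ _ j1 _ (c.mem _ _ hT _ hp.2) k
      ((c.lnm _ _ T hT _ hp.2).symm ▸ hk) _ ((c.lnm _ _ T hT _ hp.2).symm ▸ hp.1)]
  rw [e]
  nth_rewrite 1 [← c.self j _ a1]
  refine c.adj _ _ a1 _ (c.lt _ _ a1) _ ((a2 j).symm ▸ hk) fun h => hne ?_
  rw [← h, a3 j (by simp [j1, j2]), c.self _ _ hT]

theorem Co.lab_prop {J : List ι} (hJ : (i₁ :: i₂ :: J).Nodup) {z w : β} (hz : z ∈ F)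
    (h : RT F ln mv (i₁ :: i₂ :: J) z w) :
    RT F ln mv J z (lab ps mv i₁ i₂ z w) ∧ (∀ i ∈ J, ps i (lab ps mv i₁ i₂ z w) = ps i w) ∧
      al (ln i₁ z) (ln i₂ z) (po ps i₁ i₂ w) ∧
      sb mv i₁ i₂ (lab ps mv i₁ i₂ z w) (po ps i₁ i₂ w) = w := by
  obtain ⟨hw, -, hl, -⟩ := c.rt hz h
  rw [List.nodup_cons, List.nodup_cons] at hJ
  have a1 := c.norm hJ.1 hz h (c.lt _ _ hz)
  rw [c.self _ _ hz] at a1
  have a2 := c.norm hJ.2.1 hz a1 (c.lt _ _ hz)
  rw [c.self _ _ hz] at a2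
  have k1 : ps i₁ z < ln i₁ w := (hl i₁).symm ▸ c.lt _ _ hz
  have m1 := c.mem _ _ hw _ k1
  have k2 : ps i₂ z < ln i₂ (mv i₁ w (ps i₁ z)) := by
    rw [c.lnm _ _ _ hw _ k1, hl]
    exact c.lt _ _ hz
  obtain ⟨p1, p2⟩ := c.po_val (i₁ := i₁) (i₂ := i₂) hw
  refine ⟨a2, fun i hi => ?_, ?_, ?_⟩
  · rw [lab, c.psn i₂ i (fun e => hJ.2.1 (e ▸ hi)) _ m1 _ k2,
      c.psn i₁ i (fun e => hJ.1 (e ▸ List.mem_cons_of_mem _ hi)) _ hw _ k1]
  · simp only [al, p1, p2, ← hl, c.lt _ _ hw, decide_true, Bool.and_self]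
  · rw [sb, p1, p2, lab, c.idem _ _ m1 _ k2, ← c.psn _ _ h12.symm _ hw _ k1, c.self _ _ m1,
      c.idem _ _ hw _ k1, c.self _ _ hw]

theorem Co.edge {w : β} (hw : w ∈ F) {i : ι} (hi : i = i₁ ∨ i = i₂) {k : ℕ} (hk : k < ln i w)
    (hne : k ≠ ps i w) {z : β} (h1 : ps i₁ z < ln i₁ w) :
    ad9 (po ps i₁ i₂ w) (po ps i₁ i₂ (mv i w k)) ∧
      lab ps mv i₁ i₂ z (mv i w k) = lab ps mv i₁ i₂ z w := by
  obtain ⟨p1, p2⟩ := c.po_val (i₁ := i₁) (i₂ := i₂) hw
  obtain ⟨q1, q2⟩ := c.po_val (i₁ := i₁) (i₂ := i₂) (c.mem _ _ hw _ hk)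
  rcases hi with rfl | rfl
  · rw [ad9, p1, p2, q1, q2, c.psm _ _ hw _ hk, c.psn _ _ h12.symm _ hw _ hk, lab, lab,
      c.idem _ _ hw _ hk]
    simp [hne.symm]
  · rw [ad9, p1, p2, q1, q2, c.psm _ _ hw _ hk, c.psn _ _ h12 _ hw _ hk, lab, lab,
      c.comm _ _ h12.symm _ hw _ hk _ h1,
      c.idem _ _ (c.mem _ _ hw _ h1) _ ((c.lnm _ _ _ hw _ h1).symm ▸ hk)]
    simp [hne.symm]

end slab

end Pool.Agent.MP_e46b50_co.H93

end

-- part MP_e46b50_co.H93.Tre
section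

set_option autoImplicit false

namespace Pool.Agent.MP_e46b50_co.H93

open Finset Relation
open scoped Classical

variable {β ι Y : Type}

structure Tg (Γ : SimpleGraph β) (F : Finset β) (ln : ι → β → ℕ) (mv : ι → β → ℕ → β)
    (tg : Y → β → β) (aff : Y → ι) : Prop where
  inj : ∀ y, ∀ x ∈ F, ∀ x' ∈ F, tg y x ∈ F → tg y x = tg y x' → x = x'
  adj : ∀ y, ∀ x ∈ F, tg y x ∈ F → Γ.Adj x (tg y x)
  lnt : ∀ y i, i ≠ aff y → ∀ x ∈ F, tg y x ∈ F → ln i (tg y x) = ln i x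
  mvt : ∀ y i, i ≠ aff y → ∀ x ∈ F, tg y x ∈ F → ∀ k < ln i x, mv i (tg y x) k = tg y (mv i x k)

/-- a rooted tree on the products -/
structure Sk (F : Finset β) (ln ps : ι → β → ℕ) (mv : ι → β → ℕ → β) (tg : Y → β → β)
    (I J : List ι) (x₀ : β) (rk : β → ℕ) (cz : β → β) (cy : β → Y) : Prop where
  k1 : ∀ x ∈ F, ∀ z, RT F ln mv I x z → rk z = rk x ∧ cz z = cz x ∧ cy z = cy x
  k2 : ∀ x ∈ F, RT F ln mv I x (cz x)
  k3 : ∀ x ∈ F, rk x ≠ 0 → tg (cy x) (cz x) ∈ F ∧ rk (tg (cy x) (cz x)) + 1 = rk x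
  k4 : ∀ x ∈ F, rk x = 0 ↔ RT F ln mv I x₀ x
  k5 : ∀ d ∈ F, ∀ d' ∈ F, rk d ≠ 0 → rk d' ≠ 0 →
    RT F ln mv I (tg (cy d) (cz d)) (tg (cy d') (cz d')) →
    (∀ i ∈ J, ps i (tg (cy d) (cz d)) = ps i (tg (cy d') (cz d'))) → RT F ln mv I d d'
  k6 : ∀ d ∈ F, rk d ≠ 0 → ¬ ∀ i ∈ J, ps i (tg (cy d) (cz d)) = ps i (cz (tg (cy d) (cz d)))

variable {Γ : SimpleGraph β} {F : Finset β} {ln ps : ι → β → ℕ} {mv : ι → β → ℕ → β}
  {tg : Y → β → β} {aff : Y → ι}

theorem Tg.pst (t : Tg Γ F ln mv tg aff) (c : Co Γ F ln ps mv) {y : Y} {i : ι} (hi : i ≠ aff y)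
    {x : β} (hx : x ∈ F) (h : tg y x ∈ F) : ps i (tg y x) = ps i x := by
  have := c.psm i _ h _ ((t.lnt y i hi x hx h).symm ▸ c.lt i x hx)
  rwa [t.mvt y i hi x hx h _ (c.lt i x hx), c.self i x hx] at this

theorem Tg.lift (t : Tg Γ F ln mv tg aff) (c : Co Γ F ln ps mv) {y : Y} {J : List ι}
    (hJ : aff y ∉ J) {x z : β} (h : tg y x ∈ F) (hz : RT F ln mv J x z) :
    tg y z ∈ F ∧ RT F ln mv J (tg y x) (tg y z) := by
  induction hz with
  | refl => exact ⟨h, .refl⟩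
  | tail _ h' ih =>
    obtain ⟨h1, i, h2, k, h3, rfl⟩ := h'
    have hi : i ≠ aff y := fun e => hJ (e ▸ h2)
    rw [← t.mvt y i hi _ h1 ih.1 k h3]
    rw [← t.lnt y i hi _ h1 ih.1] at h3
    exact ⟨c.mem i _ ih.1 k h3, ih.2.trans (RT.one ih.1 h2 h3)⟩

theorem Tg.down (t : Tg Γ F ln mv tg aff) (c : Co Γ F ln ps mv) {y : Y} {J : List ι}
    (hJ : aff y ∉ J) {x w : β} (hx : x ∈ F) (h : tg y x ∈ F) (hw : RT F ln mv J (tg y x) w) :
    ∃ z, RT F ln mv J x z ∧ tg y z = w := by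
  induction hw with
  | refl => exact ⟨x, .refl, rfl⟩
  | tail _ h' ih =>
    obtain ⟨z, a, rfl⟩ := ih
    obtain ⟨h1, i, h2, k, h3, rfl⟩ := h'
    have hi : i ≠ aff y := fun e => hJ (e ▸ h2)
    rw [t.lnt y i hi _ (c.rt hx a).1 h1] at h3
    exact ⟨_, a.trans (RT.one (c.rt hx a).1 h2 h3), (t.mvt y i hi _ (c.rt hx a).1 h1 k h3).symm⟩

theorem tabA {a b : ℕ} (ha : a = 2 ∨ a = 3) (hb : b = 2 ∨ b = 3) : ∀ f, isE (al a b) f →
    part (al a b) f.1 f.2 ∧ ∀ e, isE (al a b) e → eqv f e = false → full (al a b) f.1 f.2 e := by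
  rcases ha with rfl | rfl <;> rcases hb with rfl | rfl
  exacts [tab9 0 0, tab9 0 1, tab9 1 0, tab9 1 1]

theorem exE {a b : ℕ} (ha : a = 2 ∨ a = 3) (hb : b = 2 ∨ b = 3) (f : Fin 9 × Fin 9) :
    ∃ e, isE (al a b) e ∧ eqv f e = false := by
  by_cases h : eqv f (0, 1) = true
  · refine ⟨(0, 3), by rcases ha with rfl | rfl <;> rcases hb with rfl | rfl <;> decide, ?_⟩
    exact Bool.eq_false_iff.mpr fun h' => absurd (eqv_trans (e := (0, 1)) (f := (0, 3)) (g := f)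
      (eqv_trans (by simp [eqv]) h) (eqv_trans (by simp [eqv]) h')) (by decide)
  · exact ⟨(0, 1), by rcases ha with rfl | rfl <;> rcases hb with rfl | rfl <;> decide,
      Bool.eq_false_iff.mpr h⟩

theorem chain_ne {R : β → β → Prop} : ∀ {l : List β}, List.IsChain R l → l.Nodup →
    List.IsChain (fun a b => R a b ∧ a ≠ b) l
  | [], _, _ => List.isChain_nil
  | [_], _, _ => List.isChain_singleton _
  | _ :: _ :: _, h, hn => by
    rw [List.isChain_cons_cons] at h ⊢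
    rw [List.nodup_cons] at hn
    exact ⟨⟨h.1, fun e => hn.1 (by simp [e])⟩, chain_ne h.2 hn.2⟩

section main
variable {i₁ i₂ : ι} {J : List ι} {x₀ : β} {rk : β → ℕ} {cz : β → β} {cy : β → Y}

def an (tg : Y → β → β) (rk : β → ℕ) (cz : β → β) (cy : β → Y) (r : ℕ) (w : β) : β :=
  (fun d => tg (cy d) (cz d))^[rk w - r] w

noncomputable def Sub (F : Finset β) (ln : ι → β → ℕ) (mv : ι → β → ℕ → β) (tg : Y → β → β)
    (I : List ι) (rk : β → ℕ) (cz : β → β) (cy : β → Y) (x : β) : Finset β :=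
  F.filter fun w => rk x ≤ rk w ∧ RT F ln mv I x (an tg rk cz cy (rk x) w)

variable (c : Co Γ F ln ps mv) (t : Tg Γ F ln mv tg aff) (hJ : (i₁ :: i₂ :: J).Nodup)
  (s : Sk F ln ps mv tg (i₁ :: i₂ :: J) J x₀ rk cz cy)
include s

theorem Sk.an_mem {w : β} (hw : w ∈ F) {r : ℕ} (hr : r ≤ rk w) :
    an tg rk cz cy r w ∈ F ∧ rk (an tg rk cz cy r w) = r := by
  have : ∀ n ≤ rk w, (fun d => tg (cy d) (cz d))^[n] w ∈ F ∧
      rk ((fun d => tg (cy d) (cz d))^[n] w) + n = rk w := by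
    intro n
    induction n with
    | zero => exact fun _ => ⟨hw, rfl⟩
    | succ n ih =>
      intro hn
      obtain ⟨h1, h2⟩ := ih (by omega)
      have := s.k3 _ h1 (by omega)
      rw [Function.iterate_succ_apply']
      exact ⟨this.1, by omega⟩
  have := this (rk w - r) (by omega)
  exact ⟨this.1, by unfold an; omega⟩

omit s in
theorem an_succ {w : β} {r : ℕ} (hr : r < rk w) : an tg rk cz cy r w =
    tg (cy (an tg rk cz cy (r + 1) w)) (cz (an tg rk cz cy (r + 1) w)) := by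
  rw [an, show rk w - r = rk w - (r + 1) + 1 by omega, Function.iterate_succ_apply']
  rfl

include c t hJ

theorem Sk.piece {x : β} (hx : x ∈ F) (ih : ∀ d ∈ F, rk d = rk x + 1 → ∃ i k,
      (i = i₁ ∨ i = i₂) ∧ i ≠ aff (cy d) ∧ k < ln i (cz d) ∧ k ≠ ps i (cz d) ∧
        Dn (Pth Γ (Sub F ln mv tg (i₁ :: i₂ :: J) rk cz cy d : Finset β) (cz d) (mv i (cz d) k)) 2
          (Sub F ln mv tg (i₁ :: i₂ :: J) rk cz cy d).card) :
    ∃ U e', Sub F ln mv tg (i₁ :: i₂ :: J) rk cz cy x =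
        img (al (ln i₁ (cz x)) (ln i₂ (cz x))) (sb mv i₁ i₂ (cz x)) ∪ U ∧
      Disjoint (img (al (ln i₁ (cz x)) (ln i₂ (cz x))) (sb mv i₁ i₂ (cz x))) U ∧
      ∀ f, isE (al (ln i₁ (cz x)) (ln i₂ (cz x))) f → eqv f e' = false →
        DB Γ U (sb mv i₁ i₂ (cz x) f.1) (sb mv i₁ i₂ (cz x) f.2) := by
  have h12 : i₁ ≠ i₂ := fun e => (List.nodup_cons.mp hJ).1 (by simp [e])
  have h1 : i₁ ∉ J := fun e => (List.nodup_cons.mp hJ).1 (by simp [e])
  obtain ⟨h2, hJ'⟩ := List.nodup_cons.mp (List.nodup_cons.mp hJ).2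
  obtain ⟨hz, hzx, -⟩ := c.rt hx (s.k2 x hx)
  have hxz := s.k2 x hx
  have hcz := (s.k1 x hx _ hxz).2.1
  generalize cz x = z at hz hzx hxz hcz
  generalize hA : al (ln i₁ z) (ln i₂ z) = A
  obtain ⟨L, l1, l2, l3⟩ := c.hp J hJ' z hz
  set X := Sub F ln mv tg (i₁ :: i₂ :: J) rk cz cy x with hX
  set B : β → Finset β := fun T =>
    X.filter fun w => lab ps mv i₁ i₂ z (an tg rk cz cy (rk x) w) = T with hB
  have hT : ∀ T ∈ z :: L, T ∈ F ∧ al (ln i₁ T) (ln i₂ T) = A ∧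
      img A (sb mv i₁ i₂ T) ⊆ B T := by
    intro T hT
    have a0 := (l3 T).mp hT
    obtain ⟨a1, -, a2, a3⟩ := c.rt hz a0
    have e : al (ln i₁ T) (ln i₂ T) = A := by rw [a2, a2, hA]
    refine ⟨a1, e, fun w hw => ?_⟩
    obtain ⟨p, hp, rfl⟩ := mem_image.mp hw
    obtain ⟨b1, -, -, b2, -⟩ := c.sb_prop h12 a1 (e ▸ (mem_filter.mp hp).2)
    have b3 := (hxz.trans (a0.mono (J' := i₁ :: i₂ :: J) fun i hi => by simp [hi])).trans
      (b1.mono fun i hi => by simp at hi ⊢; tauto)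
    have b4 : an tg rk cz cy (rk x) (sb mv i₁ i₂ T p) = sb mv i₁ i₂ T p := by
      rw [an, (s.k1 x hx _ b3).1, Nat.sub_self]
      rfl
    refine mem_filter.mpr ⟨mem_filter.mpr ⟨(c.rt hx b3).1, (s.k1 x hx _ b3).1.ge, b4.symm ▸ b3⟩, ?_⟩
    rw [b4, lab, ← a3 _ h1, ← a3 _ h2, b2]
  have hlow : ∀ T, ∀ w ∈ B T \ img A (sb mv i₁ i₂ T), ∃ d ∈ F, rk d = rk x + 1 ∧
      d = an tg rk cz cy (rk x + 1) w ∧ rk x < rk w ∧ w ∈ F ∧
      RT F ln mv (i₁ :: i₂ :: J) z (tg (cy d) (cz d)) ∧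
      lab ps mv i₁ i₂ z (tg (cy d) (cz d)) = T := by
    intro T w hw
    obtain ⟨a1, a2⟩ := mem_sdiff.mp hw
    obtain ⟨a3, a4⟩ := mem_filter.mp a1
    obtain ⟨a5, a6, a7⟩ := mem_filter.mp a3
    have a8 : rk x < rk w := lt_of_le_of_ne a6 fun e => a2 (by
      rw [an, ← e, Nat.sub_self] at a4 a7
      obtain ⟨-, -, b1, b2⟩ := c.lab_prop h12 hJ hz (hzx.trans a7)
      exact mem_image.mpr ⟨_, mem_filter.mpr ⟨mem_univ _, hA ▸ b1⟩, a4 ▸ b2⟩)
    rw [an_succ a8] at a4 a7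
    exact ⟨_, (s.an_mem a5 a8).1, (s.an_mem a5 a8).2, rfl, a8, a5, hzx.trans a7, a4⟩
  have hrq : ∀ T, ∃ e, T ∈ L → Gd (sb mv i₁ i₂) B (fun _ => e) A Γ T := by
    intro T
    by_cases hL : T ∈ L
    swap
    · exact ⟨(0, 0), fun h => absurd h hL⟩
    obtain ⟨a1, a2, a3⟩ := hT T (List.mem_cons_of_mem _ hL)
    have sl : Sl Γ A (sb mv i₁ i₂ T) := a2 ▸ c.sl h12 a1
    rcases (B T \ img A (sb mv i₁ i₂ T)).eq_empty_or_nonempty with h | ⟨w₀, h⟩
    · obtain ⟨e, he, -⟩ := exE (c.two i₁ z hz) (c.two i₂ z hz) (0, 0)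
      rw [hA] at he
      refine ⟨e, fun _ => ⟨sl, a3, he, ?_⟩⟩
      simp only [isE, Bool.and_eq_true] at he
      exact h ▸ DB.empty (sl.adj _ _ he.1.1 he.1.2 he.2)
    obtain ⟨d, d1, d2, -, -, -, d3, d4⟩ := hlow T w₀ h
    obtain ⟨i, k, e1, e2, e3, e4, e5⟩ := ih d d1 d2
    have hd := (c.rt d1 (s.k2 d d1)).1
    obtain ⟨u1, u2⟩ := s.k3 d d1 (by omega)
    have e6 := t.mvt _ i e2 _ hd u1 k e3
    have e7 := c.mem i _ hd k e3
    rw [← t.lnt _ i e2 _ hd u1] at e3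
    rw [← t.pst c e2 hd u1] at e4
    obtain ⟨g1, g2⟩ := c.edge h12 u1 e1 e3 e4 (z := z) (((c.rt hz d3).2.2.1 i₁).symm ▸ c.lt _ _ hz)
    obtain ⟨-, p0, p1, p2⟩ := c.lab_prop h12 hJ hz d3
    obtain ⟨-, -, q1, q2⟩ := c.lab_prop h12 hJ hz
      (d3.trans (RT.one u1 (by rcases e1 with rfl | rfl <;> simp) e3))
    rw [g2, d4] at q2
    rw [d4] at p2 p0
    rw [hA] at p1 q1
    have key : B T \ img A (sb mv i₁ i₂ T) = Sub F ln mv tg (i₁ :: i₂ :: J) rk cz cy d := by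
      ext w
      constructor
      · intro hw
        obtain ⟨d', f1, f2, f3, f4, f5, f6, f7⟩ := hlow T w hw
        refine mem_filter.mpr ⟨f5, by omega, ?_⟩
        rw [d2, ← f3]
        exact s.k5 d d1 d' f1 (by omega) (by omega) ((c.rt hz d3).2.1.trans f6) fun j hj => by
          rw [← p0 j hj, ← (c.lab_prop h12 hJ hz f6).2.1 j hj, f7]
      · intro hw
        obtain ⟨f1, f2, f3⟩ := mem_filter.mp hw
        have f4 : an tg rk cz cy (rk x) w = tg (cy d) (cz d) := by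
          rw [an_succ (by omega), ← d2, (s.k1 d d1 _ f3).2.1, (s.k1 d d1 _ f3).2.2]
        refine mem_sdiff.mpr ⟨mem_filter.mpr ⟨mem_filter.mpr ⟨f1, by omega, f4 ▸ hxz.trans d3⟩,
          f4 ▸ d4⟩, fun h => ?_⟩
        obtain ⟨p, hp, rfl⟩ := mem_image.mp h
        have := (s.k1 x hx _ ((hxz.trans (((l3 T).mp (List.mem_cons_of_mem _ hL)).mono
          (J' := i₁ :: i₂ :: J) fun i hi => by simp [hi])).trans ((c.sb_prop h12 a1
          (a2 ▸ (mem_filter.mp hp).2)).1.mono fun i hi => by simp at hi ⊢; tauto))).1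
        omega
    refine ⟨(po ps i₁ i₂ (tg (cy d) (cz d)), po ps i₁ i₂ (mv i (tg (cy d) (cz d)) k)), fun _ =>
      ⟨sl, a3, by simp [isE, p1, q1, g1], ?_⟩⟩
    have g3 := sl.adj _ _ p1 q1 g1
    rw [p2, q2] at g3
    rw [key, p2, q2]
    exact DB.of g3 (t.adj _ _ hd u1).symm (e6 ▸ t.adj _ _ e7 (e6 ▸ c.mem i _ u1 k e3)) e5
  choose rq hrq using hrq
  have hzz : B z = img A (sb mv i₁ i₂ z) := by
    refine Subset.antisymm (sdiff_eq_empty_iff_subset.mp (eq_empty_of_forall_notMem fun w hw => ?_))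
      (hT z (by simp)).2.2
    obtain ⟨d, d1, d2, -, -, -, d3, d4⟩ := hlow z w hw
    refine s.k6 d d1 (by omega) fun i hi => ?_
    rw [(s.k1 z hz _ d3).2.1, hcz, ← (c.lab_prop h12 hJ hz d3).2.1 i hi, d4]
  have hdis : ∀ T T', T ≠ T' → Disjoint (B T) (B T') := fun T T' h =>
    disjoint_left.mpr fun w a b => h ((mem_filter.mp a).2.symm.trans (mem_filter.mp b).2)
  refine ⟨L.toFinset.biUnion B, rq (L.headD z), ?_, ?_, tail_db (hA ▸ tabA (c.two i₁ z hz)
    (c.two i₂ z hz)) L z ?_ (hA ▸ c.sl h12 hz) ((List.nodup_cons.mp l2).2.imp (hdis _ _))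
    fun T h => ⟨(hrq T h).sl, (hrq T h).sub, (hrq T h).e, (hrq T h).db⟩⟩
  · rw [← hzz, ← biUnion_insert, ← List.toFinset_cons]
    ext w
    simp only [mem_biUnion, List.mem_toFinset]
    exact ⟨fun h => ⟨_, (l3 _).mpr (c.lab_prop h12 hJ hz (hzx.trans (mem_filter.mp h).2.2)).1,
      mem_filter.mpr ⟨h, rfl⟩⟩, fun ⟨_, _, h⟩ => (mem_filter.mp h).1⟩
  · rw [← hzz, disjoint_biUnion_right]
    exact fun T h => hdis _ _ fun e => (List.nodup_cons.mp l2).1 (e ▸ List.mem_toFinset.mp h)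
  · refine List.IsChain.imp_of_mem_imp ?_ (chain_ne l1 l2)
    intro T T' a _ h p hp
    exact c.par h12 h1 h2 h.1 h.2 ((hT T a).2.1 ▸ hp)

theorem Sk.sub (n : ℕ) : ∀ d ∈ F, F.sup rk ≤ rk d + n → ∃ i k,
    (i = i₁ ∨ i = i₂) ∧ i ≠ aff (cy d) ∧ k < ln i (cz d) ∧ k ≠ ps i (cz d) ∧
      Dn (Pth Γ (Sub F ln mv tg (i₁ :: i₂ :: J) rk cz cy d : Finset β) (cz d) (mv i (cz d) k)) 2
        (Sub F ln mv tg (i₁ :: i₂ :: J) rk cz cy d).card := by
  have h12 : i₁ ≠ i₂ := fun e => (List.nodup_cons.mp hJ).1 (by simp [e])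
  induction n using Nat.strong_induction_on with
  | _ n ih =>
  intro x hx hn
  obtain ⟨U, e', h1, h2, h3⟩ := s.piece c t hJ hx fun d hd h => by
    have := le_sup (f := rk) hd
    exact ih (n - 1) (by omega) d hd (by omega)
  have hz := (c.rt hx (s.k2 x hx)).1
  obtain ⟨i, hi, hi'⟩ : ∃ i, (i = i₁ ∨ i = i₂) ∧ i ≠ aff (cy x) := by
    by_cases h : i₁ = aff (cy x)
    · exact ⟨i₂, Or.inr rfl, h ▸ h12.symm⟩
    · exact ⟨i₁, Or.inl rfl, h⟩
  obtain ⟨k, hk, hk'⟩ : ∃ k, k < ln i (cz x) ∧ k ≠ ps i (cz x) := by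
    have := c.two i _ hz
    by_cases h : ps i (cz x) = 0
    · exact ⟨1, by omega, by omega⟩
    · exact ⟨0, by omega, by omega⟩
  refine ⟨i, k, hi, hi', hk, hk', ?_⟩
  obtain ⟨g1, g2⟩ := c.edge h12 hz hi hk hk' (c.lt i₁ _ hz)
  obtain ⟨-, -, p1, p2⟩ := c.lab_prop h12 hJ hz .refl
  obtain ⟨-, -, q1, q2⟩ := c.lab_prop h12 hJ hz
    (RT.one hz (by rcases hi with rfl | rfl <;> simp) hk)
  rw [g2] at q2
  rw [lab, c.self _ _ hz, c.self _ _ hz] at p2 q2
  have hf : isE (al (ln i₁ (cz x)) (ln i₂ (cz x)))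
    (po ps i₁ i₂ (cz x), po ps i₁ i₂ (mv i (cz x) k)) := by simp [isE, p1, q1, g1]
  obtain ⟨e, e1, e2⟩ := exE (c.two i₁ _ hz) (c.two i₂ _ hz)
    (po ps i₁ i₂ (cz x), po ps i₁ i₂ (mv i (cz x) k))
  obtain ⟨a1, a2⟩ := tabA (c.two i₁ _ hz) (c.two i₂ _ hz) _ hf
  obtain ⟨-, f, f1, f2, f3⟩ := full_two (a2 e e1 e2) e'
  simp only [isE, Bool.and_eq_true] at e1
  have := (c.sl h12 hz).node hf a1 f3 (DB.empty ((c.sl h12 hz).adj _ _ e1.1.1 e1.1.2 e1.2))
    (h3 f f1 f2) (disjoint_empty_right _) h2 (disjoint_empty_left _)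
  rwa [union_empty, ← h1, p2, q2] at this

theorem Sk.pan (h0 : x₀ ∈ F) (h3 : ln i₁ x₀ = 3) (l : ℕ) (l1 : 3 ≤ l) (l2 : l ≤ F.card) :
    ∃ a b, Γ.Adj b a ∧ Pth Γ (F : Set β) a b l := by
  have h12 : i₁ ≠ i₂ := fun e => (List.nodup_cons.mp hJ).1 (by simp [e])
  obtain ⟨U, e', h1, h2, h4⟩ := s.piece c t hJ h0 fun d hd _ =>
    s.sub c t hJ (F.sup rk) d hd (by omega)
  obtain ⟨hz, -, hl, -⟩ := c.rt h0 (s.k2 x₀ h0)
  have r0 := (s.k4 x₀ h0).mpr .refl
  have hF : Sub F ln mv tg (i₁ :: i₂ :: J) rk cz cy x₀ = F := filter_true_of_mem fun w hw => by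
    rw [r0]
    exact ⟨Nat.zero_le _, (s.k4 _ (s.an_mem hw (Nat.zero_le _)).1).mp
      (s.an_mem hw (Nat.zero_le _)).2⟩
  have sl := c.sl h12 hz
  have hb := c.two i₂ _ hz
  rw [hF] at h1
  rw [hl, h3] at h1 h2 h4 sl
  generalize ln i₂ (cz x₀) = b at *
  generalize sb mv i₁ i₂ (cz x₀) = S at *
  have hr : (part (fun p => al 3 b p && p != 3) 0 6 ∧ ∃ e, full (fun p => al 3 b p && p != 3) 0 6 e) ∧
      al 3 b 0 ∧ al 3 b 3 ∧ al 3 b 6 := by
    rcases hb with rfl | rfl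
    exacts [⟨tab9r 0, by decide⟩, ⟨tab9r 1, by decide⟩]
  obtain ⟨⟨a1, e, a2⟩, b0, b3, b6⟩ := hr
  obtain ⟨e1, f, f1, f2, f3⟩ := full_two a2 e'
  have sl' : Sl Γ (fun p => al 3 b p && p != 3) S :=
    ⟨fun p q hp hq => sl.inj p q (Bool.and_eq_true_iff.mp hp).1 (Bool.and_eq_true_iff.mp hq).1,
      fun p q hp hq => sl.adj p q (Bool.and_eq_true_iff.mp hp).1 (Bool.and_eq_true_iff.mp hq).1⟩
  have hi : img (fun p => al 3 b p && p != 3) S = (img (al 3 b) S).erase (S 3) := by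
    ext w
    simp only [img, mem_erase, mem_image, mem_filter, mem_univ, true_and, Bool.and_eq_true,
      bne_iff_ne]
    exact ⟨fun ⟨p, hp, e⟩ => ⟨fun h => hp.2 (sl.inj _ _ hp.1 b3 (e.trans h)), p, hp.1, e⟩,
      fun ⟨h, p, hp, e⟩ => ⟨p, ⟨hp, fun h' => h (h' ▸ e.symm)⟩, e⟩⟩
  have m3 : S 3 ∈ img (al 3 b) S := mem_image_of_mem _ (by simp [b3])
  simp only [isE, Bool.and_eq_true] at e1 f1
  have := sl'.node (by simp [isE, b0, b6, ad9]) a1 f3 (DB.empty (sl.adj _ _ e1.1.1.1 e1.1.2.1 e1.2))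
    (h4 f (by simp [isE, f1]) f2) (disjoint_empty_right _) (hi ▸ h2.mono_left (erase_subset _ _))
    (disjoint_empty_left _)
  have hU : (img (al 3 b) S).erase (S 3) ∪ U = F.erase (S 3) := by
    rw [h1, erase_union_distrib, erase_eq_of_notMem (disjoint_left.mp h2 m3)]
  have m4 : S 3 ∈ F := h1 ▸ mem_union_left _ m3
  rw [union_empty, hi, hU, card_erase_of_mem m4] at this
  obtain ⟨j, j1, j2, -, j3⟩ := this.2.2 (l - 1) (by omega) (by omega)
  by_cases hj : j = l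
  · exact ⟨_, _, sl.adj _ _ b6 b0 (by decide), hj ▸ j3.mono (coe_subset.mpr (erase_subset _ _))⟩
  · exact ⟨_, _, sl.adj _ _ b6 b3 (by decide), (show j + 1 = l by omega) ▸
      j3.cons (sl.adj _ _ b3 b0 (by decide)) (by simp) m4 (coe_subset.mpr (erase_subset _ _))⟩

end main

def Rch (F : Finset β) (R : β → β → Prop) (tg : Y → β → β) (x₀ : β) : ℕ → β → Prop
  | 0, x => R x₀ x
  | n + 1, x => ∃ u y, R x u ∧ tg y u ∈ F ∧ Rch F R tg x₀ n (tg y u)

theorem Co.sk (c : Co Γ F ln ps mv) (t : Tg Γ F ln mv tg aff) {i₁ i₂ : ι} {J : List ι}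
    (hJ : (i₁ :: i₂ :: J).Nodup) (hall : ∀ i, i ∈ i₁ :: i₂ :: J) (y₀ : Y) {x₀ : β}
    (conn : ∀ x ∈ F, ReflTransGen (fun a b => b ∈ F ∧ ∃ y, b = tg y a) x x₀)
    (ad : Y → ℕ → ℕ → ι → ℕ) (ad2 : ∀ y k e i, ad y k e i < 2)
    (had : ∀ y k e y' k' e', k < 3 → k' < 3 → e < 2 → e' < 2 → ∀ j j',
      (∀ i ∈ J, i ≠ j → i ≠ j' → ad y k e i = ad y' k' e' i) → y = y' ∧ k = k' ∧ e = e') :
    ∃ rk cz cy, Sk F ln ps mv tg (i₁ :: i₂ :: J) J x₀ rk cz cy := by
  set I := i₁ :: i₂ :: J with hI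
  have inv : ∀ n, ∀ x ∈ F, ∀ z, RT F ln mv I x z → Rch F (RT F ln mv I) tg x₀ n x →
      Rch F (RT F ln mv I) tg x₀ n z := by
    rintro (_ | n) x hx z h h'
    · exact ReflTransGen.trans h' h
    · obtain ⟨u, y, a, b⟩ := h'
      exact ⟨u, y, (c.rt hx h).2.1.trans a, b⟩
  set rk : β → ℕ := fun x => sInf {n | Rch F (RT F ln mv I) tg x₀ n x} with hrk
  have hm : ∀ x ∈ F, Rch F (RT F ln mv I) tg x₀ (rk x) x := by
    intro x hx
    refine Nat.sInf_mem (s := {n | Rch F (RT F ln mv I) tg x₀ n x}) ?_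
    have := conn x hx
    clear hx
    induction this using ReflTransGen.head_induction_on with
    | refl => exact ⟨0, ReflTransGen.refl⟩
    | head h _ ih =>
      obtain ⟨a, y, rfl⟩ := h
      obtain ⟨n, hn⟩ := ih
      exact ⟨n + 1, _, y, .refl, a, hn⟩
  have hle : ∀ x n, Rch F (RT F ln mv I) tg x₀ n x → rk x ≤ n := fun x n h => Nat.sInf_le h
  have hinv : ∀ x ∈ F, ∀ z, RT F ln mv I x z → rk z = rk x := fun x hx z h =>
    le_antisymm (hle _ _ (inv _ x hx z h (hm x hx)))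
      (hle _ _ (inv _ z (c.rt hx h).1 x (c.rt hx h).2.1 (hm z (c.rt hx h).1)))
  have hJ' := (List.nodup_cons.mp (List.nodup_cons.mp hJ).2).2
  have hch : ∀ C : Set β, ∃ p : β × Y, ∀ x ∈ F, {z | RT F ln mv I x z} = C →
      RT F ln mv I x p.1 ∧ (rk x ≠ 0 → tg p.2 p.1 ∈ F ∧ rk (tg p.2 p.1) + 1 = rk x) ∧
      ∃ k < 3, (rk x ≠ 0 → k = ps (aff p.2) (tg p.2 p.1)) ∧
        ∀ i ∈ J, i ≠ aff p.2 → ps i p.1 = ad p.2 k (rk x % 2) i := by
    intro C
    by_cases hC : ∃ x ∈ F, {z | RT F ln mv I x z} = C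
    swap
    · exact ⟨(x₀, y₀), fun x hx h => absurd ⟨x, hx, h⟩ hC⟩
    obtain ⟨x, hx, rfl⟩ := hC
    suffices h : ∃ p : β × Y, RT F ln mv I x p.1 ∧
        (rk x ≠ 0 → tg p.2 p.1 ∈ F ∧ rk (tg p.2 p.1) + 1 = rk x) ∧
        ∃ k < 3, (rk x ≠ 0 → k = ps (aff p.2) (tg p.2 p.1)) ∧
          ∀ i ∈ J, i ≠ aff p.2 → ps i p.1 = ad p.2 k (rk x % 2) i by
      obtain ⟨p, h1, h2⟩ := h
      refine ⟨p, fun x' hx' e => ?_⟩
      have a : RT F ln mv I x' x := (Set.ext_iff.mp e x).mpr ReflTransGen.refl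
      exact ⟨a.trans h1, hinv x' hx' x a ▸ h2⟩
    have := hm x hx
    rcases hr : rk x with _ | n
    · obtain ⟨z, h1, h2⟩ := c.goto _ (ad2 y₀ 0 0) J hJ' x hx
      exact ⟨(z, y₀), h1.mono fun i _ => hall i, fun h => absurd rfl h, 0, by omega,
        fun h => absurd rfl h, fun i hi _ => h2 i hi⟩
    rw [hr] at this
    obtain ⟨u, y, a1, a2, a3⟩ := this
    have hu := (c.rt hx a1).1
    obtain ⟨z, h1, h2⟩ := c.goto _ (ad2 y (ps (aff y) (tg y u)) ((n + 1) % 2)) (J.erase (aff y))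
      (hJ'.erase _) u hu
    obtain ⟨b1, b2⟩ := t.lift c hJ'.not_mem_erase a2 h1
    refine ⟨(z, y), a1.trans (h1.mono fun i _ => hall i), fun _ => ⟨b1, ?_⟩, ps (aff y) (tg y u),
      by have := c.lt (aff y) _ a2; have := c.two (aff y) _ a2; omega,
      fun _ => ((c.rt a2 b2).2.2.2 _ hJ'.not_mem_erase).symm,
      fun i hi hne => h2 i ((List.mem_erase_of_ne hne).mpr hi)⟩
    have b3 := hinv _ a2 _ (b2.mono fun i _ => hall i)
    have b4 := hle _ _ a3
    have b5 := hle x (rk (tg y u) + 1) ⟨u, y, a1, a2, hm _ a2⟩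
    dsimp only
    omega
  choose ch hch using hch
  have hp := fun x hx => hch _ x hx rfl
  have hcl : ∀ x ∈ F, ∀ z, RT F ln mv I x z → {w | RT F ln mv I z w} = {w | RT F ln mv I x w} :=
    fun x hx z h => Set.ext fun w => ⟨fun h' => h.trans h', fun h' => (c.rt hx h).2.1.trans h'⟩
  refine ⟨rk, fun x => (ch {z | RT F ln mv I x z}).1, fun x => (ch {z | RT F ln mv I x z}).2,
    fun x hx z h =>
      ⟨hinv x hx z h, by rw [hcl x hx z h], by rw [hcl x hx z h]⟩, fun x hx => (hp x hx).1,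
      fun x hx => (hp x hx).2.1, fun x hx => ⟨fun h => by have := hm x hx; rwa [h] at this,
        fun h => Nat.le_zero.mp (hle x 0 h)⟩, fun d hd d' hd' r r' h e => ?_, fun d hd r e => ?_⟩
  · obtain ⟨a1, a2, k, a3, a4, a5⟩ := hp d hd
    obtain ⟨b1, b2, k', b3, b4, b5⟩ := hp d' hd'
    generalize ch {z | RT F ln mv I d z} = p at *
    generalize ch {z | RT F ln mv I d' z} = p' at *
    obtain ⟨g1, g2, -⟩ := had p.2 k (rk d % 2) p'.2 k' (rk d' % 2) a3 b3 (Nat.mod_lt _ two_pos)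
      (Nat.mod_lt _ two_pos) (aff p.2) (aff p'.2) fun i hi n n' => by
        rw [← a5 i hi n, ← b5 i hi n', ← t.pst c n (c.rt hd a1).1 (a2 r).1,
          ← t.pst c n' (c.rt hd' b1).1 (b2 r').1, e i hi]
    rw [a4 r, b4 r', ← g1] at g2
    rw [← g1] at h
    have g3 := c.norm' (J := I.erase (aff p.2)) hJ.not_mem_erase (a2 r).1 (h.mono fun i _ => by
      by_cases e : i = aff p.2
      · simp [e]
      · exact List.mem_cons_of_mem _ ((List.mem_erase_of_ne e).mpr (hall i))) g2.symm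
    obtain ⟨z, g4, g5⟩ := t.down c hJ.not_mem_erase (c.rt hd a1).1 (a2 r).1 g3
    rw [t.inj _ _ (c.rt (c.rt hd a1).1 g4).1 _ (c.rt hd' b1).1 (g5 ▸ g1 ▸ (b2 r').1) g5] at g4
    exact (a1.trans (g4.mono fun i _ => hall i)).trans (c.rt hd' b1).2.1
  · obtain ⟨a1, a2, k, a3, -, a5⟩ := hp d hd
    generalize ch {z | RT F ln mv I d z} = p at *
    obtain ⟨-, -, k', b3, -, b5⟩ := hp _ (a2 r).1
    obtain ⟨-, -, g⟩ := had _ k (rk d % 2) _ k' _ a3 b3 (Nat.mod_lt _ two_pos)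
      (Nat.mod_lt _ two_pos) _ _ fun i hi n n' => by
        rw [← a5 i hi n, ← b5 i hi n', ← t.pst c n (c.rt hd a1).1 (a2 r).1, e i hi]
    have := (a2 r).2
    omega

end Pool.Agent.MP_e46b50_co.H93

end

-- part MP_e46b50_co.H93.Sca
section

set_option autoImplicit false

namespace Pool.Agent.MP_e46b50_co.H93

open Finset Relation
open scoped symmDiff Classical

theorem Tile.even {β : Type} [DecidableEq β] {Γ : SimpleGraph β} {S : Finset β}
    (h : Tile (K2 Γ) S) : Even S.card := by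
  induction h with
  | nil => simp only [card_empty, Even.zero]
  | add h1 _ h3 ih =>
    obtain ⟨x, y, h, rfl⟩ := h1
    rw [card_union_of_disjoint h3, card_pair h.ne]
    exact even_two.add ih

theorem enum {β : Type} [DecidableEq β] [Nonempty β] (Γ : SimpleGraph β) (c : Finset β) :
    ∃ (en : ℕ → β) (ix : β → ℕ), K2 Γ c ∨ K3 Γ c → (c.card = 2 ∨ c.card = 3) ∧
      (∀ k < c.card, en k ∈ c ∧ ix (en k) = k) ∧ (∀ x ∈ c, ix x < c.card ∧ en (ix x) = x) ∧
      ∀ x ∈ c, ∀ y ∈ c, x ≠ y → Γ.Adj x y := by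
  refine ⟨fun k => c.toList.getD k (Classical.arbitrary β), fun x => c.toList.idxOf x, fun h =>
    ⟨?_, fun k hk => ?_, fun x hx => ?_, ?_⟩⟩
  · rcases h with ⟨x, y, h, rfl⟩ | ⟨x, y, z, h1, h2, h3, rfl⟩
    · exact Or.inl (card_pair h.ne)
    · exact Or.inr (card_eq_three.mpr ⟨x, y, z, h1.ne, h3.ne, h2.ne, rfl⟩)
  · rw [← length_toList] at hk
    simp only [List.getD_eq_getElem _ _ hk]
    exact ⟨mem_toList.mp (List.getElem_mem hk), c.nodup_toList.idxOf_getElem k hk⟩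
  · have := List.idxOf_lt_length_of_mem (mem_toList.mpr hx)
    simp only [List.getD_eq_getElem _ _ this]
    exact ⟨length_toList c ▸ this, List.getElem_idxOf this⟩
  · rcases h with ⟨x, y, h, rfl⟩ | ⟨x, y, z, h1, h2, h3, rfl⟩
    · simp only [mem_insert, mem_singleton, ne_eq, forall_eq_or_imp, forall_eq, not_true_eq_false, SimpleGraph.irrefl, imp_self, h, implies_true, and_self, h.symm]
    · simp only [mem_insert, mem_singleton, ne_eq, forall_eq_or_imp, forall_eq, not_true_eq_false, SimpleGraph.irrefl, imp_self, h1, implies_true, h3, and_self, h1.symm, h2, h3.symm, h2.symm]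

theorem miss {α : Type} (f : Fin 3 → α) (hf : f.Injective) (j j' : α) :
    ∃ r, f r ≠ j ∧ f r ≠ j' := by
  by_contra hc
  push Not at hc
  by_cases a : f 0 = j
  · exact absurd (hf ((hc 1 fun e => absurd (hf (e.trans a.symm)) (by decide)).trans
      (hc 2 fun e => absurd (hf (e.trans a.symm)) (by decide)).symm)) (by decide)
  by_cases b : f 1 = j
  · exact absurd (hf ((hc 0 a).trans
      (hc 2 fun e => absurd (hf (e.trans b.symm)) (by decide)).symm)) (by decide)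
  · exact absurd (hf ((hc 0 a).trans (hc 1 b).symm)) (by decide)

theorem Co.adr {β Y : Type} [Fintype Y] {b : ℕ} {Γ : SimpleGraph β} {F : Finset β}
    {ln ps : Option (Option (Fin 3 × Fin b)) → β → ℕ}
    {mv : Option (Option (Fin 3 × Fin b)) → β → ℕ → β} {tg : Y → β → β}
    {aff : Y → Option (Option (Fin 3 × Fin b))} (c : Co Γ F ln ps mv) (t : Tg Γ F ln mv tg aff)
    (hY : 6 * Fintype.card Y ≤ 2 ^ b) (y₀ : Y) {x₀ : β}
    (conn : ∀ x ∈ F, ReflTransGen (fun a b => b ∈ F ∧ ∃ y, b = tg y a) x x₀) :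
    ∃ J, (none :: some none :: J).Nodup ∧ (∀ i, i ∈ none :: some none :: J) ∧
      ∃ rk cz cy, Sk F ln ps mv tg (none :: some none :: J) J x₀ rk cz cy := by
  have hcode : ∀ (y : Y) k e, k < 3 → e < 2 → 6 * (Fintype.equivFin Y y).1 + 2 * k + e < 2 ^ b :=
    fun y k e hk he => lt_of_lt_of_le (by have := (Fintype.equivFin Y y).2; omega) hY
  have h1 : (none :: some none :: (univ : Finset (Fin 3 × Fin b)).toList.map
      fun i => some (some i)).Nodup := by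
    simp only [List.nodup_cons, List.mem_cons, List.mem_map]
    exact ⟨by simp only [reduceCtorEq, mem_toList, mem_univ, and_false, exists_false, or_self, not_false_eq_true], by simp only [mem_toList, mem_univ, Option.some.injEq, reduceCtorEq, and_false, exists_false, not_false_eq_true], (nodup_toList _).map fun a b e => by simpa using e⟩
  have h2 : ∀ i, i ∈ none :: some none :: (univ : Finset (Fin 3 × Fin b)).toList.map
      fun i => some (some i) := by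
    rintro (_ | _ | i) <;> simp only [List.mem_cons, reduceCtorEq, List.mem_map, mem_toList, mem_univ, and_false, exists_false, or_self, or_false, Option.some.injEq, or_true, true_and, exists_eq]
  refine ⟨_, h1, h2, c.sk t h1 h2 y₀ conn (fun y k e i => match i with
      | some (some i) => ((6 * (Fintype.equivFin Y y).1 + 2 * k + e).testBit i.2).toNat
      | _ => 0) ?_ ?_⟩
  · rintro y k e (_ | _ | i)
    exacts [two_pos, two_pos, Bool.toNat_lt _]
  · intro y k e y' k' e' a1 a2 a3 a4 j j' hj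
    have : 6 * (Fintype.equivFin Y y).1 + 2 * k + e = 6 * (Fintype.equivFin Y y').1 + 2 * k' + e' := by
      refine Nat.eq_of_testBit_eq fun t => ?_
      by_cases ht : t < b
      · obtain ⟨r, r1, r2⟩ := miss (fun r => some (some (r, (⟨t, ht⟩ : Fin b))))
          (fun a b e => by simpa using e) j j'
        have := hj _ (List.mem_map.mpr ⟨_, by simp only [mem_toList, mem_univ], rfl⟩) r1 r2
        have e : ∀ a b : Bool, a.toNat = b.toNat → a = b := by decide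
        exact e _ _ this
      · have := Nat.pow_le_pow_right two_pos (not_lt.mp ht)
        rw [Nat.testBit_lt_two_pow ((hcode y k e a1 a3).trans_le this),
          Nat.testBit_lt_two_pow ((hcode y' k' e' a2 a4).trans_le this)]
    exact ⟨(Fintype.equivFin Y).injective (Fin.ext (by omega)), by omega, by omega⟩

variable {V : Type} [Fintype V] [DecidableEq V] {G : SimpleGraph V}

theorem mem_F {T : Finset V} : T ∈ Fam G univ ↔ Dominating G T := by simp only [mem_Fam, mem_univ, not_true_eq_false, IsEmpty.forall_iff, implies_true, true_and]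

theorem brouwer : ¬ Even (Fam G univ).card := by
  set S : Finset (Finset V × Finset V) := univ.filter fun p => ∀ a ∈ p.1, ∀ b ∈ p.2, ¬ ca G b a
  have h1 : ((Fam G univ).card : ZMod 2) = S.card := by
    rw [card_eq_sum_card_fiberwise (f := Prod.fst) (t := univ) (s := S) (by simp only [coe_univ, Set.mapsTo_univ]), Nat.cast_sum,
      ← filter_mem_eq_inter.trans (univ_inter (Fam G univ)), card_filter, Nat.cast_sum]
    refine sum_congr rfl fun A _ => ?_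
    have : (S.filter fun p => p.1 = A).card =
        (univ.filter fun b => ∀ a ∈ A, ¬ ca G b a).powerset.card := by
      refine card_nbij' Prod.snd (fun B => (A, B)) ?_ ?_ ?_ (fun _ _ => rfl)
      · rintro ⟨_, B⟩ h
        simp only [S, coe_filter, mem_filter, mem_univ, true_and, Set.mem_ofPred_eq] at h
        obtain ⟨h, rfl⟩ := h
        exact mem_powerset.mpr fun b hb => mem_filter.mpr ⟨mem_univ _, fun a ha => h a ha b hb⟩
      · intro B h
        exact mem_filter.mpr ⟨mem_filter.mpr ⟨mem_univ _, fun a ha b hb =>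
          (mem_filter.mp (mem_powerset.mp h hb)).2 a ha⟩, rfl⟩
      · rintro ⟨_, B⟩ h
        exact Prod.ext (mem_filter.mp h).2.symm rfl
    rw [this, card_powerset]
    split_ifs with h <;> rw [mem_F, dom_iff] at h
    · rw [filter_false_of_mem fun b _ hb => let ⟨x, a, c⟩ := h b; hb x a c]
      rfl
    · push Not at h
      obtain ⟨w, hw⟩ := h
      rw [Nat.cast_pow, Nat.cast_zero]
      exact (zero_pow (card_pos.mpr ⟨w, mem_filter.mpr ⟨mem_univ _, hw⟩⟩).ne').symm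
  have h2 : Even (S.erase (∅, ∅)).card := (inv_tile (Γ := ⊤) Prod.swap _ fun p hp => by
    obtain ⟨a, b⟩ := mem_erase.mp hp
    refine ⟨mem_erase.mpr ⟨fun e => a (Prod.swap_injective e), mem_filter.mpr ⟨mem_univ _,
      fun x hx y hy c => (mem_filter.mp b).2 y hy x hx c.symm⟩⟩, rfl, fun e => a ?_⟩
    have e' : p.2 = p.1 := (congrArg Prod.fst e).symm
    have : p.1 = ∅ := eq_empty_of_forall_notMem fun x hx =>
      (mem_filter.mp b).2 x hx x (e' ▸ hx) (Or.inl rfl)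
    exact Prod.ext this (e'.trans this)).even
  rw [← ZMod.natCast_eq_zero_iff_even] at h2 ⊢
  rw [h1, ← card_erase_add_one (show (∅, ∅) ∈ S by simp only [S, mem_filter, mem_univ, notMem_empty, IsEmpty.forall_iff, implies_true, and_self]), Nat.cast_add, h2]
  decide

theorem tog_conn (x : Finset V) (hx : x ∈ Fam G univ) :
    ReflTransGen (fun a b => b ∈ Fam G univ ∧ ∃ y, b = a ∆ {y}) x univ ∧
      ReflTransGen (fun a b => b ∈ Fam G univ ∧ ∃ y, b = a ∆ {y}) univ x := by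
  induction h : xᶜ.card generalizing x with
  | zero =>
    obtain rfl := (compl_eq_empty_iff x).mp (card_eq_zero.mp h)
    exact ⟨.refl, .refl⟩
  | succ n ih =>
    obtain ⟨y, hy⟩ := card_pos.mp (show 0 < xᶜ.card by omega)
    have h1 := mem_F.mpr (Dominating.up (subset_insert y x) (mem_F.mp hx))
    obtain ⟨a, b⟩ := ih _ h1 (by rw [compl_insert, card_erase_of_mem hy, h]; rfl)
    rw [← tog_not (mem_compl.mp hy)] at h1 a b
    exact ⟨.head ⟨h1, y, rfl⟩ a, .tail b ⟨hx, y, (symmDiff_symmDiff_cancel_right _ _).symm⟩⟩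

omit [Fintype V] in
theorem loc_zone {T T' R : Finset V} (hT : Dominating G T) (hT' : Dominating G T')
    (h : ∀ y w, ∀ a ∈ R, ca G w a → ca G w y → (y ∈ T ↔ y ∈ T')) :
    Loc G T R = Loc G T' R ∧ T ∩ R = T' ∩ R := by
  have key : ∀ {T T' : Finset V}, Dominating G T' →
      (∀ y w, ∀ a ∈ R, ca G w a → ca G w y → (y ∈ T ↔ y ∈ T')) → Loc G T R ⊆ Loc G T' R := by
    intro T T' hT' h s hs
    obtain ⟨h1, h2⟩ := mem_Loc.mp hs
    refine mem_Loc.mpr ⟨h1, dom_iff.mpr fun w => ?_⟩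
    by_cases hw : ∃ a ∈ R, ca G w a
    · obtain ⟨a, a1, a2⟩ := hw
      obtain ⟨x, b1, b2⟩ := dom_iff.mp h2 w
      have := h x w a a1 a2 b2
      exact ⟨x, by simp only [mem_union, mem_sdiff] at *; tauto, b2⟩
    · obtain ⟨x, b1, b2⟩ := dom_iff.mp hT' w
      exact ⟨x, mem_union_left _ (mem_sdiff.mpr ⟨b1, fun a => hw ⟨x, a, b2⟩⟩), b2⟩
  refine ⟨(key hT' h).antisymm (key hT fun y w a b c d => (h y w a b c d).symm), ?_⟩
  ext y
  simp only [mem_inter]
  exact and_congr_left fun a => h y y y a (Or.inl rfl) (Or.inl rfl)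

theorem Sc.pan {q : ℕ} [NeZero q] {C : Finset V} (h : Sc G q C)
    (hc : (3 * Nat.clog 2 (6 * Fintype.card V) + 2) * (q * (q + 1) + 1) ≤ C.card) :
    Pan G univ := by
  set b := Nat.clog 2 (6 * Fintype.card V) with hb
  obtain ⟨g⟩ := Function.Embedding.nonempty_of_card_le
    (α := Option (Option (Fin 3 × Fin b)) × Fin (q * (q + 1) + 1)) (β := C) (by simpa only [Fintype.card_prod, Fintype.card_option, Fintype.card_fin, Fintype.card_coe] using hc)
  set cs : Option (Option (Fin 3 × Fin b)) → Finset V :=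
    fun i => univ.image fun k => (g (i, k)).1
  have c1 : ∀ i, cs i ⊆ C := fun i => image_subset_iff.mpr fun k _ => (g (i, k)).2
  have c2 : ∀ i, (cs i).card = q * (q + 1) + 1 := fun i => by
    rw [card_image_of_injective _ fun k k' e => (Prod.ext_iff.mp (g.injective (Subtype.ext e))).2,
      card_univ, Fintype.card_fin]
  have c3 : ∀ i j, i ≠ j → Disjoint (cs i) (cs j) := fun i j hij => disjoint_left.mpr fun x a b => by
    obtain ⟨k, -, rfl⟩ := mem_image.mp a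
    obtain ⟨k', -, e⟩ := mem_image.mp b
    exact hij (Prod.ext_iff.mp (g.injective (Subtype.ext e))).1.symm
  have y₀ : V := (g (none, 0)).1
  clear_value cs
  clear g hc
  have hcl : ∀ U : Finset (Finset V), ∃ cl : Finset V → Finset (Finset V),
      Tile (fun c => K2 (gam G) c ∨ K3 (gam G) c) U → ∀ x ∈ U, x ∈ cl x ∧ cl x ⊆ U ∧
        (K2 (gam G) (cl x) ∨ K3 (gam G) (cl x)) ∧ ∀ y ∈ cl x, cl y = cl x := fun U => by
    by_cases h : Tile (fun c => K2 (gam G) c ∨ K3 (gam G) c) U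
    · obtain ⟨cl, h'⟩ := Tile.cls h
      exact ⟨cl, fun _ => h'⟩
    · exact ⟨fun _ => ∅, fun h' => absurd h' h⟩
  choose cl hcl using hcl
  choose en ix hen using enum (gam G)
  set R := fun i => reg G (cs i) with hR
  set pc := fun i T => cl (Loc G T (R i)) (T ∩ R i) with hpc
  set mv := fun i T k => T \ R i ∪ en (pc i T) k with hmv
  have p1 := fun i T (hT : T ∈ Fam G univ) => hcl _ (h.kp (mem_F.mp hT) (c1 i) (c2 i)) (T ∩ R i)
    (mem_Loc.mpr ⟨inter_subset_right, (sdiff_union_inter T (R i)).symm ▸ mem_F.mp hT⟩)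
  have p2 := fun i T hT => hen _ (p1 i T hT).2.2.1
  have p3 : ∀ i, ∀ T ∈ Fam G univ, ∀ k < (pc i T).card, en (pc i T) k ⊆ R i ∧
      mv i T k ∈ Fam G univ := fun i T hT k hk =>
    (mem_Loc.mp ((p1 i T hT).2.1 ((p2 i T hT).2.1 k hk).1)).imp_right mem_F.mpr
  have p4 : ∀ i, ∀ T ∈ Fam G univ, ∀ k < (pc i T).card, mv i T k \ R i = T \ R i ∧
      mv i T k ∩ R i = en (pc i T) k := fun i T hT k hk => by
    constructor <;> ext x <;>
    · have := @(p3 i T hT k hk).1 x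
      simp only [hmv, mem_sdiff, mem_inter, mem_union]
      tauto
  have p5 : ∀ i, ∀ T ∈ Fam G univ, ∀ k < (pc i T).card, pc i (mv i T k) = pc i T :=
    fun i T hT k hk => by
      simp only [hpc]
      rw [(p4 i T hT k hk).2, Loc, (p4 i T hT k hk).1]
      exact (p1 i T hT).2.2.2 _ ((p2 i T hT).2.1 k hk).1
  have p6 : ∀ i j, j ≠ i → ∀ T ∈ Fam G univ, ∀ k < (pc i T).card,
      pc j (mv i T k) = pc j T ∧ mv i T k ∩ R j = T ∩ R j := fun i j hij T hT k hk => by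
    have := loc_zone (R := R j) (mem_F.mp (p3 i T hT k hk).2) (mem_F.mp hT) fun y w a a1 a2 a3 => by
      have := Finset.ext_iff.mp (p4 i T hT k hk).1 y
      have : y ∉ R i := fun hy => h.sep (c1 j) (c1 i) (c3 j i hij) w a a1 y hy a2 a3
      simp only [mem_sdiff] at *
      tauto
    exact ⟨by simp only [hpc, this.1, this.2], this.2⟩
  have co : Co (gam G) (Fam G univ) (fun i T => (pc i T).card) (fun i T => ix (pc i T) (T ∩ R i))
      mv := by
    refine ⟨fun i T hT => (p2 i T hT).1, fun i T hT => ((p2 i T hT).2.2.1 _ (p1 i T hT).1).1,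
      fun i T hT => ?_, fun i T hT k hk => (p3 i T hT k hk).2, fun i j T hT k hk => ?_,
      fun i T hT k hk => ?_, fun i j hij T hT k hk => ?_, fun i T hT k hk k' => ?_,
      fun i j hij T hT k hk k' hk' => ?_, fun i T hT k hk k' hk' hne => ?_⟩
    · exact (congrArg (T \ R i ∪ ·) ((p2 i T hT).2.2.1 _ (p1 i T hT).1).2).trans
        (sdiff_union_inter _ _)
    · by_cases e : j = i
      · rw [e, p5 i T hT k hk]
      · rw [(p6 i j e T hT k hk).1]
    · rw [p5 i T hT k hk, (p4 i T hT k hk).2]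
      exact ((p2 i T hT).2.1 k hk).2
    · rw [(p6 i j hij T hT k hk).1, (p6 i j hij T hT k hk).2]
    · exact congrArg₂ (fun a b => a ∪ en b k') (p4 i T hT k hk).1 (p5 i T hT k hk)
    · ext x
      have := @(p3 i T hT k hk).1 x
      have := @(p3 j T hT k' hk').1 x
      have : x ∈ R i → x ∉ R j := (h.sep (c1 i) (c1 j) (c3 i j hij)).disj
      simp only [hmv, mem_sdiff, mem_union] at *
      rw [show pc j (T \ R i ∪ en (pc i T) k) = pc j T from (p6 i j hij.symm T hT k hk).1,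
        show pc i (T \ R j ∪ en (pc j T) k') = pc i T from (p6 j i hij T hT k' hk').1]
      tauto
    · simp only [hmv, union_comm (T \ R i)]
      exact adj_union ((p2 i T hT).2.2.2 _ ((p2 i T hT).2.1 k hk).1 _ ((p2 i T hT).2.1 k' hk').1
        fun e => hne (by rw [← ((p2 i T hT).2.1 k hk).2, e, ((p2 i T hT).2.1 k' hk').2]))
        (sdiff_disjoint.mono_right (p3 i T hT k hk).1) (sdiff_disjoint.mono_right (p3 i T hT k' hk').1)
  have haff : ∀ y, ∃ j, ∀ i ≠ j, ∀ w, ∀ a ∈ R i, ca G w a → ¬ ca G w y := by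
    intro y
    by_contra hc
    push Not at hc
    obtain ⟨i, -, w, a, a1, a2, a3⟩ := hc none
    obtain ⟨j, hj, w', b, b1, b2, b3⟩ := hc i
    exact h.zone (c1 j) (c1 i) (c3 j i hj) b1 a1 b2 b3 a2 a3
  choose aff haff using haff
  have p7 : ∀ y i, i ≠ aff y → ∀ T ∈ Fam G univ, T ∆ {y} ∈ Fam G univ →
      pc i (T ∆ {y}) = pc i T := fun y i hi T hT hT' => by
    have := loc_zone (R := R i) (mem_F.mp hT') (mem_F.mp hT) fun z w a a1 a2 a3 => by
      have : z ≠ y := fun e => haff y i hi w a a1 a2 (e ▸ a3)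
      simp [mem_symmDiff, this]
    simp only [hpc, this.1, this.2]
  have tg : Tg (gam G) (Fam G univ) (fun i T => (pc i T).card) mv (fun y T => T ∆ {y}) aff := by
    refine ⟨fun y T _ T' _ _ e => symmDiff_left_injective _ e, fun y T _ _ => adj_tog T y,
      fun y i hi T hT hT' => by rw [p7 y i hi T hT hT'], fun y i hi T hT hT' k hk => ?_⟩
    ext x
    have := @(p3 i T hT k hk).1 x
    have : x = y → x ∉ R i := fun e a => haff y i hi x x a (Or.inl rfl) (Or.inl e)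
    simp only [hmv, p7 y i hi T hT hT', mem_sdiff, mem_union, mem_symmDiff, mem_singleton]
    tauto
  obtain ⟨x₀, h0, h3⟩ : ∃ x₀ ∈ Fam G univ, (pc none x₀).card = 3 := by
    by_contra hc
    push Not at hc
    refine brouwer (G := G) (inv_tile (Γ := gam G) (fun T => mv none T (1 - ix (pc none T) (T ∩ R none))) _
      fun T hT => ?_).even
    have a1 : ix (pc none T) (T ∩ R none) < (pc none T).card := co.lt none T hT
    have a2 : (pc none T).card = 2 := (co.two none T hT).resolve_right (hc T hT)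
    have a3 : 1 - ix (pc none T) (T ∩ R none) < (pc none T).card := by omega
    have a4 := co.psm none T hT _ a3
    refine ⟨co.mem none T hT _ a3, ?_, ?_⟩
    · rw [co.idem none T hT _ a3, a4, Nat.sub_sub_self (by omega)]
      exact co.self none T hT
    · nth_rewrite 1 [← co.self none T hT]
      exact co.adj none T hT _ a1 _ a3 (by omega)
  obtain ⟨J, hJ, -, rk, cz, cy, sk⟩ := co.adr tg (Nat.le_pow_clog one_lt_two _) y₀
    fun x hx => (tog_conn x hx).1.trans (tog_conn x₀ h0).2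
  exact sk.pan co tg hJ h0 h3

theorem pan_scattered [DecidableRel G.Adj] {k : ℕ} {C : Finset V}
    (h1 : ∀ v ∈ C, 1 ≤ G.degree v ∧ G.degree v ≤ k)
    (h2 : ∀ u ∈ C, ∀ v ∈ C, u ≠ v → 7 ≤ G.edist u v)
    (h3 : (3 * Nat.clog 2 (6 * Fintype.card V) + 2) * (k ^ 2 + 3 * k + 3) ≤ C.card) :
    Pan G univ := by
  refine Sc.pan (q := k + 1) (C := C) ⟨fun v hv => (G.degree_pos_iff_exists_adj v).mp (h1 v hv).1,
    fun v hv => ?_, h2⟩ (by convert h3 using 2; ring)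
  refine (card_le_card (t := insert v (G.neighborFinset v)) fun w hw => ?_).trans
    ((card_insert_le _ _).trans (Nat.succ_le_succ (h1 v hv).2))
  obtain ⟨u, a, b⟩ := mem_reg.mp hw
  obtain rfl := mem_singleton.mp a
  exact mem_insert.mpr (b.imp Eq.symm fun b => (G.mem_neighborFinset _ _).mpr b)

end Pool.Agent.MP_e46b50_co.H93

end
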