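import Pool.Agent.MP_e46b50_co.H93.Cov
import Pool.Agent.MP_e46b50_co.Mg.H93_Sca

set_option autoImplicit false

namespace Pool.Agent.MP_e46b50_co.H93.Lg

open Finset
open scoped symmDiff Classical

abbrev Kk := Fin 10

abbrev Pt := Kk → ℕ

/-- the Hamming graph -/
def hm : SimpleGraph Pt where
  Adj f g := ∃ i, f i ≠ g i ∧ ∀ j, j ≠ i → f j = g j
  symm := ⟨fun _ _ ⟨i, h1, h2⟩ => ⟨i, h1.symm, fun j hj => (h2 j hj).symm⟩⟩
  loopless := ⟨fun _ ⟨_, h, _⟩ => h rfl⟩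

def bx (τ : Pt) : Finset Pt := Fintype.piFinset fun i => range (τ i)

def col (f : Pt) : ZMod 2 := ∑ i, (f i : ZMod 2)

def bp (τ : Pt) : Prop := ∀ i, τ i = 2

/-- a box with a marked edge and reserved coordinates -/
structure Ud (τ r v : Pt) (R : Finset Kk) : Prop where
  two : ∀ i, τ i = 2 ∨ τ i = 3
  hr : r ∈ bx τ
  hv : v ∈ bx τ
  dir : ∃ d ∈ R, r d ≠ v d ∧ ∀ i, i ≠ d → r i = v i
  odd : bp τ ∨ ∃ j ∈ R, τ j = 3

def Hole (τ r v : Pt) (H : Finset Pt) : Prop := H = ∅ ∨ H = {r, v} ∨ (H = {r} ∧ ¬ bp τ)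

structure Tri (R : Finset Kk) (a b c : Kk) : Prop where
  ab : a ≠ b
  ac : a ≠ c
  bc : b ≠ c
  ha : a ∉ R
  hb : b ∉ R
  hc : c ∉ R

/-- a prescription of at most four coordinates -/
structure Spc (τ : Pt) (a b c : Kk) (Q : Finset Kk) (q : Pt) : Prop where
  card : Q.card ≤ 4
  ha : a ∉ Q
  hb : b ∉ Q
  hc : c ∉ Q
  lt : ∀ i ∈ Q, q i < τ i

def Ex (τ : Pt) (Q : Finset Kk) (q : Pt) (γ : ZMod 2) (t : Pt) : Prop :=
  t ∈ bx τ ∧ (∀ i ∈ Q, t i = q i) ∧ col t = γ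

def Pat (a b c : Kk) (r s s' : Pt) : Prop :=
  s a ≠ r a ∧ s a = s' a ∧ s b = r b ∧ s' b ≠ r b ∧ s' c = r c ∧ s c ≠ r c

/-- two disjoint paths that cover `X` -/
def Tw (s t s' t' : Pt) (X : Finset Pt) : Prop :=
  ∃ Y Y', Seg hm s t Y ∧ Seg hm s' t' Y' ∧ Disjoint Y Y' ∧ Y ∪ Y' = X

section chart

variable {β U σ : Type} [DecidableEq β]

def Eg (C : Finset β) (un : β → U) (ps : β → Pt) (T T' : β) : Prop :=
  T ∈ C ∧ T' ∈ C ∧ un T = un T' ∧ hm.Adj (ps T) (ps T')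

/-- `C` is a disjoint union of boxes -/
structure Ch (C : Finset β) (F : Finset U) (un : β → U) (ps : β → Pt) (τ : U → Pt)
    (e : U → Pt → β) : Prop where
  two : ∀ u ∈ F, ∀ i, τ u i = 2 ∨ τ u i = 3
  c1 : ∀ T ∈ C, un T ∈ F ∧ ps T ∈ bx (τ (un T)) ∧ e (un T) (ps T) = T
  c2 : ∀ u ∈ F, ∀ f ∈ bx (τ u), e u f ∈ C ∧ un (e u f) = u ∧ ps (e u f) = f

/-- every point `T` of `C` carries the set `ct T` -/
structure Cs (Γ : SimpleGraph β) (C : Finset β) (un : β → U) (ps : β → Pt) (τ : U → Pt)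
    (ct : β → Finset β) : Prop where
  self : ∀ T ∈ C, T ∈ ct T
  adj : ∀ T T', Eg C un ps T T' → Γ.Adj T T' ∧ Seg Γ T T' (ct T ∪ ct T')
  nb : ∀ T ∈ C, bp (τ (un T)) ∨ ct T = {T}
  dis : ∀ T ∈ C, ∀ T' ∈ C, T ≠ T' → Disjoint (ct T) (ct T')

def Lk (Γ : SimpleGraph β) (τ : U → Pt) (e : U → Pt → β) (u u' : U) : Prop :=
  ∃ j k k', k < τ u j ∧ k' < τ u' j ∧ (∀ i, i ≠ j → τ u i = τ u' i) ∧
    ∀ f ∈ bx (τ u), f j = k → Γ.Adj (e u f) (e u' (Function.update f j k'))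

/-- boxes joined along a facet -/
def lkG (Γ : SimpleGraph β) (τ : U → Pt) (e : U → Pt → β) : SimpleGraph U where
  Adj u u' := u ≠ u' ∧ Lk Γ τ e u u' ∧ Lk Γ τ e u' u
  symm := ⟨fun _ _ h => ⟨h.1.symm, h.2.2, h.2.1⟩⟩
  loopless := ⟨fun _ h => h.1 rfl⟩

def Ru (Γ : SimpleGraph β) (ct : β → Finset β) (x : β) (S : Finset (β × β)) (y : β) : Prop :=
  ∃ w, Γ.Adj x w ∧ Seg Γ w y (S.biUnion fun z => ct z.1 ∪ ct z.2)

/-- routes that lead the ends `x s` to private ports with two options -/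
structure Ga (Γ : SimpleGraph β) (C : Finset β) (un : β → U) (ps : β → Pt) (ct : β → Finset β)
    (a b : U) (E : Finset σ) (x : σ → β) (rt : σ → Finset (β × β)) (y : σ → β)
    (tu p : σ → β × β) : Prop where
  ru : ∀ s ∈ E, Ru Γ ct (x s) (rt s) (y s) ∧ Γ.Adj (y s) (p s).1 ∧ Γ.Adj (y s) (tu s).1 ∧
    Γ.Adj (tu s).2 (p s).2
  e0 : ∀ s ∈ E, ∀ z ∈ rt s, Eg C un ps z.1 z.2 ∧ un z.1 ≠ a ∧ un z.1 ≠ b
  e1 : ∀ s ∈ E, Eg C un ps (tu s).1 (tu s).2 ∧ un (tu s).1 ≠ a ∧ un (tu s).1 ≠ b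
  e2 : ∀ s ∈ E, Eg C un ps (p s).1 (p s).2 ∧ un (p s).1 ≠ a ∧ un (p s).1 ≠ b
  i00 : ∀ s ∈ E, ∀ s' ∈ E, ∀ z ∈ rt s, ∀ z' ∈ rt s', un z.1 = un z'.1 → s = s' ∧ z = z'
  i01 : ∀ s ∈ E, ∀ s' ∈ E, ∀ z ∈ rt s, un z.1 ≠ un (tu s').1
  i02 : ∀ s ∈ E, ∀ s' ∈ E, ∀ z ∈ rt s, un z.1 ≠ un (p s').1
  i11 : ∀ s ∈ E, ∀ s' ∈ E, un (tu s).1 = un (tu s').1 → s = s'
  i12 : ∀ s ∈ E, ∀ s' ∈ E, un (tu s).1 ≠ un (p s').1
  i22 : ∀ s ∈ E, ∀ s' ∈ E, un (p s).1 = un (p s').1 → s = s'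

end chart

section sets

variable {V : Type} [Fintype V] [DecidableEq V] (G : SimpleGraph V)

def DA (A T : Finset V) : Prop := ∀ w ∈ A, ∃ x ∈ T, ca G w x

noncomputable def LA (A T R : Finset V) : Finset (Finset V) :=
  R.powerset.filter fun s => DA G A (T \ R ∪ s)

noncomputable def Nb (O : Finset V) (h : V) : Finset V := univ.filter (ca G h) \ O

/-- centres with separated regions -/
structure Cl (A : Finset V) (q : ℕ) (C : Finset V) (ρ : V → Finset V) : Prop where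
  self : ∀ v ∈ C, v ∈ ρ v
  nb : ∀ v ∈ C, ∃ u ∈ ρ v, G.Adj v u
  sub : ∀ v ∈ C, ∀ u ∈ ρ v, ca G v u
  out : ∀ v ∈ C, ∀ w ∈ A, G.Adj v w → w ∈ ρ v
  card : ∀ v ∈ C, (ρ v).card ≤ q
  dis : ∀ u ∈ C, ∀ v ∈ C, u ≠ v → Disjoint (ρ u) (ρ v)
  sep : ∀ u ∈ C, ∀ v ∈ C, u ≠ v → ∀ w ∈ A, ∀ a ∈ ρ u, ∀ b ∈ ρ v, ca G w a → ca G w b → False

/-- the structure found in every large graph -/
structure Su {ι : Type} [Fintype ι] (c x : ℕ) (P O A : Finset V) (R : ι → Finset V) (v : ι → V) :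
    Prop where
  hO : O = P ∪ univ.biUnion R
  mem : ∀ i, v i ∈ R i
  dis : ∀ i j, i ≠ j → Disjoint (R i) (R j)
  dP : ∀ i, Disjoint P (R i)
  hP : P = ∅ ∨ ∃ h, P = {h} ∧ ∀ i, R i = {v i} ∧ G.Adj h (v i)
  sep : ∀ i j, i ≠ j → ∀ w ∈ A, ∀ a ∈ R i, ∀ b ∈ R j, ca G w a → ca G w b → False
  til : ∀ i T, O ⊆ T → DA G A T → (R i).erase (v i) ∈ LA G A T (R i) ∧
    Tile (fun s => K2 (gam G) s ∨ K3 (gam G) s) (LA G A T (R i) \ {R i, (R i).erase (v i)})
  rob : ∀ h, h ∉ A → (∃ p ∈ P, ca G h p) ∨ (c * (O.card + x + 1) ≤ (Nb G O h).card ∧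
    ∃ g ∈ Nb G O h, ∃ y ∈ Nb G O h, G.Adj g y)
  big : c * (O.card + x + 1) ≤ Fintype.card V

/-- the core -/
noncomputable def Cor (P O A : Finset V) : Finset (Finset V) :=
  univ.filter fun T => P ⊆ T ∧ DA G A T ∧
    ∀ h, h ∉ A → (∃ p ∈ P, ca G h p) ∨ (Nb G O h ∩ T).Nonempty

abbrev Jx (x : ℕ) := Option (Option (Fin 3 × Fin (x + 6)))

abbrev UU (V : Type) (x : ℕ) := Finset V × (Kk → Finset (Finset V)) × (Jx x → Finset V)

variable {U : Type}

/-- the boxes of the core -/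
structure Fb (P O : Finset V) (C : Finset (Finset V)) (F : Finset U) (un : Finset V → U)
    (ps : Finset V → Pt) (τ : U → Pt) (e : U → Pt → Finset V) (a b : U) (v₀ : V) (mx : U → ℕ)
    (top : U → Prop) : Prop where
  ch : Ch C F un ps τ e
  adj : ∀ T T', Eg C un ps T T' → (gam G).Adj T T'
  tog : ∀ h ∈ P, (∀ u ∈ F, bp (τ u)) ∧
    ∀ T T', Eg C un ps T T' → ∃ w, G.Adj h w ∧ T' = T ∆ {w}
  fib : ∀ T T', un T = un T' → T ∪ O = T' ∪ O
  unP : ∀ T, un (T ∪ P) = un T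
  few : ∀ u, ((Fam G univ).filter fun T => un T = u).card ≤ 2 * 3 ^ 10
  ab : a ≠ b
  path : Seg (lkG (gam G) τ e) a b F
  bpa : bp (τ a) ∧ bp (τ b)
  full : ∀ T, un T = a ∨ un T = b → T ∪ O = univ
  climb : ∀ T ∈ C, top (un T) ∨
    ∃ T', Eg C un ps T T' ∧ ∃ z ∈ O, z ∉ T' ∧ mx (un T) < mx (un (insert z T'))
  mxle : ∀ T ∈ C, mx (un T) ≤ O.card
  hv : v₀ ∈ O
  topE : ∀ T ∈ C, top (un T) → ∀ y, y ∉ O → Eg C un ps (insert y T) (insert y (T ∆ {v₀}))

/-- private children -/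
structure Hc (P O : Finset V) (C : Finset (Finset V)) (un : Finset V → U) (r : ℕ)
    (lev : ℕ → Finset V → Prop) (γ : Finset V → ZMod 4) (ch : Finset V → Bool → Finset V) :
    Prop where
  inv : ∀ j T T', T ∪ O = T' ∪ O → lev j T → lev j T'
  ginv : ∀ T T', T ∪ O = T' ∪ O → γ T = γ T'
  ne : ∀ j T, lev j T → T ∪ O ≠ univ
  bad : ∀ T ∈ Fam G univ, T ∪ P ∉ C → lev 0 T
  ch1 : ∀ j ≤ r, ∀ T ∈ Fam G univ, lev j T → ∀ k,
    (∃ b, b ∉ T ∧ ch T k = insert b T) ∧ lev (j + 1) (ch T k) ∧ γ (ch T k) = 0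
  ch2 : ∀ j ≤ r, ∀ j' ≤ r, ∀ T ∈ Fam G univ, ∀ T' ∈ Fam G univ, lev j T → lev j' T' → ∀ k k',
    un (ch T k) = un (ch T' k') → T = T' ∧ k = k'
  fin : ∀ T, lev (r + 1) T → γ T = 0 → ∃ b g y, b ∉ T ∪ O ∧ g ∉ T ∪ O ∧ y ∉ T ∪ O ∧ b ≠ g ∧ b ≠ y ∧
    G.Adj g y ∧ γ (insert b T) ≠ 0 ∧ γ (insert g (insert b T)) ≠ 0 ∧ γ (insert y (insert b T)) ≠ 0

/-- a top part of the sets outside the core -/
def Upc (C 𝒜 : Finset (Finset V)) : Prop :=
  𝒜 ⊆ Fam G univ \ C ∧ ∀ T ∈ 𝒜, ∀ T' ∈ Fam G univ \ C, T.card < T'.card → T' ∈ 𝒜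

noncomputable def ctn (𝒜 : Finset (Finset V)) (P T : Finset V) : Finset (Finset V) :=
  insert T (𝒜.filter fun X => X = T \ P)

end sets

end Pool.Agent.MP_e46b50_co.H93.Lg

namespace Pool.Agent.MP_e46b50_co.H93.Lg

open Finset

variable {τ r v : Pt} {R Q Q' : Finset Kk} {a b c : Kk} {q q' : Pt} {γ γ' : ZMod 2}

theorem box_sum (φ : Kk → ℕ → ZMod 2) (f : Pt) (j : Kk) (z : ℕ) :
    ∑ i, φ i (Function.update f j z i) = ∑ i, φ i (f i) + φ j (f j) + φ j z := by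
  rw [← add_sum_erase _ _ (mem_univ j), ← add_sum_erase _ (fun i => φ i (f i)) (mem_univ j),
    Function.update_self, sum_congr rfl fun i hi => by
      rw [Function.update_of_ne (ne_of_mem_erase hi)]]
  linear_combination (-1 : ZMod 2) * CharTwo.add_self_eq_zero (φ j (f j))

theorem box_col (f : Pt) (j : Kk) (z : ℕ) : col (Function.update f j z) = col f + f j + z :=
  box_sum (fun _ n => (n : ZMod 2)) f j z

theorem box_adj (f : Pt) {i : Kk} {z : ℕ} (h : z ≠ f i) : hm.Adj f (Function.update f i z) :=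
  ⟨i, by rw [Function.update_self]; exact h.symm, fun j hj => (Function.update_of_ne hj _ _).symm⟩

theorem box_mem {A : Kk → Finset ℕ} {i : Kk} {S : Finset ℕ} {f : Pt} :
    f ∈ Fintype.piFinset (Function.update A i S) ↔ f i ∈ S ∧ ∀ j, j ≠ i → f j ∈ A j := by
  rw [Fintype.mem_piFinset]
  exact Function.forall_update_iff A fun j S => f j ∈ S

theorem box_upd {A : Kk → Finset ℕ} {f : Pt} (hf : f ∈ Fintype.piFinset A) {i : Kk} {z : ℕ}
    (hz : z ∈ A i) : Function.update f i z ∈ Fintype.piFinset A := by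
  rw [Fintype.mem_piFinset] at hf ⊢
  exact (Function.forall_update_iff f fun j n => n ∈ A j).2 ⟨hz, fun j _ => hf j⟩

theorem box_in {A : Kk → Finset ℕ} {f : Pt} (hf : f ∈ Fintype.piFinset A) {i : Kk}
    {S : Finset ℕ} (h : f i ∈ S) : f ∈ Fintype.piFinset (Function.update A i S) :=
  box_mem.2 ⟨h, fun j _ => Fintype.mem_piFinset.1 hf j⟩

theorem box_mv {A : Kk → Finset ℕ} {f : Pt} {i : Kk} {S S' : Finset ℕ}
    (hf : f ∈ Fintype.piFinset (Function.update A i S)) {z : ℕ} (h : z ∈ S') :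
    Function.update f i z ∈ Fintype.piFinset (Function.update A i S') :=
  box_mem.2 ⟨by rwa [Function.update_self], fun j hj => by
    rw [Function.update_of_ne hj]; exact (box_mem.1 hf).2 j hj⟩

theorem box_dis (A : Kk → Finset ℕ) (i : Kk) (z : ℕ) :
    Disjoint (Fintype.piFinset (Function.update A i {z}))
      (Fintype.piFinset (Function.update A i ((A i).erase z))) :=
  disjoint_left.2 fun _ h h' => ne_of_mem_erase (box_mem.1 h').1 (mem_singleton.1 (box_mem.1 h).1)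

theorem box_un {A : Kk → Finset ℕ} {i : Kk} {z : ℕ} (hz : z ∈ A i) :
    Fintype.piFinset (Function.update A i {z}) ∪
      Fintype.piFinset (Function.update A i ((A i).erase z)) = Fintype.piFinset A := by
  ext f
  rw [mem_union]
  refine ⟨fun h => Fintype.mem_piFinset.2 fun j => ?_, fun h => ?_⟩
  · rcases eq_or_ne j i with rfl | hj
    · rcases h with h | h
      · exact mem_singleton.1 (box_mem.1 h).1 ▸ hz
      · exact mem_of_mem_erase (box_mem.1 h).1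
    · exact h.elim (fun h => (box_mem.1 h).2 j hj) fun h => (box_mem.1 h).2 j hj
  · rcases eq_or_ne (f i) z with e | e
    · exact Or.inl (box_in h (mem_singleton.2 e))
    · exact Or.inr (box_in h (mem_erase.2 ⟨e, Fintype.mem_piFinset.1 h i⟩))

theorem box_one {A : Kk → Finset ℕ} {f : Pt} (hf : f ∈ Fintype.piFinset A)
    (h : ∀ i, (A i).card ≤ 1) : Fintype.piFinset A = {f} :=
  eq_singleton_iff_unique_mem.2 ⟨hf, fun _ hg => funext fun i => card_le_one.1 (h i) _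
    (Fintype.mem_piFinset.1 hg i) _ (Fintype.mem_piFinset.1 hf i)⟩

theorem box_third {S : Finset ℕ} (h : 2 < S.card) (x y : ℕ) : ∃ z ∈ S, z ≠ x ∧ z ≠ y := by
  obtain ⟨z, h1, h2⟩ := exists_mem_notMem_of_card_lt_card (s := {x, y}) (card_le_two.trans_lt h)
  rw [mem_insert, mem_singleton, not_or] at h2
  exact ⟨z, h1, h2⟩

theorem box_z2 : ∀ x : ZMod 2, x = 1 ∨ x + 1 = 1 := by decide

theorem box_lace (n : ℕ) : ∀ (A : Kk → Finset ℕ), ∑ i, (A i).card < n → (∀ i, (A i).card ≤ 3) →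
    ∀ f g : Pt, f ∈ Fintype.piFinset A → g ∈ Fintype.piFinset A →
    ((∀ i, (A i).card ≤ 1) ∨ f ≠ g ∧
      ((∀ i, (A i).card ≤ 2) → (∑ i, if f i = g i then 0 else 1 : ZMod 2) = 1)) →
    Seg hm f g (Fintype.piFinset A) := by
  induction n with
  | zero => exact fun A h => absurd h (Nat.not_lt_zero _)
  | succ n ih =>
  intro A hn hA f g hf hg h
  obtain h | ⟨h, hp⟩ := h
  · have := box_one hf h
    rw [this] at hg ⊢
    exact mem_singleton.1 hg ▸ Seg.single _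
  obtain ⟨i, hi⟩ := Function.ne_iff.1 h
  have fi := Fintype.mem_piFinset.1 hf
  have gi := Fintype.mem_piFinset.1 hg
  have c2 : 1 < (A i).card := one_lt_card.2 ⟨_, fi i, _, gi i, hi⟩
  have ce := card_erase_of_mem (fi i)
  have key : ∀ S : Finset ℕ, S.card < (A i).card → ∑ j, (Function.update A i S j).card < n ∧
      ∀ m, S.card ≤ m → (∀ j, j ≠ i → (A j).card ≤ m) →
        ∀ j, (Function.update A i S j).card ≤ m := fun S hS => by
    refine ⟨lt_of_lt_of_le (sum_lt_sum (fun j _ => ?_) ⟨i, mem_univ i, by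
      rwa [Function.update_self]⟩) (Nat.lt_succ_iff.1 hn), fun m h1 h2 =>
      (Function.forall_update_iff A fun _ S => S.card ≤ m).2 ⟨h1, h2⟩⟩
    exact (Function.forall_update_iff A fun j S => S.card ≤ (A j).card).2 ⟨hS.le, fun _ _ => le_rfl⟩ j
  obtain ⟨l1, l2⟩ := key {f i} (by rwa [card_singleton])
  obtain ⟨k1, k2⟩ := key ((A i).erase (f i)) (by omega)
  rw [card_singleton] at l2
  have fL := box_in hf (mem_singleton_self (f i))
  have gE := mem_erase.2 ⟨Ne.symm hi, gi i⟩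
  have h3 := hA i
  suffices ∃ t ∈ Fintype.piFinset (Function.update A i {f i}), ∃ k ∈ (A i).erase (f i),
      Seg hm f t (Fintype.piFinset (Function.update A i {f i})) ∧
      ((∀ j, (Function.update A i ((A i).erase (f i)) j).card ≤ 1) ∨ Function.update t i k ≠ g ∧
        ((∀ j, (Function.update A i ((A i).erase (f i)) j).card ≤ 2) →
          (∑ j, if Function.update t i k j = g j then 0 else 1 : ZMod 2) = 1)) by
    obtain ⟨t, ht, k, hk, h1, h2⟩ := this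
    rw [← box_un (fi i)]
    exact h1.join (ih _ k1 (k2 3 (by omega) fun j _ => hA j) _ _ (box_mv ht hk) (box_in hg gE) h2)
      (box_adj t (mem_singleton.1 (box_mem.1 ht).1 ▸ ne_of_mem_erase hk)) (box_dis A i _)
  have up := fun f j z => box_sum (fun j n => if n = g j then 0 else 1) f j z
  have ne : ∀ t : Pt, (∑ j, if t j = g j then 0 else 1 : ZMod 2) = 1 → t ≠ g := by
    rintro t ht rfl
    simp only [↓ reduceIte, sum_const_zero, zero_ne_one] at ht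
  have mv : ∀ j z, j ≠ i → z ∈ A j → z ≠ f j → Function.update f j z i = f i ∧
      Function.update f j z ∈ Fintype.piFinset (Function.update A i {f i}) ∧
      Seg hm f (Function.update f j z) (Fintype.piFinset (Function.update A i {f i})) := by
    intro j z hj hz hzf
    have m := box_upd fL (i := j) (z := z) (by rwa [Function.update_of_ne hj])
    refine ⟨Function.update_of_ne hj.symm _ _, m, ih _ l1 (l2 3 (by omega) fun j _ => hA j) _ _ fL m
      (Or.inr ⟨(box_adj f hzf).ne, fun _ => ?_⟩)⟩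
    rw [sum_eq_single j (fun k _ hk => if_pos (Function.update_of_ne hk _ _).symm)
      (fun h => absurd (mem_univ j) h), Function.update_self, if_neg hzf.symm]
  by_cases H1 : ∀ j, j ≠ i → (A j).card ≤ 1
  · have s := ih _ l1 (l2 3 (by omega) fun j _ => hA j) _ _ fL fL (Or.inl (l2 1 le_rfl H1))
    by_cases H : 2 < (A i).card
    · obtain ⟨k, hk, h1, h2⟩ := box_third H (f i) (g i)
      have e : (∑ j, if Function.update f i k j = g j then 0 else 1 : ZMod 2) = 1 := by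
        rw [sum_eq_single i (fun j _ hj => if_pos (by
          rw [Function.update_of_ne hj]; exact card_le_one.1 (H1 j hj) _ (fi j) _ (gi j)))
          (fun h => absurd (mem_univ i) h), Function.update_self, if_neg h2]
      exact ⟨f, fL, k, mem_erase.2 ⟨h1, hk⟩, s, Or.inr ⟨ne _ e, fun _ => e⟩⟩
    · exact ⟨f, fL, _, gE, s, Or.inl (k2 1 (by omega) H1)⟩
  by_cases H2 : ∀ j, j ≠ i → (A j).card ≤ 2
  · push Not at H1
    obtain ⟨j, hj, h1⟩ := H1
    obtain ⟨z, hz, hzf⟩ := exists_mem_ne h1 (f j)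
    obtain ⟨e, m, s⟩ := mv j z hj hz hzf
    have e1 := up (Function.update f j z) i (g i)
    rw [e, if_neg hi, if_pos rfl, add_zero] at e1
    by_cases H : 2 < (A i).card
    · obtain ⟨k, hk, h1, h2⟩ := box_third H (f i) (g i)
      have e2 := up (Function.update f j z) i k
      rw [e, if_neg hi, if_neg h2, add_assoc, CharTwo.add_self_eq_zero, add_zero] at e2
      rcases box_z2 (∑ k, if Function.update f j z k = g k then 0 else 1) with h4 | h4
      · rw [← e2] at h4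
        exact ⟨_, m, k, mem_erase.2 ⟨h1, hk⟩, s, Or.inr ⟨ne _ h4, fun _ => h4⟩⟩
      · rw [← e1] at h4
        exact ⟨_, m, _, gE, s, Or.inr ⟨ne _ h4, fun _ => h4⟩⟩
    · have e2 := up f j z
      rw [hp fun k => (eq_or_ne k i).elim (fun h => h ▸ not_lt.1 H) (H2 k)] at e2
      have e3 : ((if f j = g j then 0 else 1) + if z = g j then 0 else 1 : ZMod 2) = 1 := by
        by_cases h4 : f j = g j
        · rw [if_pos h4, if_neg (h4 ▸ hzf), zero_add]
        · rw [if_neg h4, if_pos, add_zero]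
          by_contra h5
          exact absurd (two_lt_card_iff.2 ⟨_, _, _, hz, fi j, gi j, hzf, h5, h4⟩) (not_lt.2 (H2 j hj))
      rw [add_assoc, e3] at e2
      rw [e2, CharTwo.add_self_eq_zero, zero_add] at e1
      exact ⟨_, m, _, gE, s, Or.inr ⟨ne _ e1, fun _ => e1⟩⟩
  · push Not at H2
    obtain ⟨j, hj, h1⟩ := H2
    obtain ⟨z, hz, h4, h5⟩ := box_third h1 (f j) (g j)
    obtain ⟨-, m, s⟩ := mv j z hj hz h4
    refine ⟨_, m, _, gE, s, Or.inr ⟨fun e => h5 ?_, fun h => ?_⟩⟩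
    · rw [← congrFun e j, Function.update_of_ne hj, Function.update_self]
    · have := h j
      rw [Function.update_of_ne hj] at this
      omega

theorem lace (A : Kk → Finset ℕ) (hA : ∀ i, (A i).card ≤ 3) {f g : Pt}
    (hf : f ∈ Fintype.piFinset A) (hg : g ∈ Fintype.piFinset A) (h : f ≠ g)
    (hp : (∀ i, (A i).card ≤ 2) → (∑ i, if f i = g i then 0 else 1 : ZMod 2) = 1) :
    Seg hm f g (Fintype.piFinset A) :=
  box_lace _ A (Nat.lt_succ_self _) hA f g hf hg (Or.inr ⟨h, hp⟩)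

theorem box_lt {f : Pt} (hf : f ∈ bx τ) (i : Kk) : f i < τ i :=
  mem_range.1 (Fintype.mem_piFinset.1 hf i)

theorem box_bit {x y : ℕ} (hx : x < 2) (hy : y < 2) :
    (if x = y then 0 else 1 : ZMod 2) = x + y := by
  interval_cases x <;> interval_cases y <;> decide

theorem box_ne : ∀ x y : ZMod 2, (x ≠ y ↔ x + y = 1) ∧ (x ≠ y ↔ x = y + 1) := by decide

theorem col_adj (h : bp τ) {f g : Pt} (hf : f ∈ bx τ) (hg : g ∈ bx τ) (hfg : hm.Adj f g) :
    col g = col f + 1 := by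
  obtain ⟨i, h1, h2⟩ := hfg
  have e : g = Function.update f i (g i) :=
    Function.eq_update_iff.2 ⟨rfl, fun j hj => (h2 j hj).symm⟩
  rw [e, box_col, add_assoc, ← box_bit (h i ▸ box_lt hf i) (h i ▸ box_lt hg i), if_neg h1]

/-- a sub-box that is restricted at three coordinates only -/
structure box_Sb (τ : Pt) (a b c : Kk) (A : Kk → Finset ℕ) : Prop where
  two : ∀ i, τ i = 2 ∨ τ i = 3
  odd : bp τ ∨ ∃ j, j ≠ a ∧ j ≠ b ∧ j ≠ c ∧ τ j = 3
  sub : ∀ i, A i ⊆ range (τ i)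
  eq : ∀ i, i ≠ a → i ≠ b → i ≠ c → A i = range (τ i)

variable {A : Kk → Finset ℕ}

theorem box_Sb.mem (h : box_Sb τ a b c A) {f : Pt} (hf : f ∈ Fintype.piFinset A) : f ∈ bx τ :=
  Fintype.piFinset_subset _ _ h.sub hf

theorem box_Sb.upd (h : box_Sb τ a b c A) {i : Kk} (hi : i = a ∨ i = b ∨ i = c) {S : Finset ℕ}
    (hS : S ⊆ A i) : box_Sb τ a b c (Function.update A i S) :=
  ⟨h.two, h.odd, (Function.forall_update_iff A fun j S => S ⊆ range (τ j)).2
    ⟨hS.trans (h.sub i), fun j _ => h.sub j⟩, fun j h1 h2 h3 => by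
      rw [Function.update_of_ne (by rintro rfl; exact hi.elim h1 fun h => h.elim h2 h3),
        h.eq j h1 h2 h3]⟩

theorem box_top (h : Ud τ r v R) (hT : Tri R a b c) : box_Sb τ a b c fun i => range (τ i) :=
  ⟨h.two, h.odd.imp_right fun ⟨j, hj, e⟩ => ⟨j, fun e => hT.ha (e ▸ hj), fun e => hT.hb (e ▸ hj),
    fun e => hT.hc (e ▸ hj), e⟩, fun _ => Subset.rfl, fun _ _ _ _ => rfl⟩

theorem box_par (h : bp τ) {f g : Pt} (hf : f ∈ bx τ) (hg : g ∈ bx τ) (hc : col f ≠ col g) :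
    (∑ i, if f i = g i then 0 else 1 : ZMod 2) = 1 := by
  rw [sum_congr rfl fun i _ => box_bit (h i ▸ box_lt hf i) (h i ▸ box_lt hg i), sum_add_distrib]
  exact (box_ne _ _).1.1 hc

theorem box_Sb.lace (h : box_Sb τ a b c A) {f g : Pt} (hf : f ∈ Fintype.piFinset A)
    (hg : g ∈ Fintype.piFinset A) (hfg : f ≠ g) (hc : bp τ → col f ≠ col g) :
    Seg hm f g (Fintype.piFinset A) := by
  refine Lg.lace A (fun i => (card_le_card (h.sub i)).trans ?_) hf hg hfg fun h2 => ?_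
  · have := h.two i
    rw [card_range]; omega
  · obtain hb | ⟨j, h3, h4, h5, h6⟩ := h.odd
    · exact box_par hb (h.mem hf) (h.mem hg) (hc hb)
    · have := h2 j
      rw [h.eq j h3 h4 h5, card_range] at this
      omega

theorem box_free (a b c : Kk) {Q : Finset Kk} {m : ℕ} (h : Q.card + m ≤ 6) :
    m < (univ.filter fun i => i ≠ a ∧ i ≠ b ∧ i ≠ c ∧ i ∉ Q).card := by
  have h1 : (univ : Finset Kk) ⊆ (univ.filter fun i => i ≠ a ∧ i ≠ b ∧ i ≠ c ∧ i ∉ Q) ∪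
      insert a (insert b (insert c Q)) := fun i _ => by
    simp only [mem_union, mem_filter, mem_univ, true_and, mem_insert]
    by_contra h
    simp only [not_or] at h
    exact h.1 h.2
  have h2 := (card_le_card h1).trans (card_union_le _ _)
  have h3 := card_insert_le a (insert b (insert c Q))
  have h4 := card_insert_le b (insert c Q)
  have h5 := card_insert_le c Q
  rw [card_univ, Fintype.card_fin] at h2
  omega

theorem box_pt (two : ∀ i, τ i = 2 ∨ τ i = 3)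
    (eq : ∀ i, i ≠ a → i ≠ b → i ≠ c → A i = range (τ i)) {w : Pt} (hw : w ∈ Fintype.piFinset A)
    (h1 : Spc τ a b c Q q) (γ : ZMod 2) :
    ∃ t ∈ Fintype.piFinset A, w ≠ t ∧ (∀ i ∈ Q, t i = q i) ∧ col t = γ := by
  obtain ⟨i, hi, j, hj, hij⟩ := one_lt_card.1 (box_free a b c (Q := Q) (m := 1)
    (by have := h1.card; omega))
  obtain ⟨-, i1, i2, i3, i4⟩ := mem_filter.1 hi
  obtain ⟨-, j1, j2, j3, j4⟩ := mem_filter.1 hj
  have t0 : (fun k => if k ∈ Q then q k else w k) ∈ Fintype.piFinset A :=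
    Fintype.mem_piFinset.2 fun k => by
      split_ifs with hk
      · rw [eq k (fun e => h1.ha (e ▸ hk)) (fun e => h1.hb (e ▸ hk)) fun e => h1.hc (e ▸ hk)]
        exact mem_range.2 (h1.lt k hk)
      · exact Fintype.mem_piFinset.1 hw k
  obtain ⟨z, z1, z2⟩ : ∃ z, z < 2 ∧ w j ≠ z := by
    rcases eq_or_ne (w j) 0 with e | e
    · exact ⟨1, one_lt_two, by omega⟩
    · exact ⟨0, two_pos, e⟩
  have t1 := box_upd t0 (i := j) (z := z) (by
    have := two j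
    rw [eq j j1 j2 j3, mem_range]; omega)
  generalize ht : Function.update (fun k => if k ∈ Q then q k else w k) j z = t at t1
  refine ⟨Function.update t i (γ + col t + t i).val, box_upd t1 ?_, fun e => z2 ?_,
    fun k hk => ?_, ?_⟩
  · have := two i
    have := ZMod.val_lt (γ + col t + (t i : ZMod 2))
    rw [eq i i1 i2 i3, mem_range]; omega
  · rw [e, Function.update_of_ne hij.symm, ← ht, Function.update_self]
  · rw [Function.update_of_ne fun e : k = i => i4 (e ▸ hk), ← ht,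
      Function.update_of_ne fun e : k = j => j4 (e ▸ hk), if_pos hk]
  · rw [box_col, ZMod.natCast_zmod_val]
    linear_combination CharTwo.add_self_eq_zero (col t) + CharTwo.add_self_eq_zero (t i : ZMod 2)

theorem box_Sb.exit (h : box_Sb τ a b c A) {w : Pt} (hw : w ∈ Fintype.piFinset A)
    (h1 : Spc τ a b c Q q) (hγ : bp τ → γ ≠ col w) :
    ∃ t, Ex τ Q q γ t ∧ Seg hm w t (Fintype.piFinset A) := by
  obtain ⟨t, h2, h3, h4, h5⟩ := box_pt h.two h.eq hw h1 γ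
  exact ⟨t, ⟨h.mem h2, h4, h5⟩, h.lace hw h2 h3 fun hb => h5 ▸ (hγ hb).symm⟩

theorem u5 (h : ∀ i, τ i = 2 ∨ τ i = 3) {s s' : Pt} (hs : s ∈ bx τ) (hs' : s' ∈ bx τ)
    (hc : col s ≠ col s') : Seg hm s s' (bx τ) := by
  refine lace _ (fun i => ?_) hs hs' (fun e => hc (e ▸ rfl)) fun h2 => box_par (fun i => ?_) hs hs' hc
  · have := h i
    rw [card_range]; omega
  · have := h i
    have := h2 i
    rw [card_range] at this
    omega

theorem u0 (h : ∀ i, τ i = 2 ∨ τ i = 3) (h1 : Spc τ a b c Q q) (h2 : Spc τ a b c Q' q') :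
    ∃ t t', Ex τ Q q γ t ∧ Ex τ Q' q' (γ + 1) t' ∧ Seg hm t t' (bx τ) := by
  have h0 : (fun _ => 0) ∈ Fintype.piFinset fun i => range (τ i) :=
    Fintype.mem_piFinset.2 fun i => by have := h i; rw [mem_range]; omega
  obtain ⟨t, t1, -, t2, t3⟩ := box_pt h (fun _ _ _ _ => rfl) h0 h1 γ
  obtain ⟨t', s1, -, s2, s3⟩ := box_pt h (fun _ _ _ _ => rfl) h0 h2 (γ + 1)
  refine ⟨t, t', ⟨t1, t2, t3⟩, ⟨s1, s2, s3⟩, u5 h t1 s1 (Ne.symm ((box_ne _ _).2.2 ?_))⟩
  rw [t3, s3]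

theorem box_v (h : Ud τ r v R) (hT : Tri R a b c) (hA : box_Sb τ a b c A)
    (hr : r ∈ Fintype.piFinset A) : v ∈ Fintype.piFinset A ∧ hm.Adj r v := by
  obtain ⟨d, hd, h1, h2⟩ := h.dir
  refine ⟨Fintype.mem_piFinset.2 fun i => ?_, d, h1, h2⟩
  rcases eq_or_ne i d with rfl | e
  · rw [hA.eq i (fun e => hT.ha (e ▸ hd)) (fun e => hT.hb (e ▸ hd)) fun e => hT.hc (e ▸ hd)]
    exact mem_range.2 (box_lt h.hv i)
  · exact h2 i e ▸ Fintype.mem_piFinset.1 hr i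

theorem box_pop {x y : Pt} {X : Finset Pt} (h : Seg hm x y X) (hX : 2 ≤ X.card) :
    ∃ z, hm.Adj x z ∧ Seg hm z y (X.erase x) := by
  obtain ⟨z, h1, h2⟩ := Pth.pop h hX
  refine ⟨z, h1, ?_⟩
  unfold Seg
  rwa [card_erase_of_mem (Pth.left h), coe_erase]

theorem box_hole (h : Ud τ r v R) (hT : Tri R a b c) (hA : box_Sb τ a b c A)
    (hr : r ∈ Fintype.piFinset A) {H : Finset Pt} (hH : H = {r, v} ∨ (H = {r} ∧ ¬ bp τ)) :
    ∃ x y, x ≠ y ∧ (bp τ → col x ≠ col y) ∧ Seg hm x y (Fintype.piFinset A \ H) := by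
  obtain ⟨hv, hrv⟩ := box_v h hT hA hr
  have c0 := fun hb => col_adj hb h.hr h.hv hrv
  have s := hA.lace hr hv hrv.ne fun hb => ((box_ne _ _).2.2 (c0 hb)).symm
  have h4 : 4 ≤ (Fintype.piFinset A).card := by
    obtain ⟨i, hi, j, hj, hij⟩ := one_lt_card.1 (box_free a b c (Q := ∅) (m := 1) (by simp))
    obtain ⟨-, i1, i2, i3, -⟩ := mem_filter.1 hi
    obtain ⟨-, j1, j2, j3, -⟩ := mem_filter.1 hj
    rw [Fintype.card_piFinset]
    refine le_trans ?_ (prod_le_prod_of_subset_of_one_le' (subset_univ {i, j}) fun k _ _ =>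
      card_pos.2 ⟨_, Fintype.mem_piFinset.1 hr k⟩)
    rw [prod_pair hij, hA.eq i i1 i2 i3, hA.eq j j1 j2 j3, card_range, card_range]
    exact Nat.mul_le_mul (m₁ := 2) (n₁ := 2) (by have := h.two i; omega) (by have := h.two j; omega)
  have c1 := card_erase_of_mem hr
  obtain ⟨x, x1, x2⟩ := box_pop s (by omega)
  obtain rfl | ⟨rfl, hb⟩ := hH
  · obtain ⟨y, y1, y2⟩ := box_pop (x := v) (y := x) (Pth.rev x2) (by omega)
    have c2 := card_erase_of_mem (Pth.right x2 : v ∈ _)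
    refine ⟨y, x, ?_, fun hb => ?_, ?_⟩
    · rintro rfl
      have := Pth.eq_one y2
      omega
    · rw [col_adj hb h.hr (hA.mem (mem_of_mem_erase (Pth.left x2))) x1, ← c0 hb, col_adj hb h.hv
        (hA.mem (mem_of_mem_erase (mem_of_mem_erase (Pth.left y2)))) y1]
      exact (box_ne _ _).2.2 rfl
    · rwa [sdiff_insert, sdiff_singleton_eq_erase, erase_right_comm]
  · refine ⟨x, v, ?_, fun h => absurd h hb, by rwa [sdiff_singleton_eq_erase]⟩
    rintro rfl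
    have := Pth.eq_one x2
    omega

theorem box_sd {X Y H : Finset Pt} (hd : Disjoint X Y) (hH : H ⊆ X) :
    X \ H ∪ Y = (X ∪ Y) \ H := by
  rw [union_sdiff_distrib, sdiff_eq_self_of_disjoint (hd.symm.mono_right hH)]

theorem box_sub (h : Ud τ r v R) (hT : Tri R a b c) (hA : box_Sb τ a b c A)
    (hr : r ∈ Fintype.piFinset A) {H : Finset Pt} (hH : Hole τ r v H) : H ⊆ Fintype.piFinset A := by
  obtain rfl | rfl | ⟨rfl, -⟩ := hH
  · exact empty_subset _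
  · exact insert_subset hr (singleton_subset_iff.2 (box_v h hT hA hr).1)
  · exact singleton_subset_iff.2 hr

theorem box_u1 (h : Ud τ r v R) (hT : Tri R a b c) (hA : box_Sb τ a b c A)
    (hr : r ∈ Fintype.piFinset A) {m : ℕ} (hm' : m ∈ (A c).erase (r c)) {H : Finset Pt}
    (hH : Hole τ r v H) {s : Pt} (hs : s ∈ Fintype.piFinset A) (hsa : s a ≠ r a)
    (h1 : Spc τ a b c Q q) (hγ : bp τ → γ ≠ col s) :
    ∃ t, Ex τ Q q γ t ∧ Seg hm s t (Fintype.piFinset A \ H) := by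
  obtain rfl | hH' := id hH
  · rw [sdiff_empty]
    exact hA.exit hs h1 hγ
  have ra := Fintype.mem_piFinset.1 hr a
  have sa := mem_erase.2 ⟨hsa, Fintype.mem_piFinset.1 hs a⟩
  have A1 := hA.upd (Or.inl rfl) (erase_subset (r a) (A a))
  have A0 := hA.upd (Or.inl rfl) (singleton_subset_iff.2 ra)
  have r0 := box_in hr (mem_singleton_self (r a))
  have rc := Fintype.mem_piFinset.1 r0 c
  have A2 := A0.upd (Or.inr (Or.inr rfl)) (singleton_subset_iff.2 rc)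
  have A3 := A0.upd (Or.inr (Or.inr rfl)) (erase_subset (r c) _)
  have r2 := box_in r0 (mem_singleton_self (r c))
  have s1 := box_in hs sa
  have sub : ∀ {z}, z ∈ Fintype.piFinset (Function.update (Function.update A a {r a}) c {r c}) →
      z ∈ Fintype.piFinset (Function.update A a {r a}) := fun hz =>
    box_un rc ▸ mem_union_left _ hz
  have st : ∀ {z}, z ∈ Fintype.piFinset (Function.update (Function.update A a {r a}) c {r c}) →
      hm.Adj z (Function.update z a (s a)) := fun hz =>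
    box_adj _ (mem_singleton.1 (box_mem.1 (sub hz)).1 ▸ hsa)
  obtain ⟨z, y, z1, z2, z3⟩ : ∃ z y, s ≠ Function.update z a (s a) ∧
      (bp τ → col z = col s ∧ col z ≠ col y) ∧ Seg hm z y
        (Fintype.piFinset (Function.update (Function.update A a {r a}) c {r c}) \ H) := by
    obtain ⟨x, y, e1, e2, e3⟩ := box_hole h hT A2 r2 hH'
    have mx := (mem_sdiff.1 (Pth.left e3)).1
    have my := (mem_sdiff.1 (Pth.right e3)).1
    by_cases hb : bp τ
    · have k : ∀ {z}, z ∈ Fintype.piFinset (Function.update (Function.update A a {r a}) c {r c}) →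
          col z = col s → s ≠ Function.update z a (s a) := fun hz e e' =>
        (box_ne _ _).2.2 (col_adj hb (A2.mem hz) (hA.mem hs) (e' ▸ st hz)) e.symm
      by_cases e : col x = col s
      · exact ⟨x, y, k mx e, fun _ => ⟨e, e2 hb⟩, e3⟩
      · have e' : col y = col s :=
          add_right_cancel (((box_ne _ _).2.1 (e2 hb)).symm.trans ((box_ne _ _).2.1 e))
        exact ⟨y, x, k my e', fun _ => ⟨e', (e2 hb).symm⟩, Pth.rev e3⟩
    · by_cases e : s = Function.update x a (s a)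
      · refine ⟨y, x, fun e' => e1 (funext fun i => ?_), fun h => absurd h hb, Pth.rev e3⟩
        rcases eq_or_ne i a with rfl | hi
        · exact (mem_singleton.1 (box_mem.1 (sub mx)).1).trans
            (mem_singleton.1 (box_mem.1 (sub my)).1).symm
        · have := congrFun (e.symm.trans e') i
          rwa [Function.update_of_ne hi, Function.update_of_ne hi] at this
      · exact ⟨x, y, e, fun h => absurd h hb, e3⟩
  have mz := (mem_sdiff.1 (Pth.left z3)).1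
  have my := (mem_sdiff.1 (Pth.right z3)).1
  have z4 := box_mv (sub mz) sa
  have y4 := box_mv my (z := m) (S' := (Function.update A a {r a} c).erase (r c))
    (by rwa [Function.update_of_ne hT.ac.symm])
  have y5 : hm.Adj y (Function.update y c m) :=
    box_adj _ (mem_singleton.1 (box_mem.1 my).1 ▸ ne_of_mem_erase hm')
  have p1 := A1.lace s1 z4 z1 fun hb => by
    rw [col_adj hb (A2.mem mz) (A1.mem z4) (st mz), (z2 hb).1]
    exact ((box_ne _ _).2.2 rfl).symm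
  obtain ⟨t, t1, p3⟩ := A3.exit y4 h1 fun hb => by
    rw [col_adj hb (A2.mem my) (A3.mem y4) y5, ← (box_ne _ _).2.1 (z2 hb).2, (z2 hb).1]
    exact hγ hb
  have hs2 := box_sub h hT A2 r2 hH
  have p4 := z3.join p3 y5 ((box_dis _ c _).mono_left sdiff_subset)
  rw [box_sd (box_dis _ c _) hs2, box_un rc] at p4
  have p5 := p1.join p4 (st mz).symm ((box_dis A a _).symm.mono_right sdiff_subset)
  rw [union_comm, box_sd (box_dis A a _) fun _ hz => sub (hs2 hz), box_un ra] at p5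
  exact ⟨t, t1, p5⟩

theorem box_oth (h : Ud τ r v R) (c : Kk) : ∃ m, m ∈ (range (τ c)).erase (r c) := by
  obtain ⟨m, h1, h2⟩ := exists_mem_ne (s := range (τ c))
    (by have := h.two c; rw [card_range]; omega) (r c)
  exact ⟨m, mem_erase.2 ⟨h2, h1⟩⟩

theorem u1 (h : Ud τ r v R) (hT : Tri R a b c) {H : Finset Pt} (hH : Hole τ r v H) {s : Pt}
    (hs : s ∈ bx τ) (hsa : s a ≠ r a) (h1 : Spc τ a b c Q q) (hγ : bp τ → γ ≠ col s) :
    ∃ t, Ex τ Q q γ t ∧ Seg hm s t (bx τ \ H) :=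
  (box_oth h c).elim fun _ hm' => box_u1 h hT (box_top h hT) h.hr hm' hH hs hsa h1 hγ

theorem box_cut (h : Ud τ r v R) (hT : Tri R a b c) {i : Kk} (hi : i = a ∨ i = b ∨ i = c) :
    ∃ L C, box_Sb τ a b c L ∧ box_Sb τ a b c C ∧ (∀ j, j ≠ i → L j = range (τ j)) ∧
      (∀ s ∈ bx τ, (s i = r i → s ∈ Fintype.piFinset L) ∧ (s i ≠ r i → s ∈ Fintype.piFinset C)) ∧
      Disjoint (Fintype.piFinset L) (Fintype.piFinset C) ∧
      Fintype.piFinset L ∪ Fintype.piFinset C = bx τ :=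
  have ri := Fintype.mem_piFinset.1 h.hr i
  ⟨_, _, (box_top h hT).upd hi (singleton_subset_iff.2 ri),
    (box_top h hT).upd hi (erase_subset (r i) _), fun _ hj => Function.update_of_ne hj _ _,
    fun _ hs => ⟨fun e => box_in hs (mem_singleton.2 e),
      fun e => box_in hs (mem_erase.2 ⟨e, Fintype.mem_piFinset.1 hs i⟩)⟩, box_dis _ _ _, box_un ri⟩

theorem u2 (h : Ud τ r v R) (hT : Tri R a b c) {H : Finset Pt} (hH : Hole τ r v H) {s s' : Pt}
    (hs : s ∈ bx τ) (hs' : s' ∈ bx τ) (hp : Pat a b c r s s') (h1 : Spc τ a b c Q q)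
    (h2 : Spc τ a b c Q' q') (hγ : bp τ → γ ≠ col s) (hγ' : bp τ → γ' ≠ col s') :
    ∃ t t', Ex τ Q q γ t ∧ Ex τ Q' q' γ' t' ∧ Tw s t s' t' (bx τ \ H) := by
  obtain ⟨L, C, hL, hC, e, k, d, u⟩ := box_cut h hT (Or.inr (Or.inl rfl))
  obtain ⟨m, hm'⟩ := box_oth h c
  have rL := (k r h.hr).1 rfl
  obtain ⟨t, t1, t2⟩ := box_u1 h hT hL rL (by rw [e c hT.bc.symm]; exact hm') hH
    ((k s hs).1 hp.2.2.1) hp.1 h1 hγ
  obtain ⟨t', s1, s2⟩ := hC.exit ((k s' hs').2 hp.2.2.2.1) h2 hγ'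
  exact ⟨t, t', t1, s1, _, _, t2, s2, d.mono_left sdiff_subset, by
    rw [box_sd d (box_sub h hT hL rL hH), u]⟩

theorem u3 (h : Ud τ r v R) (hT : Tri R a b c) {s p : Pt} (hs : s ∈ bx τ) (hsa : s a ≠ r a)
    (hp : p = r ∨ p = v) (h1 : Spc τ a b c Q q) (h2 : Spc τ a b c Q' q')
    (hγ : bp τ → γ ≠ col s) (hγ' : bp τ → γ' ≠ col p) :
    ∃ t t', Ex τ Q q γ t ∧ Ex τ Q' q' γ' t' ∧ Tw s t p t' (bx τ) := by
  obtain ⟨L, C, hL, hC, -, k, d, u⟩ := box_cut h hT (Or.inl rfl)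
  have rL := (k r h.hr).1 rfl
  obtain ⟨t, t1, t2⟩ := hC.exit ((k s hs).2 hsa) h1 hγ
  obtain ⟨t', s1, s2⟩ := hL.exit (w := p)
    (hp.elim (fun e => e ▸ rL) fun e => e ▸ (box_v h hT hL rL).1) h2 hγ'
  exact ⟨t, t', t1, s1, _, _, t2, s2, d.symm, by rw [union_comm, u]⟩

theorem u4 (h : Ud τ r v R) (hT : Tri R a b c) {s s' : Pt} (hs : s ∈ bx τ) (hs' : s' ∈ bx τ)
    (hp : Pat a b c r s s') (hc : col s ≠ col r) (hc' : col s' = col r) (h1 : Spc τ a b c Q q)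
    (hγ : γ ≠ col r) :
    (∃ t, Ex τ Q q γ t ∧ Tw s s' r t (bx τ)) ∧ ∃ t, Ex τ Q q γ t ∧ Tw s r s' t (bx τ) := by
  constructor
  · obtain ⟨L, C, hL, hC, -, k, d, u⟩ := box_cut h hT (Or.inl rfl)
    obtain ⟨t, t1, t2⟩ := hL.exit ((k r h.hr).1 rfl) h1 fun _ => hγ
    exact ⟨t, t1, _, _, hC.lace ((k s hs).2 hp.1) ((k s' hs').2 (hp.2.1 ▸ hp.1))
      (fun e => hc (e ▸ hc')) fun _ => hc' ▸ hc, t2, d.symm, by rw [union_comm, u]⟩
  · obtain ⟨L, C, hL, hC, -, k, d, u⟩ := box_cut h hT (Or.inr (Or.inl rfl))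
    obtain ⟨t, t1, t2⟩ := hC.exit ((k s' hs').2 hp.2.2.2.1) h1 fun _ => hc' ▸ hγ
    exact ⟨t, t1, _, _, hL.lace ((k s hs).1 hp.2.2.1) ((k r h.hr).1 rfl)
      (fun e => hc (e ▸ rfl)) fun _ => hc, t2, d, u⟩

theorem nxt {τ' r' : Pt} {R' : Finset Kk} {j : Kk} {k k' : ℕ} (h : ∀ i, τ' i = 2 ∨ τ' i = 3)
    (hr : r' ∈ bx τ') (hR : R'.card ≤ 3) (hτ : ∀ i, i ≠ j → τ i = τ' i) (hk : k < τ j)
    (hk' : k' < τ' j) (ha : a ≠ j) (hb : b ≠ j) (hc : c ≠ j) :
    ∃ a' b' c' Q q q', Tri R' a' b' c' ∧ Spc τ a b c Q q ∧ Spc τ a b c Q q' ∧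
      (∀ γ t, Ex τ Q q γ t ∨ Ex τ Q q' γ t → t j = k ∧ Function.update t j k' ∈ bx τ' ∧
        col (Function.update t j k') = γ + k + k') ∧
      (∀ γ t, Ex τ Q q γ t → Function.update t j k' a' ≠ r' a') ∧
      ∀ γ t γ' t', Ex τ Q q γ t → Ex τ Q q' γ' t' →
        Pat a' b' c' r' (Function.update t j k') (Function.update t' j k') := by
  obtain ⟨a', b', c', h1, h2, h3, ab, ac, bc⟩ := two_lt_card_iff.1 (box_free a b c
    (Q := insert j R') (m := 2) (by have := card_insert_le j R'; omega))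
  simp only [mem_filter, mem_univ, true_and, mem_insert, not_or] at h1 h2 h3
  obtain ⟨a1, a2, a3, a4, a5⟩ := h1
  obtain ⟨b1, b2, b3, b4, b5⟩ := h2
  obtain ⟨c1, c2, c3, c4, c5⟩ := h3
  obtain ⟨ν, n1, n2⟩ : ∃ ν : Pt, (∀ i, ν i < 2) ∧ ∀ i, ν i ≠ r' i :=
    ⟨fun i => if r' i = 0 then 1 else 0, fun i => by dsimp only; split_ifs <;> omega,
      fun i => by dsimp only; split_ifs <;> omega⟩
  have sp : ∀ d, Spc τ a b c {j, a', b', c'}
      (Function.update (Function.update ν d (r' d)) j k) := fun d => by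
    refine ⟨card_le_four, ?_, ?_, ?_, fun i _ => ?_⟩
    · simp only [mem_insert, mem_singleton, not_or]; exact ⟨ha, Ne.symm a1, Ne.symm b1, Ne.symm c1⟩
    · simp only [mem_insert, mem_singleton, not_or]; exact ⟨hb, Ne.symm a2, Ne.symm b2, Ne.symm c2⟩
    · simp only [mem_insert, mem_singleton, not_or]; exact ⟨hc, Ne.symm a3, Ne.symm b3, Ne.symm c3⟩
    rcases eq_or_ne i j with rfl | e
    · rwa [Function.update_self]
    rw [Function.update_of_ne e, hτ i e]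
    rcases eq_or_ne i d with rfl | e'
    · rw [Function.update_self]; exact box_lt hr i
    · have := h i
      have := n1 i
      rw [Function.update_of_ne e']; omega
  have ev : ∀ {d γ t}, Ex τ {j, a', b', c'} (Function.update (Function.update ν d (r' d)) j k) γ t →
      (t j = k ∧ Function.update t j k' ∈ bx τ' ∧ col (Function.update t j k') = γ + k + k') ∧
      ∀ i ∈ ({j, a', b', c'} : Finset Kk), i ≠ j →
        Function.update t j k' i = Function.update ν d (r' d) i := by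
    intro d γ t ⟨t1, t2, t3⟩
    have e := (t2 j (mem_insert_self _ _)).trans (Function.update_self _ _ _)
    refine ⟨⟨e, Fintype.mem_piFinset.2 ((Function.forall_update_iff t fun i n =>
      n ∈ range (τ' i)).2 ⟨mem_range.2 hk', fun i hi => mem_range.2 (hτ i hi ▸ box_lt t1 i)⟩),
      by rw [box_col, t3, e]⟩, fun i hi hj => ?_⟩
    rw [Function.update_of_ne hj, t2 i hi, Function.update_of_ne hj]
  have ma : a' ∈ ({j, a', b', c'} : Finset Kk) := by simp only [mem_insert, true_or, or_true]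
  have mb : b' ∈ ({j, a', b', c'} : Finset Kk) := by simp only [mem_insert, true_or, or_true]
  have mc : c' ∈ ({j, a', b', c'} : Finset Kk) := by
    simp only [mem_insert, mem_singleton, or_true]
  refine ⟨a', b', c', _, _, _, ⟨ab, ac, bc, a5, b5, c5⟩, sp b', sp c',
    fun γ t ht => ht.elim (fun h => (ev h).1) fun h => (ev h).1, fun γ t ht => ?_,
    fun γ t γ' t' ht ht' => ?_⟩
  · rw [(ev ht).2 _ ma a4, Function.update_of_ne ab]
    exact n2 _
  · unfold Pat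
    rw [(ev ht).2 _ ma a4, (ev ht).2 _ mb b4, (ev ht).2 _ mc c4, (ev ht').2 _ ma a4,
      (ev ht').2 _ mb b4, (ev ht').2 _ mc c4, Function.update_of_ne ab, Function.update_of_ne ac,
      Function.update_self, Function.update_self, Function.update_of_ne bc,
      Function.update_of_ne bc.symm]
    exact ⟨n2 _, rfl, rfl, n2 _, rfl, n2 _⟩

end Pool.Agent.MP_e46b50_co.H93.Lg

namespace Pool.Agent.MP_e46b50_co.H93.Lg

open Finset
open scoped Classical

section cover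

variable {β : Type} [DecidableEq β] {Γ : SimpleGraph β}

omit [DecidableEq β] in
theorem swp_eq {f : β} {X : Finset β} (h : Seg Γ f f X) : X = {f} := by
  obtain ⟨g, rfl⟩ := card_eq_one.mp (Pth.eq_one h)
  rw [mem_singleton.mp (Pth.left h)]

theorem swp_pop {f g : β} {X : Finset β} (h : Seg Γ f g X) (hfg : f ≠ g) :
    ∃ c, Γ.Adj f c ∧ Seg Γ c g (X.erase f) := by
  obtain ⟨c, h1, h2⟩ := Pth.pop h (one_lt_card.mpr ⟨f, Pth.left h, g, Pth.right h, hfg⟩)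
  exact ⟨c, h1, by rwa [Seg, card_erase_of_mem (Pth.left h), coe_erase]⟩

theorem swp_seg {f g : β} {E : Multiset β} {S T : Finset β} (h : Cv Γ E S) (hs : Seg Γ f g T)
    (hd : Disjoint S T) : Cv Γ (f ::ₘ g ::ₘ E) (S ∪ T) := by
  obtain ⟨M, h1, rfl⟩ := h
  exact ⟨(f, g) :: M, ⟨T, S, hs, h1, hd.symm, union_comm _ _⟩, rfl⟩

theorem swp_ext {u x f g : β} {M : List (β × β)} {S T : Finset β} (h : Cov Γ ((u, x) :: M) S)
    (hx : Γ.Adj x f) (hs : Seg Γ f g T) (hd : Disjoint S T) : Cov Γ ((u, g) :: M) (S ∪ T) :=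
  Cov.merge (Cov.comm (e := (g, f)) ⟨T, S, Pth.rev hs, h, hd.symm, union_comm _ _⟩) hx

theorem swp_thru {x f g : β} {E : Multiset β} {S T : Finset β} (h : Cv Γ (x ::ₘ E) S)
    (hx : Γ.Adj x f) (hs : Seg Γ f g T) (hd : Disjoint S T) : Cv Γ (g ::ₘ E) (S ∪ T) := by
  obtain ⟨u, M, h1, rfl⟩ := h.pick
  exact Cv.of (swp_ext h1 hx hs hd)

theorem swp_split {x y z : β} {E : Multiset β} {S : Finset β} (h : Cv Γ (x ::ₘ y ::ₘ z ::ₘ E) S) :
    (∀ f g T, Γ.Adj x f → Γ.Adj y g → Seg Γ f g T → Disjoint S T → Cv Γ (z ::ₘ E) (S ∪ T)) ∨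
      ∀ f g T, Γ.Adj x f → Γ.Adj z g → Seg Γ f g T → Disjoint S T → Cv Γ (y ::ₘ E) (S ∪ T) := by
  have key : ∀ {y z u : β} {M : List (β × β)}, Cov Γ ((u, x) :: M) S → y ∈ ends M →
      u ::ₘ ends M = y ::ₘ z ::ₘ E →
      ∀ f g T, Γ.Adj x f → Γ.Adj y g → Seg Γ f g T → Disjoint S T → Cv Γ (z ::ₘ E) (S ∪ T) := by
    intro y z u M h1 hy h2 f g T a1 a2 a3 a4
    obtain ⟨v, M', h3, h4⟩ := Cov.pick (Γ := Γ) hy
    obtain ⟨T', S', h5, h6, h7⟩ := swp_ext h1 a1 a3 a4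
    refine ⟨(u, v) :: M', Cov.merge ⟨T', S', h5, h4 S' h6, h7⟩ a2.symm, ?_⟩
    rw [h3, Multiset.cons_swap v, Multiset.cons_swap u] at h2
    exact (Multiset.cons_inj_right _).mp h2
  obtain ⟨u, M, h1, h2⟩ := h.pick
  by_cases hu : u = y
  · refine Or.inr (key h1 ?_ (h2.trans (Multiset.cons_swap _ _ _)))
    rw [hu, Multiset.cons_inj_right] at h2
    exact h2 ▸ Multiset.mem_cons_self _ _
  · exact Or.inl (key h1 ((Multiset.mem_cons.mp (h2 ▸ Multiset.mem_cons_self _ _)).resolve_left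
      (Ne.symm hu)) h2)

theorem swp_all {σ : Type} (x pe : σ → β) (D : σ → Finset β) (E : Finset σ) :
    ∀ (E₀ : Multiset β) (S : Finset β), Cv Γ (E.val.map x + E₀) S →
      (∀ s ∈ E, (∃ w, Γ.Adj (x s) w ∧ Seg Γ w (pe s) (D s)) ∧ Disjoint S (D s)) →
      (∀ s ∈ E, ∀ s' ∈ E, s ≠ s' → Disjoint (D s) (D s')) →
      Cv Γ (E.val.map pe + E₀) (S ∪ E.biUnion D) := by
  induction E using Finset.induction_on with
  | empty => intro E₀ S h _ _; simpa using h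
  | insert s E hs ih =>
    intro E₀ S h h1 h2
    rw [insert_val_of_notMem hs, Multiset.map_cons, Multiset.cons_add] at h ⊢
    obtain ⟨⟨w, a1, a2⟩, a3⟩ := h1 s (mem_insert_self _ _)
    have := swp_thru h a1 a2 a3
    rw [← Multiset.add_cons] at this ⊢
    rw [biUnion_insert, ← union_assoc]
    exact ih _ _ this (fun t ht => ⟨(h1 t (mem_insert_of_mem ht)).1, disjoint_union_left.mpr
      ⟨(h1 t (mem_insert_of_mem ht)).2, h2 s (mem_insert_self _ _) t (mem_insert_of_mem ht)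
        fun e => hs (e ▸ ht)⟩⟩)
      fun t ht t' ht' => h2 t (mem_insert_of_mem ht) t' (mem_insert_of_mem ht')

end cover

variable {β U σ : Type} [DecidableEq β] {Γ : SimpleGraph β} {C : Finset β} {F : Finset U}
  {un : β → U} {ps : β → Pt} {τ : U → Pt} {e : U → Pt → β} {ct : β → Finset β}

def cn (e : U → Pt → β) (ct : β → Finset β) (u : U) (X : Finset Pt) : Finset β :=
  X.biUnion fun f => ct (e u f)

def Ent (Γ : SimpleGraph β) (τ : U → Pt) (e : U → Pt → β) (r : Pt) (u : U) (R : Finset Kk) :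
    Option (ZMod 2) → Multiset β → Prop
  | some c, E₀ => ∃ a b d s x, Tri R a b d ∧ s ∈ bx (τ u) ∧ col s = c ∧ s a ≠ r a ∧
      Γ.Adj x (e u s) ∧ E₀ = x ::ₘ 0
  | none, E₀ => ∃ a b d s s' x x', Tri R a b d ∧ s ∈ bx (τ u) ∧ s' ∈ bx (τ u) ∧ col s ≠ col s' ∧
      Pat a b d r s s' ∧ Γ.Adj x (e u s) ∧ Γ.Adj x' (e u s') ∧ E₀ = x ::ₘ x' ::ₘ 0

def Nx (Γ : SimpleGraph β) (τ : U → Pt) (e : U → Pt → β) (u : U) (j : Kk) (δ : ZMod 2) (r : Pt)
    (u' : U) (R : Finset Kk) : Prop :=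
  ∀ a b d, a ≠ j → b ≠ j → d ≠ j → ∃ Q q q', Spc (τ u) a b d Q q ∧ Spc (τ u) a b d Q q' ∧
    (∀ γ t, Ex (τ u) Q q γ t → Ent Γ τ e r u' R (some (γ + δ)) (e u t ::ₘ 0)) ∧
    ∀ γ t γ' t', Ex (τ u) Q q γ t → Ex (τ u) Q q' γ' t' → γ ≠ γ' →
      Ent Γ τ e r u' R none (e u t ::ₘ e u t' ::ₘ 0)

omit [DecidableEq β] in
theorem swp_nx {u u' : U} (h : Lk Γ τ e u u') (h2 : ∀ i, τ u' i = 2 ∨ τ u' i = 3) {r : Pt}
    (hr : r ∈ bx (τ u')) {R : Finset Kk} (hR : R.card ≤ 3) : ∃ j δ, Nx Γ τ e u j δ r u' R := by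
  obtain ⟨j, k, k', h3, h4, h5, h6⟩ := h
  refine ⟨j, k + k', fun a b d ha hb hd => ?_⟩
  obtain ⟨a', b', d', Q, q, q', c1, c2, c3, c4, c5, c6⟩ := nxt h2 hr hR h5 h3 h4 ha hb hd
  refine ⟨Q, q, q', c2, c3, fun γ t ht => ?_, fun γ t γ' t' ht ht' hγ => ?_⟩
  · obtain ⟨d1, d2, d3⟩ := c4 γ t (Or.inl ht)
    exact ⟨a', b', d', _, _, c1, d2, d3.trans (add_assoc _ _ _), c5 γ t ht, h6 t ht.1 d1, rfl⟩
  · obtain ⟨d1, d2, d3⟩ := c4 γ t (Or.inl ht)
    obtain ⟨e1, e2, e3⟩ := c4 γ' t' (Or.inr ht')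
    exact ⟨a', b', d', _, _, _, _, c1, d2, e2, by simpa [d3, e3] using hγ, c6 γ t γ' t' ht ht',
      h6 t ht.1 d1, h6 t' ht'.1 e1, rfl⟩

theorem cn_union (u : U) (X X' : Finset Pt) : cn e ct u (X ∪ X') = cn e ct u X ∪ cn e ct u X' :=
  union_biUnion

variable (ch : Ch C F un ps τ e) (cs : Cs Γ C un ps τ ct)
include ch cs

theorem cn_dis {u u' : U} (hu : u ∈ F) (hu' : u' ∈ F) {X X' : Finset Pt} (hX : X ⊆ bx (τ u))
    (hX' : X' ⊆ bx (τ u')) (h : u ≠ u' ∨ Disjoint X X') :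
    Disjoint (cn e ct u X) (cn e ct u' X') := by
  simp only [cn, disjoint_biUnion_left, disjoint_biUnion_right]
  intro f' hf' f hf
  obtain ⟨a1, a2, a3⟩ := ch.c2 u hu f (hX hf)
  obtain ⟨b1, b2, b3⟩ := ch.c2 u' hu' f' (hX' hf')
  refine cs.dis _ a1 _ b1 fun h' => h.elim (fun h => h (by rw [← a2, h', b2])) fun h =>
    disjoint_left.mp h hf ?_
  rwa [← a3, h', b3]

omit cs [DecidableEq β] in
theorem swp_eg {u : U} (hu : u ∈ F) {f g : Pt} (hf : f ∈ bx (τ u)) (hg : g ∈ bx (τ u))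
    (h : hm.Adj f g) : Eg C un ps (e u f) (e u g) := by
  obtain ⟨a1, a2, a3⟩ := ch.c2 u hu f hf
  obtain ⟨b1, b2, b3⟩ := ch.c2 u hu g hg
  exact ⟨a1, b1, a2.trans b2.symm, by rwa [a3, b3]⟩

theorem swp_lift {u : U} (hu : u ∈ F) {g : Pt} (X : Finset Pt) : ∀ f, X ⊆ bx (τ u) →
    Seg hm f g X → (bp (τ u) → col g ≠ col f) → Seg Γ (e u f) (e u g) (cn e ct u X) := by
  induction X using Finset.strongInduction with
  | H X ih =>
  intro f hX h hc
  have hf : f ∈ X := Pth.left h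
  have one : ¬ bp (τ u) → cn e ct u {f} = {e u f} := fun hb => by
    obtain ⟨a1, a2, -⟩ := ch.c2 u hu f (hX hf)
    rw [cn, singleton_biUnion, (cs.nb _ a1).resolve_left (a2.symm ▸ hb)]
  by_cases hfg : f = g
  · subst hfg
    rw [swp_eq h, one fun hb => hc hb rfl]
    exact Seg.single _
  obtain ⟨c, h1, h2⟩ := swp_pop h hfg
  have hc' : c ∈ X.erase f := Pth.left h2
  have eg := cs.adj _ _ (swp_eg ch hu (hX hf) (hX (mem_of_mem_erase hc')) h1)
  by_cases hb : bp (τ u)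
  swap
  · rw [← insert_erase hf, insert_eq, cn_union]
    exact Seg.join (one hb ▸ Seg.single _) (ih _ (erase_ssubset hf) c ((erase_subset _ _).trans hX)
      h2 fun h => absurd h hb) eg.1 (cn_dis ch cs hu hu (singleton_subset_iff.mpr (hX hf))
      ((erase_subset _ _).trans hX) (Or.inr (by simp)))
  have two : cn e ct u {f, c} = ct (e u f) ∪ ct (e u c) := by simp [cn]
  by_cases hcg : c = g
  · subst hcg
    rw [← insert_erase hf, swp_eq h2, two]
    exact eg.2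
  obtain ⟨d, h3, h4⟩ := swp_pop h2 hcg
  have hs : (X.erase f).erase c ⊆ X := (erase_subset _ _).trans (erase_subset _ _)
  have hd : d ∈ X := hs (Pth.left h4)
  have hcX := mem_of_mem_erase hc'
  rw [show X = {f, c} ∪ (X.erase f).erase c by
    rw [insert_union, ← insert_eq, insert_erase hc', insert_erase hf], cn_union]
  refine Seg.join (two ▸ eg.2) (ih _ ((erase_subset _ _).trans_ssubset (erase_ssubset hf)) d
    (hs.trans hX) h4 fun _ => ?_) (cs.adj _ _ (swp_eg ch hu (hX hcX) (hX hd) h3)).1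
    (cn_dis ch cs hu hu (insert_subset (hX hf) (singleton_subset_iff.mpr (hX hcX))) (hs.trans hX)
      (Or.inr (by simp)))
  rw [col_adj hb (hX hcX) (hX hd) h3, col_adj hb (hX hf) (hX hcX) h1, add_assoc,
    show (1 + 1 : ZMod 2) = 0 from rfl, add_zero]
  exact hc hb

theorem swp_tw {u : U} (hu : u ∈ F) {s t s' t' : Pt} {X : Finset Pt} (hX : X ⊆ bx (τ u))
    (h : Tw s t s' t' X) (hc : bp (τ u) → col t ≠ col s) (hc' : bp (τ u) → col t' ≠ col s')
    {S : Finset β} (hd : Disjoint S (cn e ct u X)) : ∃ T T', Seg Γ (e u s) (e u t) T ∧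
      Seg Γ (e u s') (e u t') T' ∧ Disjoint S T ∧ Disjoint (S ∪ T) T' ∧
      S ∪ T ∪ T' = S ∪ cn e ct u X := by
  obtain ⟨Y, Y', h1, h2, h3, rfl⟩ := h
  rw [cn_union, disjoint_union_right] at hd
  rw [union_subset_iff] at hX
  exact ⟨_, _, swp_lift ch cs hu Y s hX.1 h1 hc, swp_lift ch cs hu Y' s' hX.2 h2 hc', hd.1,
    disjoint_union_left.mpr ⟨hd.2, cn_dis ch cs hu hu hX.1 hX.2 (Or.inr h3)⟩,
    by rw [cn_union, union_assoc]⟩

section step

variable {u u' : U} (hu : u ∈ F) {r v r' : Pt} {R R' : Finset Kk} (ud : Ud (τ u) r v R) {j : Kk}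
  (hj : j ∈ R) {δ : ZMod 2} (nx : Nx Γ τ e u j δ r' u' R')
include hu ud hj nx

theorem swp_stepN (st : Option (ZMod 2)) : ∃ st', ∀ H S E E₀, Hole (τ u) r v H →
    Ent Γ τ e r u R st E₀ → Cv Γ (E₀ + E) S → Disjoint S (cn e ct u (bx (τ u) \ H)) →
    ∃ E₁, Ent Γ τ e r' u' R' st' E₁ ∧ Cv Γ (E₁ + E) (S ∪ cn e ct u (bx (τ u) \ H)) := by
  have n1 : ∀ c : ZMod 2, c + 1 ≠ c := by decide
  rcases st with _ | c
  · refine ⟨none, ?_⟩
    rintro H S E _ hH ⟨a, b, d, s, s', x, x', t, a1, a2, a3, a4, a5, a6, rfl⟩ h hd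
    obtain ⟨Q, q, q', b1, b2, -, b3⟩ := nx a b d (fun e => t.ha (e ▸ hj)) (fun e => t.hb (e ▸ hj))
      fun e => t.hc (e ▸ hj)
    obtain ⟨w, w', c1, c2, c3⟩ := u2 ud t hH a1 a2 a4 b1 b2 (fun _ => n1 _) fun _ => n1 _
    obtain ⟨T, T', d1, d2, d3, d4, d5⟩ := swp_tw ch cs hu sdiff_subset c3
      (fun _ => c1.2.2 ▸ n1 _) (fun _ => c2.2.2 ▸ n1 _) hd
    refine ⟨_, b3 _ _ _ _ c1 c2 (by simpa using a3), ?_⟩
    simp only [Multiset.cons_add] at h ⊢
    have := swp_thru (Multiset.cons_swap _ _ _ ▸ swp_thru h a5 d1 d3) a6 d2 d4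
    rwa [d5, Multiset.cons_swap] at this
  · refine ⟨some (c + 1 + δ), ?_⟩
    rintro H S E _ hH ⟨a, b, d, s, x, t, a1, rfl, a3, a4, rfl⟩ h hd
    obtain ⟨Q, q, q', b1, -, b3, -⟩ := nx a b d (fun e => t.ha (e ▸ hj)) (fun e => t.hb (e ▸ hj))
      fun e => t.hc (e ▸ hj)
    obtain ⟨w, c1, c2⟩ := u1 ud t hH a1 a3 b1 fun _ => n1 _
    refine ⟨_, b3 _ _ c1, ?_⟩
    simp only [Multiset.cons_add] at h ⊢
    exact swp_thru h a4 (swp_lift ch cs hu _ _ sdiff_subset c2 fun _ => c1.2.2 ▸ n1 _) hd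

theorem swp_stepP (st : Option (ZMod 2)) : ∃ (o : Bool) (st' : Option (ZMod 2)), ∀ S E E₀ z,
    Γ.Adj z (e u (if o then r else v)) →
    Ent Γ τ e r u R st E₀ → Cv Γ (E₀ + z ::ₘ E) S → Disjoint S (cn e ct u (bx (τ u))) →
    ∃ E₁, Ent Γ τ e r' u' R' st' E₁ ∧ Cv Γ (E₁ + E) (S ∪ cn e ct u (bx (τ u))) := by
  have n1 : ∀ c : ZMod 2, c + 1 ≠ c := by decide
  rcases st with _ | c
  · refine ⟨true, some (col r + 1 + δ), ?_⟩
    suffices key : ∀ S E z a b d s s' x x', Γ.Adj z (e u r) → Tri R a b d → s ∈ bx (τ u) →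
        s' ∈ bx (τ u) → col s ≠ col r → col s' = col r → Pat a b d r s s' → Γ.Adj x (e u s) →
        Γ.Adj x' (e u s') → Cv Γ (x ::ₘ x' ::ₘ z ::ₘ E) S → Disjoint S (cn e ct u (bx (τ u))) →
        ∃ E₁, Ent Γ τ e r' u' R' (some (col r + 1 + δ)) E₁ ∧
          Cv Γ (E₁ + E) (S ∪ cn e ct u (bx (τ u))) by
      rintro S E _ z hz ⟨a, b, d, s, s', x, x', t, a1, a2, a3, a4, a5, a6, rfl⟩ h hd
      simp only [Multiset.cons_add, zero_add] at h
      have n2 : ∀ c c' c'' : ZMod 2, c ≠ c' → c ≠ c'' → c' = c'' := by decide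
      by_cases hc : col s = col r
      · exact key S E z a d b s' s x' x hz ⟨t.ac, t.ab, t.bc.symm, t.ha, t.hc, t.hb⟩ a2 a1
          (hc ▸ a3.symm) hc ⟨a4.2.1 ▸ a4.1, a4.2.1.symm, a4.2.2.2.2.1, a4.2.2.2.2.2, a4.2.2.1,
            a4.2.2.2.1⟩ a6 a5 (Multiset.cons_swap _ _ _ ▸ h) hd
      · exact key S E z a b d s s' x x' hz t a1 a2 hc (n2 _ _ _ a3 hc) a4 a5 a6 h hd
    intro S E z a b d s s' x x' hz t a1 a2 a3 a3' a4 a5 a6 h hd
    obtain ⟨Q, q, q', b1, -, b3, -⟩ := nx a b d (fun e => t.ha (e ▸ hj)) (fun e => t.hb (e ▸ hj))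
      fun e => t.hc (e ▸ hj)
    obtain ⟨⟨w, c1, c2⟩, w', c3, c4⟩ := u4 ud t a1 a2 a4 a3 a3' b1 (n1 _)
    rcases swp_split h with k | k
    · obtain ⟨T, T', d1, d2, d3, d4, d5⟩ := swp_tw ch cs hu Subset.rfl c2
        (fun _ => a3' ▸ a3.symm) (fun _ => c1.2.2 ▸ n1 _) hd
      refine ⟨_, b3 _ _ c1, ?_⟩
      simpa only [Multiset.cons_add, zero_add, d5] using swp_thru (k _ _ _ a5 a6 d1 d3) hz d2 d4
    · obtain ⟨T, T', d1, d2, d3, d4, d5⟩ := swp_tw ch cs hu Subset.rfl c4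
        (fun _ => a3.symm) (fun _ => c3.2.2 ▸ a3' ▸ n1 _) hd
      refine ⟨_, b3 _ _ c3, ?_⟩
      simpa only [Multiset.cons_add, zero_add, d5] using swp_thru (k _ _ _ a5 hz d1 d3) a6 d2 d4
  · refine ⟨decide (col r ≠ c), none, ?_⟩
    rintro S E _ z hz ⟨a, b, d, s, x, t, a1, rfl, a3, a4, rfl⟩ h hd
    obtain ⟨Q, q, q', b1, b2, -, b3⟩ := nx a b d (fun e => t.ha (e ▸ hj)) (fun e => t.hb (e ▸ hj))
      fun e => t.hc (e ▸ hj)
    have hp : bp (τ u) → col s ≠ col (if decide (col r ≠ col s) then r else v) := fun hb => by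
      obtain ⟨i, -, hi⟩ := ud.dir
      split_ifs with h'
      · exact (of_decide_eq_true h').symm
      · rw [col_adj hb ud.hr ud.hv ⟨i, hi⟩, not_not.mp (of_decide_eq_false (Bool.eq_false_iff.mpr h'))]
        exact (n1 _).symm
    have hp' : (if decide (col r ≠ col s) then r else v) = r ∨
      (if decide (col r ≠ col s) then r else v) = v := by split_ifs <;> simp
    generalize (if decide (col r ≠ col s) then r else v) = p at hz hp hp'
    obtain ⟨w, w', c1, c2, c3⟩ := u3 ud t a1 a3 hp' b1 b2 (fun _ => n1 _) hp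
    obtain ⟨T, T', d1, d2, d3, d4, d5⟩ := swp_tw ch cs hu Subset.rfl c3
      (fun _ => c1.2.2 ▸ n1 _) (fun hb => c2.2.2 ▸ hp hb) hd
    refine ⟨_, b3 _ _ _ _ c1 c2 (n1 _), ?_⟩
    simp only [Multiset.cons_add, zero_add] at h ⊢
    have := swp_thru (Multiset.cons_swap _ _ _ ▸ swp_thru h a4 d1 d3) hz d2 d4
    rwa [d5, Multiset.cons_swap] at this

end step

omit cs [DecidableEq β] in
theorem swp_ud {u : U} (hu : u ∈ F) {r v : Pt} (hr : r ∈ bx (τ u)) (hv : v ∈ bx (τ u))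
    (h : hm.Adj r v) (j : Kk) : ∃ R, j ∈ R ∧ R.card ≤ 3 ∧ Ud (τ u) r v R := by
  obtain ⟨d, h⟩ := h
  obtain ⟨i, hi⟩ : ∃ i, bp (τ u) ∨ τ u i = 3 := by
    by_cases hb : bp (τ u)
    · exact ⟨j, Or.inl hb⟩
    · obtain ⟨i, hi⟩ := not_forall.mp hb
      exact ⟨i, Or.inr ((ch.two u hu i).resolve_left hi)⟩
  exact ⟨{j, d, i}, by simp, card_le_three, ch.two u hu, hr, hv, ⟨d, by simp, h⟩,
    hi.imp_right fun hi => ⟨i, by simp, hi⟩⟩

theorem swp_run {r v : U → Pt} (hr : ∀ u ∈ F, r u ∈ bx (τ u) ∧ v u ∈ bx (τ u) ∧ hm.Adj (r u) (v u))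
    {E : Finset σ} {pu : σ → U} (hi : ∀ s ∈ E, ∀ s' ∈ E, pu s = pu s' → s = s') {b : U}
    (hb : ∀ s ∈ E, pu s ≠ b) : ∀ (P : List U) (D : U), List.IsChain (Lk Γ τ e) (D :: P) →
    (D :: P).Nodup → (∀ u ∈ D :: P, u ∈ F) → (D :: P).getLast? = some b →
    ∃ R : Finset Kk, R.card ≤ 3 ∧ ∀ st, ∃ o : U → Bool, ∀ (H : U → Finset Pt) (pe : σ → β) S E₀,
      (∀ u ∈ F, Hole (τ u) (r u) (v u) (H u)) → H b = ∅ → (∀ s ∈ E, H (pu s) = ∅ ∧ (pu s ∈ D :: P →
        Γ.Adj (pe s) (e (pu s) (if o (pu s) then r (pu s) else v (pu s))))) →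
      Ent Γ τ e (r D) D R st E₀ → Cv Γ (E₀ + (E.filter fun s => pu s ∈ D :: P).val.map pe) S →
      (∀ u ∈ D :: P, Disjoint S (cn e ct u (bx (τ u) \ H u))) → ∃ x y, Γ.Adj y x ∧
        Seg Γ x y (S ∪ (D :: P).toFinset.biUnion fun u => cn e ct u (bx (τ u) \ H u)) := by
  intro P
  induction P with
  | nil =>
    intro D _ _ hF hl
    obtain rfl : D = b := by simpa using hl
    refine ⟨∅, by simp, fun st => ⟨fun _ => true, fun H pe S E₀ _ h1 _ h2 h3 h4 => ?_⟩⟩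
    rw [filter_false_of_mem fun s hs => by simpa using hb s hs, empty_val, Multiset.map_zero,
      add_zero] at h3
    have h5 := h4 D (by simp)
    simp only [List.toFinset_cons, List.toFinset_nil, insert_empty_eq, singleton_biUnion, h1,
      sdiff_empty] at h5 ⊢
    rcases st with _ | c
    · obtain ⟨a, b, d, s, s', x, x', -, a1, a2, a3, -, a5, a6, rfl⟩ := h2
      exact ⟨_, _, a6.symm, Seg.join h3.two (swp_lift ch cs (hF D (by simp)) _ _ Subset.rfl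
        (u5 (ch.two D (hF D (by simp))) a1 a2 a3) fun _ => a3.symm) a5 h5⟩
    · obtain ⟨a, b, d, s, x, -, -, -, -, -, rfl⟩ := h2
      simpa only [Multiset.cons_zero, Multiset.card_singleton, Nat.not_even_one] using h3.even
  | cons D' P ih =>
    intro D hc hn hF hl
    rw [List.isChain_cons_cons] at hc
    rw [List.nodup_cons] at hn
    have hD := hF D (by simp)
    have hF' : ∀ u ∈ D' :: P, u ∈ F := fun u hu => hF u (List.mem_cons_of_mem _ hu)
    obtain ⟨R', h1, h2⟩ := ih D' hc.2 hn.2 hF' (by simpa using hl)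
    obtain ⟨j, δ, nx⟩ := swp_nx hc.1 (ch.two D' (hF' D' (by simp))) (hr D' (hF' D' (by simp))).1 h1
    obtain ⟨R, hj, h3, ud⟩ := swp_ud ch hD (hr D hD).1 (hr D hD).2.1 (hr D hD).2.2 j
    refine ⟨R, h3, fun st => ?_⟩
    suffices key : ∃ (o : Bool) (st' : Option (ZMod 2)), ∀ (H : U → Finset Pt) (pe : σ → β) S E₀,
        Hole (τ D) (r D) (v D) (H D) → (∀ s ∈ E, pu s = D → H D = ∅ ∧
          Γ.Adj (pe s) (e D (if o then r D else v D))) → Ent Γ τ e (r D) D R st E₀ →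
        Cv Γ (E₀ + (E.filter fun s => pu s ∈ D :: D' :: P).val.map pe) S →
        Disjoint S (cn e ct D (bx (τ D) \ H D)) → ∃ E₁, Ent Γ τ e (r D') D' R' st' E₁ ∧
        Cv Γ (E₁ + (E.filter fun s => pu s ∈ D' :: P).val.map pe)
          (S ∪ cn e ct D (bx (τ D) \ H D)) by
      obtain ⟨o, st', key⟩ := key
      obtain ⟨o', h4⟩ := h2 st'
      refine ⟨Function.update o' D o, fun H pe S E₀ a1 a2 a3 a4 a5 a6 => ?_⟩
      obtain ⟨E₁, b1, b2⟩ := key H pe S E₀ (a1 D hD) (fun s hs e => by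
        have := a3 s hs
        rw [e, Function.update_self] at this
        exact ⟨this.1, this.2 (by simp)⟩) a4 a5 (a6 D (by simp))
      rw [List.toFinset_cons, biUnion_insert, ← union_assoc]
      refine h4 H pe _ E₁ a1 a2 (fun s hs => ⟨(a3 s hs).1, fun h => ?_⟩) b1 b2 fun u hu =>
        disjoint_union_left.mpr ⟨a6 u (List.mem_cons_of_mem _ hu), cn_dis ch cs hD (hF' u hu)
          sdiff_subset sdiff_subset (Or.inl fun e => hn.1 (e ▸ hu))⟩
      have := (a3 s hs).2 (List.mem_cons_of_mem _ h)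
      rwa [Function.update_of_ne (show pu s ≠ D from fun e => hn.1 (e ▸ h))] at this
    by_cases hp : ∃ s ∈ E, pu s = D
    · obtain ⟨s, hs, hs'⟩ := hp
      obtain ⟨o, st', h4⟩ := swp_stepP ch cs hD ud hj nx st
      refine ⟨o, st', fun H pe S E₀ _ a2 a3 a4 a5 => ?_⟩
      have e1 : (E.filter fun s => pu s ∈ D :: D' :: P) =
          insert s (E.filter fun s => pu s ∈ D' :: P) := by
        ext t
        rw [mem_insert, mem_filter, mem_filter, List.mem_cons]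
        exact ⟨fun h => h.2.imp (fun e => hi t h.1 s hs (e.trans hs'.symm)) fun e => ⟨h.1, e⟩,
          fun h => h.elim (fun e => e ▸ ⟨hs, Or.inl hs'⟩) fun h => ⟨h.1, Or.inr h.2⟩⟩
      rw [e1, insert_val_of_notMem (a := s) fun h => hn.1 (hs' ▸ (mem_filter.mp h).2),
        Multiset.map_cons] at a4
      rw [(a2 s hs hs').1, sdiff_empty] at a5 ⊢
      exact h4 S _ E₀ _ (a2 s hs hs').2 a3 a4 a5
    · obtain ⟨st', h4⟩ := swp_stepN ch cs hD ud hj nx st
      refine ⟨true, st', fun H pe S E₀ a1 _ a3 a4 a5 => h4 _ S _ E₀ a1 a3 ?_ a5⟩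
      rwa [filter_congr (q := fun s => pu s ∈ D' :: P) fun s hs => by
        rw [List.mem_cons, or_iff_right fun e => hp ⟨s, hs, e⟩]] at a4

theorem swp_sweep {r v : U → Pt}
    (hr : ∀ u ∈ F, r u ∈ bx (τ u) ∧ v u ∈ bx (τ u) ∧ hm.Adj (r u) (v u)) {a b : U} (hab : a ≠ b)
    (hp : Seg (lkG Γ τ e) a b F) {E : Finset σ} {pu : σ → U}
    (hi : ∀ s ∈ E, ∀ s' ∈ E, pu s = pu s' → s = s')
    (hb : ∀ s ∈ E, pu s ∈ F ∧ pu s ≠ a ∧ pu s ≠ b) :
    ∃ o : U → Bool, ∀ (H : U → Finset Pt) (pe : σ → β) S,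
      (∀ u ∈ F, Hole (τ u) (r u) (v u) (H u)) → H a = ∅ → H b = ∅ → (∀ s ∈ E, H (pu s) = ∅ ∧
        Γ.Adj (pe s) (e (pu s) (if o (pu s) then r (pu s) else v (pu s)))) → Cv Γ (E.val.map pe) S →
      (∀ u ∈ F, Disjoint S (cn e ct u (bx (τ u) \ H u))) → ∃ x y, Γ.Adj y x ∧
        Seg Γ x y (S ∪ F.biUnion fun u => cn e ct u (bx (τ u) \ H u)) := by
  have ha : a ∈ F := Pth.left hp
  obtain ⟨D, h0, q, h1, h2, h3⟩ := swp_pop hp hab
  have hL : q.support.toFinset = F.erase a := eq_of_subset_of_card_le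
    (fun u hu => h2 u (List.mem_toFinset.mp hu))
    (by rw [List.toFinset_card_of_nodup h1.support_nodup, q.length_support, h3])
  have hm' : ∀ u, u ∈ D :: q.support.tail ↔ u ∈ F.erase a := fun u => by
    rw [q.cons_tail_support, ← hL, List.mem_toFinset]
  have hD := mem_of_mem_erase ((hm' D).mp (by simp))
  obtain ⟨R, h4, h5⟩ := swp_run ch cs hr hi (fun s hs => (hb s hs).2.2) q.support.tail D
    (by rw [q.cons_tail_support]; exact q.isChain_adj_support.imp fun _ _ h => h.2.1)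
    (by rw [q.cons_tail_support]; exact h1.support_nodup)
    (fun u hu => mem_of_mem_erase ((hm' u).mp hu))
    (by rw [q.cons_tail_support, List.getLast?_eq_some_getLast q.support_ne_nil, q.getLast_support])
  obtain ⟨o, h6⟩ := h5 none
  refine ⟨o, fun H pe S a1 a2 a3 a4 a5 a6 => ?_⟩
  obtain ⟨j, δ, nx⟩ := swp_nx h0.2.1 (ch.two D hD) (hr D hD).1 h4
  obtain ⟨i, hij⟩ := exists_ne j
  obtain ⟨Q, q₁, q₂, b1, b2, -, b3⟩ := nx i i i hij hij hij
  obtain ⟨t, t', c1, c2, c3⟩ := u0 (γ := 0) (ch.two a ha) b1 b2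
  have d1 := a6 a ha
  rw [← insert_erase ha, biUnion_insert, ← union_assoc, ← hL, ← q.cons_tail_support]
  rw [a2, sdiff_empty] at d1 ⊢
  refine h6 H pe _ _ a1 a3 (fun s hs => ⟨(a4 s hs).1, fun _ => (a4 s hs).2⟩)
    (b3 _ _ _ _ c1 c2 (by decide)) ?_ fun u hu => disjoint_union_left.mpr
      ⟨a6 u (mem_of_mem_erase ((hm' u).mp hu)), cn_dis ch cs ha (mem_of_mem_erase ((hm' u).mp hu))
        Subset.rfl sdiff_subset (Or.inl (ne_of_mem_erase ((hm' u).mp hu)).symm)⟩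
  rw [filter_true_of_mem fun s hs => (hm' _).mpr (mem_erase.mpr ⟨(hb s hs).2.1, (hb s hs).1⟩)]
  simpa only [Multiset.cons_add, zero_add] using swp_seg a5 (swp_lift ch cs ha _ _ Subset.rfl c3
    fun _ => by rw [c1.2.2, c2.2.2]; decide) d1

omit ch cs in
theorem swp_ru {x y : β} {S : Finset (β × β)} {z : β × β} (h : Ru Γ ct x S y) (h1 : Γ.Adj y z.1)
    (h2 : Seg Γ z.1 z.2 (ct z.1 ∪ ct z.2))
    (h3 : Disjoint (S.biUnion fun z => ct z.1 ∪ ct z.2) (ct z.1 ∪ ct z.2)) :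
    Ru Γ ct x (insert z S) z.2 := by
  obtain ⟨w, a1, a2⟩ := h
  exact ⟨w, a1, by rw [biUnion_insert, union_comm]; exact Seg.join a2 h2 h1 h3⟩

variable {a b : U} {E : Finset σ} {x : σ → β} {rt : σ → Finset (β × β)} {y : σ → β}
  {tu p : σ → β × β} {B : Finset β}

omit ch cs in
theorem assemble (ch : Ch C F un ps τ e) (cs : Cs Γ C un ps τ ct) (hab : a ≠ b)
    (hp : Seg (lkG Γ τ e) a b F) (ga : Ga Γ C un ps ct a b E x rt y tu p)
    (hB : Cv Γ (E.val.map x) B) (hd : ∀ T ∈ C, Disjoint B (ct T)) (X Y : Finset (β × β))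
    (hX : ∀ z ∈ X ∪ Y, Eg C un ps z.1 z.2 ∧ un z.1 ≠ a ∧ un z.1 ≠ b ∧
      ∀ s ∈ E, (∀ z' ∈ rt s, un z'.1 ≠ un z.1) ∧ un (tu s).1 ≠ un z.1 ∧ un (p s).1 ≠ un z.1)
    (hi : ∀ z ∈ X ∪ Y, ∀ z' ∈ X ∪ Y, un z.1 = un z'.1 → z = z') (hXY : Disjoint X Y)
    (hY : ∀ z ∈ Y, ¬ bp (τ (un z.1))) :
    ∃ u w, Γ.Adj w u ∧ Seg Γ u w
      (B ∪ (C \ (X.image Prod.fst ∪ X.image Prod.snd ∪ Y.image Prod.fst)).biUnion ct) := by
  set As : β × β → Prop := fun z => (∃ s ∈ E, z ∈ rt s ∨ z = tu s ∨ z = p s) ∨ z ∈ X ∪ Y with hAs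
  have s1 : ∀ z, As z → Eg C un ps z.1 z.2 ∧ un z.1 ≠ a ∧ un z.1 ≠ b := by
    rintro z (⟨s, hs, h | rfl | rfl⟩ | h)
    exacts [ga.e0 s hs z h, ga.e1 s hs, ga.e2 s hs, ⟨(hX z h).1, (hX z h).2.1, (hX z h).2.2.1⟩]
  have s2 : ∀ z z', As z → As z' → un z.1 = un z'.1 → z = z' := by
    rintro z z' (⟨s, hs, h | rfl | rfl⟩ | h) (⟨s', hs', h' | rfl | rfl⟩ | h') e
    exacts [(ga.i00 s hs s' hs' z h z' h' e).2, absurd e (ga.i01 s hs s' hs' z h),
      absurd e (ga.i02 s hs s' hs' z h), absurd e (((hX z' h').2.2.2 s hs).1 z h),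
      absurd e.symm (ga.i01 s' hs' s hs z' h'), by rw [ga.i11 s hs s' hs' e],
      absurd e (ga.i12 s hs s' hs'), absurd e ((hX z' h').2.2.2 s hs).2.1,
      absurd e.symm (ga.i02 s' hs' s hs z' h'), absurd e.symm (ga.i12 s' hs' s hs),
      by rw [ga.i22 s hs s' hs' e], absurd e ((hX z' h').2.2.2 s hs).2.2,
      absurd e.symm (((hX z h).2.2.2 s' hs').1 z' h'), absurd e.symm ((hX z h).2.2.2 s' hs').2.1,
      absurd e.symm ((hX z h).2.2.2 s' hs').2.2, hi z h z' h' e]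
  have s3 : ∀ u, ∃ f g : Pt, (u ∈ F → f ∈ bx (τ u) ∧ g ∈ bx (τ u) ∧ hm.Adj f g) ∧
      ∀ z, As z → un z.1 = u → f = ps z.1 ∧ g = ps z.2 := by
    intro u
    by_cases h : ∃ z, As z ∧ un z.1 = u
    · obtain ⟨z, h, rfl⟩ := h
      obtain ⟨a1, a2, a3, a4⟩ := (s1 z h).1
      exact ⟨_, _, fun _ => ⟨(ch.c1 _ a1).2.1, a3 ▸ (ch.c1 _ a2).2.1, a4⟩,
        fun z' h' e => by rw [s2 z' z h' h e]; exact ⟨rfl, rfl⟩⟩
    · refine ⟨fun _ => 0, Function.update (fun _ => 0) 0 1, fun hu => ⟨?_, ?_, 0, by simp,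
        fun j hj => by simp [hj]⟩, fun z h' e => absurd ⟨z, h', e⟩ h⟩ <;>
      · refine Fintype.mem_piFinset.mpr fun i => mem_range.mpr ?_
        have := ch.two u hu i
        first | omega | (rw [Function.update_apply]; split_ifs <;> omega)
  choose r v hr hz using s3
  obtain ⟨o, h⟩ := swp_sweep ch cs hr hab hp (pu := fun s => un (p s).1) ga.i22 fun s hs =>
    ⟨(ch.c1 _ (ga.e2 s hs).1.1).1, (ga.e2 s hs).2⟩
  set rm : σ → Finset (β × β) := fun s => if o (un (p s).1) then rt s else insert (tu s) (rt s)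
    with hrm
  have m1 : ∀ s, ∀ z ∈ rm s, z ∈ rt s ∨ z = tu s := fun s z h => by
    simp only [hrm] at h
    split_ifs at h
    exacts [Or.inl h, (mem_insert.mp h).symm]
  have m2 : ∀ z, z ∈ E.biUnion rm ∪ X → As z := fun z h => (mem_union.mp h).imp
    (fun h => let ⟨s, hs, h⟩ := mem_biUnion.mp h; ⟨s, hs, (m1 s z h).imp_right Or.inl⟩)
    (mem_union_left _)
  have m3 : ∀ z ∈ Y, As z := fun z h => Or.inr (mem_union_right _ h)
  have m4 : ∀ s ∈ E, ∀ z ∈ rm s, As z := fun s hs z h =>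
    m2 z (mem_union_left _ (mem_biUnion.mpr ⟨s, hs, h⟩))
  have m5 : ∀ z z', As z → As z' → un z.1 ≠ un z'.1 →
      Disjoint (ct z.1 ∪ ct z.2) (ct z'.1 ∪ ct z'.2) := fun z z' h h' hne => by
    obtain ⟨a1, a2, a3, -⟩ := (s1 z h).1
    obtain ⟨b1, b2, b3, -⟩ := (s1 z' h').1
    simp only [disjoint_union_left, disjoint_union_right]
    exact ⟨⟨cs.dis _ a1 _ b1 fun e => hne (by rw [e]), cs.dis _ a2 _ b1 fun e => hne (by rw [a3, e])⟩,
      cs.dis _ a1 _ b2 fun e => hne (by rw [e, b3]), cs.dis _ a2 _ b2 fun e => hne (by rw [a3, e, b3])⟩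
  set H : U → Finset Pt := fun u => if ∃ z ∈ E.biUnion rm ∪ X, un z.1 = u then {r u, v u} else
    if ∃ z ∈ Y, un z.1 = u then {r u} else ∅ with hH
  have k0 : ∀ u, (∀ z, As z → un z.1 = u → ∃ s ∈ E, z = p s) → H u = ∅ := fun u h => by
    have key : ∀ z ∈ E.biUnion rm ∪ (X ∪ Y), un z.1 ≠ u := fun z hz e => by
      rcases mem_union.mp hz with hz | hz
      · obtain ⟨s, hs, h1⟩ := mem_biUnion.mp hz
        obtain ⟨s', hs', h2⟩ := h z (m4 s hs z h1) e
        exact (m1 s z h1).elim (fun h3 => ga.i02 s hs s' hs' z h3 (by rw [h2]))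
          fun h3 => ga.i12 s hs s' hs' (by rw [← h3, h2])
      · obtain ⟨s, hs, h2⟩ := h z (Or.inr hz) e
        exact ((hX z hz).2.2.2 s hs).2.2 (by rw [h2])
    simp only [hH]
    rw [if_neg fun ⟨z, h, e⟩ => key z (union_subset_union_right subset_union_left h) e,
      if_neg fun ⟨z, h, e⟩ => key z (mem_union_right _ (mem_union_right _ h)) e]
  have k1 : ∀ T ∈ C, ps T ∈ H (un T) ↔ (∃ z ∈ E.biUnion rm ∪ X, T = z.1 ∨ T = z.2) ∨
      ∃ z ∈ Y, T = z.1 := fun T hT => by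
    have ex : ∀ T' ∈ C, un T' = un T → (ps T = ps T' ↔ T = T') := fun T' hT' e =>
      ⟨fun h => by rw [← (ch.c1 T hT).2.2, h, ← e, (ch.c1 T' hT').2.2], fun h => by rw [h]⟩
    simp only [hH]
    split_ifs with h1 h2
    · obtain ⟨z, h1, e⟩ := h1
      obtain ⟨a1, a2, a3, -⟩ := (s1 z (m2 z h1)).1
      rw [(hz _ z (m2 z h1) e).1, (hz _ z (m2 z h1) e).2, mem_insert, mem_singleton, ex _ a1 e,
        ex _ a2 (a3 ▸ e)]
      refine ⟨fun h => Or.inl ⟨z, h1, h⟩, ?_⟩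
      rintro (⟨z', h2, h3⟩ | ⟨z', h2, h3⟩)
      · rwa [s2 z z' (m2 z h1) (m2 z' h2) (e.trans (h3.elim (fun h => by rw [h])
          fun h => by rw [h, (s1 z' (m2 z' h2)).1.2.2.1]))]
      · exact Or.inl (by rwa [s2 z z' (m2 z h1) (m3 z' h2) (by rw [e, h3])])
    · obtain ⟨z, h2, e⟩ := h2
      rw [(hz _ z (m3 z h2) e).1, mem_singleton, ex _ (s1 z (m3 z h2)).1.1 e]
      refine ⟨fun h => Or.inr ⟨z, h2, h⟩, ?_⟩
      rintro (⟨z', h2, h3⟩ | ⟨z', h4, h3⟩)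
      · exact absurd ⟨z', h2, h3.elim (fun h => by rw [h])
          fun h => by rw [h, (s1 z' (m2 z' h2)).1.2.2.1]⟩ h1
      · rwa [s2 z z' (m3 z h2) (m3 z' h4) (by rw [e, h3])]
    · refine iff_of_false (notMem_empty _) ?_
      rintro (⟨z', h4, h3⟩ | ⟨z', h4, h3⟩)
      · exact h1 ⟨z', h4, h3.elim (fun h => by rw [h])
          fun h => by rw [h, (s1 z' (m2 z' h4)).1.2.2.1]⟩
      · exact h2 ⟨z', h4, by rw [h3]⟩
  have k2 : ∀ w, (w ∈ F.biUnion fun u => cn e ct u (bx (τ u) \ H u)) ↔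
      ∃ T ∈ C, ps T ∉ H (un T) ∧ w ∈ ct T := fun w => by
    simp only [cn, mem_biUnion, mem_sdiff]
    exact ⟨fun ⟨u, hu, f, hf, h⟩ => ⟨_, (ch.c2 u hu f hf.1).1, by
      rw [(ch.c2 u hu f hf.1).2.1, (ch.c2 u hu f hf.1).2.2]; exact hf.2, h⟩,
      fun ⟨T, hT, h1, h2⟩ => ⟨_, (ch.c1 T hT).1, _, ⟨(ch.c1 T hT).2.1, h1⟩,
        (ch.c1 T hT).2.2.symm ▸ h2⟩⟩
  have k3 : ∀ w, (w ∈ E.biUnion fun s => (rm s).biUnion fun z => ct z.1 ∪ ct z.2) ↔
      ∃ T, (∃ z ∈ E.biUnion rm, T = z.1 ∨ T = z.2) ∧ w ∈ ct T := fun w => by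
    simp only [mem_biUnion, mem_union]
    exact ⟨fun ⟨s, hs, z, h1, h2⟩ => h2.elim (fun h => ⟨_, ⟨z, ⟨s, hs, h1⟩, Or.inl rfl⟩, h⟩)
      fun h => ⟨_, ⟨z, ⟨s, hs, h1⟩, Or.inr rfl⟩, h⟩, fun ⟨T, ⟨z, ⟨s, hs, h1⟩, h2⟩, h⟩ =>
      ⟨s, hs, z, h1, h2.imp (fun e : T = z.1 => e ▸ h) fun e : T = z.2 => e ▸ h⟩⟩
  have k4 : ∀ T, (∃ z ∈ E.biUnion rm, T = z.1 ∨ T = z.2) → T ∈ C ∧ ∀ z ∈ X ∪ Y, un T ≠ un z.1 := by
    rintro T ⟨z, h1, h2⟩
    obtain ⟨a1, a2, a3, -⟩ := (s1 z (m2 z (mem_union_left _ h1))).1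
    obtain ⟨s, hs, h3⟩ := mem_biUnion.mp h1
    refine ⟨h2.elim (· ▸ a1) (· ▸ a2), fun z' h4 => ?_⟩
    rw [show un T = un z.1 from h2.elim (fun h => by rw [h]) fun h => by rw [h, a3]]
    exact (m1 s z h3).elim (((hX z' h4).2.2.2 s hs).1 z) fun h => h ▸ ((hX z' h4).2.2.2 s hs).2.1
  obtain ⟨u, w, c1, c2⟩ := h H (fun s => if o (un (p s).1) then y s else (tu s).2)
    (B ∪ E.biUnion fun s => (rm s).biUnion fun z => ct z.1 ∪ ct z.2) (fun u hu => by
      simp only [hH]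
      split_ifs with h1 h2
      exacts [Or.inr (Or.inl rfl), Or.inr (Or.inr ⟨rfl, let ⟨z, h, e⟩ := h2; e ▸ hY z h⟩), Or.inl rfl])
    (k0 a fun z h e => absurd e (s1 z h).2.1) (k0 b fun z h e => absurd e (s1 z h).2.2)
    (fun s hs => by
      have a0 : As (p s) := Or.inl ⟨s, hs, Or.inr (Or.inr rfl)⟩
      obtain ⟨a1, a2, a3, -⟩ := (ga.e2 s hs).1
      refine ⟨k0 _ fun z h e => ⟨s, hs, s2 _ _ h a0 e⟩, ?_⟩
      rw [(hz _ _ a0 rfl).1, (hz _ _ a0 rfl).2]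
      split_ifs
      · rw [(ch.c1 _ a1).2.2]
        exact (ga.ru s hs).2.1
      · rw [a3, (ch.c1 _ a2).2.2]
        exact (ga.ru s hs).2.2.2)
    (by
      rw [← add_zero (E.val.map _)] at hB ⊢
      refine swp_all x _ _ E 0 B hB (fun s hs => ⟨?_, ?_⟩) fun s hs s' hs' hne => ?_
      · simp only [hrm]
        split_ifs
        · exact (ga.ru s hs).1
        · exact swp_ru (ga.ru s hs).1 (ga.ru s hs).2.2.1 (cs.adj _ _ (ga.e1 s hs).1).2
            ((disjoint_biUnion_left _ _ _).mpr fun z h => m5 _ _ (Or.inl ⟨s, hs, Or.inl h⟩)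
              (Or.inl ⟨s, hs, Or.inr (Or.inl rfl)⟩) (ga.i01 s hs s hs z h))
      · exact (disjoint_biUnion_right _ _ _).mpr fun z h => disjoint_union_right.mpr
          ⟨hd _ (s1 z (m4 s hs z h)).1.1, hd _ (s1 z (m4 s hs z h)).1.2.1⟩
      · simp only [disjoint_biUnion_left, disjoint_biUnion_right]
        refine fun z' h' z h => m5 _ _ (m4 s hs z h) (m4 s' hs' z' h') fun e => ?_
        rcases m1 s z h with h | rfl <;> rcases m1 s' z' h' with h' | rfl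
        exacts [hne (ga.i00 s hs s' hs' z h z' h' e).1, ga.i01 s hs s' hs' z h e,
          ga.i01 s' hs' s hs z' h' e.symm, hne (ga.i11 s hs s' hs' e)])
    (fun u hu => disjoint_left.mpr fun w h1 h2 => by
      obtain ⟨T, a1, a2, a3⟩ := (k2 w).mp (mem_biUnion.mpr ⟨u, hu, h2⟩)
      rcases mem_union.mp h1 with h1 | h1
      · exact disjoint_left.mp (hd T a1) h1 a3
      · obtain ⟨T', b1, b2⟩ := (k3 w).mp h1
        refine disjoint_left.mp (cs.dis T a1 T' (k4 T' b1).1 fun e => a2 ?_) a3 b2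
        obtain ⟨z, b1, b3⟩ := b1
        exact (k1 T a1).mpr (Or.inl ⟨z, mem_union_left _ b1, e ▸ b3⟩))
  refine ⟨u, w, c1, ?_⟩
  convert c2 using 1
  ext w
  rw [mem_union, mem_union, mem_union, k2, k3, or_assoc, mem_biUnion]
  refine or_congr_right ⟨fun ⟨T, h1, h2⟩ => ?_, ?_⟩
  · obtain ⟨h3, h4⟩ := mem_sdiff.mp h1
    by_cases h5 : ps T ∈ H (un T)
    · simp only [mem_union, mem_image, not_or, not_exists, not_and] at h4
      rcases (k1 T h3).mp h5 with ⟨z, h6, h7⟩ | ⟨z, h6, h7⟩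
      · exact Or.inl ⟨T, ⟨z, (mem_union.mp h6).resolve_right fun h => h7.elim
          (fun e => h4.1.1 z h e.symm) fun e => h4.1.2 z h e.symm, h7⟩, h2⟩
      · exact absurd h7.symm (h4.2 z h6)
    · exact Or.inr ⟨T, h3, h5, h2⟩
  · rintro (⟨T, h1, h2⟩ | ⟨T, h1, h2, h3⟩) <;> refine ⟨T, mem_sdiff.mpr ⟨?_, fun h => ?_⟩, by assumption⟩
    · exact (k4 T h1).1
    · simp only [mem_union, mem_image] at h
      rcases h with (⟨z, h, rfl⟩ | ⟨z, h, rfl⟩) | ⟨z, h, rfl⟩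
      exacts [(k4 _ h1).2 z (mem_union_left _ h) rfl,
        (k4 _ h1).2 z (mem_union_left _ h) (hX z (mem_union_left _ h)).1.2.2.1.symm,
        (k4 _ h1).2 z (mem_union_right _ h) rfl]
    · exact h1
    · simp only [mem_union, mem_image] at h
      refine h2 ((k1 T h1).mpr ?_)
      rcases h with (⟨z, h, rfl⟩ | ⟨z, h, rfl⟩) | ⟨z, h, rfl⟩
      exacts [Or.inl ⟨z, mem_union_right _ h, Or.inl rfl⟩, Or.inl ⟨z, mem_union_right _ h, Or.inr rfl⟩,
        Or.inr ⟨z, h, rfl⟩]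

end Pool.Agent.MP_e46b50_co.H93.Lg

namespace Pool.Agent.MP_e46b50_co.H93.Lg

open Finset

variable {β U σ : Type} [DecidableEq β] {Γ : SimpleGraph β} {C : Finset β} {F : Finset U}
  {un : β → U} {ps : β → Pt} {τ : U → Pt} {e : U → Pt → β} {ct : β → Finset β} {a b : U}
  {E : Finset σ} {x : σ → β} {rt : σ → Finset (β × β)} {y : σ → β} {tu p : σ → β × β}
  {B : Finset β}

theorem Ch.card_le (ch : Ch C F un ps τ e) : C.card ≤ 3 ^ 10 * F.card := by
  obtain ⟨A, h3, h4⟩ : ∃ A : Finset Pt, A.card = 3 ^ 10 ∧ ∀ f : Pt, (∀ i, f i < 3) → f ∈ A :=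
    ⟨bx fun _ => 3, by simp [bx], fun f h => by simpa [bx] using h⟩
  rw [← h3, ← card_product]
  refine card_le_card_of_injOn (fun T => (ps T, un T))
    (fun T hT => mem_coe.2 (mem_product.2 ⟨h4 (ps T) fun i => ?_, (ch.c1 T hT).1⟩))
    fun T hT T' hT' h => ?_
  · obtain ⟨h1, h2, -⟩ := ch.c1 T hT
    have h3 := mem_range.1 (Fintype.mem_piFinset.1 h2 i)
    have := ch.two _ h1 i
    omega
  · rw [← (ch.c1 T hT).2.2, ← (ch.c1 T' hT').2.2, (Prod.mk.inj h).1, (Prod.mk.inj h).2]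

/-- a neighbour of the origin -/
def len_o : Pt := Function.update 0 0 1

omit [DecidableEq β] in
theorem len_ed (ch : Ch C F un ps τ e) {u : U} (hu : u ∈ F) :
    Eg C un ps (e u 0) (e u len_o) ∧ un (e u 0) = u ∧ un (e u len_o) = u ∧ ps (e u 0) = 0 ∧
      ps (e u len_o) = len_o := by
  have h0 : (0 : Pt) ∈ bx (τ u) := Fintype.mem_piFinset.2 fun i => mem_range.2 (by
    have := ch.two u hu i
    simp only [Pi.zero_apply]; omega)
  have h1 : len_o ∈ bx (τ u) := Fintype.mem_piFinset.2 fun i => mem_range.2 (by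
    have := ch.two u hu i
    simp only [len_o, Function.update_apply, Pi.zero_apply]; split_ifs <;> omega)
  obtain ⟨a1, a2, a3⟩ := ch.c2 u hu _ h0
  obtain ⟨b1, b2, b3⟩ := ch.c2 u hu _ h1
  refine ⟨⟨a1, b1, a2.trans b2.symm, ?_⟩, a2, b2, a3, b3⟩
  rw [a3, b3]
  exact ⟨0, by simp [len_o], fun j hj => by simp [len_o, hj]⟩

theorem len_core (ch : Ch C F un ps τ e) (cs : Cs Γ C un ps τ ct) (hab : a ≠ b)
    (hp : Seg (lkG Γ τ e) a b F) (ga : Ga Γ C un ps ct a b E x rt y tu p)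
    (hB : Cv Γ (E.val.map x) B) (hd : ∀ T ∈ C, Disjoint B (ct T)) (K Z : Finset U)
    (h : ∀ u, u ∈ K ∨ u ∈ Z → u ∈ F ∧ (∀ T ∈ C, un T = u → ct T = {T}) ∧ u ≠ a ∧ u ≠ b ∧
      ∀ s ∈ E, (∀ z' ∈ rt s, un z'.1 ≠ u) ∧ un (tu s).1 ≠ u ∧ un (p s).1 ≠ u)
    (hKZ : Disjoint K Z) (hZ : ∀ u ∈ Z, ¬ bp (τ u)) :
    ∃ u w S, Γ.Adj w u ∧ Seg Γ u w S ∧ S ⊆ B ∪ C.biUnion ct ∧
      S.card + 2 * K.card + Z.card = (B ∪ C.biUnion ct).card := by
  have hm : ∀ z ∈ K.image (fun u => (e u 0, e u len_o)) ∪ Z.image (fun u => (e u 0, e u len_o)),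
      ∃ u, (u ∈ K ∨ u ∈ Z) ∧ z = (e u 0, e u len_o) := fun z hz => by
    rcases mem_union.1 hz with hz | hz <;> obtain ⟨u, hu, rfl⟩ := mem_image.1 hz
    exacts [⟨u, .inl hu, rfl⟩, ⟨u, .inr hu, rfl⟩]
  have he := fun u hu => len_ed ch (h u hu).1
  obtain ⟨u, w, h1, h2⟩ := assemble ch cs hab hp ga hB hd _ _
    (fun z hz => by
      obtain ⟨u, hu, rfl⟩ := hm z hz
      rw [(he u hu).2.1]
      exact ⟨(he u hu).1, (h u hu).2.2⟩)
    (fun z hz z' hz' hh => by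
      obtain ⟨u, hu, rfl⟩ := hm z hz
      obtain ⟨u', hu', rfl⟩ := hm z' hz'
      rw [(he u hu).2.1, (he u' hu').2.1] at hh
      rw [hh])
    (disjoint_left.2 fun z hz hz' => by
      obtain ⟨u, hu, rfl⟩ := mem_image.1 hz
      obtain ⟨u', hu', hh⟩ := mem_image.1 hz'
      have := congrArg (fun z => un z.1) hh
      simp only [(he u (.inl hu)).2.1, (he u' (.inr hu')).2.1] at this
      exact disjoint_left.1 hKZ hu (this ▸ hu'))
    (fun z hz => by
      obtain ⟨u, hu, rfl⟩ := mem_image.1 hz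
      rw [(he u (.inr hu)).2.1]
      exact hZ u hu)
  simp only [image_image, Function.comp_def] at h2
  set D := K.image (fun u => e u 0) ∪ K.image (fun u => e u len_o) ∪ Z.image (fun u => e u 0)
    with hD
  have hDC : ∀ T ∈ D, T ∈ C ∧ ct T = {T} := fun T hT => by
    simp only [hD, mem_union, mem_image] at hT
    rcases hT with (⟨u, hu, rfl⟩ | ⟨u, hu, rfl⟩) | ⟨u, hu, rfl⟩
    · exact ⟨(he u (.inl hu)).1.1, (h u (.inl hu)).2.1 _ (he u (.inl hu)).1.1 (he u (.inl hu)).2.1⟩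
    · exact ⟨(he u (.inl hu)).1.2.1,
        (h u (.inl hu)).2.1 _ (he u (.inl hu)).1.2.1 (he u (.inl hu)).2.2.1⟩
    · exact ⟨(he u (.inr hu)).1.1, (h u (.inr hu)).2.1 _ (he u (.inr hu)).1.1 (he u (.inr hu)).2.1⟩
  have ho : (0 : Pt) ≠ len_o := fun h => by simpa [len_o] using congrFun h 0
  have hc : D.card = 2 * K.card + Z.card := by
    rw [hD, card_union_of_disjoint, card_union_of_disjoint, card_image_of_injOn,
      card_image_of_injOn, card_image_of_injOn, two_mul]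
    · exact fun u hu u' hu' hh => by
        rw [← (he u (.inr hu)).2.1, ← (he u' (.inr hu')).2.1]; exact congrArg un hh
    · exact fun u hu u' hu' hh => by
        rw [← (he u (.inl hu)).2.2.1, ← (he u' (.inl hu')).2.2.1]; exact congrArg un hh
    · exact fun u hu u' hu' hh => by
        rw [← (he u (.inl hu)).2.1, ← (he u' (.inl hu')).2.1]; exact congrArg un hh
    · refine disjoint_left.2 fun T h1 h2 => ?_
      obtain ⟨u, hu, rfl⟩ := mem_image.1 h1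
      obtain ⟨u', hu', hh⟩ := mem_image.1 h2
      exact ho (by rw [← (he u (.inl hu)).2.2.2.1, ← hh, (he u' (.inl hu')).2.2.2.2])
    · refine disjoint_left.2 fun T h1 h2 => ?_
      obtain ⟨u', hu', rfl⟩ := mem_image.1 h2
      refine disjoint_left.1 hKZ ?_ hu'
      rw [← (he u' (.inr hu')).2.1]
      rcases mem_union.1 h1 with h1 | h1 <;> obtain ⟨u, hu, hh⟩ := mem_image.1 h1 <;> rw [← hh]
      · rwa [(he u (.inl hu)).2.1]
      · rwa [(he u (.inl hu)).2.2.1]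
  refine ⟨u, w, _, h1, h2,
    union_subset_union_right (biUnion_subset_biUnion_of_subset_left _ sdiff_subset), ?_⟩
  rw [add_assoc, ← hc, ← card_union_of_disjoint]
  · congr 1
    ext T
    simp only [mem_union (s := B ∪ _), mem_union (s := B), mem_biUnion, mem_sdiff]
    constructor
    · rintro ((h | ⟨T', h, h'⟩) | h)
      exacts [.inl h, .inr ⟨T', h.1, h'⟩, .inr ⟨T, (hDC T h).1, cs.self T (hDC T h).1⟩]
    · rintro (h | ⟨T', h, h'⟩)
      · exact .inl (.inl h)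
      · by_cases h3 : T' ∈ D
        · rw [(hDC T' h3).2, mem_singleton] at h'
          exact .inr (h' ▸ h3)
        · exact .inl (.inr ⟨T', ⟨h, h3⟩, h'⟩)
  · refine disjoint_right.2 fun T hT h3 => ?_
    have h4 := (hDC T hT).1
    rcases mem_union.1 h3 with h3 | h3
    · exact disjoint_left.1 (hd T h4) h3 (cs.self T h4)
    · obtain ⟨T', h5, h6⟩ := mem_biUnion.1 h3
      exact disjoint_left.1 (cs.dis T' (mem_sdiff.1 h5).1 T h4 fun h =>
        (mem_sdiff.1 h5).2 (h ▸ hT)) h6 (cs.self T h4)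

theorem lengths (ch : Ch C F un ps τ e) (cs : Cs Γ C un ps τ ct) (hab : a ≠ b)
    (hp : Seg (lkG Γ τ e) a b F) (ga : Ga Γ C un ps ct a b E x rt y tu p)
    (hB : Cv Γ (E.val.map x) B) (hd : ∀ T ∈ C, Disjoint B (ct T)) {ρ : ℕ}
    (hρ : ∀ s ∈ E, (rt s).card ≤ ρ) (W : Finset U) (hW : ∀ T ∈ C, un T ∉ W → ct T = {T}) (k : ℕ)
    (hk : k = 0 ∨ E.card * (ρ + 2) + W.card + k + 2 ≤ F.card) :
    ∃ u w S, Γ.Adj w u ∧ Seg Γ u w S ∧ S ⊆ B ∪ C.biUnion ct ∧
      S.card + 2 * k = (B ∪ C.biUnion ct).card := by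
  classical
  set N := E.biUnion (fun s => insert (un (tu s).1) (insert (un (p s).1)
    ((rt s).image fun z => un z.1))) ∪ W ∪ {a, b} with hN
  have hc : N.card ≤ E.card * (ρ + 2) + W.card + 2 := by
    refine (card_union_le _ _).trans (add_le_add ((card_union_le _ _).trans
      (add_le_add_left (card_biUnion_le_card_mul _ _ _ fun s hs => ?_) _)) card_le_two)
    exact (card_insert_le _ _).trans (add_le_add_left ((card_insert_le _ _).trans
      (add_le_add_left (card_image_le.trans (hρ s hs)) _)) _)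
  obtain ⟨K, hK, rfl⟩ := exists_subset_card_eq (s := F \ N) (n := k) (by
    have := le_card_sdiff N F
    omega)
  simpa only [exists_and_left, card_empty, add_zero] using len_core ch cs hab hp ga hB hd K ∅ (fun u hu => by
    obtain ⟨h1, h2⟩ := mem_sdiff.1 (hK (by simpa using hu))
    simp only [hN, mem_union, mem_biUnion, mem_insert, mem_image, mem_singleton, not_or,
      not_exists, not_and] at h2
    exact ⟨h1, fun T hT h => hW T hT (h ▸ h2.1.2), h2.2.1, h2.2.2, fun s hs =>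
      ⟨(h2.1.1 s hs).2.2, Ne.symm (h2.1.1 s hs).1, Ne.symm (h2.1.1 s hs).2.1⟩⟩)
    (disjoint_empty_right _) (by simp)

theorem lengths_odd (ch : Ch C F un ps τ e) (hadj : ∀ T T', Eg C un ps T T' → Γ.Adj T T')
    (hab : a ≠ b) (hp : Seg (lkG Γ τ e) a b F) (ha : bp (τ a)) (hb : bp (τ b))
    (ho : ¬ Even C.card) (k : ℕ) (hk : k + 3 ≤ F.card) :
    ∃ u w S, Γ.Adj w u ∧ Seg Γ u w S ∧ S ⊆ C ∧ S.card + 2 * k + 1 = C.card := by
  classical
  obtain ⟨u0, hu0, hn⟩ : ∃ u ∈ F, ¬ bp (τ u) := by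
    by_contra! h
    refine ho (inv_tile (Γ := ⊤) (fun T => e (un T) (Function.update (ps T) 0 (1 - ps T 0))) C
      fun T hT => ?_).even
    obtain ⟨h1, h2, h3⟩ := ch.c1 T hT
    have h4 := mem_range.1 (Fintype.mem_piFinset.1 h2 0)
    rw [h _ h1 0] at h4
    obtain ⟨a1, a2, a3⟩ := ch.c2 _ h1 (Function.update (ps T) 0 (1 - ps T 0))
      (Fintype.mem_piFinset.2 fun i => by
        by_cases hi : i = 0
        · rw [hi, Function.update_self, h _ h1 0, mem_range]; omega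
        · rw [Function.update_of_ne hi]; exact Fintype.mem_piFinset.1 h2 i)
    refine ⟨a1, ?_, fun hh => ?_⟩
    · simp only [a2, a3, Function.update_self, Function.update_idem]
      rw [show 1 - (1 - ps T 0) = ps T 0 by omega, Function.update_eq_self, h3]
    · have := congrFun ((congrArg ps hh).trans a3) 0
      rw [Function.update_self] at this
      omega
  obtain ⟨K, hK, rfl⟩ := exists_subset_card_eq (s := F \ {a, b, u0}) (n := k) (by
    have := le_card_sdiff {a, b, u0} F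
    have := card_le_three (a := a) (b := b) (c := u0)
    omega)
  have cs : Cs Γ C un ps τ fun T => {T} :=
    ⟨fun _ _ => mem_singleton_self _,
      fun T T' h => ⟨hadj T T' h, (Seg.single T).join (Seg.single T') (hadj T T' h)
        (disjoint_singleton.2 (hadj T T' h).ne)⟩,
      fun _ _ => .inr rfl, fun _ _ _ _ h => disjoint_singleton.2 h⟩
  have ga : Ga Γ C un ps (fun T => {T}) a b (∅ : Finset Unit) (fun _ => e a 0) (fun _ => ∅)
      (fun _ => e a 0) (fun _ => (e a 0, e a 0)) fun _ => (e a 0, e a 0) := by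
    constructor <;> exact fun _ h => absurd h (notMem_empty _)
  have hK' := fun u (hu : u ∈ K) => mem_sdiff.1 (hK hu)
  simp only [mem_insert, mem_singleton, not_or] at hK'
  simpa only [exists_and_left, biUnion_singleton_eq_self, empty_union, card_singleton] using len_core ch cs hab hp ga (B := ∅) ⟨[], rfl, rfl⟩ (fun _ _ => disjoint_empty_left _)
    K {u0} (fun u hu => by
      refine ⟨?_, fun _ _ _ => rfl, ?_, ?_, fun _ h => absurd h (notMem_empty _)⟩ <;>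
        rcases hu with hu | hu
      exacts [(hK' u hu).1, mem_singleton.1 hu ▸ hu0, (hK' u hu).2.1,
        fun h => hn (mem_singleton.1 hu ▸ h ▸ ha), (hK' u hu).2.2.1,
        fun h => hn (mem_singleton.1 hu ▸ h ▸ hb)])
    (disjoint_singleton_right.2 fun h => (hK' u0 h).2.2.2 rfl)
    fun u hu => mem_singleton.1 hu ▸ hn

end Pool.Agent.MP_e46b50_co.H93.Lg
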