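import Pool.Agent.MP_e46b50_co.H93.Hyp
import Pool.Agent.MP_e46b50_co.Mg.Lg_PartA

set_option autoImplicit false

namespace Pool.Agent.MP_e46b50_co.H93.Lg

section Hax

open Finset

variable {W C : Type*}

/-- `t` picks, for every class in `A`, a vertex of `U` in that class, pairwise non-adjacent. -/
def IsIT (G : SimpleGraph W) (U : Set W) (cls : W → C) (A : Finset C) (t : C → W) : Prop :=
  (∀ c ∈ A, t c ∈ U ∧ cls (t c) = c) ∧ ∀ c ∈ A, ∀ d ∈ A, ¬ G.Adj (t c) (t d)

/-- every vertex of `U` in a class of `S` is adjacent to an end of one of the edges `Z`. -/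
def Dom (G : SimpleGraph W) (U : Set W) (cls : W → C) (S : Finset C) (Z : Finset (W × W)) : Prop :=
  (∀ e ∈ Z, G.Adj e.1 e.2) ∧ ∀ w ∈ U, cls w ∈ S → ∃ e ∈ Z, G.Adj w e.1 ∨ G.Adj w e.2

lemma haxell_aux [Finite W] [DecidableEq C] (n : ℕ) :
    ∀ (G : SimpleGraph W) (U : Set W) (cls : W → C) (A : Finset C) (c₀ : C),
      A.card + G.edgeSet.ncard ≤ n → c₀ ∈ A → (¬ ∃ t, IsIT G U cls A t) →
      (∃ t, IsIT G U cls (A.erase c₀) t) →
      ∃ S ⊆ A, c₀ ∈ S ∧ ∃ Z : Finset (W × W), Z.card + 1 ≤ S.card ∧ Dom G U cls S Z := by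
  classical
  induction n with
  | zero =>
    intro G U cls A c₀ hn hc
    have := card_pos.mpr ⟨_, hc⟩
    omega
  | succ n ih =>
    intro G U cls A c₀ hn hc hno ⟨t₀, ht₀⟩
    by_cases hemp : ∃ x ∈ U, cls x = c₀
    swap
    · refine ⟨{c₀}, by simpa using hc, by simp, ∅, by simp, by simp, ?_⟩
      intro w hw hcw
      exact absurd ⟨w, hw, by simpa using hcw⟩ hemp
    obtain ⟨x, hxU, hx⟩ := hemp
    have hedge : ∃ y, G.Adj x y := by
      by_contra hcon
      push Not at hcon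
      refine hno ⟨Function.update t₀ c₀ x, ?_, ?_⟩
      · intro c hcA
        by_cases h : c = c₀
        · subst h; simp [hxU, hx]
        · rw [Function.update_of_ne h]
          exact ht₀.1 c (mem_erase.mpr ⟨h, hcA⟩)
      · intro c hcA d hdA
        by_cases h : c = c₀
        · subst h; simp [hcon]
        · by_cases h' : d = c₀
          · subst h'
            rw [Function.update_self]
            exact fun hh => hcon _ hh.symm
          · rw [Function.update_of_ne h, Function.update_of_ne h']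
            exact ht₀.2 c (mem_erase.mpr ⟨h, hcA⟩) d (mem_erase.mpr ⟨h', hdA⟩)
    obtain ⟨y, hxy⟩ := hedge
    set G' := G.deleteEdges {s(x, y)} with hG'
    have hle : ∀ a b, G'.Adj a b → G.Adj a b := fun a b h => (SimpleGraph.deleteEdges_adj.mp h).1
    have hcard : G'.edgeSet.ncard < G.edgeSet.ncard := by
      refine Set.ncard_lt_ncard ?_ (Set.toFinite _)
      rw [hG', SimpleGraph.edgeSet_deleteEdges]
      exact Set.sdiff_singleton_ssubset.mpr hxy
    by_cases hdel : ∃ t, IsIT G' U cls A t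
    swap
    · obtain ⟨S, hSA, hcS, Z, hZ, hd⟩ := ih G' U cls A c₀ (by omega) hc hdel
        ⟨t₀, ht₀.1, fun c hc d hd h => ht₀.2 c hc d hd (hle _ _ h)⟩
      refine ⟨S, hSA, hcS, Z, hZ, fun e he => hle _ _ (hd.1 e he), fun w hw hcw => ?_⟩
      obtain ⟨e, he, h⟩ := hd.2 w hw hcw
      exact ⟨e, he, h.imp (hle _ _) (hle _ _)⟩
    obtain ⟨t, ht⟩ := hdel
    have hadj : ∀ a b, G.Adj a b → ¬ G'.Adj a b → (a = x ∧ b = y) ∨ (a = y ∧ b = x) := by
      intro a b h h'
      rw [hG', SimpleGraph.deleteEdges_adj] at h'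
      have : s(a, b) = s(x, y) := by
        by_contra hne
        exact h' ⟨h, hne⟩
      exact Sym2.eq_iff.mp this
    have hboth : ∃ b ∈ A, t c₀ = x ∧ t b = y := by
      by_contra hcon
      refine hno ⟨t, ht.1, fun c hcA d hdA h => hcon ?_⟩
      rcases hadj _ _ h (ht.2 c hcA d hdA) with ⟨h1, h2⟩ | ⟨h1, h2⟩
      · have : c = c₀ := by rw [← (ht.1 c hcA).2, h1, hx]
        exact ⟨d, hdA, this ▸ h1, h2⟩
      · have : d = c₀ := by rw [← (ht.1 d hdA).2, h2, hx]
        exact ⟨c, hcA, this ▸ h2, h1⟩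
    obtain ⟨b, hbA, htx, hty⟩ := hboth
    have hyU : y ∈ U := hty ▸ (ht.1 b hbA).1
    have hyb : cls y = b := hty ▸ (ht.1 b hbA).2
    have hbc : b ≠ c₀ := by
      rintro rfl
      exact hxy.ne (htx.symm.trans hty)
    set U' : Set W := {w | w ∈ U ∧ ¬ G.Adj w x ∧ ¬ G.Adj w y} with hU'
    set cls' : W → C := fun w => if cls w = b then c₀ else cls w with hcls'
    have hcA' : c₀ ∈ A.erase b := mem_erase.mpr ⟨hbc.symm, hc⟩
    have hno' : ¬ ∃ s, IsIT G U' cls' (A.erase b) s := by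
      rintro ⟨s, hs⟩
      have hs1 : ∀ c ∈ A, c ≠ b → c ≠ c₀ → s c ∈ U' ∧ cls (s c) = c := by
        intro c hcA h1 h2
        obtain ⟨h3, h4⟩ := hs.1 c (mem_erase.mpr ⟨h1, hcA⟩)
        refine ⟨h3, ?_⟩
        simp only [hcls'] at h4
        split_ifs at h4 with h5
        · exact absurd h4.symm h2
        · exact h4
      obtain ⟨h3, h4⟩ := hs.1 c₀ hcA'
      by_cases h5 : cls (s c₀) = b
      · refine hno ⟨fun c => if c = c₀ then x else if c = b then s c₀ else s c, ?_, ?_⟩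
        · intro c hcA
          by_cases h1 : c = c₀
          · simp [h1, hxU, hx]
          · by_cases h2 : c = b
            · simp only [h2, hbc, if_false, if_true]
              exact ⟨h3.1, h5⟩
            · simp only [h1, h2, if_false]
              exact ⟨(hs1 c hcA h2 h1).1.1, (hs1 c hcA h2 h1).2⟩
        · have key : ∀ c ∈ A, c ≠ c₀ → ∃ c' ∈ A.erase b,
              (if c = c₀ then x else if c = b then s c₀ else s c) = s c' := by
            intro c hcA h1
            by_cases h2 : c = b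
            · exact ⟨c₀, hcA', by simp [h2, hbc]⟩
            · exact ⟨c, mem_erase.mpr ⟨h2, hcA⟩, by simp [h1, h2]⟩
          intro c hcA d hdA
          by_cases h1 : c = c₀
          · by_cases h2 : d = c₀
            · simp [h1, h2]
            · obtain ⟨d', hd', e⟩ := key d hdA h2
              simp only [e]
              simp only [h1, if_true]
              exact fun h => (hs.1 d' hd').1.2.1 h.symm
          · obtain ⟨c', hc', e⟩ := key c hcA h1
            simp only [e]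
            by_cases h2 : d = c₀
            · simp only [h2, if_true]
              exact (hs.1 c' hc').1.2.1
            · obtain ⟨d', hd', e'⟩ := key d hdA h2
              simp only [e']
              exact hs.2 c' hc' d' hd'
      · have h6 : cls (s c₀) = c₀ := by simpa [hcls', h5] using h4
        refine hno ⟨Function.update s b y, ?_, ?_⟩
        · intro c hcA
          by_cases h1 : c = b
          · subst h1; simp [hyU, hyb]
          · rw [Function.update_of_ne h1]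
            by_cases h2 : c = c₀
            · subst h2; exact ⟨h3.1, h6⟩
            · exact ⟨(hs1 c hcA h1 h2).1.1, (hs1 c hcA h1 h2).2⟩
        · intro c hcA d hdA
          by_cases h1 : c = b
          · by_cases h2 : d = b
            · simp [h1, h2]
            · rw [h1, Function.update_self, Function.update_of_ne h2]
              exact fun h => (hs.1 d (mem_erase.mpr ⟨h2, hdA⟩)).1.2.2 h.symm
          · by_cases h2 : d = b
            · rw [h2, Function.update_self, Function.update_of_ne h1]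
              exact (hs.1 c (mem_erase.mpr ⟨h1, hcA⟩)).1.2.2
            · rw [Function.update_of_ne h1, Function.update_of_ne h2]
              exact hs.2 c (mem_erase.mpr ⟨h1, hcA⟩) d (mem_erase.mpr ⟨h2, hdA⟩)
    have hne : ∀ c ∈ A, c ≠ b → c ≠ c₀ → t c ≠ x ∧ t c ≠ y := by
      intro c hcA h1 h2
      constructor
      · intro h
        exact h2 (by rw [← (ht.1 c hcA).2, h, hx])
      · intro h
        exact h1 (by rw [← (ht.1 c hcA).2, h, hyb])
    have hyes : ∃ s, IsIT G U' cls' ((A.erase b).erase c₀) s := by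
      refine ⟨t, ?_, ?_⟩
      · intro c hc'
        obtain ⟨h2, h⟩ := mem_erase.mp hc'
        obtain ⟨h1, hcA⟩ := mem_erase.mp h
        obtain ⟨n1, n2⟩ := hne c hcA h1 h2
        refine ⟨⟨(ht.1 c hcA).1, fun h => ?_, fun h => ?_⟩, ?_⟩
        · have := ht.2 c hcA c₀ hc
          rw [htx] at this
          rcases hadj _ _ h this with ⟨h, _⟩ | ⟨h, _⟩
          · exact n1 h
          · exact n2 h
        · have := ht.2 c hcA b hbA
          rw [hty] at this
          rcases hadj _ _ h this with ⟨h, _⟩ | ⟨h, _⟩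
          · exact n1 h
          · exact n2 h
        · simp [hcls', (ht.1 c hcA).2, h1]
      · intro c hc' d hd' h
        obtain ⟨h2, h'⟩ := mem_erase.mp hc'
        obtain ⟨h1, hcA⟩ := mem_erase.mp h'
        obtain ⟨n1, n2⟩ := hne c hcA h1 h2
        rcases hadj _ _ h (ht.2 c hcA d (mem_of_mem_erase (mem_of_mem_erase hd'))) with
          ⟨h, _⟩ | ⟨h, _⟩
        · exact n1 h
        · exact n2 h
    have hcardA : (A.erase b).card + 1 = A.card := card_erase_add_one hbA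
    obtain ⟨S, hSA, hcS, Z, hZ, hd⟩ := ih G U' cls' (A.erase b) c₀ (by omega) hcA' hno' hyes
    have hbS : b ∉ S := fun h => (mem_erase.mp (hSA h)).1 rfl
    refine ⟨insert b S, insert_subset hbA (hSA.trans (erase_subset _ _)), mem_insert_of_mem hcS,
      insert (x, y) Z, ?_, ?_, ?_⟩
    · have := card_insert_le (x, y) Z
      rw [card_insert_of_notMem hbS]
      omega
    · intro e he
      rcases mem_insert.mp he with rfl | he
      · exact hxy
      · exact hd.1 e he
    · intro w hw hcw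
      by_cases h : G.Adj w x ∨ G.Adj w y
      · exact ⟨(x, y), mem_insert_self _ _, h⟩
      · push Not at h
        obtain ⟨e, he, h'⟩ := hd.2 w ⟨hw, h⟩ (by
          simp only [hcls']
          split_ifs with h5
          · exact hcS
          · exact (mem_insert.mp hcw).resolve_left h5)
        exact ⟨e, mem_insert_of_mem he, h'⟩

theorem haxell [Finite W] [Nonempty W] [DecidableEq C] (G : SimpleGraph W) (cls : W → C)
    (A : Finset C) (hno : ¬ ∃ t, IsIT G Set.univ cls A t) :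
    ∃ S ⊆ A, ∃ Z : Finset (W × W), Z.card + 1 ≤ S.card ∧ Dom G Set.univ cls S Z := by
  induction A using Finset.induction_on with
  | empty => exact absurd ⟨fun _ => Classical.arbitrary W, by simp, by simp⟩ hno
  | insert c A hc ih =>
    by_cases h : ∃ t, IsIT G Set.univ cls A t
    · obtain ⟨S, h1, _, h2⟩ := haxell_aux _ G Set.univ cls (insert c A) c le_rfl
        (mem_insert_self _ _) hno (by rwa [erase_insert hc])
      exact ⟨S, h1, h2⟩
    · obtain ⟨S, h1, h2⟩ := ih h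
      exact ⟨S, h1.trans (subset_insert _ _), h2⟩

end Hax

theorem it_deg {S L : Type} [Fintype S] [Fintype L] (cf : S × L → S × L → Prop)
    (hs : ∀ z z', cf z z' → cf z' z) (Δ : ℕ) (hd : ∀ z, {z' | cf z z'}.ncard ≤ Δ)
    (hL : 2 * Δ < Fintype.card L) :
    ∃ t : S → L, ∀ s s', s ≠ s' → ¬ cf (s, t s) (s', t s') := by
  classical
  obtain ⟨l₀⟩ : Nonempty L := Fintype.card_pos_iff.mp (by omega)
  rcases isEmpty_or_nonempty S with hS | ⟨⟨s₀⟩⟩
  · exact ⟨fun _ => l₀, fun s => hS.elim s⟩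
  have : Nonempty (S × L) := ⟨(s₀, l₀)⟩
  let G : SimpleGraph (S × L) :=
    { Adj := fun z z' => z ≠ z' ∧ cf z z'
      symm := ⟨fun _ _ h => ⟨h.1.symm, hs _ _ h.2⟩⟩
      loopless := ⟨fun _ h => h.1 rfl⟩ }
  by_cases hno : ∃ t, IsIT G Set.univ Prod.fst Finset.univ t
  · obtain ⟨t, h1, h2⟩ := hno
    have e : ∀ s, (s, (t s).2) = t s := fun s =>
      Prod.ext (h1 s (Finset.mem_univ _)).2.symm rfl
    refine ⟨fun s => (t s).2, fun s s' hne hc => ?_⟩
    rw [e, e] at hc
    refine h2 s (Finset.mem_univ _) s' (Finset.mem_univ _) ⟨fun h => hne ?_, hc⟩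
    rw [← (h1 s (Finset.mem_univ _)).2, h, (h1 s' (Finset.mem_univ _)).2]
  exfalso
  obtain ⟨A, -, Z, hZ, -, hdom⟩ := haxell G Prod.fst Finset.univ hno
  let N : S × L → Finset (S × L) := fun z => Finset.univ.filter (fun z' => cf z z')
  have hN : ∀ z, (N z).card ≤ Δ := fun z => by
    have := hd z
    rwa [show {z' | cf z z'} = (N z : Set (S × L)) by ext; simp [N], Set.ncard_coe_finset] at this
  have hsub : A ×ˢ (Finset.univ : Finset L) ⊆ Z.biUnion (fun e => N e.1 ∪ N e.2) := by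
    intro w hw
    obtain ⟨e, he, h⟩ := hdom w (Set.mem_univ _) (Finset.mem_product.mp hw).1
    refine Finset.mem_biUnion.mpr ⟨e, he, Finset.mem_union.mpr ?_⟩
    exact h.imp (fun h => Finset.mem_filter.mpr ⟨Finset.mem_univ _, hs _ _ h.2⟩)
      (fun h => Finset.mem_filter.mpr ⟨Finset.mem_univ _, hs _ _ h.2⟩)
  have h1 := Finset.card_le_card hsub
  have h2 : (Z.biUnion (fun e => N e.1 ∪ N e.2)).card ≤ Z.card * (2 * Δ) :=
    Finset.card_biUnion_le_card_mul _ _ _ (fun e _ =>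
      (Finset.card_union_le _ _).trans (by have := hN e.1; have := hN e.2; omega))
  rw [Finset.card_product, Finset.card_univ] at h1
  have h3 : Z.card * (2 * Δ) ≤ Z.card * Fintype.card L := Nat.mul_le_mul_left _ hL.le
  have h4 : (Z.card + 1) * Fintype.card L ≤ A.card * Fintype.card L := Nat.mul_le_mul_right _ hZ
  rw [Nat.add_mul, one_mul] at h4
  omega

end Pool.Agent.MP_e46b50_co.H93.Lg

namespace Pool.Agent.MP_e46b50_co.H93.Lg

open Finset
open scoped Classical

theorem hal_sum {V : Type} [Fintype V] [DecidableEq V] (S : Finset V) (c : ZMod 4) :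
    ∑ a : V → ZMod 4, (1 / 2 : ℝ) ^ (S.filter fun v => a v = c).card =
      4 ^ Fintype.card V * (7 / 8) ^ S.card := by
  have h1 : ∀ a : V → ZMod 4, (1 / 2 : ℝ) ^ (S.filter fun v => a v = c).card =
      ∏ v, if v ∈ S ∧ a v = c then (1 / 2 : ℝ) else 1 := by
    intro a
    rw [prod_ite, prod_const, prod_const_one, mul_one]
    congr 2
    ext v
    simp only [mem_filter, mem_univ, true_and]
  have h2 : ∀ v, ∑ z : ZMod 4, (if v ∈ S ∧ z = c then (1 / 2 : ℝ) else 1) =
      4 * if v ∈ S then (7 / 8 : ℝ) else 1 := by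
    intro v
    by_cases hv : v ∈ S
    · rw [sum_congr rfl (g := fun z => 1 - if z = c then (1 / 2 : ℝ) else 0), sum_sub_distrib,
        sum_ite_eq', sum_const, card_univ, ZMod.card, if_pos hv, if_pos (mem_univ _)]
      · norm_num
      · intro z _
        simp only [hv, true_and]
        split_ifs <;> norm_num
    · simp only [hv, false_and, if_false, sum_const, card_univ, ZMod.card]
      norm_num
  rw [sum_congr rfl fun a _ => h1 a, ← Fintype.piFinset_univ,
    ← prod_univ_sum (fun _ => univ) fun v z => if v ∈ S ∧ z = c then (1 / 2 : ℝ) else 1,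
    prod_congr rfl fun v _ => h2 v, prod_mul_distrib, prod_const, card_univ, prod_ite,
    prod_const, prod_const_one, mul_one, filter_mem_eq_inter, univ_inter]

theorem colouring {V W : Type} [Fintype V] [DecidableEq V] [Fintype W] (N : W → Finset V)
    (D x : ℕ) (hW : Fintype.card W ≤ 2 ^ x) (hN : ∀ w, 6 * (D + x + 2) ≤ (N w).card) :
    ∃ a : V → ZMod 4, ∀ w c, D ≤ ((N w).filter fun v => a v = c).card := by
  have h1 : ∀ w, (7 / 8 : ℝ) ^ (N w).card ≤ (1 / 2) ^ (D + x + 2) := fun w =>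
    (pow_le_pow_of_le_one (by norm_num) (by norm_num) (hN w)).trans (by
      rw [pow_mul]; exact pow_le_pow_left₀ (by norm_num) (by norm_num) _)
  obtain ⟨a, -, ha⟩ := exists_le_of_sum_le (s := (univ : Finset (V → ZMod 4))) univ_nonempty
    (f := fun a => ∑ p : W × ZMod 4, (1 / 2 : ℝ) ^ ((N p.1).filter fun v => a v = p.2).card)
    (g := fun _ => (1 / 2 : ℝ) ^ D) (by
      rw [sum_comm, sum_congr rfl fun p _ => hal_sum (N p.1) p.2, ← mul_sum, sum_const,
        card_univ, Fintype.card_fun, ZMod.card, nsmul_eq_mul]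
      push_cast
      refine mul_le_mul_of_nonneg_left ?_ (by positivity)
      refine (sum_le_card_nsmul _ _ _ fun p _ => h1 p.1).trans ?_
      rw [card_univ, Fintype.card_prod, ZMod.card, nsmul_eq_mul]
      have h2 : (Fintype.card W : ℝ) ≤ 2 ^ x := by exact_mod_cast hW
      calc _ ≤ (2 ^ x * 4 : ℝ) * (1 / 2) ^ (D + x + 2) := by
            push_cast
            exact mul_le_mul_of_nonneg_right (by linarith only [h2]) (by positivity)
        _ = (1 / 2) ^ D * (2 * (1 / 2)) ^ x := by rw [mul_pow]; ring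
        _ = _ := by norm_num)
  refine ⟨a, fun w c => ?_⟩
  have h2 := (single_le_sum (f := fun p : W × ZMod 4 =>
    (1 / 2 : ℝ) ^ ((N p.1).filter fun v => a v = p.2).card) (fun _ _ => by positivity)
    (mem_univ (w, c))).trans ha
  exact (pow_le_pow_iff_right_of_lt_one₀ (by norm_num) (by norm_num)).mp h2

section

variable {O W : Type} [DecidableEq O] [Fintype W] {N : W → Finset O} {M l x : ℕ}

theorem hal_in (hN : ∀ w, 2 * (2 * M + 1) * (l + x + 2) ≤ (N w).card)
    (hW : Fintype.card W ≤ 2 ^ x) {Z : Finset O} (hZ : ∃ w, (N w ∩ Z).card ≤ l + 1) :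
    M * ∑ b ∈ Z, arc N (Z.erase b) b < out N Z := by
  obtain ⟨w₀, hw₀⟩ := hZ
  rw [sum_arc_in, ← sub_pos, out, mul_sum, ← sum_sub_distrib]
  set k := l + x + 2 with hk
  set m : ℝ := 2 * M + 1 with hm
  have hm0 : 0 < m := by positivity
  have hk0 : (0 : ℝ) < k := by positivity
  have hN' : ∀ w, 2 * (m * k) ≤ (N w).card := fun w => by
    rw [← mul_assoc, hm]; exact_mod_cast hN w
  have he : ∀ w, (1 / 2 : ℝ) ^ (N w ∩ Z).card * (((N w).card : ℝ) - (N w ∩ Z).card) -
      M * ((1 / 2 : ℝ) ^ (N w ∩ Z).card * (2 * (N w ∩ Z).card)) =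
      (1 / 2 : ℝ) ^ (N w ∩ Z).card * (((N w).card : ℝ) - m * (N w ∩ Z).card) := fun w => by
    rw [hm]; ring
  have hl : ∀ w, (N w ∩ Z).card ≤ k → m * k ≤ ((N w).card : ℝ) - m * (N w ∩ Z).card := by
    intro w h
    have h4 : ((N w ∩ Z).card : ℝ) ≤ k := by exact_mod_cast h
    linarith only [mul_le_mul_of_nonneg_left h4 hm0.le, hN' w]
  rw [sum_congr rfl fun w _ => he w]
  set c : ℝ := m * ((1 / 2 : ℝ) ^ k * k) with hc
  have hc0 : 0 < c := by positivity
  have h1 : ∀ w, -c ≤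
      (1 / 2 : ℝ) ^ (N w ∩ Z).card * (((N w).card : ℝ) - m * (N w ∩ Z).card) := by
    intro w
    have h3 : (0 : ℝ) < (1 / 2) ^ (N w ∩ Z).card := by positivity
    rcases le_total (N w ∩ Z).card k with h | h
    · exact le_trans (by linarith only [hc0]) (mul_nonneg h3.le ((mul_pos hm0 hk0).le.trans (hl w h)))
    · have h4 := mul_le_mul_of_nonneg_left (half_anti (by omega) h) hm0.le
      have h5 := mul_nonneg h3.le (Nat.cast_nonneg (α := ℝ) (N w).card)
      linarith only [h4, h5]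
  have h2 : (1 / 2 : ℝ) ^ (l + 1) * (m * k) ≤
      (1 / 2 : ℝ) ^ (N w₀ ∩ Z).card * (((N w₀).card : ℝ) - m * (N w₀ ∩ Z).card) :=
    mul_le_mul (pow_le_pow_of_le_one (by norm_num) (by norm_num) hw₀) (hl _ (by omega))
      (mul_pos hm0 hk0).le (by positivity)
  have h3 : (Fintype.card W : ℝ) * c ≤ (1 / 2 : ℝ) ^ (l + 1) * (m * k) := by
    have h4 : (Fintype.card W : ℝ) ≤ 2 ^ x := by exact_mod_cast hW
    have h5 : (0 : ℝ) < (1 / 2 : ℝ) ^ (l + 1) * (m * k) := by positivity
    calc _ ≤ 2 ^ x * c := mul_le_mul_of_nonneg_right h4 hc0.le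
      _ = (2 * (1 / 2)) ^ x * ((1 / 2 : ℝ) ^ (l + 1) * (m * k)) / 2 := by
        rw [hc, mul_pow, show (1 / 2 : ℝ) ^ k = (1 / 2) ^ (l + 1) * (1 / 2) ^ x / 2 by
          rw [hk]; ring]
        ring
      _ ≤ _ := by rw [mul_one_div_cancel two_ne_zero, one_pow, one_mul]; linarith only [h5]
  rw [← add_sum_erase _ _ (mem_univ w₀)]
  have h4 := card_nsmul_le_sum (univ.erase w₀) _ (-c) fun w _ => h1 w
  rw [card_erase_of_mem (mem_univ _), card_univ, nsmul_eq_mul,
    Nat.cast_sub (Fintype.card_pos_iff.mpr ⟨w₀⟩)] at h4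
  push_cast at h4
  linarith only [hc0, h2, h3, h4]

variable [Fintype O]

theorem hal_exp (hN : ∀ w, 2 * (2 * M + 1) * (l + x + 2) ≤ (N w).card)
    (hW : Fintype.card W ≤ 2 ^ x) (A : Finset (Finset O))
    (hA : ∀ T ∈ A, ∃ w, (N w ∩ T).card ≤ l) :
    M * A.card ≤
      (A.biUnion fun T => (Tᶜ.filter fun b => ∃ w, b ∈ N w).image fun b => insert b T).card := by
  set B := A.biUnion fun T => (Tᶜ.filter fun b => ∃ w, b ∈ N w).image fun b => insert b T with hB
  have hlow : ∀ T ∈ A, ∀ b, ∃ w, (N w ∩ insert b T).card ≤ l + 1 := by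
    intro T hT b
    obtain ⟨w, hw⟩ := hA T hT
    refine ⟨w, (card_le_card (t := insert b (N w ∩ T)) fun y hy => ?_).trans
      ((card_insert_le _ _).trans (by omega))⟩
    simp only [mem_inter, mem_insert] at hy ⊢
    exact hy.2.imp_right fun h => ⟨hy.1, h⟩
  have hM : (0 : ℝ) ≤ M := Nat.cast_nonneg _
  have hpos : ∀ Z, (∃ w, (N w ∩ Z).card ≤ l + 1) → 0 < out N Z := fun Z hZ =>
    lt_of_le_of_lt (mul_nonneg hM (sum_nonneg fun b _ => arc_nonneg _ _)) (hal_in hN hW hZ)
  have h1 : (M * A.card : ℝ) ≤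
      ∑ T ∈ A, ∑ b ∈ Tᶜ.filter fun b => ∃ w, b ∈ N w, M * arc N T b / out N (insert b T) := by
    rw [mul_comm, ← nsmul_eq_mul]
    refine card_nsmul_le_sum _ _ _ fun T hT => ?_
    have h2 : 0 < out N T := hpos T ((hA T hT).imp fun _ h => h.trans (Nat.le_succ _))
    have h3 : ∑ b ∈ Tᶜ.filter fun b => ∃ w, b ∈ N w, arc N T b = out N T := by
      rw [← sum_arc, sum_filter_of_ne]
      intro b _ hb
      by_contra h
      exact hb (sum_eq_zero fun w _ => if_neg fun h' => h ⟨w, h'⟩)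
    calc (M : ℝ) = ∑ b ∈ Tᶜ.filter fun b => ∃ w, b ∈ N w, M * arc N T b / out N T := by
          rw [← sum_div, ← mul_sum, h3, mul_div_assoc, div_self h2.ne', mul_one]
      _ ≤ _ := sum_le_sum fun b _ => div_le_div_of_nonneg_left
          (mul_nonneg hM (arc_nonneg _ _)) (hpos _ (hlow T hT b))
          (out_anti (subset_insert _ _))
  have hups : ∀ Z ∈ B, ∃ w, (N w ∩ Z).card ≤ l + 1 := by
    intro Z hZ
    obtain ⟨T, hT, hZ⟩ := mem_biUnion.mp hZ
    obtain ⟨b, -, rfl⟩ := mem_image.mp hZ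
    exact hlow T hT b
  have h2 : ∑ T ∈ A, ∑ b ∈ Tᶜ.filter fun b => ∃ w, b ∈ N w,
      M * arc N T b / out N (insert b T) ≤
      ∑ Z ∈ B, ∑ b ∈ Z, M * arc N (Z.erase b) b / out N Z := by
    rw [sum_sigma', sum_sigma']
    set φ : (Σ _ : Finset O, O) → Σ _ : Finset O, O := fun x => ⟨insert x.2 x.1, x.2⟩ with hφ
    have hinj : Set.InjOn φ (A.sigma fun T => Tᶜ.filter fun b => ∃ w, b ∈ N w) := by
      rintro ⟨T, b⟩ hx ⟨T', b'⟩ hy h
      have hx' := mem_compl.mp (mem_filter.mp (mem_sigma.mp (mem_coe.mp hx)).2).1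
      have hy' := mem_compl.mp (mem_filter.mp (mem_sigma.mp (mem_coe.mp hy)).2).1
      simp only [hφ, Sigma.mk.injEq, heq_eq_eq] at h hx' hy' ⊢
      obtain ⟨h3, rfl⟩ := h
      exact ⟨by rw [← erase_insert hx', h3, erase_insert hy'], rfl⟩
    calc _ = ∑ y ∈ (A.sigma fun T => Tᶜ.filter fun b => ∃ w, b ∈ N w).image φ,
          M * arc N (y.1.erase y.2) y.2 / out N y.1 := by
          rw [sum_image hinj]
          refine sum_congr rfl ?_
          rintro ⟨T, b⟩ hx
          simp only [hφ, erase_insert (mem_compl.mp (mem_filter.mp (mem_sigma.mp hx).2).1)]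
      _ ≤ _ := by
          refine sum_le_sum_of_subset_of_nonneg (fun y hy => ?_) ?_
          · obtain ⟨⟨T, b⟩, hx, rfl⟩ := mem_image.mp hy
            rw [mem_sigma] at hx ⊢
            exact ⟨mem_biUnion.mpr ⟨T, hx.1, mem_image.mpr ⟨b, hx.2, rfl⟩⟩, mem_insert_self _ _⟩
          · rintro ⟨Z, b⟩ hx _
            exact div_nonneg (mul_nonneg hM (arc_nonneg _ _))
              (hpos _ (hups Z (mem_sigma.mp hx).1)).le
  have h3 : ∑ Z ∈ B, ∑ b ∈ Z, M * arc N (Z.erase b) b / out N Z ≤ (B.card : ℝ) := by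
    rw [← mul_one (B.card : ℝ), ← nsmul_eq_mul]
    refine sum_le_card_nsmul _ _ _ fun Z hZ => ?_
    rw [← sum_div, ← mul_sum, div_le_one (hpos Z (hups Z hZ))]
    exact (hal_in hN hW (hups Z hZ)).le
  exact_mod_cast h1.trans (h2.trans h3)

end

theorem hall_col {V W U : Type} [Fintype V] [DecidableEq V] [Nonempty V] [Fintype W]
    (N : W → Finset V) (a : V → ZMod 4) (un : Finset V → U) (F : Finset (Finset V))
    (up : ∀ T ∈ F, ∀ b, insert b T ∈ F) (μ l x : ℕ)
    (hμ : ∀ u, (F.filter fun T => un T = u).card ≤ μ) (hW : Fintype.card W ≤ 2 ^ x)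
    (hN : ∀ w c, (32 * μ + 10) * (l + x + 2) ≤ ((N w).filter fun v => a v = c).card)
    (c : Finset V → ZMod 4) (av : Finset V → Finset V) (hav : ∀ T, (av T).card ≤ 2) :
    ∃ b : Finset V → Bool → V,
      (∀ T ∈ F, (∃ w, (N w ∩ T).card ≤ l) → ∀ j,
        b T j ∉ T ∧ (∃ w, b T j ∈ N w) ∧ a (b T j) = c T ∧ b T j ∉ av T) ∧
      ∀ T ∈ F, ∀ T' ∈ F, (∃ w, (N w ∩ T).card ≤ l) → (∃ w, (N w ∩ T').card ≤ l) → ∀ j j',
        un (insert (b T j) T) = un (insert (b T' j') T') → T = T' ∧ j = j' := by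
  set al : Finset V → Finset V := fun T =>
    univ.filter fun b => b ∉ T ∧ (∃ w, b ∈ N w) ∧ a b = c T ∧ b ∉ av T with hal
  obtain ⟨f, hf, hf'⟩ := (all_card_le_biUnion_card_iff_exists_injective
    (fun z : {T : Finset V // T ∈ F ∧ ∃ w, (N w ∩ T).card ≤ l} × Bool =>
      (al z.1.1).image fun b => un (insert b z.1.1))).mp (by
      intro s
      rcases s.eq_empty_or_nonempty with rfl | ⟨z₀, -⟩
      · exact Nat.zero_le _
      have hμ0 : 0 < μ := by
        refine lt_of_lt_of_le (card_pos.mpr ⟨z₀.1.1, ?_⟩) (hμ (un z₀.1.1))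
        exact mem_filter.mpr ⟨z₀.1.2.1, rfl⟩
      set S := s.image fun z => z.1.1 with hS
      have h1 : s.card ≤ 2 * S.card := by
        refine card_le_mul_card_image s 2 fun T _ => ?_
        refine (card_le_card_of_injOn (t := univ) (fun z => z.2) (fun _ _ => mem_univ _) ?_).trans
          (by rw [card_univ, Fintype.card_bool])
        intro x hx y hy h
        exact Prod.ext (Subtype.ext ((mem_filter.mp hx).2.trans (mem_filter.mp hy).2.symm)) h
      obtain ⟨c₀, -, h2⟩ := exists_le_of_sum_le (s := (univ : Finset (ZMod 4))) univ_nonempty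
        (f := fun _ => S.card) (g := fun c₀ => 4 * (S.filter fun T => c T = c₀).card) (by
          rw [← mul_sum, ← card_eq_sum_card_fiberwise fun _ _ => mem_univ _, sum_const, card_univ,
            ZMod.card, smul_eq_mul])
      set A := S.filter fun T => c T = c₀ with hA
      have hA' : ∀ T ∈ A, ∃ z ∈ s, z.1.1 = T := fun T hT => mem_image.mp (mem_filter.mp hT).1
      have h3 := hal_exp (N := fun w => (N w).filter fun v => a v = c₀) (M := 8 * μ + 2) (l := l)
        (fun w => le_of_eq_of_le (by ring) (hN w c₀)) hW A (by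
          intro T hT
          obtain ⟨z, -, rfl⟩ := hA' T hT
          exact z.1.2.2.imp fun w h =>
            (card_le_card (inter_subset_inter_right (filter_subset _ _))).trans h)
      set Y := A.biUnion fun T => (al T).image fun b => insert b T with hY
      have h4 : (8 * μ + 2) * A.card ≤ Y.card + A.card * 2 := by
        refine h3.trans ((card_le_card (t := Y ∪ A.biUnion fun T => (av T).image fun b =>
          insert b T) fun Z hZ => ?_).trans ((card_union_le _ _).trans (Nat.add_le_add_left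
            (card_biUnion_le_card_mul _ _ _ fun T _ => card_image_le.trans (hav T)) _)))
        obtain ⟨T, hT, hZ⟩ := mem_biUnion.mp hZ
        obtain ⟨b, hb, rfl⟩ := mem_image.mp hZ
        obtain ⟨hb, w, hw⟩ := mem_filter.mp hb
        by_cases h : b ∈ av T
        · exact mem_union_right _ (mem_biUnion.mpr ⟨T, hT, mem_image_of_mem _ h⟩)
        · exact mem_union_left _ (mem_biUnion.mpr ⟨T, hT, mem_image_of_mem _ (mem_filter.mpr
            ⟨mem_univ _, mem_compl.mp hb, ⟨w, (mem_filter.mp hw).1⟩,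
              (mem_filter.mp hw).2.trans (mem_filter.mp hT).2.symm, h⟩)⟩)
      have h5 : Y.card ≤ μ * (Y.image un).card := by
        refine card_le_mul_card_image Y μ fun u _ => (card_le_card fun Z hZ => ?_).trans (hμ u)
        obtain ⟨hZ, hu⟩ := mem_filter.mp hZ
        obtain ⟨T, hT, hZ⟩ := mem_biUnion.mp hZ
        obtain ⟨b, -, rfl⟩ := mem_image.mp hZ
        obtain ⟨z, -, rfl⟩ := hA' T hT
        exact mem_filter.mpr ⟨up _ z.1.2.1 b, hu⟩
      refine le_trans ?_ (card_le_card (s := Y.image un) fun u hu => ?_)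
      · refine Nat.le_of_mul_le_mul_left ?_ hμ0
        have h6 := Nat.mul_le_mul_left μ (h1.trans (Nat.mul_le_mul_left 2 h2))
        linarith only [h4, h5, h6]
      · obtain ⟨Z, hZ, rfl⟩ := mem_image.mp hu
        obtain ⟨T, hT, hZ⟩ := mem_biUnion.mp hZ
        obtain ⟨b, hb, rfl⟩ := mem_image.mp hZ
        obtain ⟨z, hz, rfl⟩ := hA' T hT
        exact mem_biUnion.mpr ⟨z, hz, mem_image_of_mem (fun b => un (insert b z.1.1)) hb⟩)
  choose g hg hg' using fun z => mem_image.mp (hf' z)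
  refine ⟨fun T j => if h : T ∈ F ∧ ∃ w, (N w ∩ T).card ≤ l then g (⟨T, h⟩, j)
    else Classical.arbitrary V, fun T hT h j => ?_, fun T hT T' hT' h h' j j' he => ?_⟩
  · simp only [dif_pos (And.intro hT h)]
    exact (mem_filter.mp (hg (⟨T, hT, h⟩, j))).2
  · simp only [dif_pos (And.intro hT h), dif_pos (And.intro hT' h')] at he
    have := hf (((hg' (⟨T, hT, h⟩, j)).symm.trans he).trans (hg' (⟨T', hT', h'⟩, j')))
    exact ⟨congrArg (fun z => z.1.1) this, congrArg Prod.snd this⟩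

end Pool.Agent.MP_e46b50_co.H93.Lg

namespace Pool.Agent.MP_e46b50_co.H93.Lg

open Finset

variable {V : Type} [Fintype V] [DecidableEq V] {G : SimpleGraph V}

section gen
variable {β : Type} [DecidableEq β] {Γ : SimpleGraph β} {op : β → β → β} {A B : Finset β}

theorem clu_sdiff (h : Bx Γ op A B) {O O' : Finset β} (a1 : O ⊆ A) (b1 : O' ⊆ B) :
    image₂ op A B \ image₂ op O O' = image₂ op (A \ O) B ∪ image₂ op O (B \ O') := by
  ext x
  simp only [mem_sdiff, mem_union, mem_image₂]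
  constructor
  · rintro ⟨⟨a, ha, b, hb, rfl⟩, h1⟩
    by_cases h2 : a ∈ O
    · exact Or.inr ⟨a, h2, b, ⟨hb, fun h3 => h1 ⟨a, h2, b, h3, rfl⟩⟩, rfl⟩
    · exact Or.inl ⟨a, ⟨ha, h2⟩, b, hb, rfl⟩
  · rintro (⟨a, ha, b, hb, rfl⟩ | ⟨a, ha, b, hb, rfl⟩)
    · exact ⟨⟨a, ha.1, b, hb, rfl⟩, fun ⟨a', ha', b', hb', e⟩ =>
        ha.2 ((h.inj _ (a1 ha') _ (b1 hb') _ ha.1 _ hb e).1 ▸ ha')⟩
    · exact ⟨⟨a, a1 ha, b, hb.1, rfl⟩, fun ⟨a', ha', b', hb', e⟩ =>
        hb.2 ((h.inj _ (a1 ha') _ (b1 hb') _ (a1 ha) _ hb.1 e).2 ▸ hb')⟩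

theorem clu_k23 (h : Bx Γ op A B) (hB : Tile (fun c => K2 Γ c ∨ K3 Γ c) B) :
    Tile (fun c => K2 Γ c ∨ K3 Γ c) (image₂ op A B) := by
  refine h.right hB ?_
  rintro _ hc (h1 | ⟨x, y, z, h1, h2, h3, rfl⟩)
  · exact ((h.mono Subset.rfl hc).k2r (.one h1)).mono fun _ => Or.inl
  refine (h.mono Subset.rfl hc).left (Tile.sing A) ?_
  rintro _ hd ⟨a, rfl⟩
  have ha : a ∈ A := hd (by simp)
  exact .one (Or.inr ⟨op a x, op a y, op a z, h.r _ ha _ (hc (by simp)) _ (hc (by simp)) h1,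
    h.r _ ha _ (hc (by simp)) _ (hc (by simp)) h2, h.r _ ha _ (hc (by simp)) _ (hc (by simp)) h3,
    by simp only [image₂_singleton_left, image_insert, image_singleton]⟩)
end gen

open scoped symmDiff

/-- separated and disjoint regions -/
def clu_Sep (G : SimpleGraph V) (A R R' : Finset V) : Prop :=
  (∀ w ∈ A, ∀ a ∈ R, ∀ b ∈ R', ca G w a → ca G w b → False) ∧ Disjoint R R'

section loc
variable {A T R R' s : Finset V}
omit [Fintype V]

omit [DecidableEq V] in
theorem clu_Sep.symm (h : clu_Sep G A R R') : clu_Sep G A R' R :=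
  ⟨fun w hw a ha b hb h1 h2 => h.1 w hw b hb a ha h2 h1, h.2.symm⟩

omit [DecidableEq V] in
theorem clu_mix {X Y Z : Finset V} (hX : DA G A X) (hY : DA G A Y) (h : clu_Sep G A R R')
    (h1 : ∀ x ∈ X, x ∉ R → x ∈ Z) (h2 : ∀ x ∈ Y, x ∉ R' → x ∈ Z) : DA G A Z := by
  intro w hw
  obtain ⟨x, a1, a2⟩ := hX w hw
  obtain ⟨y, b1, b2⟩ := hY w hw
  by_cases hx : x ∈ R
  · exact ⟨y, h2 y b1 fun hy => h.1 w hw x hx y hy a2 b2, b2⟩
  · exact ⟨x, h1 x a1 hx, a2⟩

omit [DecidableEq V] in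
theorem clu_up {X Y : Finset V} (h : X ⊆ Y) (hX : DA G A X) : DA G A Y :=
  fun w hw => let ⟨x, a, b⟩ := hX w hw; ⟨x, h a, b⟩

theorem clu_mem : s ∈ LA G A T R ↔ s ⊆ R ∧ DA G A (T \ R ∪ s) := by simp [LA]

theorem clu_top (hT : DA G A T) : R ∈ LA G A T R :=
  clu_mem.mpr ⟨Subset.rfl, clu_up (by rw [sdiff_union_self_eq_union]; exact subset_union_left) hT⟩

theorem clu_union (hT : DA G A T) (h : clu_Sep G A R R') :
    LA G A T (R ∪ R') = image₂ (· ∪ ·) (LA G A T R) (LA G A T R') := by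
  ext s
  simp only [clu_mem, mem_image₂]
  constructor
  · rintro ⟨h1, h2⟩
    refine ⟨s ∩ R, ⟨inter_subset_right, clu_mix hT h2 h (by simp only [mem_union, mem_sdiff, mem_inter]; tauto) fun x a b => ?_⟩,
      s ∩ R', ⟨inter_subset_right, clu_mix hT h2 h.symm (by simp only [mem_union, mem_sdiff, mem_inter]; tauto) fun x a b => ?_⟩,
      by rw [← inter_union_distrib_left, inter_eq_left.mpr h1]⟩ <;>
    · have := @h1 x
      simp only [mem_union, mem_sdiff, mem_inter] at *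
      tauto
  · rintro ⟨a, ⟨a1, a2⟩, b, ⟨b1, b2⟩, rfl⟩
    exact ⟨union_subset_union a1 b1, clu_mix a2 b2 h.symm (by simp only [mem_union, mem_sdiff, not_or]; tauto) (by simp only [mem_union, mem_sdiff, not_or]; tauto)⟩

theorem clu_Sep.bx (h : clu_Sep G A R R') :
    Bx (gam G) (· ∪ ·) (LA G A T R) (LA G A T R') := by
  have hd : ∀ a ∈ LA G A T R, ∀ b ∈ LA G A T R', Disjoint a b := fun a ha b hb =>
    h.2.mono (clu_mem.mp ha).1 (clu_mem.mp hb).1
  refine ⟨fun a ha b hb a' ha' b' hb' e => ?_, fun a ha a' ha' b hb e =>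
    adj_union e (hd a ha b hb).symm (hd a' ha' b hb).symm, fun a ha b hb b' hb' e => ?_⟩
  · constructor <;> ext x <;>
    · have := Finset.ext_iff.mp e x
      have := @disjoint_left.mp (hd a ha b' hb') x
      have := @disjoint_left.mp (hd a' ha' b hb) x
      simp only [mem_union] at *
      tauto
  · simp only [union_comm a]
    exact adj_union e (hd a ha b hb) (hd a ha b' hb')

theorem clu_ins (h : s ∈ LA G A T R) {y : V} (hy : y ∈ R) : insert y s ∈ LA G A T R :=
  clu_mem.mpr ⟨insert_subset hy (clu_mem.mp h).1,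
    clu_up (union_subset_union_right (subset_insert _ _)) (clu_mem.mp h).2⟩

variable {q : ℕ} {C₀ : Finset V} {ρ : V → Finset V} (h : Cl G A q C₀ ρ)
include h

theorem clu_erase {v : V} (hv : v ∈ C₀) (h0 : s ∈ LA G A T (ρ v))
    (hs : ∀ w ∈ ρ v, G.Adj v w → w ∈ s) : s.erase v ∈ LA G A T (ρ v) := by
  obtain ⟨h1, h2⟩ := clu_mem.mp h0
  obtain ⟨u, hu', hu⟩ := h.nb v hv
  refine clu_mem.mpr ⟨(erase_subset _ _).trans h1, fun w hw => ?_⟩
  obtain ⟨x, a1, a2⟩ := h2 w hw
  by_cases hx : x = v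
  · subst hx
    rcases a2 with rfl | a2
    · exact ⟨u, mem_union_right _ (mem_erase.mpr ⟨hu.ne', hs u hu' hu⟩), Or.inr hu⟩
    · exact ⟨w, mem_union_right _ (mem_erase.mpr
        ⟨a2.ne, hs w (h.out x hv w hw a2.symm) a2.symm⟩), Or.inl rfl⟩
  · exact ⟨x, by simp only [mem_union, mem_erase] at *; tauto, a2⟩

theorem clu_st1 [NeZero q] {v : V} (hv : v ∈ C₀) : St (gam G) q 1 (LA G A T (ρ v)) := by
  obtain ⟨g⟩ := Function.Embedding.nonempty_of_card_le (α := ρ v) (β := ZMod q)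
    (by simpa only [Fintype.card_coe, ZMod.card] using h.card v hv)
  have : Nonempty (ρ v) := ⟨⟨v, h.self v hv⟩⟩
  refine St.base (fun l x => x ∆ {(Function.invFun g l).1})
    (fun l x z e => symmDiff_left_injective _ e) fun x hx => ?_
  suffices ∃ y ∈ ρ v, x ∆ {y} ∈ LA G A T (ρ v) by
    obtain ⟨y, h1, h2⟩ := this
    exact ⟨g ⟨y, h1⟩, by rwa [Function.leftInverse_invFun g.injective], adj_tog _ _⟩
  by_cases h' : ∃ y ∈ ρ v, y ∉ x
  · obtain ⟨y, h1, h2⟩ := h'
    exact ⟨y, h1, tog_not h2 ▸ clu_ins hx h1⟩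
  · push Not at h'
    exact ⟨v, h.self v hv, tog_mem (h' v (h.self v hv)) ▸ clu_erase h hv hx fun w hw _ => h' w hw⟩

theorem clu_fo {v : V} (hv : v ∈ C₀) : ∃ K φ τ, Fo (gam G) (LA G A T (ρ v)) K φ τ card := by
  have h' : ∀ s, ∃ w, s ∈ LA G A T (ρ v) → s.erase v ∉ LA G A T (ρ v) →
      w ∈ ρ v ∧ G.Adj v w ∧ w ∉ s := by
    intro s
    by_contra h'
    push Not at h'
    exact (h' v).2.1 (clu_erase h hv (h' v).1 fun w => (h' w).2.2)
  choose w hw using h'
  refine ⟨(LA G A T (ρ v)).filter fun s => v ∈ s ∧ s.erase v ∉ LA G A T (ρ v),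
    fun s => insert (w s) s, fun s => s ∆ {v}, fun s h1 h2 => ?_, fun s h1 h2 => ?_⟩
  · obtain ⟨a1, a2⟩ := (mem_filter.mp h2).2
    obtain ⟨a0, a3, a4⟩ := hw s h1 a2
    refine ⟨clu_ins h1 a0, tog_not a4 ▸ adj_tog _ _,
      by rw [card_insert_of_notMem a4]; omega, fun _ => ?_⟩
    have := adj_slide (mem_insert_self (w s) s) (mem_insert_of_mem a1) a3.symm
    rwa [erase_insert a4, ← tog_mem (mem_insert_of_mem a1)] at this
  · refine ⟨?_, fun h => ?_, symmDiff_symmDiff_cancel_right _ _, adj_tog _ _⟩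
    · by_cases h' : v ∈ s
      · rw [tog_mem h']
        by_contra h''
        exact h2 (mem_filter.mpr ⟨h1, h', h''⟩)
      · exact tog_not h' ▸ clu_ins h1 (h.self v hv)
    · obtain ⟨a1, a2⟩ := (mem_filter.mp h).2
      rw [← tog_mem a1, symmDiff_symmDiff_cancel_right] at a2
      exact a2 h1

theorem clu_sep {C₁ C₂ : Finset V} (h1 : C₁ ⊆ C₀) (h2 : C₂ ⊆ C₀) (hd : Disjoint C₁ C₂) :
    clu_Sep G A (C₁.biUnion ρ) (C₂.biUnion ρ) := by
  have ne : ∀ u ∈ C₁, ∀ v ∈ C₂, u ≠ v := fun u hu v hv e => disjoint_left.mp hd hu (e ▸ hv)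
  refine ⟨fun w hw a ha b hb => ?_, disjoint_left.mpr fun a ha hb => ?_⟩
  · obtain ⟨u, hu, ha⟩ := mem_biUnion.mp ha
    obtain ⟨v, hv, hb⟩ := mem_biUnion.mp hb
    exact h.sep u (h1 hu) v (h2 hv) (ne u hu v hv) w hw a ha b hb
  · obtain ⟨u, hu, ha⟩ := mem_biUnion.mp ha
    obtain ⟨v, hv, hb⟩ := mem_biUnion.mp hb
    exact disjoint_left.mp (h.dis u (h1 hu) v (h2 hv) (ne u hu v hv)) ha hb

theorem clu_sep1 {C : Finset V} (hC : C ⊆ C₀) {v : V} (hv : v ∈ C₀) (hvC : v ∉ C) :
    clu_Sep G A (ρ v) (C.biUnion ρ) := by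
  simpa using clu_sep h (singleton_subset_iff.mpr hv) hC (disjoint_singleton_left.mpr hvC)

variable [NeZero q] (hT : DA G A T)
include hT

theorem clu_st (C : Finset V) : C ⊆ C₀ → St (gam G) q C.card (LA G A T (C.biUnion ρ)) := by
  induction C using Finset.induction_on with
  | empty => exact fun _ => ⟨_, Subset.rfl, by simpa only [biUnion_empty, sdiff_self, bot_eq_empty] using Tile.nil, fun _ => 0, fun _ x => x,
      by simp only [biUnion_empty, card_empty, not_lt_zero, sdiff_self, bot_eq_empty, notMem_empty, SimpleGraph.irrefl, and_self, imp_self, implies_true], by simp⟩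
  | insert v C hv ih =>
    intro hC
    rw [insert_subset_iff] at hC
    have s := (clu_sep1 h hC.2 hC.1 hv).symm
    rw [card_insert_of_notMem hv, biUnion_insert, union_comm, clu_union hT s]
    exact St.step s.bx (ih hC.2) (clu_st1 h hC.1)

theorem clu_pp (s : ℕ) : ∀ C ⊆ C₀, C.card = q * s →
    Tile (fun c => K2 (gam G) c ∨ Pn (gam G) (3 ^ s) c) (LA G A T (C.biUnion ρ)) := by
  induction s with
  | zero =>
    intro C _ hc
    obtain rfl := card_eq_zero.mp hc
    have : LA G A T ((∅ : Finset V).biUnion ρ) = {∅} := by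
      ext s
      simp +contextual [clu_mem, hT]
    exact this ▸ .one (Or.inr ⟨rfl, ∅, ∅, Pth.single (by simp)⟩)
  | succ s ih =>
    intro C hC hc
    obtain ⟨D, h1, h2⟩ := exists_subset_card_eq (s := C) (n := q)
      (by rw [hc, mul_add_one]; omega)
    have s := clu_sep h (sdiff_subset.trans hC) (h1.trans hC) sdiff_disjoint
    rw [← sdiff_union_of_subset h1, union_biUnion, clu_union hT s, pow_succ']
    exact s.bx.long (ih _ (sdiff_subset.trans hC)
      (by rw [card_sdiff_of_subset h1, hc, h2]; simp [mul_add]))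
      (St.fin (h2 ▸ clu_st h hT D (h1.trans hC)))

theorem clu_kp {C : Finset V} (hC : C ⊆ C₀) (hc : C.card = q * (q + 1) + 1) :
    Tile (fun c => K2 (gam G) c ∨ K3 (gam G) c) (LA G A T (C.biUnion ρ)) := by
  obtain ⟨v, hv⟩ := card_pos.mp (show 0 < C.card by omega)
  have s := clu_sep1 h ((erase_subset v C).trans hC) (hC hv) (notMem_erase v C)
  obtain ⟨K, φ, τ, f⟩ := clu_fo (T := T) h (hC hv)
  obtain ⟨n, hn⟩ : Odd (3 ^ (q + 1)) := Odd.pow (by decide)
  rw [← insert_erase hv, biUnion_insert, clu_union hT s]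
  refine s.bx.kp f (n := n) ?_ (hn ▸ clu_pp h hT _ _ ((erase_subset v C).trans hC)
    (by rw [card_erase_of_mem hv, hc]; rfl))
  have h1 : (LA G A T (ρ v)).card ≤ 2 ^ q := by
    classical
    exact (card_filter_le _ _).trans
      (by rw [card_powerset]; exact Nat.pow_le_pow_right two_pos (h.card v (hC hv)))
  have h2 : 2 ^ (q + 1) < 3 ^ (q + 1) := Nat.pow_lt_pow_left (by norm_num) (by omega)
  rw [pow_succ] at h2
  omega
end loc

theorem Cl.tile {A C₀ C T : Finset V} {q : ℕ} {ρ : V → Finset V} (h : Cl G A q C₀ ρ)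
    (hC : C ⊆ C₀) (hc : C.card = q * (q + 1) + 2) {v : V} (hv : v ∈ C) (hT : DA G A T)
    (hR : C.biUnion ρ ⊆ T) :
    (C.biUnion ρ).erase v ∈ LA G A T (C.biUnion ρ) ∧
      Tile (fun s => K2 (gam G) s ∨ K3 (gam G) s)
        (LA G A T (C.biUnion ρ) \ {C.biUnion ρ, (C.biUnion ρ).erase v}) := by
  have hv0 := hC hv
  have : NeZero q := ⟨fun e => by
    have := (card_pos.mpr ⟨v, h.self v hv0⟩).trans_le (h.card v hv0); omega⟩
  have hC' := (erase_subset v C).trans hC
  have s := clu_sep1 h hC' hv0 (notMem_erase v C)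
  have m1 : ρ v ∈ LA G A T (ρ v) := clu_top hT
  have m2 := clu_erase h hv0 m1 fun w hw _ => hw
  have m3 : (C.erase v).biUnion ρ ∈ LA G A T ((C.erase v).biUnion ρ) := clu_top hT
  have kp := clu_kp h hT hC' (by rw [card_erase_of_mem hv, hc]; rfl)
  have e : C.biUnion ρ = ρ v ∪ (C.erase v).biUnion ρ := by rw [← biUnion_insert, insert_erase hv]
  have e' : (ρ v ∪ (C.erase v).biUnion ρ).erase v = (ρ v).erase v ∪ (C.erase v).biUnion ρ := by
    rw [erase_union_distrib, erase_eq_of_notMem (disjoint_left.mp s.2 (h.self v hv0))]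
  have a1 : {ρ v, (ρ v).erase v} ⊆ LA G A T (ρ v) := insert_subset m1 (singleton_subset_iff.mpr m2)
  have b1 := singleton_subset_iff.mpr m3
  rw [e, e', clu_union hT s]
  refine ⟨mem_image₂_of_mem m2 m3, ?_⟩
  rw [show ({ρ v ∪ (C.erase v).biUnion ρ, (ρ v).erase v ∪ (C.erase v).biUnion ρ} :
      Finset (Finset V)) = image₂ (· ∪ ·) {ρ v, (ρ v).erase v} {(C.erase v).biUnion ρ} by
    simp [image₂_singleton_right], clu_sdiff s.bx a1 b1]
  exact (clu_k23 (s.bx.mono sdiff_subset Subset.rfl) kp).union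
    (((s.bx.mono a1 sdiff_subset).k2l (.one ⟨_, _, adj_erase (h.self v hv0), rfl⟩)).mono
      fun _ => Or.inl)
    (s.bx.disj sdiff_subset a1 Subset.rfl sdiff_subset (Or.inl sdiff_disjoint))

theorem Cl.su {A C : Finset V} {q : ℕ} {ρ : V → Finset V} (h : Cl G A q C ρ) {ι : Type}
    [Fintype ι] (hc : C.card = Fintype.card ι * (q * (q + 1) + 2)) {c x : ℕ}
    (rob : ∀ w, w ∉ A → c * ((C.biUnion ρ).card + x + 1) ≤ (Nb G (C.biUnion ρ) w).card ∧
      ∃ g ∈ Nb G (C.biUnion ρ) w, ∃ y ∈ Nb G (C.biUnion ρ) w, G.Adj g y)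
    (big : c * ((C.biUnion ρ).card + x + 1) ≤ Fintype.card V) :
    ∃ (R : ι → Finset V) (v : ι → V), Su G c x ∅ (C.biUnion ρ) A R v := by
  classical
  obtain ⟨g⟩ : Nonempty (ι × Fin (q * (q + 1) + 2) ≃ C) := Fintype.card_eq.mp (by simp only [Fintype.card_prod, Fintype.card_fin, Fintype.card_coe, hc])
  set cs : ι → Finset V := fun i => univ.image fun k => (g (i, k)).1
  have c1 : ∀ i, cs i ⊆ C := fun i => image_subset_iff.mpr fun k _ => (g (i, k)).2
  have c2 : ∀ i, (cs i).card = q * (q + 1) + 2 := fun i => by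
    rw [card_image_of_injective _ fun k k' e => (Prod.ext_iff.mp (g.injective (Subtype.ext e))).2,
      card_univ, Fintype.card_fin]
  have c3 : ∀ i j, i ≠ j → Disjoint (cs i) (cs j) := fun i j hij => disjoint_left.mpr fun x a b => by
    obtain ⟨k, -, rfl⟩ := mem_image.mp a
    obtain ⟨k', -, e⟩ := mem_image.mp b
    exact hij (Prod.ext_iff.mp (g.injective (Subtype.ext e))).1.symm
  have c4 : ∀ i, (g (i, 0)).1 ∈ cs i := fun i => mem_image.mpr ⟨0, mem_univ _, rfl⟩
  have c5 : ∀ i, (cs i).biUnion ρ ⊆ C.biUnion ρ := fun i => biUnion_subset_biUnion_of_subset_left _ (c1 i)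
  refine ⟨fun i => (cs i).biUnion ρ, fun i => (g (i, 0)).1, ?_,
    fun i => mem_biUnion.mpr ⟨_, c4 i, h.self _ (c1 i (c4 i))⟩,
    fun i j hij => (clu_sep h (c1 i) (c1 j) (c3 i j hij)).2, fun i => disjoint_empty_left _,
    Or.inl rfl, fun i j hij => (clu_sep h (c1 i) (c1 j) (c3 i j hij)).1,
    fun i T h1 h2 => h.tile (c1 i) (c2 i) (c4 i) h2 ((c5 i).trans h1),
    fun w hw => Or.inr (rob w hw), big⟩
  rw [empty_union]
  refine Subset.antisymm (fun a ha => ?_) (biUnion_subset.mpr fun i _ => c5 i)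
  obtain ⟨u, hu, ha⟩ := mem_biUnion.mp ha
  obtain ⟨⟨i, k⟩, e⟩ := g.surjective ⟨u, hu⟩
  exact mem_biUnion.mpr ⟨i, mem_univ _, mem_biUnion.mpr
    ⟨u, mem_image.mpr ⟨k, mem_univ _, congrArg Subtype.val e⟩, ha⟩⟩

end Pool.Agent.MP_e46b50_co.H93.Lg

namespace Pool.Agent.MP_e46b50_co.H93.Lg

open Finset
open scoped Classical

theorem str_greedy {α : Type} [DecidableEq α] (cf : α → α → Prop) (hs : ∀ a b, cf a b → cf b a)
    (Δ k : ℕ) : ∀ X : Finset α, (∀ a ∈ X, ∃ S : Finset α, S.card ≤ Δ ∧ ∀ b ∈ X, cf a b → b ∈ S) →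
      (Δ + 1) * k ≤ X.card → ∃ C ⊆ X, C.card = k ∧ ∀ a ∈ C, ∀ b ∈ C, a ≠ b → ¬ cf a b := by
  induction k with
  | zero => exact fun X _ _ => ⟨∅, empty_subset _, rfl, by simp⟩
  | succ k ih =>
    intro X h1 h2
    obtain ⟨a, ha⟩ : X.Nonempty := card_pos.mp (lt_of_lt_of_le (by positivity) h2)
    obtain ⟨S, s1, s2⟩ := h1 a ha
    have hsub : X.erase a \ S ⊆ X := sdiff_subset.trans (erase_subset _ _)
    obtain ⟨C, c1, c2, c3⟩ := ih (X.erase a \ S)
      (fun b hb => let ⟨S', a1, a2⟩ := h1 b (hsub hb); ⟨S', a1, fun d hd => a2 d (hsub hd)⟩) (by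
        have := le_card_sdiff S (X.erase a)
        have := card_erase_of_mem ha
        rw [Nat.mul_succ] at h2
        omega)
    have haC : a ∉ C := fun h => notMem_erase a X (mem_sdiff.mp (c1 h)).1
    have hn : ∀ b ∈ C, ¬ cf a b := fun b hb h => (mem_sdiff.mp (c1 hb)).2 (s2 b (hsub (c1 hb)) h)
    refine ⟨insert a C, insert_subset ha (c1.trans hsub), by rw [card_insert_of_notMem haC, c2], ?_⟩
    intro u hu v hv huv
    rcases mem_insert.mp hu with rfl | hu' <;> rcases mem_insert.mp hv with rfl | hv'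
    · exact absurd rfl huv
    · exact hn _ hv'
    · exact fun h => hn _ hu' (hs _ _ h)
    · exact c3 _ hu' _ hv' huv

section graph

variable {V : Type} [Fintype V] [DecidableEq V] (G : SimpleGraph V)

noncomputable def strN (v : V) : Finset V := univ.filter (G.Adj v)

def strRob (c x : ℕ) (O : Finset V) (w : V) : Prop :=
  c * (O.card + x + 1) ≤ (Nb G O w).card ∧ ∃ g ∈ Nb G O w, ∃ y ∈ Nb G O w, G.Adj g y

noncomputable def strZ (t : ℕ) : Finset V :=
  univ.filter fun v => ∀ u, G.Adj v u → t ≤ (strN G u).card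

noncomputable def strL (t : ℕ) : Finset V := univ.filter fun v => (strN G v).card < t

noncomputable def strSt (t : ℕ) (S : Finset V) : Finset V :=
  (S ∩ strL G t).biUnion fun a => insert a (strN G a)

noncomputable def strNz (t : ℕ) (S : Finset V) : Finset V :=
  S.biUnion fun a => strN G a ∩ strZ G t

variable {G}

omit [DecidableEq V] in
theorem str_mN {v u : V} : u ∈ strN G v ↔ G.Adj v u := by simp only [strN, mem_filter, mem_univ, true_and]

omit [DecidableEq V] in
theorem str_mZ {t : ℕ} {v : V} : v ∈ strZ G t ↔ ∀ u, G.Adj v u → t ≤ (strN G u).card := by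
  simp only [strZ, mem_filter, mem_univ, true_and]

omit [DecidableEq V] in
theorem str_mL {t : ℕ} {v : V} : v ∈ strL G t ↔ (strN G v).card < t := by simp only [strL, mem_filter, mem_univ, true_and]

theorem str_mNb {O : Finset V} {h w : V} : w ∈ Nb G O h ↔ ca G h w ∧ w ∉ O := by simp only [Nb, mem_sdiff, mem_filter, mem_univ, true_and]

theorem str_sub (O : Finset V) (w : V) : strN G w \ O ⊆ Nb G O w := fun _ hz =>
  str_mNb.mpr ⟨Or.inr (str_mN.mp (mem_sdiff.mp hz).1), (mem_sdiff.mp hz).2⟩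

theorem str_cnt {c x o : ℕ} {O : Finset V} {w : V} (hO : O.card ≤ o)
    (hd : c * (o + x + 1) + o + 1 ≤ (strN G w).card) :
    c * (O.card + x + 1) ≤ (Nb G O w).card ∧ (strN G w \ O).Nonempty := by
  have h1 := le_card_sdiff O (strN G w)
  have h2 := card_le_card (str_sub (G := G) O w)
  have h3 : c * (O.card + x + 1) ≤ c * (o + x + 1) := by gcongr
  exact ⟨by omega, card_pos.mp (by omega)⟩

theorem str_R {c x o : ℕ} {O : Finset V} {w : V} (hw : w ∉ O) (hO : O.card ≤ o)
    (hd : c * (o + x + 1) + o + 1 ≤ (strN G w).card) : strRob G c x O w := by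
  obtain ⟨h1, z, hz⟩ := str_cnt hO hd
  exact ⟨h1, w, str_mNb.mpr ⟨Or.inl rfl, hw⟩, z, str_sub O w hz, str_mN.mp (mem_sdiff.mp hz).1⟩

theorem str_cSt (t : ℕ) (S : Finset V) : (strSt G t S).card ≤ S.card * t :=
  (card_biUnion_le_card_mul _ _ t fun _ ha => (card_insert_le _ _).trans
    (str_mL.mp (mem_inter.mp ha).2)).trans (Nat.mul_le_mul_right _ (card_le_card inter_subset_left))

theorem str_mSt {t : ℕ} {S : Finset V} {a b : V} (ha : a ∈ S) (hl : a ∈ strL G t)
    (h : ca G a b) : b ∈ strSt G t S :=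
  mem_biUnion.mpr ⟨a, mem_inter.mpr ⟨ha, hl⟩,
    mem_insert.mpr (h.imp Eq.symm fun h => str_mN.mpr h)⟩

theorem str_cNz {t m : ℕ} (hz : ∀ a, (strN G a ∩ strZ G t).card ≤ m) (S : Finset V) :
    (strNz G t S).card ≤ S.card * m := card_biUnion_le_card_mul _ _ m fun a _ => hz a

theorem str_mNz {t : ℕ} {S : Finset V} {a b : V} (ha : a ∈ S) (hb : b ∈ strZ G t)
    (h : G.Adj b a) : b ∈ strNz G t S :=
  mem_biUnion.mpr ⟨a, ha, mem_inter.mpr ⟨str_mN.mpr h.symm, hb⟩⟩

variable {ι : Type} [Fintype ι] {c x m t1 t2 : ℕ}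

theorem str_b (hm : Fintype.card ι = m) (h1 : c * (16 * m + 1 + x + 1) + (16 * m + 1) + 1 ≤ t1)
    (hn : t1 ≤ Fintype.card V) {h0 : V} (hh : m ≤ (strN G h0 ∩ strZ G t1).card) :
    ∃ (P O A : Finset V) (R : ι → Finset V) (v : ι → V), Su G c x P O A R v := by
  obtain ⟨v, hv⟩ := Function.Embedding.exists_of_card_le_finset (hm ▸ hh)
  have hv' : ∀ i, G.Adj h0 (v i) ∧ v i ∈ strZ G t1 := fun i =>
    let h := mem_inter.mp (mem_coe.mp (hv ⟨i, rfl⟩)); ⟨str_mN.mp h.1, h.2⟩
  have hA : ∀ i, ∀ w ∈ (strL G t1).filter fun w => ¬ ca G w h0, ¬ ca G w (v i) := by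
    intro i w hw h
    obtain ⟨a1, a2⟩ := mem_filter.mp hw
    rcases h with rfl | h
    · exact a2 (Or.inr (hv' i).1.symm)
    · exact absurd (str_mZ.mp (hv' i).2 w h.symm) (not_le.mpr (str_mL.mp a1))
  have hO : (({h0} : Finset V) ∪ univ.biUnion fun i => ({v i} : Finset V)).card ≤ 16 * m + 1 := by
    have a1 := card_union_le ({h0} : Finset V) (univ.biUnion fun i => ({v i} : Finset V))
    have a2 := card_biUnion_le_card_mul univ (fun i => ({v i} : Finset V)) 1
      fun i _ => (card_singleton _).le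
    rw [card_univ, hm] at a2
    rw [card_singleton] at a1
    omega
  refine ⟨{h0}, _, (strL G t1).filter fun w => ¬ ca G w h0, fun i => {v i}, v, rfl,
    fun i => mem_singleton_self _, fun i j hij => disjoint_singleton.mpr (v.injective.ne hij),
    fun i => disjoint_singleton.mpr (hv' i).1.ne, Or.inr ⟨h0, rfl, fun i => ⟨rfl, (hv' i).1⟩⟩,
    fun i j _ w hw a ha b _ h _ => hA i w hw (mem_singleton.mp ha ▸ h), fun i T _ hT => ?_,
    fun h hh => ?_, ?_⟩
  · rw [erase_singleton]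
    constructor
    · refine mem_filter.mpr ⟨empty_mem_powerset _, fun w hw => ?_⟩
      obtain ⟨y, a1, a2⟩ := hT w hw
      exact ⟨y, mem_union_left _ (mem_sdiff.mpr ⟨a1, fun h => hA i w hw (mem_singleton.mp h ▸ a2)⟩),
        a2⟩
    · have : LA G ((strL G t1).filter fun w => ¬ ca G w h0) T {v i} \ {{v i}, ∅} = ∅ := by
        refine sdiff_eq_empty_iff_subset.mpr fun s hs => ?_
        rcases subset_singleton_iff.mp (mem_powerset.mp (mem_filter.mp hs).1) with rfl | rfl
        · exact mem_insert_of_mem (mem_singleton_self _)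
        · exact mem_insert_self _ _
      rw [this]
      exact .nil
  · by_cases hc : ca G h h0
    · exact Or.inl ⟨h0, mem_singleton_self _, hc⟩
    · refine Or.inr (str_R (fun hO' => hc ?_) hO (h1.trans (not_lt.mp fun hl =>
        hh (mem_filter.mpr ⟨str_mL.mpr hl, hc⟩))))
      rcases mem_union.mp hO' with a | a
      · exact Or.inl (mem_singleton.mp a)
      · obtain ⟨i, _, a⟩ := mem_biUnion.mp a
        exact Or.inr (mem_singleton.mp a ▸ (hv' i).1.symm)
  · exact le_trans (le_trans (by gcongr) (le_trans (Nat.le_add_right _ _)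
      (le_trans (Nat.le_succ _) h1))) hn

theorem str_a (hm : Fintype.card ι = m) {o : ℕ} (ho : m * (t1 * (t1 + 1) + 2) * t1 ≤ o)
    (h2 : c * (o + x + 1) + o + 1 ≤ t2) (h12 : t1 ≤ t2) (hn : t2 ≤ Fintype.card V)
    (hK : (t1 * t2 * t2 * t2 + 1) * (m * (t1 * (t1 + 1) + 2)) ≤
      ((strL G t1).filter fun v => ∃ u ∈ strL G t2, G.Adj v u).card) :
    ∃ (P O A : Finset V) (R : ι → Finset V) (v : ι → V), Su G c x P O A R v := by
  set X := (strL G t1).filter fun v => ∃ u ∈ strL G t2, G.Adj v u with hX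
  set ρ : V → Finset V := fun v => insert v (strN G v ∩ strL G t2) with hρ
  have hc : ∀ v ∈ X, (ρ v).card ≤ t1 := fun v hv => (card_insert_le _ _).trans
    (lt_of_le_of_lt (card_le_card inter_subset_left) (str_mL.mp (mem_filter.mp hv).1))
  have hl : ∀ v ∈ X, ∀ a ∈ ρ v, a ∈ strL G t2 ∧ ca G v a := by
    intro v hv a ha
    rcases mem_insert.mp ha with rfl | ha
    · exact ⟨str_mL.mpr ((str_mL.mp (mem_filter.mp hv).1).trans_le h12), Or.inl rfl⟩
    · exact ⟨(mem_inter.mp ha).2, Or.inr (str_mN.mp (mem_inter.mp ha).1)⟩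
  obtain ⟨C, c1, c2, c3⟩ := str_greedy
    (fun u v => ∃ w ∈ strL G t2, ∃ a ∈ ρ u, ∃ b ∈ ρ v, ca G w a ∧ ca G w b)
    (fun u v ⟨w, a1, a, a2, b, a3, a4, a5⟩ => ⟨w, a1, b, a3, a, a2, a5, a4⟩) _ _ X (fun u hu =>
      ⟨strSt G t2 (strSt G t2 (strSt G t2 (ρ u))), (str_cSt _ _).trans (Nat.mul_le_mul_right _
        ((str_cSt _ _).trans (Nat.mul_le_mul_right _ ((str_cSt _ _).trans
          (Nat.mul_le_mul_right _ (hc u hu)))))), fun v hv ⟨w, a1, a, a2, b, a3, a4, a5⟩ =>
        str_mSt (str_mSt (str_mSt a2 (hl u hu a a2).1 a4.symm) a1 a5) (hl v hv b a3).1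
          (hl v hv b a3).2.symm⟩) hK
  have hO : (C.biUnion ρ).card ≤ o :=
    (card_biUnion_le_card_mul _ _ t1 fun v hv => hc v (c1 hv)).trans (c2 ▸ ho)
  have cl : Cl G (strL G t2) t1 C ρ := by
    refine ⟨fun v _ => mem_insert_self _ _, fun v hv => ?_, fun v hv u hu => (hl v (c1 hv) u hu).2,
      fun v _ w hw h => mem_insert_of_mem (mem_inter.mpr ⟨str_mN.mpr h, hw⟩),
      fun v hv => hc v (c1 hv), fun u hu v hv huv => disjoint_left.mpr fun a a1 a2 =>
        c3 u hu v hv huv ⟨a, (hl u (c1 hu) a a1).1, a, a1, a, a2, Or.inl rfl, Or.inl rfl⟩,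
      fun u hu v hv huv w hw a a1 b a2 a3 a4 => c3 u hu v hv huv ⟨w, hw, a, a1, b, a2, a3, a4⟩⟩
    obtain ⟨u, a1, a2⟩ := (mem_filter.mp (c1 hv)).2
    exact ⟨u, mem_insert_of_mem (mem_inter.mpr ⟨str_mN.mpr a2, a1⟩), a2⟩
  obtain ⟨R, v, h⟩ := cl.su (ι := ι) (c := c) (x := x) (hm ▸ c2) (fun w hw => str_R (fun h =>
      let ⟨v, a1, a2⟩ := mem_biUnion.mp h; hw (hl v (c1 a1) w a2).1) hO
      (h2.trans (not_lt.mp fun h => hw (str_mL.mpr h))))
    (le_trans (le_trans (by gcongr) (le_trans (Nat.le_add_right _ _)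
      (le_trans (Nat.le_succ _) h2))) hn)
  exact ⟨_, _, _, R, v, h⟩

theorem str_a' (hm : Fintype.card ι = m) (h1 : c * (16 * m + 1 + x + 1) + (16 * m + 1) + 1 ≤ t1)
    (hn : t1 ≤ Fintype.card V) {h : V → V} (hh : ∀ v, G.Adj v (h v)) {μ : ℕ}
    (hz : ∀ a, (strN G a ∩ strZ G t1).card ≤ m) (hμ : ∀ a, (strN G a ∩ strL G t1).card ≤ μ)
    {X : Finset V} (hX : X ⊆ strL G t1 ∩ strZ G t1)
    (hs : (t1 * m + m + μ * t1 * m + 1) * (m * 8) ≤ X.card)
    (hr : ∀ O : Finset V, O.card ≤ 16 * m → ∀ u ∈ X, ∀ v ∈ X,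
      strRob G c x O (h v) ∨ ¬ G.Adj (h v) (h u)) :
    ∃ (P O A : Finset V) (R : ι → Finset V) (v : ι → V), Su G c x P O A R v := by
  have xl : ∀ v ∈ X, (strN G v).card < t1 := fun v hv => str_mL.mp (mem_inter.mp (hX hv)).1
  have xz : ∀ v ∈ X, v ∈ strZ G t1 := fun v hv => (mem_inter.mp (hX hv)).2
  obtain ⟨C, c1, c2, c3⟩ := str_greedy
    (fun u v => G.Adj u (h v) ∨ G.Adj v (h u) ∨ ∃ w ∈ strL G t1, G.Adj w (h u) ∧ G.Adj w (h v))
    (fun u v a => a.elim (fun a => Or.inr (Or.inl a)) fun a => a.elim Or.inl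
      fun ⟨w, a1, a2, a3⟩ => Or.inr (Or.inr ⟨w, a1, a3, a2⟩)) _ _ X (fun u hu =>
      ⟨strNz G t1 (strN G u) ∪ (strN G (h u) ∩ strZ G t1) ∪
        strNz G t1 (strSt G t1 (strN G (h u) ∩ strL G t1)), (card_union_le _ _).trans
        (Nat.add_le_add ((card_union_le _ _).trans (Nat.add_le_add ((str_cNz hz _).trans
          (Nat.mul_le_mul_right _ (xl u hu).le)) (hz _))) ((str_cNz hz _).trans
          (Nat.mul_le_mul_right _ ((str_cSt _ _).trans (Nat.mul_le_mul_right _ (hμ _)))))),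
        fun v hv a => a.elim
          (fun a => mem_union_left _ (mem_union_left _ (str_mNz (str_mN.mpr a) (xz v hv) (hh v))))
          fun a => a.elim (fun a => mem_union_left _ (mem_union_right _
            (mem_inter.mpr ⟨str_mN.mpr a.symm, xz v hv⟩))) fun ⟨w, a1, a2, a3⟩ =>
            mem_union_right _ (str_mNz (str_mSt (mem_inter.mpr ⟨str_mN.mpr a2.symm, a1⟩) a1
              (Or.inr a3)) (xz v hv) (hh v))⟩) hs
  set ρ : V → Finset V := fun v => {v, h v} with hρ
  have hO : (C.biUnion ρ).card ≤ 16 * m := by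
    have := card_biUnion_le_card_mul C ρ 2 fun v _ => card_le_two
    omega
  have big : ∀ v ∈ C, ∀ w, G.Adj v w → t1 ≤ (strN G w).card := fun v hv =>
    str_mZ.mp (xz v (c1 hv))
  have ne : ∀ u ∈ C, ∀ w, t1 ≤ (strN G w).card → w ≠ u := fun u hu w hw e =>
    absurd (e ▸ hw) (not_le.mpr (xl u (c1 hu)))
  have nad : ∀ u ∈ C, ∀ v ∈ C, u ≠ v → ¬ G.Adj u (h v) := fun u hu v hv huv a =>
    c3 u hu v hv huv (Or.inl a)
  have hub : ∀ w, ¬ strRob G c x (C.biUnion ρ) w → t1 ≤ (strN G w).card → ∃ v ∈ C, w = h v := by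
    intro w hw hd
    have : w ∈ C.biUnion ρ := by
      by_contra hc
      exact hw (str_R hc (hO.trans (Nat.le_succ _)) (h1.trans hd))
    obtain ⟨v, a1, a2⟩ := mem_biUnion.mp this
    exact ⟨v, a1, mem_singleton.mp ((mem_insert.mp a2).resolve_left (ne v a1 w hd))⟩
  have far : ∀ u ∈ C, ∀ v ∈ C, u ≠ v → ¬ strRob G c x (C.biUnion ρ) (h v) → ∀ a ∈ ρ u,
      ¬ ca G (h v) a := by
    intro u hu v hv huv hw a ha hc
    rcases mem_insert.mp ha with rfl | ha
    · exact hc.elim (ne a hu _ (big v hv _ (hh v))) fun e => nad a hu v hv huv e.symm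
    · rw [mem_singleton.mp ha] at hc
      exact hc.elim (fun e => nad u hu v hv huv (e ▸ hh u))
        ((hr _ hO u (c1 hu) v (c1 hv)).resolve_left hw)
  have low : ∀ u ∈ C, ∀ v ∈ C, u ≠ v → ∀ w, (strN G w).card < t1 → ca G w u → ∀ b ∈ ρ v,
      ¬ ca G w b := by
    intro u hu v hv huv w hw a1 b hb a2
    obtain rfl : w = u := a1.resolve_right fun e => absurd (big u hu w e.symm) (not_le.mpr hw)
    rcases mem_insert.mp hb with rfl | hb
    · exact a2.elim huv fun e => ne b hv b (big w hu b e) rfl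
    · rw [mem_singleton.mp hb] at a2
      exact a2.elim (fun e => ne w hu _ (big v hv _ (hh v)) e.symm) (nad w hu v hv huv)
  have cl : Cl G (univ.filter fun w => ¬ strRob G c x (C.biUnion ρ) w) 2 C ρ := by
    refine ⟨fun v _ => mem_insert_self _ _,
      fun v _ => ⟨h v, mem_insert_of_mem (mem_singleton_self _), hh v⟩, fun v _ u hu => ?_,
      fun v hv w hw a => ?_, fun v _ => card_le_two,
      fun u hu v hv huv => disjoint_left.mpr fun a a1 a2 => ?_,
      fun u hu v hv huv w hw a a1 b a2 a3 a4 => ?_⟩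
    · exact (mem_insert.mp hu).elim (fun e => Or.inl e.symm)
        fun e => Or.inr (mem_singleton.mp e ▸ hh v)
    · obtain ⟨u, hu, rfl⟩ := hub w (mem_filter.mp hw).2 (big v hv w a)
      obtain rfl : v = u := by_contra fun e => nad v hv u hu e a
      exact mem_insert_of_mem (mem_singleton_self _)
    · rcases mem_insert.mp a1 with rfl | a1
      · exact low a hu v hv huv a (xl a (c1 hu)) (Or.inl rfl) a a2 (Or.inl rfl)
      · rcases mem_insert.mp a2 with rfl | a2
        · exact ne a hv _ (big u hu _ (hh u)) (mem_singleton.mp a1).symm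
        · exact nad u hu v hv huv (mem_singleton.mp a2 ▸ mem_singleton.mp a1 ▸ hh u)
    · have hw' := (mem_filter.mp hw).2
      rcases lt_or_ge (strN G w).card t1 with hd | hd
      · rcases mem_insert.mp a1 with rfl | a1'
        · exact low a hu v hv huv w hd a3 b a2 a4
        · rcases mem_insert.mp a2 with rfl | a2'
          · exact low b hv u hu huv.symm w hd a4 a a1 a3
          · rw [mem_singleton.mp a1'] at a3
            rw [mem_singleton.mp a2'] at a4
            exact c3 u hu v hv huv (Or.inr (Or.inr ⟨w, str_mL.mpr hd,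
              a3.resolve_left fun e => absurd (e ▸ big u hu _ (hh u)) (not_le.mpr hd),
              a4.resolve_left fun e => absurd (e ▸ big v hv _ (hh v)) (not_le.mpr hd)⟩))
      · obtain ⟨z, hz', rfl⟩ := hub w hw' hd
        by_cases e : u = z
        · exact far v hv z hz' (fun e' => huv (e.trans e'.symm)) hw' b a2 a4
        · exact far u hu z hz' e hw' a a1 a3
  obtain ⟨R, v, h⟩ := cl.su (ι := ι) (c := c) (x := x) (hm ▸ c2)
    (fun w hw => by_contra fun e => hw (mem_filter.mpr ⟨mem_univ _, e⟩))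
    (le_trans (le_trans (Nat.mul_le_mul_left _ (by omega)) (le_trans (Nat.le_add_right _ _)
      (le_trans (Nat.le_succ _) h1))) hn)
  exact ⟨_, _, _, R, v, h⟩

theorem str_core (hG : ∀ v, ∃ w, G.Adj v w) (hm : Fintype.card ι = m) {o K s : ℕ}
    (h1 : c * (16 * m + 1 + x + 1) + (16 * m + 1) + 1 ≤ t1)
    (ho : m * (t1 * (t1 + 1) + 2) * t1 ≤ o) (h2 : c * (o + x + 1) + o + 1 ≤ t2) (h12 : t1 ≤ t2)
    (hK : (t1 * t2 * t2 * t2 + 1) * (m * (t1 * (t1 + 1) + 2)) ≤ K)
    (hs : (t1 * m + m + (K + m) * t1 * m + 1) * (m * 8) ≤ s) (hn : t2 ≤ Fintype.card V)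
    (hN : (K + s + (16 * m * m + s + 1) * s) * (1 + t1 + t1 * m) < Fintype.card V) :
    ∃ (P O A : Finset V) (R : ι → Finset V) (v : ι → V), Su G c x P O A R v := by
  by_contra hc
  choose h hh using hG
  have hz' : ∀ a, (strN G a ∩ strZ G t1).card < m := fun a =>
    not_le.mp fun e => hc (str_b hm h1 (h12.trans hn) e)
  have hz := fun a => (hz' a).le
  set La := (strL G t1).filter fun v => ∃ u ∈ strL G t2, G.Adj v u with hLa
  have ha : La.card ≤ K := (not_le.mp fun e => hc (str_a hm ho h2 h12 hn e)).le.trans hK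
  have hX : strL G t1 \ La ⊆ strL G t1 ∩ strZ G t1 := fun v hv => by
    obtain ⟨a1, a2⟩ := mem_sdiff.mp hv
    exact mem_inter.mpr ⟨a1, str_mZ.mpr fun u hu => h12.trans (not_lt.mp fun e =>
      a2 (mem_filter.mpr ⟨a1, u, str_mL.mpr e, hu⟩))⟩
  have hμ : ∀ a, (strN G a ∩ strL G t1).card ≤ K + m := fun a => by
    refine le_trans (card_le_card (t := La ∪ (strN G a ∩ strZ G t1)) fun v hv => ?_)
      ((card_union_le _ _).trans (Nat.add_le_add ha (hz a)))
    by_cases e : v ∈ La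
    · exact mem_union_left _ e
    · exact mem_union_right _ (mem_inter.mpr ⟨(mem_inter.mp hv).1,
        (mem_inter.mp (hX (mem_sdiff.mpr ⟨(mem_inter.mp hv).2, e⟩))).2⟩)
  have key : ∀ X ⊆ strL G t1 \ La, (∀ O : Finset V, O.card ≤ 16 * m → ∀ u ∈ X, ∀ v ∈ X,
      strRob G c x O (h v) ∨ ¬ G.Adj (h v) (h u)) → X.card < s := fun X a1 a2 =>
    not_le.mp fun e => hc (str_a' hm h1 (h12.trans hn) hh hz hμ (a1.trans hX) (hs.trans e) a2)
  set E : V → Prop := fun v => ∀ W : Finset V, W.card ≤ 16 * m →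
    ∃ g ∈ strN G (h v) \ W, ∃ y ∈ strN G (h v) \ W, G.Adj g y with hE
  have hXE : ((strL G t1 \ La).filter E).card < s := by
    refine key _ (filter_subset _ _) fun O hO u _ v hv => Or.inl ⟨(str_cnt (hO.trans
      (Nat.le_succ _)) (h1.trans (str_mZ.mp (mem_inter.mp (hX (mem_filter.mp hv).1)).2 _
        (hh v)))).1, ?_⟩
    obtain ⟨g, a1, y, a2, a3⟩ := (mem_filter.mp hv).2 O hO
    exact ⟨g, str_sub _ _ a1, y, str_sub _ _ a2, a3⟩
  have hXI : ((strL G t1 \ La).filter fun v => ¬ E v).card ≤ (16 * m * m + s + 1) * s := by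
    set XI := (strL G t1 \ La).filter fun v => ¬ E v with hXI
    by_contra hlt
    obtain ⟨C, c1, c2, c3⟩ := str_greedy (fun u v => G.Adj (h u) (h v)) (fun _ _ a => a.symm)
      (16 * m * m + s) s XI (fun u hu => by
        have a0 := (mem_filter.mp hu).2
        simp only [hE, not_forall] at a0
        obtain ⟨W, w1, w2⟩ := a0
        have a1 := key (XI.filter fun v => h v ∈ strN G (h u) \ W)
          ((filter_subset _ _).trans (filter_subset _ _)) fun O _ a ha b hb => Or.inr fun e =>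
            w2 ⟨_, (mem_filter.mp hb).2, _, (mem_filter.mp ha).2, e⟩
        refine ⟨strNz G t1 W ∪ XI.filter fun v => h v ∈ strN G (h u) \ W, (card_union_le _ _).trans
          (Nat.add_le_add ((str_cNz hz _).trans (Nat.mul_le_mul_right _ w1)) a1.le),
          fun v hv e => ?_⟩
        by_cases e' : h v ∈ W
        · exact mem_union_left _ (str_mNz e' (mem_inter.mp (hX (mem_filter.mp hv).1)).2 (hh v))
        · exact mem_union_right _ (mem_filter.mpr ⟨hv, mem_sdiff.mpr ⟨str_mN.mpr e, e'⟩⟩))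
      (not_le.mp hlt).le
    refine absurd (key C (c1.trans (filter_subset _ _)) fun O _ u hu v hv => Or.inr fun e => ?_)
      (c2 ▸ lt_irrefl _)
    exact c3 v hv u hu (fun e' => e.ne (e' ▸ rfl)) e
  have hL : (strL G t1).card ≤ K + s + (16 * m * m + s + 1) * s := by
    have a1 := le_card_sdiff La (strL G t1)
    have a2 := card_filter_add_card_filter_not (s := strL G t1 \ La) E
    omega
  have hcov : (univ : Finset V) ⊆ strL G t1 ∪ strSt G t1 (strL G t1) ∪
      strNz G t1 (strSt G t1 (strL G t1)) := by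
    have a0 : ∀ v, v ∉ strZ G t1 → v ∈ strSt G t1 (strL G t1) := fun v hv => by
      rw [str_mZ] at hv
      simp only [not_forall, not_le] at hv
      obtain ⟨u, a1, a2⟩ := hv
      exact str_mSt (str_mL.mpr a2) (str_mL.mpr a2) (Or.inr a1.symm)
    intro v _
    by_cases a1 : v ∈ strL G t1
    · exact mem_union_left _ (mem_union_left _ a1)
    by_cases a2 : v ∈ strZ G t1
    · have a3 := not_lt.mp fun e => a1 (str_mL.mpr e)
      obtain ⟨u, a4, a5⟩ := exists_mem_notMem_of_card_lt_card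
        (show (strN G v ∩ strZ G t1).card < (strN G v).card by have := hz' v; omega)
      exact mem_union_right _ (str_mNz (a0 u fun e => a5 (mem_inter.mpr ⟨a4, e⟩)) a2
        (str_mN.mp a4))
    · exact mem_union_left _ (mem_union_right _ (a0 v a2))
  have b1 := str_cSt (G := G) t1 (strL G t1)
  have b2 := (str_cNz hz (strSt G t1 (strL G t1))).trans (Nat.mul_le_mul_right m b1)
  have b3 := (card_le_card hcov).trans ((card_union_le _ _).trans (Nat.add_le_add
    ((card_union_le _ _).trans (Nat.add_le_add_left b1 _)) b2))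
  rw [card_univ] at b3
  refine absurd (b3.trans ?_) (not_le.mpr hN)
  calc _ = (strL G t1).card * (1 + t1 + t1 * m) := by ring
    _ ≤ _ := Nat.mul_le_mul_right _ hL

end graph

def strPL (f : ℕ → ℕ → ℕ) : Prop := ∃ C k, ∀ x m, m ≤ 3 * x + 30 → f x m ≤ C * (x + 1) ^ k

theorem strPL.const (a : ℕ) : strPL fun _ _ => a := ⟨a, 0, fun _ _ _ => by simp⟩

theorem strPL.x : strPL fun x _ => x := ⟨1, 1, fun _ _ _ => by simp⟩

theorem strPL.m : strPL fun _ m => m := ⟨30, 1, fun _ _ h => h.trans (by rw [pow_one]; omega)⟩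

theorem strPL.add {f g : ℕ → ℕ → ℕ} (hf : strPL f) (hg : strPL g) :
    strPL fun x m => f x m + g x m := by
  obtain ⟨C, k, h⟩ := hf
  obtain ⟨C', k', h'⟩ := hg
  refine ⟨C + C', k + k', fun x m hm => ?_⟩
  rw [add_mul]
  exact Nat.add_le_add ((h x m hm).trans (by gcongr <;> omega))
    ((h' x m hm).trans (by gcongr <;> omega))

theorem strPL.mul {f g : ℕ → ℕ → ℕ} (hf : strPL f) (hg : strPL g) :
    strPL fun x m => f x m * g x m := by
  obtain ⟨C, k, h⟩ := hf
  obtain ⟨C', k', h'⟩ := hg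
  exact ⟨C * C', k + k', fun x m hm => (Nat.mul_le_mul (h x m hm) (h' x m hm)).trans (by ring_nf; rfl)⟩

theorem strPL.lt {f : ℕ → ℕ → ℕ} (hf : strPL f) :
    ∃ n₀, ∀ n, n₀ ≤ n → ∀ m, m ≤ 3 * Nat.clog 2 n + 30 → f (Nat.clog 2 n) m < n := by
  obtain ⟨C, k, h⟩ := hf
  obtain ⟨y, hy⟩ := Filter.eventually_atTop.mp
    ((tendsto_pow_const_div_const_pow_of_one_lt k (one_lt_two (α := ℝ))).eventually
      (gt_mem_nhds (show (0 : ℝ) < 1 / (4 * C + 1) by positivity)))
  refine ⟨2 ^ (y + 1), fun n hn m hm => (h _ m hm).trans_lt ?_⟩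
  have h1 : y + 1 ≤ Nat.clog 2 n := (Nat.pow_le_pow_iff_right one_lt_two).mp
    (hn.trans (Nat.le_pow_clog one_lt_two n))
  have h2 := Nat.pow_pred_clog_lt_self one_lt_two
    (lt_of_lt_of_le (Nat.one_lt_two_pow (Nat.succ_ne_zero y)) hn)
  obtain ⟨z, hz⟩ : ∃ z, Nat.clog 2 n = z + 1 := ⟨Nat.clog 2 n - 1, by omega⟩
  rw [hz] at h2 ⊢
  have h3 := hy (z + 1 + 1) (by omega)
  rw [div_lt_div_iff₀ (by positivity) (by positivity), one_mul] at h3
  have h4 : (z + 1 + 1) ^ k * (4 * C + 1) < 2 ^ (z + 1 + 1) := by exact_mod_cast h3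
  rw [pow_succ, pow_succ, mul_add, mul_comm _ (4 * C), mul_assoc 4] at h4
  simp only [Nat.pred_succ] at h2
  omega

def strT1 (c x m : ℕ) : ℕ := c * (16 * m + 1 + x + 1) + (16 * m + 1) + 1

def strO (c x m : ℕ) : ℕ := m * (strT1 c x m * (strT1 c x m + 1) + 2) * strT1 c x m

def strT2 (c x m : ℕ) : ℕ := c * (strO c x m + x + 1) + strO c x m + 1 + strT1 c x m

def strK (c x m : ℕ) : ℕ := (strT1 c x m * strT2 c x m * strT2 c x m * strT2 c x m + 1) *
  (m * (strT1 c x m * (strT1 c x m + 1) + 2))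

def strS (c x m : ℕ) : ℕ :=
  (strT1 c x m * m + m + (strK c x m + m) * strT1 c x m * m + 1) * (m * 8)

theorem exists_su (c : ℕ) : ∃ n₀ : ℕ, ∀ (V : Type) [Fintype V] [DecidableEq V] (G : SimpleGraph V),
    (∀ v, ∃ w, G.Adj v w) → n₀ ≤ Fintype.card V → ∀ (ι : Type) [Fintype ι],
      Fintype.card ι ≤ 3 * Nat.clog 2 (Fintype.card V) + 30 →
      ∃ (P O A : Finset V) (R : ι → Finset V) (v : ι → V),
        Su G c (Nat.clog 2 (Fintype.card V)) P O A R v := by
  have k := strPL.const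
  have m := strPL.m
  have a : strPL fun _ m => 16 * m + 1 := ((k 16).mul m).add (k 1)
  have t1 : strPL (strT1 c) := (((k c).mul ((a.add .x).add (k 1))).add a).add (k 1)
  have q : strPL fun x m => m * (strT1 c x m * (strT1 c x m + 1) + 2) :=
    m.mul ((t1.mul (t1.add (k 1))).add (k 2))
  have o : strPL (strO c) := q.mul t1
  have t2 : strPL (strT2 c) := ((((k c).mul ((o.add .x).add (k 1))).add o).add (k 1)).add t1
  have K : strPL (strK c) := ((((t1.mul t2).mul t2).mul t2).add (k 1)).mul q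
  have s : strPL (strS c) :=
    ((((t1.mul m).add m).add (((K.add m).mul t1).mul m)).add (k 1)).mul (m.mul (k 8))
  obtain ⟨n₁, h₁⟩ := t2.lt
  obtain ⟨n₂, h₂⟩ := (((K.add s).add ((((((k 16).mul m).mul m).add s).add (k 1)).mul s)).mul
    (((k 1).add t1).add (t1.mul m))).lt
  exact ⟨max n₁ n₂, fun V _ _ G hG hn ι _ hι => str_core hG rfl le_rfl le_rfl
    (Nat.le_add_right _ _) (Nat.le_add_left _ _) le_rfl le_rfl
    (h₁ _ ((le_max_left _ _).trans hn) _ hι).le (h₂ _ ((le_max_right _ _).trans hn) _ hι)⟩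

end Pool.Agent.MP_e46b50_co.H93.Lg

namespace Pool.Agent.MP_e46b50_co.H93.Lg

open Finset
open scoped Classical

variable {V : Type} [Fintype V] [DecidableEq V] {G : SimpleGraph V}

omit [Fintype V] in
theorem hcd_mem {T T' O : Finset V} (h : T ∪ O = T' ∪ O) {b : V} (hb : b ∉ O) :
    b ∈ T ↔ b ∈ T' := by
  have := Finset.ext_iff.mp h b
  simpa only [mem_union, hb, or_false] using this

omit [Fintype V] in
theorem hcd_gam (a : V → ZMod 4) {T O : Finset V} {b : V} (hT : b ∉ T) (hO : b ∉ O) :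
    ∑ v ∈ insert b T \ O, a v = a b + ∑ v ∈ T \ O, a v := by
  rw [insert_sdiff_of_notMem _ hO, sum_insert fun h => hT (mem_sdiff.mp h).1]

theorem hcd_col (s t : ZMod 4) : ∃ z : ZMod 4, z ≠ 0 ∧ s + z ≠ 0 ∧ t + z ≠ 0 := by
  revert s t
  decide

omit [Fintype V] in
theorem hcd_av {W : Type} [Fintype W] (N : W → Finset V) (g y : W → V) (T : Finset V) :
    ∃ s : Finset V, s.card ≤ 2 ∧ ∀ j, (∃ w, (N w ∩ T).card ≤ j ∧ g w ∉ T ∧ y w ∉ T) → ∀ b, b ∉ s →
      ∃ w, (N w ∩ insert b T).card ≤ j + 1 ∧ g w ∉ insert b T ∧ y w ∉ insert b T := by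
  by_cases h : (univ.filter fun w => g w ∉ T ∧ y w ∉ T).Nonempty
  · obtain ⟨w, hw, hm⟩ := exists_min_image _ (fun w => (N w ∩ T).card) h
    have hw' := (mem_filter.mp hw).2
    refine ⟨{g w, y w}, card_le_two, fun j ⟨w', h1, h2⟩ b hb => ⟨w, ?_, ?_, ?_⟩⟩
    · refine (card_le_card (t := insert b (N w ∩ T)) fun z hz => ?_).trans
        ((card_insert_le _ _).trans (Nat.succ_le_succ
          ((hm w' (mem_filter.mpr ⟨mem_univ _, h2⟩)).trans h1)))
      obtain ⟨h3, h4⟩ := mem_inter.mp hz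
      exact mem_insert.mpr ((mem_insert.mp h4).imp_right fun h5 => mem_inter.mpr ⟨h3, h5⟩)
    · exact fun h3 => (mem_insert.mp h3).elim (fun e => hb (e ▸ mem_insert_self _ _)) hw'.1
    · exact fun h3 => (mem_insert.mp h3).elim
        (fun e => hb (e ▸ mem_insert_of_mem (mem_singleton_self _))) hw'.2
  · exact ⟨∅, Nat.zero_le _, fun j ⟨w, _, h2⟩ => absurd ⟨w, mem_filter.mpr ⟨mem_univ _, h2⟩⟩ h⟩

theorem Su.hc {ι U : Type} [Fintype ι] [Nonempty ι] {x : ℕ} {P O A : Finset V} {R : ι → Finset V}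
    {v : ι → V} (su : Su G (10 ^ 9) x P O A R v) (hn : Fintype.card V ≤ 2 ^ x)
    (un : Finset V → U)
    (few : ∀ u, ((Fam G univ).filter fun T => un T = u).card ≤ 2 * 3 ^ 10) :
    ∃ lev γ ch, Hc G P O (Cor G P O A) un (O.card + 2 * x + 3) lev γ ch := by
  have : Nonempty V := ⟨v (Classical.arbitrary ι)⟩
  let W := {h : V // h ∉ A ∧ ¬ ∃ p ∈ P, ca G h p}
  let N : W → Finset V := fun w => Nb G O w.1
  have hW : Fintype.card W ≤ 2 ^ x := (Fintype.card_subtype_le _).trans hn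
  have hrob := fun w : W => (su.rob w.1 w.2.1).resolve_left w.2.2
  choose g hg y hy hgy using fun w : W => (hrob w).2
  have hO : ∀ w : W, ∀ b ∈ N w, b ∉ O := fun w b hb => (mem_sdiff.mp hb).2
  obtain ⟨a, ha⟩ := colouring N (3779146 * (O.card + 3 * x + 5)) x hW fun w =>
    le_trans (by omega) (hrob w).1
  choose av hav hav' using hcd_av N g y
  obtain ⟨b, hb1, hb2⟩ := hall_col N a un (Fam G univ)
    (fun T hT b => mem_F.mpr (Dominating.up (subset_insert b T) (mem_F.mp hT)))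
    (2 * 3 ^ 10) (O.card + 2 * x + 3) x few hW (fun w c => le_trans (by omega) (ha w c))
    (fun T => -∑ z ∈ T \ O, a z) av hav
  refine ⟨fun j T => ∃ w, (N w ∩ T).card ≤ j ∧ g w ∉ T ∧ y w ∉ T, fun T => ∑ z ∈ T \ O, a z,
    fun T k => insert (b T k) T, ?_, ?_, ?_, ?_, ?_, ?_, ?_⟩
  · rintro j T T' h ⟨w, h1, h2, h3⟩
    refine ⟨w, le_trans (card_le_card fun z hz => ?_) h1, (hcd_mem h (hO w _ (hg w))).not.mp h2,
      (hcd_mem h (hO w _ (hy w))).not.mp h3⟩
    obtain ⟨h4, h5⟩ := mem_inter.mp hz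
    exact mem_inter.mpr ⟨h4, (hcd_mem h (hO w _ h4)).mpr h5⟩
  · intro T T' h
    rw [← union_sdiff_right T O, h, union_sdiff_right]
  · rintro j T ⟨w, -, h2, -⟩ h
    exact (mem_union.mp (h ▸ mem_univ (g w))).elim h2 (hO w _ (hg w))
  · intro T hT h
    have h1 : ¬ ∀ h, h ∉ A → (∃ p ∈ P, ca G h p) ∨ (Nb G O h ∩ (T ∪ P)).Nonempty := fun h1 =>
      h (mem_filter.mpr ⟨mem_univ _, subset_union_right, fun w _ =>
        dom_iff.mp (Dominating.up subset_union_left (mem_F.mp hT)) w, h1⟩)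
    obtain ⟨h0, h2⟩ := not_forall.mp h1
    obtain ⟨h2, h3⟩ := Classical.not_imp.mp h2
    obtain ⟨h3, h4⟩ := not_or.mp h3
    have h5 : ∀ z ∈ N ⟨h0, h2, h3⟩, z ∉ T := fun z hz hz' =>
      h4 ⟨z, mem_inter.mpr ⟨hz, mem_union_left _ hz'⟩⟩
    refine ⟨⟨h0, h2, h3⟩, ?_, h5 _ (hg _), h5 _ (hy _)⟩
    exact (card_eq_zero.mpr (eq_empty_of_forall_notMem fun z hz =>
      h5 z (mem_inter.mp hz).1 (mem_inter.mp hz).2)).le
  · intro j hj T hT hl k
    obtain ⟨h1, ⟨w, h2⟩, h3, h4⟩ := hb1 T hT (hl.imp fun w hw => hw.1.trans hj) k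
    exact ⟨⟨_, h1, rfl⟩, hav' T j hl _ h4, by rw [hcd_gam a h1 (hO w _ h2), h3, neg_add_cancel]⟩
  · intro j hj j' hj' T hT T' hT' hl hl'
    exact hb2 T hT T' hT' (hl.imp fun w hw => hw.1.trans hj) (hl'.imp fun w hw => hw.1.trans hj')
  · rintro T ⟨w, h1, h2, h3⟩ h0
    obtain ⟨z, z0, z1, z2⟩ := hcd_col (a (g w)) (a (y w))
    have hc : (insert (g w) (insert (y w) (N w ∩ T))).card <
        ((N w).filter fun v => a v = z).card := by
      have e1 := card_insert_le (g w) (insert (y w) (N w ∩ T))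
      have e2 := card_insert_le (y w) (N w ∩ T)
      have e3 := ha w z
      omega
    obtain ⟨c, hc1, hc2⟩ := exists_mem_notMem_of_card_lt_card hc
    obtain ⟨hc1, hc3⟩ := mem_filter.mp hc1
    simp only [mem_insert, mem_inter, not_or, hc1, true_and] at hc2
    have e : ∑ v ∈ insert c T \ O, a v = z := by
      rw [hcd_gam a hc2.2.2 (hO w _ hc1), h0, hc3, add_zero]
    have nm : ∀ u ∈ N w, u ∉ T → u ∉ T ∪ O := fun u hu hT h => (mem_union.mp h).elim hT (hO w u hu)
    refine ⟨c, g w, y w, nm _ hc1 hc2.2.2, nm _ (hg w) h2, nm _ (hy w) h3, hc2.1, hc2.2.1, hgy w,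
      e ▸ z0, ?_, ?_⟩
    · rw [hcd_gam a (fun h => (mem_insert.mp h).elim (Ne.symm hc2.1) h2) (hO w _ (hg w)), e]
      exact z1
    · rw [hcd_gam a (fun h => (mem_insert.mp h).elim (Ne.symm hc2.2.1) h3) (hO w _ (hy w)), e]
      exact z2

end Pool.Agent.MP_e46b50_co.H93.Lg
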