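import Pool.Agent.MP_e46b50_co.Asym
import Pool.Agent.MP_e46b50_co.Mg.Lg_PartB

set_option autoImplicit false

namespace Pool.Agent.MP_e46b50_co.H93.Lg

open Finset Relation

theorem ham {β Y : Type} [Fintype Y] [Nonempty Y] {b : ℕ} {Γ : SimpleGraph β} {F : Finset β}
    {ln ps : Option (Option (Fin 3 × Fin b)) → β → ℕ}
    {mv : Option (Option (Fin 3 × Fin b)) → β → ℕ → β} (c : Co Γ F ln ps mv)
    (hY : 6 * Fintype.card Y ≤ 2 ^ b) (rel : Y → β → β → Prop)
    (aff : Y → Option (Option (Fin 3 × Fin b))) {z₀ : β} (hz : z₀ ∉ F)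
    (hfun : ∀ y, ∀ a ∈ F, ∀ d d', rel y a d → rel y a d' → d = d')
    (hinj : ∀ y, ∀ a ∈ F, ∀ a' ∈ F, ∀ d, rel y a d → rel y a' d → a = a')
    (hrel : ∀ y, ∀ a ∈ F, ∀ d, rel y a d → d ∈ F ∧ Γ.Adj a d ∧
      ∀ i, i ≠ aff y → ln i d = ln i a ∧ ∀ k < ln i a, rel y (mv i a k) (mv i d k))
    {x₀ : β} (h0 : x₀ ∈ F) (conn : ∀ x ∈ F, ReflTransGen (fun a d => ∃ y, rel y a d) x x₀)
    (Q : β → Prop) (hQ : Q x₀) (hQ' : ∀ a ∈ F, Q a → ∀ i, ∀ k < ln i a, Q (mv i a k)) :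
    ∃ a d, a ≠ d ∧ Q a ∧ Q d ∧ Pth Γ (F : Set β) a d F.card := by
  classical
  have key : ∀ y, ∀ a ∈ F, ∀ d, rel y a d →
      (if h : ∃ d, rel y a d then h.choose else z₀) = d := fun y a ha d h => by
    rw [dif_pos ⟨d, h⟩]
    exact hfun y a ha _ _ (Exists.choose_spec ⟨d, h⟩) h
  have key' : ∀ y a, (if h : ∃ d, rel y a d then h.choose else z₀) ∈ F →
      rel y a (if h : ∃ d, rel y a d then h.choose else z₀) := fun y a h => by
    split_ifs at h ⊢ with h'
    exacts [h'.choose_spec, absurd h hz]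
  generalize htg : (fun y a => if h : ∃ d, rel y a d then h.choose else z₀) = tg
  simp only [fun y a => congrFun₂ htg y a] at key key'
  have t : Tg Γ F ln mv tg aff := ⟨fun y x hx x' hx' h e => hinj y x hx x' hx' _ (key' y x h)
      (e ▸ key' y x' (e ▸ h)), fun y x hx h => (hrel y x hx _ (key' y x h)).2.1,
    fun y i hi x hx h => ((hrel y x hx _ (key' y x h)).2.2 i hi).1, fun y i hi x hx h k hk =>
      (key y _ (c.mem i x hx k hk) _ (((hrel y x hx _ (key' y x h)).2.2 i hi).2 k hk)).symm⟩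
  obtain ⟨J, hJ, -, rk, cz, cy, s⟩ := c.adr t hY (Classical.arbitrary Y) (x₀ := x₀) fun x hx => by
    have := conn x hx
    induction this using ReflTransGen.head_induction_on with
    | refl => exact .refl
    | head h _ ih =>
      obtain ⟨y, h⟩ := h
      exact .head ⟨(hrel y _ hx _ h).1, y, (key y _ hx _ h).symm⟩ (ih (hrel y _ hx _ h).1)
  obtain ⟨i, k, -, -, h1, h2, h3⟩ := s.sub c t hJ (F.sup rk) x₀ h0 (by omega)
  have r0 := (s.k4 x₀ h0).mpr .refl
  have hF : Sub F ln mv tg (none :: some none :: J) rk cz cy x₀ = F := filter_true_of_mem fun w hw => by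
    rw [r0]
    exact ⟨Nat.zero_le _, (s.k4 _ (s.an_mem hw (Nat.zero_le _)).1).mp
      (s.an_mem hw (Nat.zero_le _)).2⟩
  have hz := (c.rt h0 (s.k2 x₀ h0)).1
  have hq : ∀ z, RT F ln mv (none :: some none :: J) x₀ z → Q z := fun z h => by
    induction h with
    | refl => exact hQ
    | tail _ h ih =>
      obtain ⟨a, j, -, k, b, rfl⟩ := h
      exact hQ' _ a ih j k b
  rw [hF] at h3
  exact ⟨_, _, fun e => h2 (by rw [← c.psm i _ hz k h1, ← e]), hq _ (s.k2 x₀ h0),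
    hQ' _ hz (hq _ (s.k2 x₀ h0)) i k h1, h3.top⟩

end Pool.Agent.MP_e46b50_co.H93.Lg

namespace Pool.Agent.MP_e46b50_co.H93.Lg

open Finset Function
open scoped symmDiff

theorem fib_lk_symm {β U : Type} {Γ : SimpleGraph β} {τ : U → Pt} {e : U → Pt → β} {u u' : U}
    (h : Lk Γ τ e u u') : Lk Γ τ e u' u := by
  obtain ⟨j, k, k', h1, h2, h3, h4⟩ := h
  refine ⟨j, k', k, h2, h1, fun i hi => (h3 i hi).symm, fun f hf e => ?_⟩
  have := h4 (update f j k) (Fintype.mem_piFinset.2 fun i => by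
    by_cases e : i = j
    · rw [e, update_self]; exact mem_range.2 h1
    · rw [update_of_ne e, h3 i e]; exact Fintype.mem_piFinset.1 hf i) (update_self ..)
  rw [update_idem, ← e, update_eq_self] at this
  exact this.symm

theorem fib_bx {τ f : Pt} : f ∈ bx τ ↔ ∀ i, f i < τ i := by
  simp only [bx, Fintype.mem_piFinset, mem_range]

variable {V : Type} [Fintype V] [DecidableEq V] {G : SimpleGraph V}

omit [Fintype V] [DecidableEq V] in
theorem fib_da {A T T' : Finset V} (h : DA G A T) (hT : T ⊆ T') : DA G A T' :=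
  fun w hw => (h w hw).imp fun _ a => ⟨hT a.1, a.2⟩

omit [Fintype V] in
theorem fib_la {A T R s : Finset V} : s ∈ LA G A T R ↔ s ⊆ R ∧ DA G A (T \ R ∪ s) := by
  simp only [LA, mem_filter, mem_powerset]

omit [Fintype V] in
theorem fib_la_up {A T T' R s s' : Finset V} (h : s ∈ LA G A T R) (h1 : T ⊆ T') (h2 : s ⊆ s')
    (h3 : s' ⊆ R) : s' ∈ LA G A T' R :=
  fib_la.2 ⟨h3, fib_da (fib_la.1 h).2 (union_subset_union (sdiff_subset_sdiff h1 Subset.rfl) h2)⟩

omit [Fintype V] in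
theorem fib_la_of {A T : Finset V} (h : DA G A T) (O R : Finset V) : T ∩ R ∈ LA G A (T ∪ O) R :=
  fib_la_up (T := T) (fib_la.2 ⟨inter_subset_right, by rwa [sdiff_union_inter]⟩)
    subset_union_left Subset.rfl inter_subset_right

theorem fib_cor {P O A T : Finset V} : T ∈ Cor G P O A ↔ P ⊆ T ∧ DA G A T ∧
    ∀ h, h ∉ A → (∃ p ∈ P, ca G h p) ∨ (Nb G O h ∩ T).Nonempty := by
  simp only [Cor, mem_filter, mem_univ, true_and]

theorem fib_up {P O A T T' : Finset V} (h : T ∈ Cor G P O A) (hT : T ⊆ T') : T' ∈ Cor G P O A :=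
  let ⟨a, b, c⟩ := fib_cor.1 h
  fib_cor.2 ⟨a.trans hT, fib_da b hT, fun w hw =>
    (c w hw).imp_right fun h => h.mono (inter_subset_inter Subset.rfl hT)⟩

omit [Fintype V] in
theorem fib_adj {T T' R : Finset V} (h1 : T \ R = T' \ R) (h2 : (gam G).Adj (T ∩ R) (T' ∩ R)) :
    (gam G).Adj T T' := by
  have := adj_union (b := T \ R) h2 (sdiff_disjoint.mono_right inter_subset_right)
    (sdiff_disjoint.mono_right inter_subset_right)
  rwa [union_comm, sdiff_union_inter, h1, union_comm, sdiff_union_inter] at this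

omit [Fintype V] in
theorem fib_ins (y : V) (T R : Finset V) :
    insert y T ∩ R = if y ∈ R then insert y (T ∩ R) else T ∩ R := by
  split_ifs with h
  exacts [insert_inter_of_mem h, insert_inter_of_notMem h]

variable {c x : ℕ} {P O A : Finset V} {R : Kk ⊕ Jx x → Finset V} {v : Kk ⊕ Jx x → V}
  {cl : Finset V → Kk ⊕ Jx x → Finset V → Finset (Finset V)}
  {en : Finset (Finset V) → ℕ → Finset V} {ix : Finset (Finset V) → Finset V → ℕ}

theorem Su.fib_sub (su : Su G c x P O A R v) (i : Kk ⊕ Jx x) : R i ⊆ O := fun _ h =>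
  su.hO ▸ mem_union_right _ (mem_biUnion.2 ⟨i, mem_univ _, h⟩)

theorem Su.fib_P (su : Su G c x P O A R v) : P ⊆ O := su.hO ▸ subset_union_left

theorem Su.fib_O (su : Su G c x P O A R v) {y : V} (h : y ∈ O) (hP : y ∉ P) : ∃ i, y ∈ R i := by
  rw [su.hO, mem_union, mem_biUnion] at h
  exact (h.resolve_left hP).imp fun _ h => h.2

theorem Su.fib_eq (su : Su G c x P O A R v) {y : V} {i j : Kk ⊕ Jx x} (h : y ∈ R i)
    (h' : y ∈ R j) : i = j :=
  of_not_not fun e => disjoint_left.1 (su.dis i j e) h h'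

theorem Su.fib_ext (su : Su G c x P O A R v) {T T' : Finset V} (h1 : T ∪ O = T' ∪ O)
    (h2 : ∀ i, T ∩ R i = T' ∩ R i) (h3 : T ∩ P = T' ∩ P) : T = T' := by
  ext y
  by_cases hO : y ∈ O
  · by_cases hP : y ∈ P
    · simpa [hP] using Finset.ext_iff.1 h3 y
    · obtain ⟨i, hi⟩ := su.fib_O hO hP
      simpa [hi] using Finset.ext_iff.1 (h2 i) y
  · simpa [hO] using Finset.ext_iff.1 h1 y

/-- factorisation of the core -/
theorem Su.fib_fac (su : Su G c x P O A R v) {T : Finset V} (hP : P ⊆ T)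
    (h : T ∪ O ∈ Cor G P O A) (h' : ∀ i, T ∩ R i ∈ LA G A (T ∪ O) (R i)) : T ∈ Cor G P O A := by
  obtain ⟨-, b, c⟩ := fib_cor.1 h
  have key : ∀ y ∈ T ∪ O, (∀ i, y ∉ R i) → y ∈ T := fun y hy hn =>
    (mem_union.1 hy).elim id fun hO => hP (of_not_not fun e => (su.fib_O hO e).elim hn)
  refine fib_cor.2 ⟨hP, fun w hw => ?_, fun w hw => (c w hw).imp_right fun ⟨y, hy⟩ => ⟨y, ?_⟩⟩
  · by_cases e : ∃ i, ∃ a ∈ R i, ca G w a
    · obtain ⟨i, a, a1, a2⟩ := e
      obtain ⟨y, y1, y2⟩ := (fib_la.1 (h' i)).2 w hw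
      refine ⟨y, (mem_union.1 y1).elim (fun y1 => key y (mem_sdiff.1 y1).1 fun j hj => ?_)
        fun y1 => (mem_inter.1 y1).1, y2⟩
      exact su.sep i j (fun e => (mem_sdiff.1 y1).2 (e ▸ hj)) w hw a a1 y hj a2 y2
    · obtain ⟨y, y1, y2⟩ := b w hw
      exact ⟨y, key y y1 fun i hi => e ⟨i, y, hi, y2⟩, y2⟩
  · obtain ⟨y1, y2⟩ := mem_inter.1 hy
    exact mem_inter.2 ⟨y1, (mem_union.1 y2).resolve_right (mem_sdiff.1 y1).2⟩

/-- the top tile -/
def fibTp (R : Kk ⊕ Jx x → Finset V) (v : Kk ⊕ Jx x → V) (i : Kk ⊕ Jx x) : Finset (Finset V) :=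
  {R i, (R i).erase (v i)}

/-- `t` is an enumerated tile -/
structure FibTi (G : SimpleGraph V) (L : Finset (Finset V)) (cl : Finset V → Finset (Finset V))
    (en : Finset (Finset V) → ℕ → Finset V) (ix : Finset (Finset V) → Finset V → ℕ)
    (t : Finset (Finset V)) : Prop where
  two : t.card = 2 ∨ t.card = 3
  en1 : ∀ k < t.card, en t k ∈ t ∧ ix t (en t k) = k
  ix1 : ∀ s ∈ t, ix t s < t.card ∧ en t (ix t s) = s
  adj : ∀ s ∈ t, ∀ s' ∈ t, s ≠ s' → (gam G).Adj s s'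
  mem : ∀ s ∈ t, s ∈ L ∧ cl s = t

/-- the chosen tilings -/
structure FibTl (G : SimpleGraph V) (c : ℕ) (P O A : Finset V) (R : Kk ⊕ Jx x → Finset V)
    (v : Kk ⊕ Jx x → V) (cl : Finset V → Kk ⊕ Jx x → Finset V → Finset (Finset V))
    (en : Finset (Finset V) → ℕ → Finset V) (ix : Finset (Finset V) → Finset V → ℕ) : Prop where
  su : Su G c x P O A R v
  top : ∀ Z i, ∀ s ∈ fibTp R v i, cl Z i s = fibTp R v i
  til : ∀ Z, O ⊆ Z → DA G A Z → ∀ i, ∀ s ∈ LA G A Z (R i),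
    s ∈ cl Z i s ∧ FibTi G (LA G A Z (R i)) (cl Z i) en ix (cl Z i s)

theorem Su.fib_tl (su : Su G c x P O A R v) : ∃ cl en ix, FibTl G c P O A R v cl en ix := by
  have hcl : ∀ U : Finset (Finset V), ∃ cl : Finset V → Finset (Finset V),
      Tile (fun c => K2 (gam G) c ∨ K3 (gam G) c) U → ∀ x ∈ U, x ∈ cl x ∧ cl x ⊆ U ∧
        (K2 (gam G) (cl x) ∨ K3 (gam G) (cl x)) ∧ ∀ y ∈ cl x, cl y = cl x := fun U => by
    by_cases h : Tile (fun c => K2 (gam G) c ∨ K3 (gam G) c) U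
    · obtain ⟨cl, h'⟩ := Tile.cls h
      exact ⟨cl, fun _ => h'⟩
    · exact ⟨fun _ => ∅, fun h' => absurd h' h⟩
  choose cl hcl using hcl
  choose en ix hen using enum (gam G)
  refine ⟨fun Z i s => if s ∈ fibTp R v i then fibTp R v i else cl (LA G A Z (R i) \ fibTp R v i) s,
    en, ix, su, fun Z i s hs => if_pos hs, fun Z h1 h2 i s hs => ?_⟩
  obtain ⟨t1, t2⟩ := su.til i Z h1 h2
  by_cases h : s ∈ fibTp R v i
  · simp only [if_pos h]
    obtain ⟨a, b, c, d⟩ := hen (fibTp R v i) (.inl ⟨_, _, adj_erase (su.mem i), rfl⟩)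
    refine ⟨h, a, b, c, d, fun s' hs' => ⟨?_, if_pos hs'⟩⟩
    rcases mem_insert.1 hs' with rfl | e
    · exact fib_la_up t1 Subset.rfl (erase_subset _ _) Subset.rfl
    · exact mem_singleton.1 e ▸ t1
  · simp only [if_neg h]
    obtain ⟨a1, a2, a3, a4⟩ := hcl _ t2 s (mem_sdiff.2 ⟨hs, h⟩)
    obtain ⟨a, b, c, d⟩ := hen _ a3
    exact ⟨a1, a, b, c, d, fun s' hs' => ⟨(mem_sdiff.1 (a2 hs')).1,
      (if_neg (mem_sdiff.1 (a2 hs')).2).trans (a4 s' hs')⟩⟩

/-- the unit of a set -/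
def fibUn (O : Finset V) (R : Kk ⊕ Jx x → Finset V)
    (cl : Finset V → Kk ⊕ Jx x → Finset V → Finset (Finset V)) (T : Finset V) : UU V x :=
  (T ∪ O, fun i => cl (T ∪ O) (.inl i) (T ∩ R (.inl i)), fun i => T ∩ R (.inr i))

/-- the position of a set in its unit -/
def fibPs (O : Finset V) (R : Kk ⊕ Jx x → Finset V)
    (cl : Finset V → Kk ⊕ Jx x → Finset V → Finset (Finset V))
    (ix : Finset (Finset V) → Finset V → ℕ) (T : Finset V) : Pt :=
  fun i => ix ((fibUn O R cl T).2.1 i) (T ∩ R (.inl i))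

def fibTau (u : UU V x) : Pt := fun i => (u.2.1 i).card

def fibSg (en : Finset (Finset V) → ℕ → Finset V) (u : UU V x) (f : Pt) : Kk ⊕ Jx x → Finset V :=
  Sum.elim (fun i => en (u.2.1 i) (f i)) u.2.2

/-- the set at a given position of a unit -/
def fibE (R : Kk ⊕ Jx x → Finset V) (en : Finset (Finset V) → ℕ → Finset V) (u : UU V x) (f : Pt) :
    Finset V :=
  u.1 \ univ.biUnion R ∪ univ.biUnion (fibSg en u f)

/-- admissible units -/
structure FibOk (G : SimpleGraph V) (P O A : Finset V) (R : Kk ⊕ Jx x → Finset V)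
    (cl : Finset V → Kk ⊕ Jx x → Finset V → Finset (Finset V))
    (en : Finset (Finset V) → ℕ → Finset V) (ix : Finset (Finset V) → Finset V → ℕ)
    (u : UU V x) : Prop where
  sub : O ⊆ u.1
  cor : u.1 ∈ Cor G P O A
  ti : ∀ i, FibTi G (LA G A u.1 (R (.inl i))) (cl u.1 (.inl i)) en ix (u.2.1 i)
  la : ∀ i, u.2.2 i ∈ LA G A u.1 (R (.inr i))

variable (tl : FibTl G c P O A R v cl en ix)
include tl

theorem FibTl.own {T : Finset V} (h : DA G A T) (i : Kk) :
    T ∩ R (.inl i) ∈ (fibUn O R cl T).2.1 i ∧ FibTi G (LA G A (T ∪ O) (R (.inl i)))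
      (cl (T ∪ O) (.inl i)) en ix ((fibUn O R cl T).2.1 i) :=
  tl.til _ subset_union_right (fib_da h subset_union_left) _ _ (fib_la_of h _ _)

theorem FibTl.ok {T : Finset V} (h : T ∈ Cor G P O A) : FibOk G P O A R cl en ix (fibUn O R cl T) :=
  ⟨subset_union_right, fib_up h subset_union_left, fun i => (tl.own (fib_cor.1 h).2.1 i).2,
    fun _ => fib_la_of (fib_cor.1 h).2.1 _ _⟩

theorem FibTl.pos {T : Finset V} (h : DA G A T) (i : Kk) :
    fibPs O R cl ix T i < fibTau (fibUn O R cl T) i ∧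
      en ((fibUn O R cl T).2.1 i) (fibPs O R cl ix T i) = T ∩ R (.inl i) :=
  (tl.own h i).2.ix1 _ (tl.own h i).1

theorem FibTl.parts {u : UU V x} (h : FibOk G P O A R cl en ix u) {f : Pt} (hf : f ∈ bx (fibTau u)) :
    fibE R en u f ∪ O = u.1 ∧ (∀ i, fibE R en u f ∩ R i = fibSg en u f i) ∧
      fibE R en u f ∈ Cor G P O A := by
  have h0 : ∀ i, fibSg en u f i ∈ LA G A u.1 (R i) := by
    rintro (i | i)
    exacts [((h.ti i).mem _ ((h.ti i).en1 _ (fib_bx.1 hf i)).1).1, h.la i]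
  have h1 := fun i => (fib_la.1 (h0 i)).1
  have hm : ∀ y, y ∈ fibE R en u f ↔ (y ∈ u.1 ∧ ∀ i, y ∉ R i) ∨ ∃ i, y ∈ fibSg en u f i := by
    simp only [fibE, mem_union, mem_sdiff, mem_biUnion, mem_univ, true_and, Sum.exists, not_or, not_exists, Sum.forall, implies_true]
  have hP : P ⊆ fibE R en u f := fun y hy => (hm y).2
    (.inl ⟨h.sub (tl.su.fib_P hy), fun i => disjoint_left.1 (tl.su.dP i) hy⟩)
  have h2 : fibE R en u f ∪ O = u.1 := by
    refine (union_subset (fun y hy => ?_) h.sub).antisymm fun y hy => mem_union.2 ?_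
    · exact ((hm y).1 hy).elim And.left fun ⟨i, hi⟩ => h.sub (tl.su.fib_sub i (h1 i hi))
    · exact (em _).symm.imp_left fun e => (hm y).2 (.inl ⟨hy, fun i hi => e (tl.su.fib_sub i hi)⟩)
  have h3 : ∀ i, fibE R en u f ∩ R i = fibSg en u f i := fun i => by
    ext y
    rw [mem_inter, hm]
    exact ⟨fun ⟨a, b⟩ => a.elim (fun a => (a.2 i b).elim) fun ⟨j, a⟩ =>
      tl.su.fib_eq (h1 j a) b ▸ a, fun a => ⟨.inr ⟨i, a⟩, h1 i a⟩⟩
  exact ⟨h2, h3, tl.su.fib_fac hP (h2 ▸ h.cor) fun i => by rw [h2, h3]; exact h0 i⟩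

theorem FibTl.ch {F : Finset (UU V x)} (hF : ∀ u, u ∈ F ↔ FibOk G P O A R cl en ix u) :
    Ch (Cor G P O A) F (fibUn O R cl) (fibPs O R cl ix) fibTau (fibE R en) := by
  refine ⟨fun u hu i => (((hF u).1 hu).ti i).two, fun T hT => ?_, fun u hu f hf => ?_⟩
  · have hp := fib_bx.2 fun i => (tl.pos (fib_cor.1 hT).2.1 i).1
    obtain ⟨a, b, c⟩ := tl.parts (tl.ok hT) hp
    refine ⟨(hF _).2 (tl.ok hT), hp, tl.su.fib_ext a (fun i => (b i).trans ?_) ?_⟩
    · cases i with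
      | inl i => exact (tl.pos (fib_cor.1 hT).2.1 i).2
      | inr i => rfl
    · rw [inter_eq_right.2 (fib_cor.1 c).1, inter_eq_right.2 (fib_cor.1 hT).1]
  · have h := (hF u).1 hu
    obtain ⟨a, b, c⟩ := tl.parts h hf
    have := fun i => (h.ti i).en1 _ (fib_bx.1 hf i)
    have e : fibUn O R cl (fibE R en u f) = u := by
      refine Prod.ext a (Prod.ext (funext fun i => ?_) (funext fun i => b (.inr i)))
      simp only [fibUn, a, b]
      exact ((h.ti i).mem _ (this i).1).2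
    refine ⟨c, e, funext fun i => ?_⟩
    rw [fibPs, e, b]
    exact (this i).2

theorem FibTl.eg {T T' : Finset V}
    (h : Eg (Cor G P O A) (fibUn O R cl) (fibPs O R cl ix) T T') :
    ∃ i, T \ R (.inl i) = T' \ R (.inl i) ∧ (gam G).Adj (T ∩ R (.inl i)) (T' ∩ R (.inl i)) := by
  obtain ⟨h1, h2, h3, i, h4, h5⟩ := h
  obtain ⟨p1, d1, -⟩ := fib_cor.1 h1
  obtain ⟨p2, d2, -⟩ := fib_cor.1 h2
  refine ⟨i, ?_, (tl.own d1 i).2.adj _ (tl.own d1 i).1 _ (h3 ▸ (tl.own d2 i).1) fun e =>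
    h4 (by rw [fibPs, fibPs, h3, e])⟩
  refine tl.su.fib_ext ?_ (fun j => ?_) ?_
  · have e := fun T : Finset V => sdiff_union_self_eq_union (s := T) (t := R (.inl i))
    rw [← union_eq_right.2 (tl.su.fib_sub (.inl i)), ← union_assoc, ← union_assoc, e, e,
      union_assoc, union_assoc, union_eq_right.2 (tl.su.fib_sub (.inl i))]
    exact congrArg Prod.fst h3
  · rw [sdiff_inter_right_comm, sdiff_inter_right_comm]
    by_cases e : j = .inl i
    · rw [e, sdiff_eq_empty_iff_subset.2 inter_subset_right,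
        sdiff_eq_empty_iff_subset.2 inter_subset_right]
    congr 1
    cases j with
    | inl j => rw [← (tl.pos d1 j).2, ← (tl.pos d2 j).2, h3, h5 j fun a => e (congrArg _ a)]
    | inr j => exact congrFun (congrArg (·.2.2) h3) j
  · rw [sdiff_inter_right_comm, sdiff_inter_right_comm, inter_eq_right.2 p1, inter_eq_right.2 p2]

theorem FibTl.swap {T T' : Finset V} (h : T ∈ Cor G P O A) {i : Kk}
    (h1 : T' \ R (.inl i) = T \ R (.inl i)) (h2 : T' ∩ R (.inl i) ∈ (fibUn O R cl T).2.1 i)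
    (h3 : T ∩ R (.inl i) ≠ T' ∩ R (.inl i)) :
    Eg (Cor G P O A) (fibUn O R cl) (fibPs O R cl ix) T T' ∧
      ∀ j, j ≠ .inl i → T' ∩ R j = T ∩ R j := by
  obtain ⟨p1, d1, -⟩ := fib_cor.1 h
  have h0 : ∀ y, y ∉ R (.inl i) → (y ∈ T' ↔ y ∈ T) := fun y hy => by
    simpa [hy] using Finset.ext_iff.1 h1 y
  have a1 : T' ∪ O = T ∪ O := Finset.ext fun y => by
    by_cases e : y ∈ O
    · simp only [mem_union, e, or_true]
    · rw [mem_union, mem_union, h0 y fun a => e (tl.su.fib_sub _ a)]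
  have a2 : ∀ j, j ≠ .inl i → T' ∩ R j = T ∩ R j := fun j hj => Finset.ext fun y => by
    rw [mem_inter, mem_inter]
    exact and_congr_left fun a => h0 y fun b => hj (tl.su.fib_eq a b)
  obtain ⟨o1, o2⟩ := tl.own d1 i
  have a3 : fibUn O R cl T = fibUn O R cl T' := by
    refine Prod.ext a1.symm (Prod.ext (funext fun j => ?_) (funext fun j => (a2 _ (by simp)).symm))
    simp only [fibUn, a1]
    by_cases e : j = i
    · exact e ▸ (o2.mem _ h2).2.symm
    · rw [a2 _ fun a => e (Sum.inl.inj a)]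
  refine ⟨⟨h, tl.su.fib_fac (fun y hy => (h0 y (disjoint_left.1 (tl.su.dP _) hy)).2 (p1 hy))
    (a1 ▸ fib_up h subset_union_left) fun j => ?_, a3, i, fun e => h3 ?_, fun j hj => ?_⟩, a2⟩
  · rw [a1]
    by_cases e : j = .inl i
    · exact e ▸ (o2.mem _ h2).1
    · exact a2 j e ▸ fib_la_of d1 _ _
  · rw [← (o2.ix1 _ o1).2, ← (o2.ix1 _ h2).2]
    exact congrArg _ (e.trans (by rw [fibPs, ← a3]))
  · rw [fibPs, fibPs, ← a3, a2 _ fun a => hj (Sum.inl.inj a)]

theorem FibTl.swap' {T s : Finset V} (h : T ∈ Cor G P O A) {i : Kk}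
    (h2 : s ∈ (fibUn O R cl T).2.1 i) (h3 : s ≠ T ∩ R (.inl i)) :
    ∃ T', Eg (Cor G P O A) (fibUn O R cl) (fibPs O R cl ix) T T' ∧ T' ∩ R (.inl i) = s ∧
      ∀ j, j ≠ .inl i → T' ∩ R j = T ∩ R j := by
  have hs := (fib_la.1 ((tl.own (fib_cor.1 h).2.1 i).2.mem _ h2).1).1
  have e : (T \ R (.inl i) ∪ s) ∩ R (.inl i) = s := by
    rw [union_inter_distrib_right, Finset.sdiff_inter_self, empty_union, inter_eq_left.2 hs]
  have := tl.swap h (T' := T \ R (.inl i) ∪ s) (i := i) (by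
    rw [union_sdiff_distrib, sdiff_eq_empty_iff_subset.2 hs, union_empty, Finset.sdiff_idem])
    (e.symm ▸ h2) (e.symm ▸ h3.symm)
  exact ⟨_, this.1, e, this.2⟩

theorem FibTl.tp2 (i : Kk ⊕ Jx x) : (fibTp R v i).card = 2 :=
  card_pair (erase_ne_self.2 (tl.su.mem i)).symm

omit tl in
/-- a move in one of the remaining coordinates -/
def fibMv (cl : Finset V → Kk ⊕ Jx x → Finset V → Finset (Finset V))
    (en : Finset (Finset V) → ℕ → Finset V) (i : Jx x) (u : UU V x) (k : ℕ) : UU V x :=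
  (u.1, u.2.1, update u.2.2 i (en (cl u.1 (.inr i) (u.2.2 i)) k))

omit tl in
/-- the unit that is reached by adding `y` -/
def fibNx (R : Kk ⊕ Jx x → Finset V) (cl : Finset V → Kk ⊕ Jx x → Finset V → Finset (Finset V))
    (en : Finset (Finset V) → ℕ → Finset V) (y : V) (k : ℕ) (u : UU V x) : UU V x :=
  (insert y u.1, fun i => if y ∈ R (.inl i) then cl u.1 (.inl i) (insert y (en (u.2.1 i) k))
    else u.2.1 i, fun i => if y ∈ R (.inr i) then insert y (u.2.2 i) else u.2.2 i)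

omit tl in
/-- the units at which `y` is added -/
structure FibGd (P O : Finset V) (R : Kk ⊕ Jx x → Finset V) (v : Kk ⊕ Jx x → V)
    (cl : Finset V → Kk ⊕ Jx x → Finset V → Finset (Finset V))
    (en : Finset (Finset V) → ℕ → Finset V) (ix : Finset (Finset V) → Finset V → ℕ) (y : V)
    (k k' : ℕ) (u : UU V x) : Prop where
  g0 : y ∉ P
  g1 : ∀ i, y ∈ R (.inr i) → y ∉ u.2.2 i
  g2 : ∀ i, y ∈ R (.inl i) → k < (u.2.1 i).card ∧ y ∉ en (u.2.1 i) k ∧
    cl u.1 (.inl i) (insert y (en (u.2.1 i) k)) ≠ u.2.1 i ∧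
    ix (cl u.1 (.inl i) (insert y (en (u.2.1 i) k))) (insert y (en (u.2.1 i) k)) = k'
  g3 : y ∉ O → y ∉ u.1 ∧ (∀ i, u.2.1 i = fibTp R v (.inl i)) ∧ ∀ i, u.2.2 i ∈ fibTp R v (.inr i)

theorem FibTl.rt {u : UU V x} (h : FibOk G P O A R cl en ix u) (i : Jx x) :
    u.2.2 i ∈ cl u.1 (.inr i) (u.2.2 i) ∧
      FibTi G (LA G A u.1 (R (.inr i))) (cl u.1 (.inr i)) en ix (cl u.1 (.inr i) (u.2.2 i)) :=
  tl.til _ h.sub (fib_cor.1 h.cor).2.1 _ _ (h.la i)

omit tl in
theorem fib_lk {u d : UU V x} (h : FibOk G P O A R cl en ix u) (e : fibTau u = fibTau d)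
    (ha : ∀ f ∈ bx (fibTau u), (gam G).Adj (fibE R en u f) (fibE R en d f)) :
    (lkG (gam G) fibTau (fibE R en)).Adj u d := by
  have h0 : ∀ i, 0 < fibTau u i := fun i => by have := (h.ti i).two; unfold fibTau; omega
  have : Lk (gam G) fibTau (fibE R en) u d := ⟨0, 0, 0, h0 0, e ▸ h0 0, fun i _ => e ▸ rfl,
    fun f hf a => by rw [← a, update_eq_self]; exact ha f hf⟩
  exact ⟨fun a => (ha (fun _ => 0) (fib_bx.2 h0)).ne (a ▸ rfl), this, fib_lk_symm this⟩

theorem FibTl.mv {u : UU V x} (h : FibOk G P O A R cl en ix u) {i : Jx x} {k : ℕ}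
    (hk : k < (cl u.1 (.inr i) (u.2.2 i)).card) : FibOk G P O A R cl en ix (fibMv cl en i u k) ∧
      ∀ j, cl u.1 (.inr j) ((fibMv cl en i u k).2.2 j) = cl u.1 (.inr j) (u.2.2 j) := by
  have := (tl.rt h i).2.mem _ ((tl.rt h i).2.en1 k hk).1
  refine ⟨⟨h.sub, h.cor, h.ti, fun j => ?_⟩, fun j => ?_⟩ <;> by_cases e : j = i
  · simp only [fibMv, e, update_self]; exact this.1
  · simp only [fibMv, update_of_ne e]; exact h.la j
  · simp only [fibMv, e, update_self]; exact this.2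
  · simp only [fibMv, update_of_ne e]

theorem FibTl.co {F : Finset (UU V x)} (hF : ∀ u, u ∈ F ↔ FibOk G P O A R cl en ix u) :
    Co (lkG (gam G) fibTau (fibE R en)) F (fun i u => (cl u.1 (.inr i) (u.2.2 i)).card)
      (fun i u => ix (cl u.1 (.inr i) (u.2.2 i)) (u.2.2 i)) (fibMv cl en) := by
  have p := fun i u hu => tl.rt ((hF u).1 hu) i
  have m := fun i u hu k hk => tl.mv ((hF u).1 hu) (i := i) (k := k) hk
  refine ⟨fun i u hu => (p i u hu).2.two, fun i u hu => ((p i u hu).2.ix1 _ (p i u hu).1).1,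
    fun i u hu => ?_, fun i u hu k hk => (hF _).2 (m i u hu k hk).1,
    fun i j u hu k hk => congrArg _ ((m i u hu k hk).2 j), fun i u hu k hk => ?_,
    fun i j hj u hu k hk => ?_, fun i u hu k hk k' => ?_, fun i j hj u hu k hk k' hk' => ?_,
    fun i u hu k hk k' hk' hne => ?_⟩
  · rw [fibMv, ((p i u hu).2.ix1 _ (p i u hu).1).2, update_eq_self]
  · refine (congrArg (ix · _) ((m i u hu k hk).2 i)).trans ?_
    simp only [fibMv, update_self]
    exact ((p i u hu).2.en1 k hk).2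
  · simp only [fibMv, update_of_ne hj]
  · have := (m i u hu k hk).2 i
    simp only [fibMv] at this ⊢
    rw [this, update_idem]
  · simp only [fibMv, update_of_ne hj, update_of_ne hj.symm, update_comm hj]
  · refine fib_lk (m i u hu k hk).1 rfl fun f hf => ?_
    obtain ⟨a1, a2, a3⟩ := tl.parts (m i u hu k hk).1 hf
    obtain ⟨b1, b2, b3⟩ := tl.parts (m i u hu k' hk').1 hf
    refine fib_adj (R := R (.inr i)) (Finset.ext fun y => ?_) ?_
    · simp only [mem_sdiff]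
      refine and_congr_left fun hy => ?_
      by_cases hO : y ∈ O
      · by_cases hP : y ∈ P
        · exact iff_of_true ((fib_cor.1 a3).1 hP) ((fib_cor.1 b3).1 hP)
        obtain ⟨j, hj⟩ := tl.su.fib_O hO hP
        have : fibSg en (fibMv cl en i u k) f j = fibSg en (fibMv cl en i u k') f j := by
          cases j with
          | inl j => rfl
          | inr j => simp only [fibSg, fibMv, Sum.elim_inr, update_of_ne fun e : j = i => hy (e ▸ hj)]
        simpa [hj] using Finset.ext_iff.1 ((a2 j).trans (this.trans (b2 j).symm)) y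
      · simpa [hO] using Finset.ext_iff.1 (a1.trans b1.symm) y
    · rw [a2, b2]
      simp only [fibSg, fibMv, Sum.elim_inr, update_self]
      exact (p i u hu).2.adj _ ((p i u hu).2.en1 k hk).1 _ ((p i u hu).2.en1 k' hk').1 fun e =>
        hne (by rw [← ((p i u hu).2.en1 k hk).2, e, ((p i u hu).2.en1 k' hk').2])

theorem FibTl.nx {u : UU V x} (h : FibOk G P O A R cl en ix u) {y : V} {k k' : ℕ}
    (g : FibGd P O R v cl en ix y k k' u) : FibOk G P O A R cl en ix (fibNx R cl en y k u) ∧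
      (∀ i, y ∈ R (.inl i) → k' < fibTau (fibNx R cl en y k u) i ∧
        en ((fibNx R cl en y k u).2.1 i) k' = insert y (en (u.2.1 i) k)) ∧
      ∀ i, y ∉ R (.inr i) → cl (insert y u.1) (.inr i) (u.2.2 i) = cl u.1 (.inr i) (u.2.2 i) := by
  have hd := (fib_cor.1 h.cor).2.1
  have h1 : ∀ i, y ∈ R (.inl i) → _ := fun i hy => tl.til _ h.sub hd (.inl i) _ (fib_la_up
    ((h.ti i).mem _ ((h.ti i).en1 k (g.g2 i hy).1).1).1 Subset.rfl (subset_insert y _)
    (insert_subset hy (fib_la.1 ((h.ti i).mem _ ((h.ti i).en1 k (g.g2 i hy).1).1).1).1))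
  refine ⟨⟨h.sub.trans (subset_insert _ _), fib_up h.cor (subset_insert _ _), fun i => ?_,
    fun i => ?_⟩, fun i hy => ?_, fun i _ => ?_⟩
  · simp only [fibNx]
    by_cases hO : y ∈ O
    · rw [insert_eq_of_mem (h.sub hO)]
      split_ifs with hy
      exacts [(h1 i hy).2, h.ti i]
    · rw [if_neg fun a => hO (tl.su.fib_sub _ a), (g.g3 hO).2.1 i,
        ← tl.top (insert y u.1) _ _ (mem_insert_self _ _)]
      refine (tl.til _ (h.sub.trans (subset_insert _ _)) (fib_da hd (subset_insert _ _)) _ _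
        (fib_la.2 ⟨Subset.rfl, fib_da hd ?_⟩)).2
      rw [sdiff_union_self_eq_union]
      exact (subset_insert _ _).trans subset_union_left
  · simp only [fibNx]
    split_ifs with hy
    · exact fib_la_up (h.la i) (subset_insert _ _) (subset_insert _ _)
        (insert_subset hy (fib_la.1 (h.la i)).1)
    · exact fib_la_up (h.la i) (subset_insert _ _) Subset.rfl (fib_la.1 (h.la i)).1
  · simp only [fibTau, fibNx, if_pos hy, ← (g.g2 i hy).2.2.2]
    exact (h1 i hy).2.ix1 _ (h1 i hy).1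
  · by_cases hO : y ∈ O
    · rw [insert_eq_of_mem (h.sub hO)]
    · rw [tl.top _ _ _ ((g.g3 hO).2.2 i), tl.top _ _ _ ((g.g3 hO).2.2 i)]

theorem FibTl.nx_adj {u : UU V x} (h : FibOk G P O A R cl en ix u) {y : V} {k k' : ℕ}
    (g : FibGd P O R v cl en ix y k k' u) :
    (lkG (gam G) fibTau (fibE R en)).Adj u (fibNx R cl en y k u) := by
  obtain ⟨n1, n2, -⟩ := tl.nx h g
  have key : ∀ f ∈ bx (fibTau u), ∀ f' ∈ bx (fibTau (fibNx R cl en y k u)),
      (∀ j, y ∈ R (.inl j) → f j = k ∧ f' j = k') → (∀ j, y ∉ R (.inl j) → f' j = f j) →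
      (gam G).Adj (fibE R en u f) (fibE R en (fibNx R cl en y k u) f') := fun f hf f' hf' e1 e2 => by
    obtain ⟨a1, a2, a3⟩ := tl.parts h hf
    obtain ⟨b1, b2, b3⟩ := tl.parts n1 hf'
    have hy : y ∉ fibE R en u f := fun hy => by
      by_cases hO : y ∈ O
      · obtain ⟨j, hj⟩ := tl.su.fib_O hO g.g0
        have := a2 j ▸ mem_inter.2 ⟨hy, hj⟩
        cases j with
        | inl j => exact (g.g2 j hj).2.1 ((e1 j hj).1 ▸ this)
        | inr j => exact g.g1 j hj this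
      · exact (g.g3 hO).1 (a1 ▸ mem_union_left _ hy)
    have : fibE R en (fibNx R cl en y k u) f' = insert y (fibE R en u f) := by
      refine tl.su.fib_ext (by rw [b1, insert_union, a1]; rfl) (fun j => ?_) ?_
      · rw [b2, fib_ins, a2]
        cases j with
        | inl j =>
          split_ifs with hj
          · simp only [fibSg, Sum.elim_inl, e1 j hj, (n2 j hj).2]
          · simp only [fibSg, Sum.elim_inl, e2 j hj, fibNx, if_neg hj]
        | inr j => rfl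
      · rw [inter_eq_right.2 (fib_cor.1 b3).1,
          inter_eq_right.2 ((fib_cor.1 a3).1.trans (subset_insert _ _))]
    rw [this, ← tog_not hy]
    exact adj_tog _ _
  have ht : ∀ j, y ∉ R (.inl j) → fibTau u j = fibTau (fibNx R cl en y k u) j := fun j hj => by
    simp only [fibTau, fibNx, if_neg hj]
  by_cases hj : ∃ j, y ∈ R (.inl j)
  · obtain ⟨j, hj⟩ := hj
    have e : ∀ i, i ≠ j → y ∉ R (.inl i) := fun i a b => a (Sum.inl.inj (tl.su.fib_eq b hj))
    have : Lk (gam G) fibTau (fibE R en) u (fibNx R cl en y k u) := by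
      refine ⟨j, k, k', (g.g2 j hj).1, (n2 j hj).1, fun i a => ht i (e i a), fun f hf a =>
        key f hf _ (fib_bx.2 fun i => ?_) (fun i b => ?_) fun i b =>
          update_of_ne (fun c : i = j => b (c ▸ hj)) ..⟩
      · by_cases c : i = j
        · rw [c, update_self]; exact (n2 j hj).1
        · rw [update_of_ne c, ← ht i (e i c)]; exact fib_bx.1 hf i
      · obtain rfl : i = j := of_not_not fun c => e i c b
        exact ⟨a, update_self ..⟩
    refine ⟨fun a => (g.g2 j hj).2.2.1 ?_, this, fib_lk_symm this⟩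
    simpa only [fibNx, if_pos hj] using (congrFun (congrArg (·.2.1) a) j).symm
  · have e : fibTau u = fibTau (fibNx R cl en y k u) := funext fun j => ht j fun a => hj ⟨j, a⟩
    exact fib_lk h e fun f hf => key f hf f (e ▸ hf) (fun j a => (hj ⟨j, a⟩).elim) fun _ _ => rfl

theorem FibTl.nx_inj {u u' : UU V x} (h : FibOk G P O A R cl en ix u)
    (h' : FibOk G P O A R cl en ix u') {y : V} {k k' : ℕ} (g : FibGd P O R v cl en ix y k k' u)
    (g' : FibGd P O R v cl en ix y k k' u') (e : fibNx R cl en y k u = fibNx R cl en y k u') :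
    u = u' := by
  have ins : ∀ {s s' : Finset V}, y ∉ s → y ∉ s' → insert y s = insert y s' → s = s' :=
    fun a b c => by rw [← erase_insert a, c, erase_insert b]
  have e1 : u.1 = u'.1 := by
    have : insert y u.1 = insert y u'.1 := congrArg Prod.fst e
    by_cases hO : y ∈ O
    · rwa [insert_eq_of_mem (h.sub hO), insert_eq_of_mem (h'.sub hO)] at this
    · exact ins (g.g3 hO).1 (g'.g3 hO).1 this
  refine Prod.ext e1 (Prod.ext (funext fun j => ?_) (funext fun j => ?_))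
  · by_cases hj : y ∈ R (.inl j)
    · have := ins (g.g2 j hj).2.1 (g'.g2 j hj).2.1
        (by rw [← ((tl.nx h g).2.1 j hj).2, e, ((tl.nx h' g').2.1 j hj).2])
      rw [← ((h.ti j).mem _ ((h.ti j).en1 k (g.g2 j hj).1).1).2, this, e1,
        ((h'.ti j).mem _ ((h'.ti j).en1 k (g'.g2 j hj).1).1).2]
    · simpa only [fibNx, if_neg hj] using congrFun (congrArg (·.2.1) e) j
  · have := congrFun (congrArg (·.2.2) e) j
    simp only [fibNx] at this
    split_ifs at this with hj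
    exacts [ins (g.g1 j hj) (g'.g1 j hj) this, this]

theorem FibTl.step {T : Finset V} (h : T ∈ Cor G P O A) {y : V} (hy : y ∉ T) (hO : y ∉ O → O ⊆ T) :
    fibUn O R cl (insert y T) = fibUn O R cl T ∨ ∃ k < 3, ∃ k' < 3,
      FibGd P O R v cl en ix y k k' (fibUn O R cl T) ∧
        fibUn O R cl (insert y T) = fibNx R cl en y k (fibUn O R cl T) := by
  obtain ⟨p1, d1, -⟩ := fib_cor.1 h
  have d2 := fib_da d1 (subset_insert y T)
  obtain ⟨j, hj⟩ : ∃ j, ∀ i, y ∈ R (.inl i) → i = j := by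
    by_cases e : ∃ j, y ∈ R (.inl j)
    · exact e.imp fun j a i b => Sum.inl.inj (tl.su.fib_eq b a)
    · exact ⟨0, fun i a => (e ⟨i, a⟩).elim⟩
  have lt3 : ∀ T, DA G A T → fibPs O R cl ix T j < 3 := fun T d => by
    have := (tl.pos d j).1
    have := (tl.own d j).2.two
    unfold fibTau at *
    omega
  have e0 : y ∈ O → insert y (T ∪ O) = T ∪ O := fun a => insert_eq_of_mem (mem_union_right _ a)
  have tp : y ∉ O → ∀ i, T ∩ R i ∈ fibTp R v i := fun a i => by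
    rw [inter_eq_right.2 ((tl.su.fib_sub i).trans (hO a))]; exact mem_insert_self _ _
  have e1 : fibUn O R cl (insert y T) = fibNx R cl en y (fibPs O R cl ix T j) (fibUn O R cl T) := by
    refine Prod.ext (insert_union ..) (Prod.ext (funext fun i => ?_) (funext fun i => fib_ins ..))
    have := (tl.pos d1 i).2
    simp only [fibNx, fibUn, fib_ins, insert_union] at this ⊢
    split_ifs with a
    · rw [e0 (tl.su.fib_sub _ a), ← hj i a, this]
    · by_cases b : y ∈ O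
      · rw [e0 b]
      · rw [tl.top _ _ _ (tp b _), tl.top _ _ _ (tp b _)]
  refine (em _).imp_right fun ne => ⟨_, lt3 T d1, _, lt3 _ d2, ⟨fun a => hy (p1 a),
    fun i _ a => hy (mem_inter.1 a).1, fun i a => ?_, fun a => ⟨fun b => (mem_union.1 b).elim hy a,
      fun i => tl.top _ _ _ (tp a _), fun i => tp a _⟩⟩, e1⟩
  obtain rfl := hj i a
  have e2 := congrFun (congrArg (·.2.1) e1) i
  simp only [fibNx, if_pos a] at e2
  refine ⟨(tl.pos d1 i).1, ?_, fun b => ne (e1.trans ?_), ?_⟩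
  · rw [(tl.pos d1 i).2]; exact fun b => hy (mem_inter.1 b).1
  · refine Prod.ext (e0 (tl.su.fib_sub _ a)) (Prod.ext (funext fun l => ?_) (funext fun l =>
      if_neg fun c => by simpa using tl.su.fib_eq a c))
    simp only [fibNx]
    split_ifs with c
    · obtain rfl := hj l c
      exact b
    · rfl
  · rw [← e2, (tl.pos d1 i).2, ← insert_inter_of_mem a]; rfl

theorem FibTl.path {F : Finset (UU V x)} (hF : ∀ u, u ∈ F ↔ FibOk G P O A R cl en ix u)
    (hn : Fintype.card V ≤ 2 ^ x) : ∃ a d : UU V x, a ≠ d ∧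
      (a.1 = univ ∧ ∀ i, a.2.1 i = fibTp R v (.inl i)) ∧
      (d.1 = univ ∧ ∀ i, d.2.1 i = fibTp R v (.inl i)) ∧
      Pth (lkG (gam G) fibTau (fibE R en)) (F : Set (UU V x)) a d F.card := by
  have : Nonempty V := ⟨v (.inl 0)⟩
  have haff : ∀ y : V × Fin 3 × Fin 3, ∃ j, ∀ i, i ≠ j → y.1 ∉ R (.inr i) := fun y => by
    by_cases e : ∃ j, y.1 ∈ R (.inr j)
    · exact e.imp fun j a i b c => b (Sum.inr.inj (tl.su.fib_eq c a))
    · exact ⟨none, fun i _ a => e ⟨i, a⟩⟩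
  choose aff haff using haff
  have hU : univ ∈ Cor G P O A := fib_cor.2 ⟨subset_univ _, fun w _ => ⟨w, mem_univ _, .inl rfl⟩,
    fun w hw => (tl.su.rob w hw).imp_right fun ⟨_, g, hg, _⟩ => ⟨g, by rwa [inter_univ]⟩⟩
  refine ham (tl.co hF) (Y := V × Fin 3 × Fin 3) ?_ (fun y u d =>
    FibGd P O R v cl en ix y.1 y.2.1 y.2.2 u ∧ d = fibNx R cl en y.1 y.2.1 u) aff
    (z₀ := (∅, fun _ => ∅, fun _ => ∅)) (fun h => ?_) (fun y a _ d d' h h' => h.2.trans h'.2.symm)
    (fun y a ha a' ha' d h h' => tl.nx_inj ((hF _).1 ha) ((hF _).1 ha') h.1 h'.1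
      (h.2.symm.trans h'.2)) ?_ ((hF _).2 (tl.ok hU)) (fun u hu => ?_) _
    ⟨union_eq_left.2 (subset_univ _), fun i => tl.top _ _ _ ?_⟩ fun a _ h _ _ _ => h
  · simp only [Fintype.card_prod, Fintype.card_fin, pow_add]
    omega
  · exact notMem_empty _ (((hF _).1 h).sub (tl.su.fib_sub _ (tl.su.mem (.inl 0))))
  · rintro y u hu _ ⟨g, rfl⟩
    have h := (hF u).1 hu
    obtain ⟨n1, -, n3⟩ := tl.nx h g
    refine ⟨(hF _).2 n1, tl.nx_adj h g, fun i hi => ?_⟩
    have hy := haff y i hi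
    have e := n3 i hy
    refine ⟨by simp only [fibNx, if_neg hy, e], fun k hk => ⟨⟨g.g0, fun j hj => ?_, g.g2, fun a =>
      ⟨(g.g3 a).1, (g.g3 a).2.1, fun j => ?_⟩⟩, Prod.ext rfl (Prod.ext rfl (funext fun j => ?_))⟩⟩
    · simp only [fibMv, update_of_ne fun c : j = i => hy (c ▸ hj)]
      exact g.g1 j hj
    · by_cases c : j = i
      · simp only [fibMv, c, update_self]
        exact tl.top u.1 _ _ ((g.g3 a).2.2 i) ▸ ((tl.rt h i).2.en1 k hk).1
      · simp only [fibMv, update_of_ne c]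
        exact (g.g3 a).2.2 j
    · by_cases c : j = i
      · simp only [fibMv, fibNx, c, update_self, if_neg hy, e]
      · simp only [fibMv, fibNx, update_of_ne c]
  · have h := (hF u).1 hu
    have h0 : (fun _ => 0) ∈ bx (fibTau u) :=
      fib_bx.2 fun i => by have := (h.ti i).two; unfold fibTau; omega
    obtain ⟨hT, e, -⟩ := (tl.ch hF).c2 u hu _ h0
    rw [← e]
    generalize fibE R en u _ = T at hT
    induction T using WellFoundedGT.induction with | _ T ih =>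
    rcases eq_or_ne T univ with rfl | hT'
    · exact .refl
    obtain ⟨y, hy, hO⟩ : ∃ y, y ∉ T ∧ (y ∉ O → O ⊆ T) := by
      by_cases hO : O ⊆ T
      · obtain ⟨y, hy⟩ := not_forall.1 (mt eq_univ_iff_forall.2 hT')
        exact ⟨y, hy, fun _ => hO⟩
      · obtain ⟨y, a, b⟩ := not_subset.1 hO
        exact ⟨y, b, fun c => (c a).elim⟩
    have := ih _ (ssubset_insert hy) (fib_up hT (subset_insert _ _))
    rcases tl.step hT hy hO with e | ⟨k, hk, k', hk', g⟩
    · exact e ▸ this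
    · exact this.head ⟨(y, ⟨k, hk⟩, ⟨k', hk'⟩), g⟩
  · rw [univ_inter]; exact mem_insert_self _ _

theorem FibTl.few {S : Finset (Finset V)} {u : UU V x}
    (hS : ∀ T ∈ S, Dominating G T ∧ fibUn O R cl T = u) : S.card ≤ 2 * 3 ^ 10 := by
  have d : ∀ T ∈ S, DA G A T := fun T hT w _ => dom_iff.1 (hS T hT).1 w
  obtain ⟨B, h1, h2⟩ : ∃ B : Finset Pt, (∀ f : Pt, (∀ i, f i < 3) → f ∈ B) ∧ B.card = 3 ^ 10 :=
    ⟨bx fun _ => 3, fun _ => fib_bx.2, by rw [bx, Fintype.card_piFinset]; simp⟩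
  refine (card_le_card_of_injOn (t := P.powerset ×ˢ B)
    (fun T => (T ∩ P, fibPs O R cl ix T)) (fun T hT => ?_) fun T hT T' hT' e => ?_).trans ?_
  · refine mem_coe.2 (mem_product.2 ⟨mem_powerset.2 inter_subset_right, h1 _ fun i => ?_⟩)
    have := (tl.pos (d T hT) i).1
    have := (tl.own (d T hT) i).2.two
    unfold fibTau at *
    show fibPs O R cl ix T i < 3
    omega
  · have e' := (hS T hT).2.trans (hS T' hT').2.symm
    obtain ⟨e1, e2⟩ := Prod.mk.inj e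
    refine tl.su.fib_ext (congrArg Prod.fst e') (fun j => ?_) e1
    cases j with
    | inl j => rw [← (tl.pos (d T hT) j).2, ← (tl.pos (d T' hT') j).2, e', e2]
    | inr j => exact congrFun (congrArg (·.2.2) e') j
  · rw [card_product, card_powerset, h2]
    rcases tl.su.hP with rfl | ⟨h, rfl, -⟩ <;> simp

omit tl in
theorem Su.fb {c x : ℕ} {P O A : Finset V} {R : Kk ⊕ Jx x → Finset V} {v : Kk ⊕ Jx x → V}
    (su : Su G c x P O A R v) (hn : Fintype.card V ≤ 2 ^ x) :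
    ∃ (F : Finset (UU V x)) (un : Finset V → UU V x) (ps : Finset V → Pt) (τ : UU V x → Pt)
      (e : UU V x → Pt → Finset V) (a b : UU V x) (mx : UU V x → ℕ) (top : UU V x → Prop),
      Fb G P O (Cor G P O A) F un ps τ e a b (v (Sum.inl 0)) mx top := by
  classical
  obtain ⟨cl, en, ix, tl⟩ := su.fib_tl
  obtain ⟨F, hF⟩ : ∃ F : Finset (UU V x), ∀ u, u ∈ F ↔ FibOk G P O A R cl en ix u :=
    ⟨univ.filter (FibOk G P O A R cl en ix), by simp only [mem_filter, mem_univ, true_and, implies_true]⟩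
  obtain ⟨a, b, ab, qa, qb, hp⟩ := tl.path hF hn
  have hv := su.fib_sub _ (su.mem (.inl 0))
  refine ⟨F, fibUn O R cl, fibPs O R cl ix, fibTau, fibE R en, a, b, fun u => (u.2.1 0).sup card,
    fun u => u.2.1 0 = fibTp R v (.inl 0), tl.ch hF, fun T T' h => ?_, fun h hh => ?_,
    fun T T' h => congrArg Prod.fst h, fun T => ?_, fun u => ?_, ab, hp,
    ⟨fun i => (congrArg card (qa.2 i)).trans (tl.tp2 _),
      fun i => (congrArg card (qb.2 i)).trans (tl.tp2 _)⟩, fun T h => ?_, fun T hT => ?_,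
    fun T hT => ?_, hv, fun T hT ht y hy => ?_⟩
  · obtain ⟨i, h1, h2⟩ := tl.eg h
    exact fib_adj h1 h2
  · obtain ⟨h', rfl, hR⟩ := su.hP.resolve_left (ne_empty_of_mem hh)
    obtain rfl := mem_singleton.1 hh
    refine ⟨fun u hu i => ?_, fun T T' he => ?_⟩
    · have t := ((hF u).1 hu).ti i
      obtain ⟨s, hs⟩ := card_pos.1 (show 0 < (u.2.1 i).card by have := t.two; omega)
      have := (fib_la.1 (t.mem s hs).1).1
      rw [fibTau, ← (t.mem s hs).2, tl.top, tl.tp2]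
      rw [fibTp, (hR _).1, erase_singleton, mem_insert, mem_singleton, or_comm,
        ← subset_singleton_iff, ← (hR _).1]
      exact this
    · obtain ⟨i, h1, h2⟩ := tl.eg he
      refine ⟨v (.inl i), (hR _).2, Finset.ext fun z => ?_⟩
      rw [(hR _).1] at h1 h2
      by_cases e : z = v (.inl i)
      · have := mt (fun a : z ∈ T ↔ z ∈ T' => Finset.ext fun w => by
          simp only [mem_inter, mem_singleton]
          exact and_congr_left fun b => by rw [b, ← e]; exact a) h2.ne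
        simp only [mem_symmDiff, mem_singleton, e, not_true, and_false, true_and, false_or] at this ⊢
        exact (not_iff.1 this).symm
      · simpa [mem_symmDiff, e] using (Finset.ext_iff.1 h1 z).symm
  · have e : ∀ i, (T ∪ P) ∩ R i = T ∩ R i := fun i => by
      rw [union_inter_distrib_right, disjoint_iff_inter_eq_empty.1 (su.dP i), union_empty]
    simp only [fibUn, e, union_assoc, union_eq_right.2 su.fib_P]
  · exact tl.few fun T hT => ((@mem_filter _ _ (_) _ _).1 hT).imp_left mem_F.1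
  · rcases h with h | h
    exacts [(congrArg Prod.fst h).trans qa.1, (congrArg Prod.fst h).trans qb.1]
  · refine (em _).imp_right fun nt => ?_
    have d := (fib_cor.1 hT).2.1
    obtain ⟨o1, o2⟩ := tl.own d 0
    obtain ⟨s, hs, e⟩ := exists_mem_eq_sup _ ⟨_, o1⟩ card
    obtain ⟨T', h1, h2⟩ : ∃ T', Eg (Cor G P O A) (fibUn O R cl) (fibPs O R cl ix) T T' ∧
        T' ∩ R (.inl 0) = s := by
      by_cases c : s = T ∩ R (.inl 0)
      · obtain ⟨s', a1, a2⟩ := exists_mem_ne (show 1 < ((fibUn O R cl T).2.1 1).card by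
          have := (tl.own d 1).2.two; omega) (T ∩ R (.inl 1))
        obtain ⟨T', b1, -, b3⟩ := tl.swap' hT a1 a2
        exact ⟨T', b1, c ▸ b3 _ (by simp)⟩
      · exact (tl.swap' hT hs c).imp fun _ a => ⟨a.1, a.2.1⟩
    obtain ⟨z, z1, z2⟩ := exists_of_ssubset ((fib_la.1 (o2.mem s hs).1).1.ssubset_of_ne fun c =>
      nt ((o2.mem s hs).2.symm.trans (tl.top _ _ _ (c ▸ mem_insert_self _ _))))
    refine ⟨T', h1, z, su.fib_sub _ z1, fun c => z2 (h2 ▸ mem_inter.2 ⟨c, z1⟩), ?_⟩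
    refine e.trans_lt (lt_of_lt_of_le ?_ (le_sup (f := card)
      (tl.own (fib_da (fib_cor.1 h1.2.1).2.1 (subset_insert z T')) 0).1))
    rw [insert_inter_of_mem z1, h2, card_insert_of_notMem z2]
    exact Nat.lt_succ_self _
  · exact Finset.sup_le fun s hs => card_le_card
      ((fib_la.1 ((tl.own (fib_cor.1 hT).2.1 0).2.mem s hs).1).1.trans (su.fib_sub _))
  · have hy' : y ∉ R (.inl 0) := fun c => hy (su.fib_sub _ c)
    have h0 := su.mem (.inl 0)
    have h1 : T ∩ R (.inl 0) ∈ fibTp R v (.inl 0) := ht ▸ (tl.own (fib_cor.1 hT).2.1 0).1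
    have h2 : T ∆ {v (.inl 0)} ∩ R (.inl 0) = (T ∩ R (.inl 0)) ∆ {v (.inl 0)} := by
      ext z
      by_cases c : z = v (.inl 0) <;> simp [mem_symmDiff, c, h0]
    refine (tl.swap (i := 0) (fib_up hT (subset_insert _ _)) (Finset.ext fun z => ?_) ?_ ?_).1
    · simp only [mem_sdiff, mem_insert, mem_symmDiff, mem_singleton]
      refine and_congr_left fun c => ?_
      simp [show z ≠ v (.inl 0) from fun e => c (e ▸ h0)]
    · simp only [fibUn, insert_inter_of_notMem hy', tl.top _ _ _ h1, h2]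
      rcases mem_insert.1 h1 with e | e
      · rw [e, tog_mem h0]; exact mem_insert_of_mem (mem_singleton_self _)
      · rw [mem_singleton.1 e, tog_not (notMem_erase _ _), insert_erase h0]
        exact mem_insert_self _ _
    · rw [insert_inter_of_notMem hy', insert_inter_of_notMem hy', h2]
      exact (adj_tog (G := G) _ _).ne

end Pool.Agent.MP_e46b50_co.H93.Lg

namespace Pool.Agent.MP_e46b50_co.H93.Lg

open Finset

variable {V U : Type} [Fintype V] [DecidableEq V] {G : SimpleGraph V} {P O A : Finset V}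
  {F : Finset U} {un : Finset V → U} {ps : Finset V → Pt} {τ : U → Pt} {e : U → Pt → Finset V}
  {a b : U} {v₀ : V} {mx : U → ℕ} {top : U → Prop} {𝒜 : Finset (Finset V)}

theorem Eg.symm {β : Type} {C : Finset β} {un : β → U} {ps : β → Pt} {T T' : β}
    (h : Eg C un ps T T') : Eg C un ps T' T := ⟨h.2.1, h.1, h.2.2.1.symm, h.2.2.2.symm⟩

theorem gad_cor {T : Finset V} : T ∈ Cor G P O A ↔ P ⊆ T ∧ DA G A T ∧
    ∀ h, h ∉ A → (∃ p ∈ P, ca G h p) ∨ (Nb G O h ∩ T).Nonempty := by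
  simp only [Cor, mem_filter, mem_univ, true_and]

theorem gad_sub {T : Finset V} (h : T ∈ Cor G P O A) : P ⊆ T := (gad_cor.mp h).1

theorem gad_cor_up {T T' : Finset V} (h : T ∈ Cor G P O A) (hT : T ⊆ T') : T' ∈ Cor G P O A := by
  obtain ⟨h1, h2, h3⟩ := gad_cor.mp h
  refine gad_cor.mpr ⟨h1.trans hT, fun w hw => ?_, fun x hx => ?_⟩
  · obtain ⟨x, a1, a2⟩ := h2 w hw
    exact ⟨x, hT a1, a2⟩
  · exact (h3 x hx).imp_right fun h4 => h4.mono (inter_subset_inter_left hT)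

omit [Fintype V] in
theorem gad_mem {T X : Finset V} : X ∈ ctn 𝒜 P T ↔ X = T ∨ X ∈ 𝒜 ∧ X = T \ P := by
  simp only [ctn, mem_insert, mem_filter]

theorem gad_not (up : Upc G (Cor G P O A) 𝒜) {T : Finset V} (h : T ∈ Cor G P O A) : T ∉ 𝒜 :=
  fun h' => (mem_sdiff.mp (up.1 h')).2 h

theorem gad_dis (up : Upc G (Cor G P O A) 𝒜) {T T' : Finset V} (h : T ∈ Cor G P O A)
    (h' : T' ∈ Cor G P O A) (hne : T ≠ T') : Disjoint (ctn 𝒜 P T) (ctn 𝒜 P T') := by
  rw [disjoint_left]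
  intro X h1 h2
  rcases gad_mem.mp h1 with rfl | ⟨h3, h4⟩ <;> rcases gad_mem.mp h2 with h5 | ⟨h5, h6⟩
  · exact hne h5
  · exact gad_not up h h5
  · exact gad_not up h' (h5 ▸ h3)
  · apply hne
    rw [← sdiff_union_of_subset (gad_sub h), ← sdiff_union_of_subset (gad_sub h'), ← h4, ← h6]

omit [Fintype V] in
theorem gad_one {T : Finset V} (h : T \ P ∉ 𝒜) : ctn 𝒜 P T = {T} := by
  ext X
  rw [gad_mem, mem_singleton]
  exact ⟨fun h1 => h1.resolve_right fun h2 => h (h2.2 ▸ h2.1), Or.inl⟩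

omit [Fintype V] in
theorem gad_two {T : Finset V} {h : V} (h1 : T.erase h ∈ 𝒜) :
    ctn 𝒜 {h} T = {T} ∪ {T.erase h} := by
  ext X
  rw [gad_mem, mem_union, mem_singleton, mem_singleton, sdiff_singleton_eq_erase]
  exact or_congr_right ⟨And.right, fun h2 => ⟨h2 ▸ h1, h2⟩⟩

omit [Fintype V] in
theorem gad_seg {T : Finset V} {h : V} (hT : h ∈ T) (h1 : T.erase h ∈ 𝒜) :
    Seg (gam G) T (T.erase h) (ctn 𝒜 {h} T) := by
  have h2 := adj_erase (G := G) hT
  rw [gad_two h1]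
  exact (Seg.single _).join (Seg.single _) h2 (disjoint_singleton.mpr h2.ne)

/-- the low copy of `T` can be left towards the box neighbour `T'` -/
theorem gad_exit {h : V} (fb : Fb G {h} O (Cor G {h} O A) F un ps τ e a b v₀ mx top)
    (up : Upc G (Cor G {h} O A) 𝒜) {T T' : Finset V} (hE : Eg (Cor G {h} O A) un ps T T')
    (h1 : T.erase h ∈ 𝒜) : ∃ x, (gam G).Adj (T.erase h) x ∧ Seg (gam G) x T' (ctn 𝒜 {h} T') := by
  have m1 : h ∈ T := gad_sub hE.1 (mem_singleton_self h)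
  have m2 : h ∈ T' := gad_sub hE.2.1 (mem_singleton_self h)
  by_cases h2 : T'.erase h ∈ 𝒜
  · exact ⟨_, adj_both (fb.adj _ _ hE) m1 m2, Pth.rev (gad_seg m2 h2)⟩
  obtain ⟨w, a1, a2⟩ := (fb.tog h (mem_singleton_self h)).2 T T' hE
  by_cases hw : w ∈ T
  · refine ⟨T', ?_, ?_⟩
    · rw [a2, tog_mem hw]
      exact adj_slide m1 hw a1
    · rw [gad_one (by rwa [sdiff_singleton_eq_erase])]
      exact Seg.single _
  · rw [tog_not hw] at a2
    refine absurd (up.2 _ h1 _ (mem_sdiff.mpr ⟨mem_Fam.mpr ⟨fun v hv => absurd (mem_univ v) hv,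
      Dominating.up (erase_subset_erase h (a2 ▸ subset_insert w T))
        (mem_Fam.mp (mem_sdiff.mp (up.1 h1)).1).2⟩, fun hc => ?_⟩) ?_) h2
    · exact notMem_erase h T' (gad_sub hc (mem_singleton_self h))
    · rw [card_erase_of_mem m1, card_erase_of_mem m2, a2, card_insert_of_notMem hw]
      have := card_pos.mpr ⟨h, m1⟩
      omega

omit [Fintype V] [DecidableEq V] in
theorem gad_P (hP : P.card ≤ 1) : P = ∅ ∨ ∃ h, P = {h} :=
  (Nat.le_one_iff_eq_zero_or_eq_one.mp hP).imp card_eq_zero.mp card_eq_one.mp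

theorem Fb.cs (fb : Fb G P O (Cor G P O A) F un ps τ e a b v₀ mx top) (hP : P.card ≤ 1)
    (up : Upc G (Cor G P O A) 𝒜) : Cs (gam G) (Cor G P O A) un ps τ (ctn 𝒜 P) := by
  have h0 : P = ∅ → ∀ T ∈ Cor G P O A, ctn 𝒜 P T = {T} := fun h T hT =>
    gad_one (by rw [h, sdiff_empty]; exact gad_not up hT)
  refine ⟨fun T _ => gad_mem.mpr (Or.inl rfl), fun T T' hE => ⟨fb.adj _ _ hE, ?_⟩, fun T hT => ?_,
    fun T h T' h' => gad_dis up h h'⟩
  · have hA := fb.adj _ _ hE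
    have hd := gad_dis up hE.1 hE.2.1 hA.ne
    have h1 : ∀ X : Finset V, ctn 𝒜 P X = {X} → Seg (gam G) X X (ctn 𝒜 P X) := fun X h =>
      h ▸ Seg.single X
    rcases gad_P hP with h | ⟨h, rfl⟩
    · exact (h1 _ (h0 h _ hE.1)).join (h1 _ (h0 h _ hE.2.1)) hA hd
    by_cases h2 : T.erase h ∈ 𝒜
    · obtain ⟨x, a1, a2⟩ := gad_exit fb up hE h2
      exact (gad_seg (gad_sub hE.1 (mem_singleton_self h)) h2).join a2 a1 hd
    by_cases h3 : T'.erase h ∈ 𝒜
    · obtain ⟨x, a1, a2⟩ := gad_exit fb up hE.symm h3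
      exact Seg.join (Pth.rev a2) (Pth.rev (gad_seg (gad_sub hE.2.1 (mem_singleton_self h)) h3))
        a1.symm hd
    · rw [← sdiff_singleton_eq_erase] at h2 h3
      exact (h1 _ (gad_one h2)).join (h1 _ (gad_one h3)) hA hd
  · rcases P.eq_empty_or_nonempty with h | ⟨h, hh⟩
    · exact Or.inr (h0 h T hT)
    · exact Or.inl ((fb.tog h hh).1 _ (fb.ch.c1 T hT).1)

/-- passing through a box along one edge -/
theorem Fb.pass (fb : Fb G P O (Cor G P O A) F un ps τ e a b v₀ mx top) (hP : P.card ≤ 1)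
    (up : Upc G (Cor G P O A) 𝒜) {w T' : Finset V} (hw : w ∈ 𝒜)
    (h : Eg (Cor G P O A) un ps (w ∪ P) T') :
    Seg (gam G) w (w ∪ P) (ctn 𝒜 P (w ∪ P) ∪ ctn 𝒜 P T') := by
  have hA := fb.adj _ _ h
  have hd := gad_dis up h.1 h.2.1 hA.ne
  have h0 : w ∪ P ≠ w := fun h1 => gad_not up (h1 ▸ h.1) hw
  rcases gad_P hP with rfl | ⟨x, rfl⟩
  · exact absurd (union_empty w) h0
  have h1 : (w ∪ {x}).erase x = w := by
    rw [union_comm, ← insert_eq, erase_insert fun h2 => h0 (union_eq_left.mpr (by simpa using h2))]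
  have h2 : (w ∪ {x}).erase x ∈ 𝒜 := h1.symm ▸ hw
  obtain ⟨y, a1, a2⟩ := gad_exit fb up h h2
  rw [h1] at a1
  rw [gad_two h2, h1, disjoint_union_left] at hd
  rw [gad_two h2, h1, union_comm {w ∪ {x}}, union_right_comm]
  exact ((Seg.single w).join a2 a1 hd.2).join (Seg.single _) hA.symm
    (disjoint_union_left.mpr ⟨disjoint_singleton.mpr h0.symm, hd.1.symm⟩)

theorem gad_nb {β : Type} {C : Finset β} {un : β → U} {ps : β → Pt} {e : U → Pt → β}
    (ch : Ch C F un ps τ e) {T : β} (hT : T ∈ C) : ∃ T', Eg C un ps T T' := by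
  obtain ⟨h1, h2, -⟩ := ch.c1 T hT
  obtain ⟨a1, a2, a3⟩ := ch.c2 _ h1 (Function.update (ps T) 0 (if ps T 0 = 0 then 1 else 0)) (by
    refine Fintype.mem_piFinset.mpr fun i => ?_
    rcases eq_or_ne i 0 with rfl | hi
    · have := ch.two _ h1 0
      rw [Function.update_self, mem_range]
      split_ifs <;> omega
    · rw [Function.update_of_ne hi]
      exact Fintype.mem_piFinset.mp h2 i)
  refine ⟨_, hT, a1, a2.symm, 0, ?_, fun j hj => ?_⟩
  · rw [a3, Function.update_self]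
    split_ifs <;> omega
  · rw [a3, Function.update_of_ne hj]

theorem gad_up (fb : Fb G P O (Cor G P O A) F un ps τ e a b v₀ mx top)
    {ct : Finset V → Finset (Finset V)} (cs : Cs (gam G) (Cor G P O A) un ps τ ct) (k : ℕ) :
    ∀ w ∈ Cor G P O A, O.card < mx (un w) + k → ∃ (S : Finset (Finset V × Finset V)) (y : Finset V),
      Seg (gam G) w y (S.biUnion fun z => ct z.1 ∪ ct z.2) ∧ y ∈ Cor G P O A ∧ y ∪ O = w ∪ O ∧
      top (un y) ∧ S.card ≤ k ∧
      (∀ s ∈ S, Eg (Cor G P O A) un ps s.1 s.2 ∧ s.1 ∪ O = w ∪ O ∧ mx (un w) ≤ mx (un s.1)) ∧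
      ∀ s ∈ S, ∀ s' ∈ S, un s.1 = un s'.1 → s = s' := by
  induction k with
  | zero => exact fun w hw h => absurd (fb.mxle w hw) (not_le.mpr h)
  | succ k ih =>
    intro w hw hk
    rcases fb.climb w hw with h | ⟨T, hE, z, h1, h2, h3⟩
    · obtain ⟨T, hE⟩ := gad_nb fb.ch hw
      refine ⟨{(w, T)}, T, by rw [singleton_biUnion]; exact (cs.adj _ _ hE).2, hE.2.1,
        (fb.fib _ _ hE.2.2.1).symm, hE.2.2.1 ▸ h, by simp, fun s hs => ?_, fun s hs s' hs' _ => ?_⟩
      · rw [mem_singleton.mp hs]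
        exact ⟨hE, rfl, le_rfl⟩
      · rw [mem_singleton.mp hs, mem_singleton.mp hs']
    obtain ⟨S, y, a1, a2, a3, a4, a5, a6, a7⟩ :=
      ih _ (gad_cor_up hE.2.1 (subset_insert z T)) (by omega)
    have e1 : insert z T ∪ O = w ∪ O := by
      rw [insert_union, insert_eq_of_mem (mem_union_right _ h1), fb.fib _ _ hE.2.2.1]
    have n1 : ∀ s ∈ S, un w ≠ un s.1 := fun s hs h => by
      have := (a6 s hs).2.2
      rw [← h] at this
      omega
    have d1 : ∀ X ∈ Cor G P O A, un X = un w → ∀ s ∈ S, Disjoint (ct X) (ct s.1 ∪ ct s.2) :=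
      fun X hX h s hs => disjoint_union_right.mpr
        ⟨cs.dis _ hX _ (a6 s hs).1.1 fun h' => n1 s hs (by rw [← h, h']),
         cs.dis _ hX _ (a6 s hs).1.2.1 fun h' => n1 s hs (by rw [← h, h', (a6 s hs).1.2.2.1])⟩
    refine ⟨insert (w, T) S, y, ?_, a2, a3.trans e1, a4, (card_insert_le _ _).trans (by omega),
      fun s hs => ?_, fun s hs s' hs' h => ?_⟩
    · rw [biUnion_insert]
      refine (cs.adj _ _ hE).2.join a1 ?_ (disjoint_biUnion_right _ _ _ |>.mpr fun s hs =>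
        disjoint_union_left.mpr ⟨d1 _ hw rfl s hs, d1 _ hE.2.1 hE.2.2.1.symm s hs⟩)
      have := (adj_erase (G := G) (mem_insert_self z T)).symm
      rwa [erase_insert h2] at this
    · rcases mem_insert.mp hs with rfl | hs
      · exact ⟨hE, rfl, le_rfl⟩
      · exact ⟨(a6 s hs).1, (a6 s hs).2.1.trans e1, h3.le.trans (a6 s hs).2.2⟩
    · rcases mem_insert.mp hs with rfl | hs <;> rcases mem_insert.mp hs' with rfl | hs'
      exacts [rfl, absurd h (n1 _ hs'), absurd h.symm (n1 _ hs), a7 s hs s' hs' h]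

theorem Fb.up (fb : Fb G P O (Cor G P O A) F un ps τ e a b v₀ mx top) {ct : Finset V → Finset (Finset V)}
    (cs : Cs (gam G) (Cor G P O A) un ps τ ct) {w z : Finset V} (hw : w ∈ Cor G P O A)
    (hz : (gam G).Adj z w) :
    ∃ S y, Ru (gam G) ct z S y ∧ y ∈ Cor G P O A ∧ y ∪ O = w ∪ O ∧ top (un y) ∧
      S.card ≤ O.card + 1 ∧ (∀ s ∈ S, Eg (Cor G P O A) un ps s.1 s.2 ∧ s.1 ∪ O = w ∪ O) ∧
      ∀ s ∈ S, ∀ s' ∈ S, un s.1 = un s'.1 → s = s' := by
  obtain ⟨S, y, a1, a2, a3, a4, a5, a6, a7⟩ := gad_up fb cs (O.card + 1) w hw (by omega)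
  exact ⟨S, y, ⟨w, hz, a1⟩, a2, a3, a4, a5, fun s hs => ⟨(a6 s hs).1, (a6 s hs).2.1⟩, a7⟩

theorem bottom' {β : Type} [DecidableEq β] {Γ : SimpleGraph β} (g : β → Bool → β) (r : β → ℕ)
    (B : Finset β) (hg : ∀ x ∈ B, ∀ x' ∈ B, ∀ k k', g x k = g x' k' → x = x' ∧ k = k')
    (hr : ∀ x ∈ B, ∀ k, r x < r (g x k)) (hl : ∀ x ∈ B, ∀ k, Γ.Adj x (g x k)) :
    ∃ E : Finset (β × Bool), Cv Γ (E.val.map Prod.fst) B ∧ ∀ s ∈ E, s.1 ∈ B ∧ g s.1 s.2 ∉ B := by
  induction B using Finset.induction_on_max_value r with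
  | empty => exact ⟨∅, ⟨[], rfl, rfl⟩, by simp⟩
  | insert x B hx hmax ih =>
    have hm := mem_insert_self x B
    obtain ⟨E, h1, h2⟩ := ih
      (fun y hy y' hy' => hg y (mem_insert_of_mem hy) y' (mem_insert_of_mem hy'))
      (fun y hy => hr y (mem_insert_of_mem hy)) fun y hy => hl y (mem_insert_of_mem hy)
    have t1 : ∀ k, x ∈ insert x B ∧ g x k ∉ insert x B := fun k => ⟨hm, fun hh => by
      have := hr x hm k
      rcases mem_insert.mp hh with h | h
      · rw [h] at this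
        exact lt_irrefl _ this
      · exact absurd (hmax _ h) (not_le.mpr this)⟩
    have t2 : ∀ k, (x, k) ∉ E := fun k hh => hx (h2 _ hh).1
    have t3 : ∀ s ∈ E, g s.1 s.2 ≠ x → s.1 ∈ insert x B ∧ g s.1 s.2 ∉ insert x B := fun s hs h =>
      ⟨mem_insert_of_mem (h2 s hs).1, fun hh => (mem_insert.mp hh).elim h (h2 s hs).2⟩
    by_cases hE : ∃ s ∈ E, g s.1 s.2 = x
    · obtain ⟨s, a1, a2⟩ := hE
      refine ⟨cons (x, false) (E.erase s) fun h => t2 _ (mem_of_mem_erase h), ?_, fun t ht => ?_⟩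
      · rw [← Multiset.cons_erase (mem_def.mp a1), Multiset.map_cons] at h1
        rw [cons_val, Multiset.map_cons, erase_val]
        exact h1.ext (a2 ▸ hl _ (mem_insert_of_mem (h2 s a1).1) s.2) hx
      · rcases mem_cons.mp ht with rfl | ht
        · exact t1 false
        · obtain ⟨b1, b2⟩ := mem_erase.mp ht
          exact t3 t b2 fun h => b1 (Prod.ext_iff.mpr (hg _ (mem_insert_of_mem (h2 t b2).1) _
            (mem_insert_of_mem (h2 s a1).1) _ _ (h.trans a2.symm)))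
    · refine ⟨cons (x, false) (cons (x, true) E (t2 _)) (by simp [t2]), ?_, fun t ht => ?_⟩
      · rw [cons_val, cons_val, Multiset.map_cons, Multiset.map_cons]
        exact h1.new hx
      · simp only [mem_cons] at ht
        rcases ht with rfl | rfl | ht
        exacts [t1 false, t1 true, t3 t ht fun h => hE ⟨t, ht, h⟩]

theorem gad_fam {T : Finset V} (h : T ∈ Cor G P O A) : T ∈ Fam G univ := by
  rw [gad_cor] at h
  refine mem_Fam.2 ⟨fun v hv => absurd (mem_univ v) hv, dom_iff.2 fun w => ?_⟩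
  by_cases hw : w ∈ A
  · exact h.2.1 w hw
  rcases h.2.2 w hw with ⟨p, h1, h2⟩ | ⟨x, hx⟩
  · exact ⟨p, h.1 h1, h2⟩
  · simp only [Nb, mem_inter, mem_sdiff, mem_filter] at hx
    exact ⟨x, hx.2, hx.1.1.2⟩

omit [Fintype V] in
theorem gad_ins {T : Finset V} {z : V} (h : z ∉ T) : (gam G).Adj T (insert z T) := by
  have := (adj_erase (G := G) (mem_insert_self z T)).symm
  rwa [erase_insert h] at this

theorem gad_join {β : Type} [DecidableEq β] {Γ : SimpleGraph β} {C : Finset β} {un : β → U}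
    {ps : β → Pt} {ct : β → Finset β} (cs : Cs Γ C un ps τ ct) {x y z : β}
    {S S' : Finset (β × β)} (h : Ru Γ ct x S y) (h' : Ru Γ ct y S' z)
    (hS : ∀ s ∈ S, Eg C un ps s.1 s.2) (hS' : ∀ s ∈ S', Eg C un ps s.1 s.2)
    (hd : ∀ s ∈ S, ∀ s' ∈ S', un s.1 ≠ un s'.1) : Ru Γ ct x (S ∪ S') z := by
  obtain ⟨w, a1, a2⟩ := h
  obtain ⟨w', b1, b2⟩ := h'
  refine ⟨w, a1, ?_⟩
  rw [union_biUnion]
  refine a2.join b2 b1 ?_
  simp only [disjoint_biUnion_left, disjoint_biUnion_right]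
  intro s' hs' s hs
  simp only [disjoint_union_left, disjoint_union_right]
  obtain ⟨c1, c2, c3, -⟩ := hS s hs
  obtain ⟨d1, d2, d3, -⟩ := hS' s' hs'
  have := hd s hs s' hs'
  refine ⟨⟨cs.dis _ c1 _ d1 ?_, cs.dis _ c2 _ d1 ?_⟩, cs.dis _ c1 _ d2 ?_, cs.dis _ c2 _ d2 ?_⟩ <;>
    intro h <;> apply this
  · rw [h]
  · rw [c3, h]
  · rw [d3, h]
  · rw [c3, d3, h]

theorem gad_step (fb : Fb G P O (Cor G P O A) F un ps τ e a b v₀ mx top) (hP : P.card ≤ 1)
    (up : Upc G (Cor G P O A) 𝒜) (w : Finset V)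
    (hw : w ∈ Cor G P O A ∨ w ∈ 𝒜 ∧ w ∪ P ∈ Cor G P O A) :
    ∃ (z : Finset V × Finset V) (y : Finset V), Eg (Cor G P O A) un ps z.1 z.2 ∧ un z.1 = un w ∧
      y ∈ Cor G P O A ∧ un y = un w ∧ ∀ x, (gam G).Adj x w → Ru (gam G) (ctn 𝒜 P) x {z} y := by
  rcases hw with hw | ⟨hw, hw'⟩
  · obtain ⟨T, hT⟩ := gad_nb fb.ch hw
    refine ⟨(w, T), T, hT, rfl, hT.2.1, hT.2.2.1.symm, fun x hx => ⟨w, hx, ?_⟩⟩
    rw [singleton_biUnion]
    exact ((fb.cs hP up).adj _ _ hT).2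
  · obtain ⟨T, hT⟩ := gad_nb fb.ch hw'
    refine ⟨(w ∪ P, T), w ∪ P, hT, fb.unP w, hw', fb.unP w, fun x hx => ⟨w, hx, ?_⟩⟩
    rw [singleton_biUnion]
    exact fb.pass hP up hw hT

/-- arrival points of the tree -/
def gadA {β : Type} (ch : β → Bool → β) (ex : β → β) (s : β × Bool) : List Bool → β
  | [] => ch s.1 s.2
  | j :: l => ch (ex (gadA ch ex s l)) j

/-- the steps along a branch -/
def gadT {β : Type} [DecidableEq β] (sp : List Bool → β) : List Bool → Finset β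
  | [] => {sp []}
  | j :: l => gadT sp l ∪ {sp (j :: l)}

theorem gad_T {β : Type} [DecidableEq β] (sp : List Bool → β) (l : List Bool) :
    (gadT sp l).card ≤ l.length + 1 ∧ ∀ z ∈ gadT sp l, ∃ l', l'.length ≤ l.length ∧ z = sp l' := by
  induction l with
  | nil => exact ⟨le_rfl, fun z hz => ⟨[], le_rfl, mem_singleton.1 hz⟩⟩
  | cons j l ih =>
    refine ⟨(card_union_le _ _).trans (Nat.succ_le_succ ih.1), fun z hz => ?_⟩
    rcases mem_union.1 hz with h | h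
    · exact (ih.2 z h).imp fun l' h' => ⟨h'.1.trans (Nat.le_succ _), h'.2⟩
    · exact ⟨_, le_rfl, mem_singleton.1 h⟩

theorem gad_tree (fb : Fb G P O (Cor G P O A) F un ps τ e a b v₀ mx top) (hP : P.card ≤ 1)
    (up : Upc G (Cor G P O A) 𝒜) {r : ℕ} {lev : ℕ → Finset V → Prop}
    {γ : Finset V → ZMod 4} {ch : Finset V → Bool → Finset V}
    (hc : Hc G P O (Cor G P O A) un r lev γ ch) {E : Finset (Finset V × Bool)}
    (hE : ∀ s ∈ E, s.1 ∈ Fam G univ ∧ s.1 ∪ P ∉ Cor G P O A ∧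
      (ch s.1 s.2 ∈ Cor G P O A ∨ ch s.1 s.2 ∈ 𝒜 ∧ ch s.1 s.2 ∪ P ∈ Cor G P O A)) :
    ∃ (lf : Finset V × Bool → List Bool → Finset V)
      (sp : Finset V × Bool → List Bool → Finset V × Finset V),
      (∀ s ∈ E, ∀ l : List Bool, l.length ≤ r → lf s l ∈ Cor G P O A ∧ lev (l.length + 1) (lf s l) ∧
        γ (lf s l) = 0 ∧ Eg (Cor G P O A) un ps (sp s l).1 (sp s l).2 ∧
        un (sp s l).1 = un (lf s l) ∧ Ru (gam G) (ctn 𝒜 P) s.1 (gadT (sp s) l) (lf s l)) ∧
      ∀ s ∈ E, ∀ s' ∈ E, ∀ l l' : List Bool, l.length ≤ r → l'.length ≤ r →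
        un (lf s l) = un (lf s' l') → s = s' ∧ l = l' := by
  choose! st ex h1 h2 h3 h4 h5 using gad_step fb hP up
  have c1 : ∀ s ∈ E, ∀ l : List Bool, l.length ≤ r →
      (gadA ch ex s l ∈ Cor G P O A ∨ gadA ch ex s l ∈ 𝒜 ∧ gadA ch ex s l ∪ P ∈ Cor G P O A) ∧
        lev (l.length + 1) (ex (gadA ch ex s l)) ∧ γ (ex (gadA ch ex s l)) = 0 := by
    intro s hs l
    induction l with
    | nil =>
      intro _
      obtain ⟨a1, a2, a3⟩ := hE s hs
      obtain ⟨-, b1, b2⟩ := hc.ch1 0 r.zero_le _ a1 (hc.bad _ a1 a2) s.2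
      have := fb.fib _ _ (h4 _ a3)
      exact ⟨a3, hc.inv _ _ _ this.symm b1, (hc.ginv _ _ this).trans b2⟩
    | cons j l ih =>
      intro hl
      obtain ⟨a1, a2, -⟩ := ih (Nat.le_of_succ_le hl)
      obtain ⟨⟨z, -, b0⟩, b1, b2⟩ := hc.ch1 _ hl _ (gad_fam (h3 _ a1)) a2 j
      have a3 : gadA ch ex s (j :: l) ∈ Cor G P O A :=
        gad_cor_up (h3 _ a1) (by rw [gadA, b0]; exact subset_insert _ _)
      have := fb.fib _ _ (h4 _ (Or.inl a3))
      exact ⟨Or.inl a3, hc.inv _ _ _ this.symm b1, (hc.ginv _ _ this).trans b2⟩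
  have c2 : ∀ s ∈ E, ∀ s' ∈ E, ∀ l l' : List Bool, l.length ≤ r → l'.length ≤ r →
      un (ex (gadA ch ex s l)) = un (ex (gadA ch ex s' l')) → s = s' ∧ l = l' := by
    intro s hs s' hs' l
    obtain ⟨a1, a2, -⟩ := hE s hs
    obtain ⟨b1, b2, -⟩ := hE s' hs'
    induction l with
    | nil =>
      intro l' hl hl' h
      rw [h4 _ (c1 s hs _ hl).1, h4 _ (c1 s' hs' _ hl').1] at h
      cases l' with
      | nil =>
        exact ⟨Prod.ext_iff.2 (hc.ch2 0 hl 0 hl _ a1 _ b1 (hc.bad _ a1 a2) (hc.bad _ b1 b2) _ _ h),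
          rfl⟩
      | cons j' l' =>
        obtain ⟨d1, d2, -⟩ := c1 s' hs' l' (Nat.le_of_succ_le hl')
        have := (hc.ch2 0 hl _ hl' _ a1 _ (gad_fam (h3 _ d1)) (hc.bad _ a1 a2) d2 _ _ h).1
        exact absurd (gad_cor_up (this ▸ h3 _ d1) subset_union_left) a2
    | cons j l ih =>
      intro l' hl hl' h
      rw [h4 _ (c1 s hs _ hl).1, h4 _ (c1 s' hs' _ hl').1] at h
      obtain ⟨e1, e2, -⟩ := c1 s hs l (Nat.le_of_succ_le hl)
      cases l' with
      | nil =>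
        have := (hc.ch2 _ hl 0 hl' _ (gad_fam (h3 _ e1)) _ b1 e2 (hc.bad _ b1 b2) _ _ h).1
        exact absurd (gad_cor_up (this ▸ h3 _ e1) subset_union_left) b2
      | cons j' l' =>
        obtain ⟨d1, d2, -⟩ := c1 s' hs' l' (Nat.le_of_succ_le hl')
        obtain ⟨f1, rfl⟩ := hc.ch2 _ hl _ hl' _ (gad_fam (h3 _ e1)) _ (gad_fam (h3 _ d1)) e2 d2 _ _ h
        obtain ⟨f2, rfl⟩ := ih l' (Nat.le_of_succ_le hl) (Nat.le_of_succ_le hl') (congrArg un f1)
        exact ⟨f2, rfl⟩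
  refine ⟨fun s l => ex (gadA ch ex s l), fun s l => st (gadA ch ex s l), fun s hs l hl => ?_, c2⟩
  obtain ⟨a1, a2, a3⟩ := c1 s hs l hl
  refine ⟨h3 _ a1, a2, a3, h1 _ a1, (h2 _ a1).trans (h4 _ a1).symm, ?_⟩
  clear a2 a3
  induction l with
  | nil =>
    obtain ⟨b1, b2, -⟩ := hE s hs
    obtain ⟨⟨z, hz, b0⟩, -⟩ := hc.ch1 0 hl _ b1 (hc.bad _ b1 b2) s.2
    exact h5 _ a1 _ (by rw [gadA, b0]; exact gad_ins hz)
  | cons j l ih =>
    have hl' := Nat.le_of_succ_le hl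
    obtain ⟨e1, e2, -⟩ := c1 s hs l hl'
    obtain ⟨⟨z, hz, b0⟩, -⟩ := hc.ch1 _ hl _ (gad_fam (h3 _ e1)) e2 j
    refine gad_join (fb.cs hP up) (ih hl' e1) (h5 _ a1 _ (by rw [gadA, b0]; exact gad_ins hz))
      (fun z hz => ?_) (fun z hz => mem_singleton.1 hz ▸ h1 _ a1) fun z hz z' hz' h => ?_
    · obtain ⟨l', d1, rfl⟩ := (gad_T _ l).2 z hz
      exact h1 _ (c1 s hs l' (d1.trans hl')).1
    · obtain ⟨l', d1, rfl⟩ := (gad_T _ l).2 z hz
      have d2 := (c1 s hs l' (d1.trans hl')).1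
      rw [mem_singleton.1 hz', h2 _ a1, h2 _ d2, ← h4 _ a1, ← h4 _ d2] at h
      rw [(c2 s hs s hs _ _ (d1.trans hl') hl h).2] at d1
      exact Nat.not_succ_le_self _ d1

theorem gad_port (fb : Fb G P O (Cor G P O A) F un ps τ e a b v₀ mx top)
    {ct : Finset V → Finset (Finset V)} (cs : Cs (gam G) (Cor G P O A) un ps τ ct) {r : ℕ}
    {lev : ℕ → Finset V → Prop} {γ : Finset V → ZMod 4} {ch : Finset V → Bool → Finset V}
    (hc : Hc G P O (Cor G P O A) un r lev γ ch) (T : Finset V)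
    (hT : T ∈ Cor G P O A ∧ lev (r + 1) T ∧ γ T = 0) :
    ∃ (Z : Option Bool → Finset V) (S : Finset (Finset V × Finset V)) (y : Finset V)
      (tu p : Finset V × Finset V),
      (Ru (gam G) ct T S y ∧ (gam G).Adj y p.1 ∧ (gam G).Adj y tu.1 ∧ (gam G).Adj tu.2 p.2) ∧
      S.card ≤ O.card + 1 ∧ (∀ s ∈ S, Eg (Cor G P O A) un ps s.1 s.2 ∧ s.1 ∪ O = Z none) ∧
      (∀ s ∈ S, ∀ s' ∈ S, un s.1 = un s'.1 → s = s') ∧
      (Eg (Cor G P O A) un ps tu.1 tu.2 ∧ tu.1 ∪ O = Z (some true)) ∧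
      (Eg (Cor G P O A) un ps p.1 p.2 ∧ p.1 ∪ O = Z (some false)) ∧ Z.Injective ∧
      ∀ i, Z i ≠ univ ∧ (∀ X, X ∪ O = Z i → γ X ≠ 0) ∧
        ∃ c d, T \ O = ((Z i \ O).erase c).erase d := by
  obtain ⟨c, g, y, a1, a2, a3, a4, a5, a6, a7, a8, a9⟩ := hc.fin T hT.2.1 hT.2.2
  obtain ⟨S, X, b1, b2, b3, b4, b5, b6, b7⟩ := fb.up cs (gad_cor_up hT.1 (subset_insert c T))
    (gad_ins fun h => a1 (mem_union_left _ h))
  have hg : g ∉ insert c T ∪ O := by
    rw [insert_union, mem_insert, not_or]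
    exact ⟨a4.symm, a2⟩
  have hy : y ∉ insert c T ∪ O := by
    rw [insert_union, mem_insert, not_or]
    exact ⟨a5.symm, a3⟩
  have hX : ∀ z, z ∉ insert c T ∪ O → z ∉ X ∧ z ∉ O ∧ z ∉ symmDiff X {v₀} := by
    intro z hz
    rw [← b3, mem_union, not_or] at hz
    refine ⟨hz.1, hz.2, fun h => ?_⟩
    rcases mem_symmDiff.1 h with h | h
    · exact hz.1 h.1
    · exact hz.2 (mem_singleton.1 h.1 ▸ fb.hv)
  have hgy : g ∉ insert y (insert c T ∪ O) := fun h => (mem_insert.1 h).elim a6.ne hg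
  have hyg : y ∉ insert g (insert c T ∪ O) := fun h => (mem_insert.1 h).elim a6.ne' hy
  have k0 : T \ O = ((insert c T ∪ O) \ O).erase c := by
    rw [mem_union, not_or] at a1
    rw [union_sdiff_right, insert_sdiff_of_notMem _ a1.2, erase_insert fun h => a1.1 (mem_sdiff.1 h).1]
  have k1 : ∀ z, z ∉ insert c T ∪ O → T \ O = ((insert z (insert c T ∪ O) \ O).erase z).erase c := by
    intro z hz
    rw [insert_sdiff_of_notMem _ (hX z hz).2.1, erase_insert fun h => hz (mem_sdiff.1 h).1, k0]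
  refine ⟨fun o => o.elim (insert c T ∪ O) fun k => insert (cond k g y) (insert c T ∪ O), S, X,
    (insert g X, insert g (symmDiff X {v₀})), (insert y X, insert y (symmDiff X {v₀})),
    ⟨b1, gad_ins (hX y hy).1, gad_ins (hX g hg).1, ?_⟩, b5, b6, b7,
    ⟨fb.topE X b2 b4 g (hX g hg).2.1, by rw [insert_union, b3]; rfl⟩,
    ⟨fb.topE X b2 b4 y (hX y hy).2.1, by rw [insert_union, b3]; rfl⟩, ?_, ?_⟩
  · have := adj_slide (Z := insert g (insert y (symmDiff X {v₀})))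
      (mem_insert_of_mem (mem_insert_self _ _)) (mem_insert_self _ _) a6.symm
    rwa [erase_insert fun h => (mem_insert.1 h).elim a6.ne (hX g hg).2.2, insert_comm,
      erase_insert fun h => (mem_insert.1 h).elim a6.ne' (hX y hy).2.2] at this
  · rintro (_ | _ | _) (_ | _ | _) h <;> simp only [Option.elim, cond] at h
    exacts [rfl, absurd (h ▸ mem_insert_self _ _) hy, absurd (h ▸ mem_insert_self _ _) hg,
      absurd (h ▸ mem_insert_self _ _) hy, rfl, absurd (h ▸ mem_insert_self _ _) hyg,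
      absurd (h ▸ mem_insert_self _ _) hg, absurd (h ▸ mem_insert_self _ _) hgy, rfl]
  · rintro (_ | _ | _) <;> simp only [Option.elim, cond]
    · exact ⟨fun h => hg (h ▸ mem_univ _), fun Y h => hc.ginv _ _ h ▸ a7, c, c,
        by rw [erase_idem, k0]⟩
    · exact ⟨fun h => hgy (h ▸ mem_univ _),
        fun Y h => hc.ginv _ _ (h.trans (insert_union _ _ _).symm) ▸ a9, y, c, k1 y hy⟩
    · exact ⟨fun h => hyg (h ▸ mem_univ _),
        fun Y h => hc.ginv _ _ (h.trans (insert_union _ _ _).symm) ▸ a8, g, c, k1 g hg⟩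

theorem gad_hax {E : Finset (Finset V × Bool)} {x : ℕ} (hn : Fintype.card V ≤ 2 ^ x)
    (lf : Finset V × Bool → List Bool → Finset V) (Z : Finset V → Option Bool → Finset V)
    (h1 : ∀ s ∈ E, ∀ s' ∈ E, ∀ l l' : List Bool, l.length = O.card + 2 * x + 3 →
      l'.length = O.card + 2 * x + 3 → lf s l = lf s' l' → s = s' ∧ l = l')
    (h2 : ∀ s ∈ E, ∀ l : List Bool, l.length = O.card + 2 * x + 3 → ∀ i,
      ∃ c d, lf s l \ O = ((Z (lf s l) i \ O).erase c).erase d) :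
    ∃ t : Finset V × Bool → List Bool, (∀ s, (t s).length = O.card + 2 * x + 3) ∧
      ∀ s ∈ E, ∀ s' ∈ E, ∀ i j, Z (lf s (t s)) i = Z (lf s' (t s')) j → s = s' := by
  refine (it_deg (L := List.Vector Bool (O.card + 2 * x + 3))
    (fun z z' => z.1 ∈ E ∧ z'.1 ∈ E ∧ ∃ i j, Z (lf z.1 z.2.1) i = Z (lf z'.1 z'.2.1) j)
    (fun z z' ⟨a1, a2, i, j, a3⟩ => ⟨a2, a1, j, i, a3.symm⟩)
    (3 * (2 ^ x * (2 ^ x * 2 ^ O.card))) (fun z => ?_) ?_).elim fun t ht =>
      ⟨fun s => (t s).1, fun s => (t s).2, fun s hs s' hs' i j h =>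
        by_contra fun hne => ht s s' hne ⟨hs, hs', i, j, h⟩⟩
  · refine (Set.ncard_le_ncard_of_injOn (fun z' => lf z'.1 z'.2.1)
      (t := ↑((univ ×ˢ univ ×ˢ univ ×ˢ O.powerset).image
        fun q : Option Bool × V × V × Finset V =>
          ((Z (lf z.1 z.2.1) q.1 \ O).erase q.2.1).erase q.2.2.1 ∪ q.2.2.2)) ?_ ?_).trans ?_
    · rintro z' ⟨-, a2, i, j, a3⟩
      obtain ⟨c, d, a4⟩ := h2 _ a2 _ z'.2.2 j
      refine mem_coe.2 (mem_image.2 ⟨(i, c, d, lf z'.1 z'.2.1 ∩ O), ?_, ?_⟩)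
      · simp only [mem_product, mem_univ, true_and, mem_powerset, inter_subset_right]
      · simp only
        rw [a3, ← a4, sdiff_union_inter]
    · rintro z' ⟨-, a2, -⟩ z'' ⟨-, b2, -⟩ h
      obtain ⟨c1, c2⟩ := h1 _ a2 _ b2 _ _ z'.2.2 z''.2.2 h
      exact Prod.ext c1 (Subtype.ext c2)
    · rw [Set.ncard_coe_finset]
      refine card_image_le.trans ?_
      simp only [card_product, card_univ, card_powerset, Fintype.card_option, Fintype.card_bool]
      gcongr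
  · rw [card_vector, Fintype.card_bool, pow_add, pow_add, two_mul x, pow_add]
    have : 0 < 2 ^ x * (2 ^ x * 2 ^ O.card) := by positivity
    have h : 2 ^ O.card * (2 ^ x * 2 ^ x) = 2 ^ x * (2 ^ x * 2 ^ O.card) := by ring
    omega

theorem gadgets (fb : Fb G P O (Cor G P O A) F un ps τ e a b v₀ mx top) (hP : P.card ≤ 1)
    (hPO : P ⊆ O) {x : ℕ} (hn : Fintype.card V ≤ 2 ^ x) {lev : ℕ → Finset V → Prop}
    {γ : Finset V → ZMod 4} {ch : Finset V → Bool → Finset V}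
    (hc : Hc G P O (Cor G P O A) un (O.card + 2 * x + 3) lev γ ch)
    (up : Upc G (Cor G P O A) 𝒜) :
    ∃ (B : Finset (Finset V)) (E : Finset (Finset V × Bool))
      (rt : Finset V × Bool → Finset (Finset V × Finset V)) (y : Finset V × Bool → Finset V)
      (tu p : Finset V × Bool → Finset V × Finset V),
      B ∪ (Cor G P O A).biUnion (ctn 𝒜 P) = 𝒜 ∪ Cor G P O A ∧
      (∀ T ∈ Cor G P O A, Disjoint B (ctn 𝒜 P T)) ∧ Cv (gam G) (E.val.map Prod.fst) B ∧
      E.card ≤ 2 * 𝒜.card ∧ (∀ s ∈ E, (rt s).card ≤ 2 * O.card + 2 * x + 5) ∧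
      Ga (gam G) (Cor G P O A) un ps (ctn 𝒜 P) a b E Prod.fst rt y tu p := by
  classical
  have cs := fb.cs hP up
  have hB : ∀ X ∈ 𝒜.filter (· ∪ P ∉ Cor G P O A), X ∈ Fam G univ ∧ X ∪ P ∉ Cor G P O A :=
    fun X hX => ⟨(mem_sdiff.1 (up.1 (mem_filter.1 hX).1)).1, (mem_filter.1 hX).2⟩
  have hch := fun X hX k => (hc.ch1 0 (Nat.zero_le _) X (hB X hX).1 (hc.bad X (hB X hX).1
    (hB X hX).2) k).1
  obtain ⟨E, cv, hE⟩ := bottom' (Γ := gam G) ch card (𝒜.filter (· ∪ P ∉ Cor G P O A))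
    (fun X hX X' hX' k k' h => hc.ch2 0 (Nat.zero_le _) 0 (Nat.zero_le _) X (hB X hX).1 X'
      (hB X' hX').1 (hc.bad X (hB X hX).1 (hB X hX).2) (hc.bad X' (hB X' hX').1 (hB X' hX').2)
      k k' (congrArg un h))
    (fun X hX k => by
      obtain ⟨z, hz, h⟩ := hch X hX k
      rw [h, card_insert_of_notMem hz]
      exact Nat.lt_succ_self _)
    fun X hX k => by
      obtain ⟨z, hz, h⟩ := hch X hX k
      exact h ▸ gad_ins hz
  obtain ⟨lf, sp, t1, t2⟩ := gad_tree fb hP up hc (E := E) fun s hs => by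
    obtain ⟨a1, a2⟩ := hE s hs
    obtain ⟨a3, a4⟩ := hB _ a1
    refine ⟨a3, a4, or_iff_not_imp_left.2 fun h => ?_⟩
    obtain ⟨z, hz, h'⟩ := hch _ a1 s.2
    have a5 : ch s.1 s.2 ∈ 𝒜 := up.2 _ (mem_filter.1 a1).1 _ (mem_sdiff.2 ⟨h' ▸ mem_Fam.2
      ⟨fun v hv => absurd (mem_univ v) hv, (mem_Fam.1 a3).2.up (subset_insert _ _)⟩, h⟩)
      (by rw [h', card_insert_of_notMem hz]; exact Nat.lt_succ_self _)
    exact ⟨a5, by_contra fun h'' => a2 (mem_filter.2 ⟨a5, h''⟩)⟩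
  choose! Z S y tu p p1 p2 p3 p4 p5 p6 p7 p8 using gad_port fb cs hc
  have hl : ∀ s ∈ E, ∀ l : List Bool, l.length = O.card + 2 * x + 3 → lf s l ∈ Cor G P O A ∧
      lev (O.card + 2 * x + 3 + 1) (lf s l) ∧ γ (lf s l) = 0 := fun s hs l h =>
    ⟨(t1 s hs l h.le).1, h ▸ (t1 s hs l h.le).2.1, (t1 s hs l h.le).2.2.1⟩
  obtain ⟨t, t3, t4⟩ := gad_hax hn lf Z
    (fun s hs s' hs' l l' h h' h'' => t2 s hs s' hs' l l' h.le h'.le (congrArg un h''))
    fun s hs l h i => (p8 _ (hl s hs l h) i).2.2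
  have hL := fun s hs => hl s hs (t s) (t3 s)
  have q1 : ∀ s ∈ E, ∀ z ∈ gadT (sp s) (t s), Eg (Cor G P O A) un ps z.1 z.2 ∧ z.1 ∪ O ≠ univ ∧
      γ z.1 = 0 ∧ ∃ l : List Bool, l.length ≤ O.card + 2 * x + 3 ∧ z = sp s l ∧
        un z.1 = un (lf s l) := by
    intro s hs z hz
    obtain ⟨l, a1, rfl⟩ := (gad_T _ _).2 z hz
    rw [t3] at a1
    obtain ⟨-, a2, a3, a4, a5, -⟩ := t1 s hs l a1
    have := fb.fib _ _ a5
    exact ⟨a4, this ▸ hc.ne _ _ a2, (hc.ginv _ _ this).trans a3, l, a1, rfl, a5⟩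
  have q2 : ∀ s ∈ E, ∀ z ∈ gadT (sp s) (t s), ∀ s' ∈ E, ∀ X i, X ∪ O = Z (lf s' (t s')) i →
      un z.1 ≠ un X := fun s hs z hz s' hs' X i h h' =>
    (p8 _ (hL s' hs') i).2.1 _ ((fb.fib _ _ h').trans h) (q1 s hs z hz).2.2.1
  have q3 : ∀ s ∈ E, ∀ s' ∈ E, ∀ X X' i j, X ∪ O = Z (lf s (t s)) i →
      X' ∪ O = Z (lf s' (t s')) j → un X = un X' → s = s' ∧ i = j := by
    intro s hs s' hs' X X' i j h h' h''
    have := h.symm.trans ((fb.fib _ _ h'').trans h')
    obtain rfl := t4 s hs s' hs' i j this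
    exact ⟨rfl, p7 _ (hL s hs) this⟩
  have q4 : ∀ X, X ∪ O ≠ univ → un X ≠ a ∧ un X ≠ b := fun X h =>
    ⟨fun h' => h (fb.full X (Or.inl h')), fun h' => h (fb.full X (Or.inr h'))⟩
  refine ⟨_, E, fun s => gadT (sp s) (t s) ∪ S (lf s (t s)), fun s => y (lf s (t s)),
    fun s => tu (lf s (t s)), fun s => p (lf s (t s)), ?_, fun T hT => ?_, cv, ?_, fun s hs => ?_,
    fun s hs => ⟨?_, (p1 _ (hL s hs)).2⟩, fun s hs z hz => ?_,
    fun s hs => ⟨(p5 _ (hL s hs)).1, q4 _ ((p5 _ (hL s hs)).2 ▸ (p8 _ (hL s hs) _).1)⟩,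
    fun s hs => ⟨(p6 _ (hL s hs)).1, q4 _ ((p6 _ (hL s hs)).2 ▸ (p8 _ (hL s hs) _).1)⟩,
    fun s hs s' hs' z hz z' hz' h => ?_, fun s hs s' hs' z hz h => ?_,
    fun s hs s' hs' z hz h => ?_,
    fun s hs s' hs' h => (q3 s hs s' hs' _ _ _ _ (p5 _ (hL s hs)).2 (p5 _ (hL s' hs')).2 h).1,
    fun s hs s' hs' h =>
      absurd (q3 s hs s' hs' _ _ _ _ (p5 _ (hL s hs)).2 (p6 _ (hL s' hs')).2 h).2 (by decide),
    fun s hs s' hs' h => (q3 s hs s' hs' _ _ _ _ (p6 _ (hL s hs)).2 (p6 _ (hL s' hs')).2 h).1⟩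
  · ext X
    simp only [mem_union, mem_filter, mem_biUnion, ctn, mem_insert]
    refine ⟨?_, fun h => ?_⟩
    · rintro (h | ⟨T, hT, rfl | h⟩)
      exacts [Or.inl h.1, Or.inr hT, Or.inl h.1]
    · by_cases h1 : X ∈ Cor G P O A
      · exact Or.inr ⟨X, h1, Or.inl rfl⟩
      have h2 := h.resolve_right h1
      refine or_iff_not_imp_left.2 fun h3 => ?_
      have h4 : X ∪ P ∈ Cor G P O A := by_contra fun h4 => h3 ⟨h2, h4⟩
      refine ⟨_, h4, Or.inr ⟨h2, ?_⟩⟩
      rw [union_sdiff_right, eq_comm, Finset.sdiff_eq_self_iff_disjoint, disjoint_left]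
      intro u hu hu'
      rw [union_eq_left.2 fun v hv => card_le_one.1 hP u hu' v hv ▸ hu] at h4
      exact h1 h4
  · refine disjoint_left.2 fun X hX h => (mem_filter.1 hX).2 ?_
    simp only [ctn, mem_insert, mem_filter] at h
    rcases h with rfl | ⟨-, rfl⟩
    · exact gad_cor_up hT subset_union_left
    · rw [sdiff_union_self_eq_union]
      exact gad_cor_up hT subset_union_left
  · refine (card_le_card (t := 𝒜 ×ˢ univ) fun s hs =>
      mem_product.2 ⟨(mem_filter.1 (hE s hs).1).1, mem_univ _⟩).trans ?_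
    rw [card_product, card_univ, Fintype.card_bool, mul_comm]
  · have h1 := (gad_T (sp s) (t s)).1
    have h2 := p2 _ (hL s hs)
    rw [t3] at h1
    exact (card_union_le _ _).trans (by omega)
  · exact gad_join cs (t1 s hs _ (t3 s).le).2.2.2.2.2 (p1 _ (hL s hs)).1
      (fun z hz => (q1 s hs z hz).1) (fun z hz => (p3 _ (hL s hs) z hz).1)
      fun z hz z' hz' => q2 s hs z hz s hs _ _ (p3 _ (hL s hs) z' hz').2
  · rcases mem_union.1 hz with h | h
    · exact ⟨(q1 s hs z h).1, q4 _ (q1 s hs z h).2.1⟩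
    · exact ⟨(p3 _ (hL s hs) z h).1, q4 _ ((p3 _ (hL s hs) z h).2 ▸ (p8 _ (hL s hs) _).1)⟩
  · rcases mem_union.1 hz with h1 | h1 <;> rcases mem_union.1 hz' with h2 | h2
    · obtain ⟨-, -, -, l, a1, rfl, a2⟩ := q1 s hs z h1
      obtain ⟨-, -, -, l', b1, rfl, b2⟩ := q1 s' hs' z' h2
      obtain ⟨rfl, rfl⟩ := t2 s hs s' hs' l l' a1 b1 (a2.symm.trans (h.trans b2))
      exact ⟨rfl, rfl⟩
    · exact absurd h (q2 s hs z h1 s' hs' _ _ (p3 _ (hL s' hs') z' h2).2)
    · exact absurd h.symm (q2 s' hs' z' h2 s hs _ _ (p3 _ (hL s hs) z h1).2)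
    · obtain rfl := (q3 s hs s' hs' _ _ _ _ (p3 _ (hL s hs) z h1).2 (p3 _ (hL s' hs') z' h2).2 h).1
      exact ⟨rfl, p4 _ (hL s hs) z h1 z' h2 h⟩
  · rcases mem_union.1 hz with h1 | h1
    · exact q2 s hs z h1 s' hs' _ _ (p5 _ (hL s' hs')).2 h
    · cases (q3 s hs s' hs' _ _ _ _ (p3 _ (hL s hs) z h1).2 (p5 _ (hL s' hs')).2 h).2
  · rcases mem_union.1 hz with h1 | h1
    · exact q2 s hs z h1 s' hs' _ _ (p6 _ (hL s' hs')).2 h
    · cases (q3 s hs s' hs' _ _ _ _ (p3 _ (hL s hs) z h1).2 (p6 _ (hL s' hs')).2 h).2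

end Pool.Agent.MP_e46b50_co.H93.Lg

namespace Pool.Agent.MP_e46b50_co.H93.Lg

open Finset

theorem big_mem {V : Type} [Fintype V] [DecidableEq V] {G : SimpleGraph V} {P O A T : Finset V}
    (h : T ∈ Cor G P O A) : P ⊆ T ∧ DA G A T ∧
      ∀ h, h ∉ A → (∃ p ∈ P, ca G h p) ∨ (Nb G O h ∩ T).Nonempty := by
  simpa only [Cor, mem_filter, mem_univ, true_and] using h

theorem big_sub {V : Type} [Fintype V] [DecidableEq V] {G : SimpleGraph V} {P O A : Finset V} :
    Cor G P O A ⊆ Fam G univ := fun T hT => by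
  obtain ⟨h1, h2, h3⟩ := big_mem hT
  refine mem_F.2 (dom_iff.2 fun w => ?_)
  by_cases hw : w ∈ A
  · exact h2 w hw
  · rcases h3 w hw with ⟨p, hp, h⟩ | ⟨z, hz⟩
    · exact ⟨p, h1 hp, h⟩
    · simp only [Nb, mem_inter, mem_sdiff, mem_filter] at hz
      exact ⟨z, hz.2, hz.1.1.2⟩

theorem Su.long {V : Type} [Fintype V] [DecidableEq V] {G : SimpleGraph V} {x : ℕ}
    {P O A : Finset V} {R : Kk ⊕ Jx x → Finset V} {v : Kk ⊕ Jx x → V}
    (su : Su G (10 ^ 9) x P O A R v) (hn : Fintype.card V ≤ 2 ^ x) (hG : ∀ u, ∃ w, G.Adj u w)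
    {l : ℕ} (h1 : l ≤ (Fam G univ).card)
    (h2 : 2 * Fintype.card V * ((Fam G univ).card - l) < (Fam G univ).card) :
    ∃ a b, (gam G).Adj b a ∧ Pth (gam G) (Fam G univ) a b l := by
  classical
  obtain ⟨F, un, ps, τ, e, a, b, mx, top, fb⟩ := su.fb hn
  obtain ⟨lev, γ, ch, hc⟩ := su.hc hn un fb.few
  have hP : P.card ≤ 1 := by
    rcases su.hP with h | ⟨h, h', -⟩
    · rw [h]; exact Nat.zero_le _
    · rw [h']; exact le_rfl
  have hPO : P ⊆ O := su.hO ▸ subset_union_left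
  have hs : Cor G P O A ⊆ Fam G univ := big_sub
  have key : ∀ m ≤ (Fam G univ \ Cor G P O A).card, ∀ k,
      (k = 0 ∨ 2 * m * (2 * O.card + 2 * x + 5 + 2) + m + k + 2 ≤ F.card) →
      ∀ j, j + 2 * k = m + (Cor G P O A).card →
        ∃ a b, (gam G).Adj b a ∧ Pth (gam G) (Fam G univ) a b j := by
    intro m hm k hk j hj
    obtain ⟨𝒜, a1, a2, a3⟩ := top_part card _ m hm
    have up : Upc G (Cor G P O A) 𝒜 := ⟨a1, a3⟩
    obtain ⟨B, E, rt, y, tu, p, g1, g2, g3, g4, g5, g6⟩ := gadgets fb hP hPO hn hc up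
    obtain ⟨u, w, S, s1, s2, s3, s4⟩ := lengths fb.ch (fb.cs hP up) fb.ab fb.path g6 g3 g2 g5
      (𝒜.image un) (fun T hT h => by
        have : 𝒜.filter (fun X => X = T \ P) = ∅ := filter_eq_empty_iff.2 fun X hX e =>
          h (mem_image.2 ⟨X, hX, by
            rw [← fb.unP, e, sdiff_union_of_subset (big_mem hT).1]⟩)
        rw [ctn, ← insert_empty_eq]
        congr 1) k (hk.imp_right fun h => le_trans (by
        have := Nat.mul_le_mul_right (2 * O.card + 2 * x + 5 + 2) (a2 ▸ g4)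
        have := card_image_le (s := 𝒜) (f := un)
        omega) h)
    rw [g1] at s3 s4
    rw [card_union_of_disjoint (disjoint_of_subset_left a1 sdiff_disjoint)] at s4
    rw [show j = S.card by omega]
    exact ⟨u, w, s1, Pth.mono s2 (s3.trans (union_subset (a1.trans sdiff_subset) hs))⟩
  have c1 := card_sdiff_add_card_eq_card hs
  by_cases hl : (Cor G P O A).card ≤ l
  · exact key (l - (Cor G P O A).card) (by omega) 0 (Or.inl rfl) l (by omega)
  obtain ⟨d, hd⟩ : ∃ d, (Cor G P O A).card = l + d := Nat.exists_eq_add_of_le (by omega)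
  have c2 := fb.ch.card_le
  have c3 := su.big
  have c4 := Nat.mul_le_mul_right d c3
  have c5 : O.card + x + 1 ≤ (O.card + x + 1) * d := Nat.le_mul_of_pos_right _ (by omega)
  have c6 : d ≤ (O.card + x + 1) * d := Nat.le_mul_of_pos_left _ (by omega)
  have c7 : Fintype.card V * d ≤ Fintype.card V * ((Fam G univ).card - l) :=
    Nat.mul_le_mul_left _ (by omega)
  have c8 : (Fam G univ).card - l ≤ Fintype.card V * ((Fam G univ).card - l) :=
    Nat.le_mul_of_pos_left _ (by omega)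
  rw [mul_assoc] at c4 h2
  have c9 : 20 * ((O.card + x + 1) * d) ≤ F.card := by omega
  rcases Nat.even_or_odd' d with ⟨k, hk | hk⟩
  · exact key 0 (Nat.zero_le _) k (Or.inr (by omega)) l (by omega)
  by_cases h0 : 1 ≤ (Fam G univ \ Cor G P O A).card
  · exact key 1 h0 (k + 1) (Or.inr (by omega)) l (by omega)
  obtain ⟨u, w, S, s1, s2, s3, s4⟩ := lengths_odd fb.ch fb.adj fb.ab fb.path fb.bpa.1 fb.bpa.2
    (by rw [show (Cor G P O A).card = (Fam G univ).card by omega]; exact brouwer) k (by omega)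
  rw [show l = S.card by omega]
  exact ⟨u, w, s1, Pth.mono s2 (s3.trans hs)⟩

theorem big_cyc {V : Type} [Fintype V] [DecidableEq V] {G : SimpleGraph V} {l : ℕ} (h1 : 3 ≤ l)
    (h : ∃ a b, (gam G).Adj b a ∧ Pth (gam G) (Fam G univ) a b l) :
    ∃ D, ∃ c : (tars G).Walk D D, c.IsCycle ∧ c.length = l := by
  obtain ⟨a, b, hab, p, hp1, hp2, hp3⟩ := h
  have hd : ∀ y ∈ p.support, Dominating G y := fun y hy => (mem_Fam.1 (hp2 y hy)).2
  obtain ⟨q, hq⟩ := lift_walk p (hd a p.start_mem_support) (hd b p.end_mem_support) hd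
  have hl : q.length = p.length := by simpa using congrArg List.length hq
  have hqp : q.IsPath := by
    rw [SimpleGraph.Walk.isPath_def]
    exact List.Nodup.of_map Subtype.val (hq ▸ hp1.support_nodup)
  have hadj : (tars G).Adj ⟨b, hd b p.end_mem_support⟩ ⟨a, hd a p.start_mem_support⟩ :=
    ⟨fun he => hab.1 (congrArg Subtype.val he), hab.2⟩
  exact ⟨_, .cons hadj q, cycle_of q hqp (by omega) hadj, by
    simp only [SimpleGraph.Walk.length_cons]; omega⟩

theorem big_core : ∃ n₀ : ℕ, ∀ (V : Type) [Fintype V] [DecidableEq V] (G : SimpleGraph V),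
    (∀ u, ∃ w, G.Adj u w) → n₀ ≤ Fintype.card V → ∀ l, 3 ≤ l →
      l ≤ Nat.card {D : Finset V // Dominating G D} →
      ∃ D, ∃ p : (tars G).Walk D D, p.IsCycle ∧ p.length = l := by
  obtain ⟨n₁, h⟩ := exists_su (10 ^ 9)
  refine ⟨max n₁ (10 ^ 9 * 60 ^ 3), fun V _ _ G hG hn l l1 l2 => ?_⟩
  obtain ⟨d, d1, d2, d3, -⟩ := H59.choose_d _ (le_of_max_le_right hn)
  by_cases hl : l * 2 ^ d + 4 * Nat.card {D : Finset V // Dominating G D} ≤
      Nat.card {D : Finset V // Dominating G D} * 2 ^ d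
  · exact H59.core hG d1 d2 d3 l1 hl
  have hc : Nat.card {D : Finset V // Dominating G D} = (Fam G univ).card := by
    classical
    rw [Nat.card_eq_fintype_card, Fintype.card_subtype]
    congr 1
    ext X
    simp only [mem_filter, mem_univ, true_and, mem_Fam, not_true_eq_false, IsEmpty.forall_iff, implies_true]
  rw [hc] at hl l2
  obtain ⟨P, O, A, R, v, su⟩ := h V G hG (le_of_max_le_left hn)
    (Kk ⊕ Jx (Nat.clog 2 (Fintype.card V))) (by
      simp only [Fintype.card_sum, Fintype.card_option, Fintype.card_prod, Fintype.card_fin]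
      omega)
  refine big_cyc l1 (su.long (Nat.le_pow_clog (by norm_num) _) hG l2 ?_)
  obtain ⟨r, hr⟩ := Nat.exists_eq_add_of_le l2
  have := Nat.mul_le_mul_left r (show 8 * Fintype.card V ≤ 2 ^ d by omega)
  rw [hr, add_mul] at hl
  rw [hr, Nat.add_sub_cancel_left]
  have e : r * (8 * Fintype.card V) = 4 * (2 * Fintype.card V * r) := by ring
  omega

theorem large : ∃ n₀ : ℕ, ∀ (V : Type) [Fintype V] [DecidableEq V] (G : SimpleGraph V),
    n₀ ≤ G.support.ncard → ∀ l, 3 ≤ l → l ≤ Nat.card {D : Finset V // Dominating G D} →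
      ∃ D, ∃ p : (tars G).Walk D D, p.IsCycle ∧ p.length = l := by
  obtain ⟨n₀, h⟩ := big_core
  refine ⟨n₀, fun V _ _ G hn l l1 l2 => ?_⟩
  classical
  obtain ⟨D, c, c1, c2⟩ := h G.support (G.induce G.support)
    (fun v => let ⟨w, hw⟩ := v.2; ⟨⟨w, v.1, hw.symm⟩, hw⟩)
    (by rwa [← Nat.card_eq_fintype_card, Nat.card_coe_set_eq]) l l1
    (l2.trans H59.card_le_induce)
  exact ⟨_, c.map H59.extHom,
    c1.map fun X Y e => Subtype.ext (H59.ext_inj (congrArg Subtype.val e)),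
    by rw [SimpleGraph.Walk.length_map, c2]⟩

end Pool.Agent.MP_e46b50_co.H93.Lg
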