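import Pool.Agent.MP_e46b50_co.Defs

-- part MP_e46b50_co.Path
section

/-! Paths with a prescribed number of vertices, and sets of lengths with gaps at most two. -/

set_option autoImplicit false

namespace Pool.Agent.MP_e46b50_co

/-- `P` holds at `lo`, and at `k` or `k + 1` for all `k` between `lo` and `hi`. -/
def Dn (P : ℕ → Prop) (lo hi : ℕ) : Prop :=
  lo ≤ hi ∧ P lo ∧ ∀ k, lo ≤ k → k ≤ hi → ∃ j, k ≤ j ∧ j ≤ k + 1 ∧ j ≤ hi ∧ P j

theorem Dn.single {P : ℕ → Prop} {a : ℕ} (h : P a) : Dn P a a :=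
  ⟨le_rfl, h, fun k h1 h2 => ⟨a, h2, by omega, le_rfl, h⟩⟩

theorem Dn.mono {P Q : ℕ → Prop} {a b : ℕ} (h : Dn P a b) (hPQ : ∀ j, P j → Q j) : Dn Q a b :=
  ⟨h.1, hPQ _ h.2.1, fun k h1 h2 => by
    obtain ⟨j, h3, h4, h5, h6⟩ := h.2.2 k h1 h2
    exact ⟨j, h3, h4, h5, hPQ _ h6⟩⟩

theorem Dn.top {P : ℕ → Prop} {a b : ℕ} (h : Dn P a b) : P b := by
  obtain ⟨j, h3, -, h5, h6⟩ := h.2.2 b h.1 le_rfl
  rwa [show b = j by omega]

theorem Dn.glue {P : ℕ → Prop} {a b c d : ℕ} (h : Dn P a b) (h' : Dn P c d) (h1 : c ≤ b + 2)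
    (h2 : b ≤ d) : Dn P a d := by
  refine ⟨h.1.trans h2, h.2.1, fun k h3 h4 => ?_⟩
  by_cases hk : k ≤ b
  · obtain ⟨j, h5, h6, h7, h8⟩ := h.2.2 k h3 hk
    exact ⟨j, h5, h6, h7.trans h2, h8⟩
  · by_cases hc : c ≤ k
    · exact h'.2.2 k hc h4
    · exact ⟨c, by omega, by omega, h'.1, h'.2.1⟩

theorem Dn.seq {P T : ℕ → Prop} {a b c d : ℕ} (h : Dn P a b)
    (h' : ∀ i, P i → Dn (fun j => T (i + j)) c d) : Dn T (a + c) (b + d) := by
  have hcd : c ≤ d := (h' a h.2.1).1
  refine ⟨Nat.add_le_add h.1 hcd, (h' a h.2.1).2.1, fun k h1 h2 => ?_⟩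
  by_cases hk : k ≤ b + c
  · obtain ⟨j, h5, h6, h7, h8⟩ := h.2.2 (k - c) (by omega) (by omega)
    exact ⟨j + c, by omega, by omega, by omega, (h' j h8).2.1⟩
  · obtain ⟨j, h5, h6, h7, h8⟩ := (h' b h.top).2.2 (k - b) (by omega) (by omega)
    exact ⟨b + j, by omega, by omega, by omega, h8⟩

theorem Dn.shift {P T : ℕ → Prop} {a b : ℕ} (c : ℕ) (h : Dn P a b)
    (h' : ∀ i, P i → T (i + c)) : Dn T (a + c) (b + c) :=
  h.seq fun i hi => Dn.single (h' i hi)

theorem Dn.cast {P : ℕ → Prop} {a b c d : ℕ} (h : Dn P a b) (h1 : a = c) (h2 : b = d) :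
    Dn P c d := h1 ▸ h2 ▸ h

section
variable {β : Type} (Γ : SimpleGraph β)

/-- a path from `a` to `b` with `k` vertices, all in `A`. -/
def Pth (A : Set β) (a b : β) (k : ℕ) : Prop :=
  ∃ p : Γ.Walk a b, p.IsPath ∧ (∀ y ∈ p.support, y ∈ A) ∧ p.length + 1 = k

variable {Γ}

theorem Pth.single {A : Set β} {a : β} (h : a ∈ A) : Pth Γ A a a 1 :=
  ⟨.nil, by simp, by simpa using h, rfl⟩

theorem Pth.mono {A B : Set β} {a b : β} {k : ℕ} (h : Pth Γ A a b k) (hAB : A ⊆ B) :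
    Pth Γ B a b k := by
  obtain ⟨p, h1, h2, h3⟩ := h
  exact ⟨p, h1, fun y hy => hAB (h2 y hy), h3⟩

theorem Pth.left {A : Set β} {a b : β} {k : ℕ} (h : Pth Γ A a b k) : a ∈ A := by
  obtain ⟨p, -, h2, -⟩ := h
  exact h2 a p.start_mem_support

theorem Pth.right {A : Set β} {a b : β} {k : ℕ} (h : Pth Γ A a b k) : b ∈ A := by
  obtain ⟨p, -, h2, -⟩ := h
  exact h2 b p.end_mem_support

theorem Pth.rev {A : Set β} {a b : β} {k : ℕ} (h : Pth Γ A a b k) : Pth Γ A b a k := by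
  obtain ⟨p, h1, h2, h3⟩ := h
  exact ⟨p.reverse, h1.reverse, by simpa using h2, by simpa using h3⟩

theorem Pth.pos {A : Set β} {a b : β} {k : ℕ} (h : Pth Γ A a b k) : 1 ≤ k := by
  obtain ⟨p, -, -, h3⟩ := h
  omega

theorem Pth.join {A B C : Set β} {a b c d : β} {i j : ℕ} (h : Pth Γ A a b i) (h' : Pth Γ B c d j)
    (hadj : Γ.Adj b c) (hd : ∀ y, y ∈ A → y ∈ B → False) (hA : A ⊆ C) (hB : B ⊆ C) :
    Pth Γ C a d (i + j) := by
  obtain ⟨p, h1, h2, h3⟩ := h
  obtain ⟨q, h4, h5, h6⟩ := h'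
  refine ⟨p.append (.cons hadj q), ?_, ?_, ?_⟩
  · rw [SimpleGraph.Walk.isPath_def, SimpleGraph.Walk.support_append, List.nodup_append]
    refine ⟨h1.support_nodup, by simpa using h4.support_nodup, ?_⟩
    intro y hy z hz hyz
    subst hyz
    exact hd y (h2 y hy) (h5 y (by simpa using hz))
  · intro y hy
    rw [SimpleGraph.Walk.support_append, List.mem_append] at hy
    rcases hy with hy | hy
    · exact hA (h2 y hy)
    · exact hB (h5 y (by simpa using hy))
  · simp only [SimpleGraph.Walk.length_append, SimpleGraph.Walk.length_cons]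
    omega

theorem Pth.cons {A B : Set β} {a b c : β} {j : ℕ} (h : Pth Γ A b c j) (hadj : Γ.Adj a b)
    (ha : a ∉ A) (haB : a ∈ B) (hA : A ⊆ B) : Pth Γ B a c (j + 1) := by
  rw [add_comm]
  exact (Pth.single (A := {a}) rfl).join h hadj (by rintro y rfl hy; exact ha hy)
    (by rintro y rfl; exact haB) hA

theorem Pth.snoc {A B : Set β} {a b c : β} {j : ℕ} (h : Pth Γ A a b j) (hadj : Γ.Adj b c)
    (hc : c ∉ A) (hcB : c ∈ B) (hA : A ⊆ B) : Pth Γ B a c (j + 1) :=
  (h.rev.cons hadj.symm hc hcB hA).rev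

theorem Pth.two {A : Set β} {a b : β} (hadj : Γ.Adj a b) (ha : a ∈ A) (hb : b ∈ A) :
    Pth Γ A a b 2 :=
  (Pth.single (A := {b}) rfl).cons hadj (fun h => hadj.ne h) ha (by rintro y rfl; exact hb)

theorem Pth.eq_one {A : Set β} {a : β} {k : ℕ} (h : Pth Γ A a a k) : k = 1 := by
  obtain ⟨p, h1, -, h3⟩ := h
  rw [SimpleGraph.Walk.isPath_iff_eq_nil] at h1
  subst h1
  exact h3.symm

theorem Pth.pop {A : Set β} {a b : β} {k : ℕ} (h : Pth Γ A a b k) (hk : 2 ≤ k) :
    ∃ c, Γ.Adj a c ∧ Pth Γ (A \ {a}) c b (k - 1) := by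
  obtain ⟨p, h1, h2, h3⟩ := h
  cases p with
  | nil => simp at h3; omega
  | cons hadj q =>
    rw [SimpleGraph.Walk.cons_isPath_iff] at h1
    refine ⟨_, hadj, q, h1.1, fun y hy => ⟨h2 y (by simp [hy]), ?_⟩, ?_⟩
    · rintro rfl
      exact h1.2 hy
    · simp at h3
      omega

theorem Pth.le_card {A : Finset β} {a b : β} {k : ℕ} (h : Pth Γ (A : Set β) a b k) :
    k ≤ A.card := by
  classical
  obtain ⟨p, h1, h2, h3⟩ := h
  rw [← h3, ← p.length_support, ← List.toFinset_card_of_nodup h1.support_nodup]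
  exact Finset.card_le_card fun y hy => h2 y (List.mem_toFinset.1 hy)

end

section
variable {V : Type} [DecidableEq V] (G : SimpleGraph V)

/-- the moves on all vertex sets. -/
def gam : SimpleGraph (Finset V) :=
  SimpleGraph.fromRel fun X Y => (symmDiff X Y).card = 1 ∨
    ∃ u ∈ X, ∃ v ∈ Y \ X, G.Adj u v ∧ Y = (insert v X).erase u

variable {G}

theorem adj_erase {Z : Finset V} {f : V} (hf : f ∈ Z) : (gam G).Adj Z (Z.erase f) := by
  refine ⟨(Finset.erase_ne_self.2 hf).symm, Or.inl (Or.inl ?_)⟩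
  rw [Finset.card_eq_one]
  refine ⟨f, ?_⟩
  ext y
  simp only [Finset.mem_symmDiff, Finset.mem_erase, Finset.mem_singleton]
  constructor
  · rintro (⟨h1, h2⟩ | ⟨h1, h2⟩)
    · by_contra h
      exact h2 ⟨h, h1⟩
    · exact absurd h1.2 h2
  · rintro rfl
    exact Or.inl ⟨hf, fun h => h.1 rfl⟩

theorem adj_slide {Z : Finset V} {f g : V} (hf : f ∈ Z) (hg : g ∈ Z) (h : G.Adj f g) :
    (gam G).Adj (Z.erase f) (Z.erase g) := by
  have hne := h.ne
  refine ⟨fun he => ?_, Or.inl (Or.inr ⟨g, by simp [hg, hne.symm], f, by simp [hf, hne], h.symm, ?_⟩)⟩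
  · have : g ∈ Z.erase f := by simp [hg, hne.symm]
    rw [he] at this
    simp at this
  · rw [Finset.insert_erase hf]

theorem adj_cases {X Y : Finset V} (h : (gam G).Adj X Y) :
    (∃ f ∈ X, Y = X.erase f) ∨ (∃ f ∈ Y, X = Y.erase f) ∨
      ∃ Z : Finset V, ∃ f ∈ Z, ∃ g ∈ Z, G.Adj f g ∧ X = Z.erase f ∧ Y = Z.erase g := by
  have key : ∀ X Y : Finset V, (symmDiff X Y).card = 1 →
      (∃ f ∈ X, Y = X.erase f) ∨ (∃ f ∈ Y, X = Y.erase f) := by
    intro X Y h
    obtain ⟨f, hf⟩ := Finset.card_eq_one.1 h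
    have hm : ∀ y, (y ∈ X ∧ y ∉ Y ∨ y ∈ Y ∧ y ∉ X) ↔ y = f := by
      intro y
      rw [← Finset.mem_symmDiff, hf, Finset.mem_singleton]
    rcases (hm f).2 rfl with h1 | h1
    · refine Or.inl ⟨f, h1.1, ?_⟩
      ext y
      have := hm y
      rw [Finset.mem_erase]
      by_cases hy : y = f
      · subst hy; tauto
      · tauto
    · refine Or.inr ⟨f, h1.1, ?_⟩
      ext y
      have := hm y
      rw [Finset.mem_erase]
      by_cases hy : y = f
      · subst hy; tauto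
      · tauto
  have key2 : ∀ X Y : Finset V, (∃ u ∈ X, ∃ v ∈ Y \ X, G.Adj u v ∧ Y = (insert v X).erase u) →
      ∃ Z : Finset V, ∃ f ∈ Z, ∃ g ∈ Z, G.Adj f g ∧ X = Z.erase f ∧ Y = Z.erase g := by
    rintro X Y ⟨u, hu, v, hv, huv, hY⟩
    exact ⟨insert v X, v, by simp, u, by simp [hu], huv.symm,
      (Finset.erase_insert (Finset.mem_sdiff.1 hv).2).symm, hY⟩
  rcases h.2 with (h | h) | (h | h)
  · rcases key X Y h with h | h
    · exact Or.inl h
    · exact Or.inr (Or.inl h)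
  · exact Or.inr (Or.inr (key2 X Y h))
  · rcases key Y X h with h | h
    · exact Or.inr (Or.inl h)
    · exact Or.inl h
  · obtain ⟨Z, f, hf, g, hg, h1, h2, h3⟩ := key2 Y X h
    exact Or.inr (Or.inr ⟨Z, g, hg, f, hf, h1.symm, h3, h2⟩)

theorem adj_top {Z X : Finset V} (h : (gam G).Adj Z X) (hX : X ⊆ Z) : ∃ f ∈ Z, X = Z.erase f := by
  rcases adj_cases h with h | ⟨f, hf, h⟩ | ⟨W, f, hf, g, hg, h1, h2, h3⟩
  · exact h
  · have := hX hf
    rw [h] at this
    simp at this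
  · have : f ∈ X := by rw [h3]; simp [hf, h1.ne]
    have := hX this
    rw [h2] at this
    simp at this

theorem adj_low {Z X : Finset V} {x : V} (hx : x ∈ Z) (h : (gam G).Adj (Z.erase x) X) (hX : X ⊆ Z)
    (hne : X ≠ Z) : ∃ l ∈ Z, l ≠ x ∧ (X = Z.erase l ∨ X = (Z.erase l).erase x) := by
  rcases adj_cases h with ⟨f, hf, h⟩ | ⟨f, hf, h⟩ | ⟨W, f, hf, g, hg, h1, h2, h3⟩
  · rw [Finset.mem_erase] at hf
    exact ⟨f, hf.2, hf.1, Or.inr (by rw [h, Finset.erase_right_comm])⟩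
  · exfalso
    have hfx : f = x := by
      by_contra hc
      have : f ∈ Z.erase x := Finset.mem_erase.2 ⟨hc, hX hf⟩
      rw [h] at this
      simp at this
    subst hfx
    apply hne
    rw [← Finset.insert_erase hf, ← h, Finset.insert_erase hx]
  · have hfX : f ∈ X := by rw [h3]; simp [hf, h1.ne]
    have hfx : f = x := by
      by_contra hc
      have : f ∈ Z.erase x := Finset.mem_erase.2 ⟨hc, hX hfX⟩
      rw [h2] at this
      simp at this
    subst hfx
    have hW : W = Z := by rw [← Finset.insert_erase hf, ← h2, Finset.insert_erase hx]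
    subst hW
    exact ⟨g, hg, h1.ne.symm, Or.inl h3⟩

theorem adj_both {X Y : Finset V} {x : V} (h : (gam G).Adj X Y) (hX : x ∈ X) (hY : x ∈ Y) :
    (gam G).Adj (X.erase x) (Y.erase x) := by
  rcases adj_cases h with ⟨f, hf, h⟩ | ⟨f, hf, h⟩ | ⟨W, f, hf, g, hg, h1, h2, h3⟩
  · subst h
    rw [Finset.erase_right_comm]
    exact adj_erase (Finset.mem_erase.2 ⟨(Finset.mem_erase.1 hY).1.symm, hf⟩)
  · subst h
    rw [Finset.erase_right_comm]
    exact (adj_erase (Finset.mem_erase.2 ⟨(Finset.mem_erase.1 hX).1.symm, hf⟩)).symm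
  · subst h2 h3
    rw [Finset.erase_right_comm, Finset.erase_right_comm (a := g)]
    exact adj_slide (Finset.mem_erase.2 ⟨(Finset.mem_erase.1 hX).1.symm, hf⟩)
      (Finset.mem_erase.2 ⟨(Finset.mem_erase.1 hY).1.symm, hg⟩) h1

end

end Pool.Agent.MP_e46b50_co

end

-- part MP_e46b50_co.Node
section

/-! The sets between `Z \ (Y ∪ {x})` and `Z` in an up-closed family, and the basic moves. -/

set_option autoImplicit false

namespace Pool.Agent.MP_e46b50_co

variable {V : Type} [DecidableEq V]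

open Classical in
/-- the members of `F` inside `Z` that contain all of `Z` except possibly `x` and points of `Y`. -/
noncomputable def Nd (F : Finset V → Prop) (x : V) (Z Y : Finset V) : Finset (Finset V) :=
  Z.powerset.filter fun X => (∀ v ∈ Z, v ≠ x → v ∉ Y → v ∈ X) ∧ F X

theorem mem_Nd {F : Finset V → Prop} {x : V} {Z Y X : Finset V} :
    X ∈ Nd F x Z Y ↔ X ⊆ Z ∧ (∀ v ∈ Z, v ≠ x → v ∉ Y → v ∈ X) ∧ F X := by
  simp [Nd]

theorem Nd_sub1 {F : Finset V → Prop} {x t : V} {Z Y : Finset V} :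
    (Nd F x Z (Y.erase t) : Set (Finset V)) ⊆ Nd F x Z Y := by
  intro X hX
  rw [Finset.mem_coe, mem_Nd] at hX ⊢
  exact ⟨hX.1, fun v h1 h2 h3 => hX.2.1 v h1 h2 fun h => h3 (Finset.mem_of_mem_erase h), hX.2.2⟩

theorem Nd_sub0 {F : Finset V → Prop} {x t : V} {Z Y : Finset V} (ht : t ∈ Y) :
    (Nd F x (Z.erase t) (Y.erase t) : Set (Finset V)) ⊆ Nd F x Z Y := by
  intro X hX
  rw [Finset.mem_coe, mem_Nd] at hX ⊢
  refine ⟨hX.1.trans (Finset.erase_subset _ _), fun v h1 h2 h3 => hX.2.1 v ?_ h2 fun h =>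
    h3 (Finset.mem_of_mem_erase h), hX.2.2⟩
  exact Finset.mem_erase.2 ⟨fun h => h3 (h ▸ ht), h1⟩

theorem Nd_disj {F : Finset V → Prop} {x t : V} {Z Y : Finset V} (ht : t ∈ Z) (htx : t ≠ x)
    (X : Finset V) (h1 : X ∈ (Nd F x Z (Y.erase t) : Set (Finset V)))
    (h0 : X ∈ (Nd F x (Z.erase t) (Y.erase t) : Set (Finset V))) : False := by
  rw [Finset.mem_coe, mem_Nd] at h1 h0
  have := h0.1 (h1.2.1 t ht htx (by simp))
  simp at this

theorem Nd_card {F : Finset V → Prop} {x t : V} {Z Y : Finset V} (hY : t ∈ Y) (ht : t ∈ Z)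
    (htx : t ≠ x) :
    (Nd F x Z Y).card = (Nd F x Z (Y.erase t)).card + (Nd F x (Z.erase t) (Y.erase t)).card := by
  rw [← Finset.card_union_of_disjoint]
  · congr 1
    ext X
    rw [Finset.mem_union]
    constructor
    · intro hX
      rw [mem_Nd] at hX
      by_cases h : t ∈ X
      · refine Or.inl (mem_Nd.2 ⟨hX.1, fun v h1 h2 h3 => ?_, hX.2.2⟩)
        by_cases hv : v = t
        · exact hv ▸ h
        · exact hX.2.1 v h1 h2 fun h4 => h3 (Finset.mem_erase.2 ⟨hv, h4⟩)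
      · refine Or.inr (mem_Nd.2 ⟨fun v hv => Finset.mem_erase.2 ⟨fun h1 => h (h1 ▸ hv), hX.1 hv⟩,
          fun v h1 h2 h3 => ?_, hX.2.2⟩)
        rw [Finset.mem_erase] at h1
        exact hX.2.1 v h1.2 h2 fun h4 => h3 (Finset.mem_erase.2 ⟨h1.1, h4⟩)
    · rintro (h | h)
      · exact Nd_sub1 h
      · exact Nd_sub0 hY h
  · rw [Finset.disjoint_left]
    exact fun X h1 h0 => Nd_disj ht htx X h1 h0

theorem top_mem {F : Finset V → Prop} {x : V} {Z Y : Finset V} (h : F Z) : Z ∈ Nd F x Z Y :=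
  mem_Nd.2 ⟨le_rfl, fun _ h _ _ => h, h⟩

theorem erase_mem {F : Finset V → Prop} {x t : V} {Z Y : Finset V} (ht : t ∈ Y)
    (h : F (Z.erase t)) : Z.erase t ∈ Nd F x Z Y :=
  Nd_sub0 ht (top_mem h)

/-- the two states of a column. -/
def St (F : Finset V → Prop) (x : V) (a e : Finset V) : Prop := e = a ∨ (e = a.erase x ∧ F e)

theorem St.self {F : Finset V → Prop} {x : V} {a : Finset V} : St F x a a := Or.inl rfl

theorem St.low {F : Finset V → Prop} {x : V} {a : Finset V} (h : F (a.erase x)) :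
    St F x a (a.erase x) := Or.inr ⟨rfl, h⟩

theorem St.mem {F : Finset V → Prop} {x : V} {Z Y a e : Finset V} (h : St F x a e)
    (ha : a ∈ Nd F x Z Y) : e ∈ Nd F x Z Y := by
  rcases h with rfl | ⟨rfl, h⟩
  · exact ha
  · rw [mem_Nd] at ha ⊢
    exact ⟨(Finset.erase_subset _ _).trans ha.1,
      fun v h1 h2 h3 => Finset.mem_erase.2 ⟨h2, ha.2.1 v h1 h2 h3⟩, h⟩

theorem St.sub {F : Finset V → Prop} {x : V} {a e : Finset V} (h : St F x a e) : e ⊆ a := by
  rcases h with rfl | ⟨rfl, -⟩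
  · exact le_rfl
  · exact Finset.erase_subset _ _

variable {G : SimpleGraph V}

theorem St.down {F : Finset V → Prop} {x t : V} {a e : Finset V} (h : St F x a e) (hx : x ∈ a)
    (ht : t ∈ a) (hxt : G.Adj x t) : (gam G).Adj e (a.erase t) := by
  rcases h with rfl | ⟨rfl, -⟩
  · exact adj_erase ht
  · exact adj_slide hx ht hxt

theorem St.up {F : Finset V → Prop} (hup : ∀ X X', X ⊆ X' → F X → F X') {x t : V}
    {a e : Finset V} (h : St F x (a.erase t) e) (ht : t ∈ a) (htx : t ≠ x) :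
    ∃ e', St F x a e' ∧ (gam G).Adj e e' := by
  rcases h with rfl | ⟨rfl, h⟩
  · exact ⟨a, St.self, (adj_erase ht).symm⟩
  · rw [Finset.erase_right_comm] at h ⊢
    exact ⟨a.erase x, St.low (hup _ _ (Finset.erase_subset _ _) h),
      (adj_erase (Finset.mem_erase.2 ⟨htx, ht⟩)).symm⟩

theorem St.tolow {F : Finset V → Prop} {x t : V} {a e : Finset V} (h : St F x (a.erase t) e)
    (hx : x ∈ a) (ht : t ∈ a) (hxt : G.Adj x t) : (gam G).Adj e (a.erase x) := by
  rcases h with rfl | ⟨rfl, -⟩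
  · exact adj_slide ht hx hxt.symm
  · rw [Finset.erase_right_comm]
    exact (adj_erase (Finset.mem_erase.2 ⟨hxt.ne.symm, ht⟩)).symm

theorem St.slide {F : Finset V → Prop} {x t l : V} {a e : Finset V} (h : St F x (a.erase l) e)
    (hl : l ∈ a) (ht : t ∈ a) (hlx : l ≠ x) (htx : t ≠ x) (hlt : G.Adj l t)
    (hF : F ((a.erase t).erase x)) : ∃ e', St F x (a.erase t) e' ∧ (gam G).Adj e e' := by
  rcases h with rfl | ⟨rfl, -⟩
  · exact ⟨_, St.self, adj_slide hl ht hlt⟩
  · refine ⟨_, St.low hF, ?_⟩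
    rw [Finset.erase_right_comm, Finset.erase_right_comm (a := t)]
    exact adj_slide (Finset.mem_erase.2 ⟨hlx, hl⟩) (Finset.mem_erase.2 ⟨htx, ht⟩) hlt

theorem Nd_card_one {F : Finset V → Prop} (hup : ∀ X X', X ⊆ X' → F X → F X') {x : V}
    {Z Y : Finset V} (hZ : F Z) (hx : ¬ F (Z.erase x)) (hY : ∀ f ∈ Y, ¬ F (Z.erase f)) :
    (Nd F x Z Y).card = 1 := by
  rw [Finset.card_eq_one]
  refine ⟨Z, Finset.eq_singleton_iff_unique_mem.2 ⟨top_mem hZ, fun X hX => ?_⟩⟩
  rw [mem_Nd] at hX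
  refine Finset.Subset.antisymm hX.1 fun v hv => ?_
  by_contra hvX
  have hF : F (Z.erase v) :=
    hup _ _ (fun w hw => Finset.mem_erase.2 ⟨fun h => hvX (h ▸ hw), hX.1 hw⟩) hX.2.2
  refine hvX (hX.2.1 v hv ?_ fun h => hY v h hF)
  rintro rfl
  exact hx hF

theorem Nd_card_low {F : Finset V → Prop} (hup : ∀ X X', X ⊆ X' → F X → F X') {x : V}
    {Z Y : Finset V} (hx : F (Z.erase x)) (hY : ∀ f ∈ Y, ¬ F ((Z.erase f).erase x)) :
    (Nd F x Z Y).card = (Nd (fun X => F X ∧ x ∈ X) x Z Y).card + 1 := by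
  rw [← Finset.card_insert_of_notMem (a := Z.erase x) (by simp [mem_Nd])]
  congr 1
  ext X
  rw [Finset.mem_insert, mem_Nd, mem_Nd]
  constructor
  · intro hX
    by_cases h : x ∈ X
    · exact Or.inr ⟨hX.1, hX.2.1, hX.2.2, h⟩
    · refine Or.inl (Finset.Subset.antisymm
        (fun w hw => Finset.mem_erase.2 ⟨fun h1 => h (h1 ▸ hw), hX.1 hw⟩) fun v hv => ?_)
      rw [Finset.mem_erase] at hv
      by_contra hvX
      refine hvX (hX.2.1 v hv.2 hv.1 fun h1 => hY v h1 (hup _ _ (fun w hw => ?_) hX.2.2))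
      exact Finset.mem_erase.2 ⟨fun h1 => h (h1 ▸ hw),
        Finset.mem_erase.2 ⟨fun h1 => hvX (h1 ▸ hw), hX.1 hw⟩⟩
  · rintro (rfl | hX)
    · exact ⟨Finset.erase_subset _ _, fun v h1 h2 _ => Finset.mem_erase.2 ⟨h2, h1⟩, hx⟩
    · exact ⟨hX.1, hX.2.1, hX.2.2.1⟩

end Pool.Agent.MP_e46b50_co

end

-- part MP_e46b50_co.Fibre
section

/-! Paths of almost all lengths inside one fibre. -/

set_option autoImplicit false

namespace Pool.Agent.MP_e46b50_co

variable {V : Type} [DecidableEq V] (G : SimpleGraph V)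

/-- the hypotheses on a star block. -/
structure Blk (F : Finset V → Prop) (x : V) (B Y0 : Finset V) : Prop where
  up : ∀ X X', X ⊆ X' → F X → F X'
  xB : x ∈ B
  dis : ∀ y ∈ Y0, y ∉ B
  adj : ∀ y ∈ Y0, G.Adj x y
  cl : ∀ Z, B ⊆ Z → ∀ f ∈ Y0, ∀ g ∈ Y0, f ≠ g → F (Z.erase f) → F (Z.erase g) →
    ¬ F ((Z.erase f).erase g) → G.Adj f g

def M1 (F : Finset V → Prop) (x : V) (Z Y : Finset V) : Prop :=
  ∀ t ∈ Y, F (Z.erase t) → ∀ e, St F x Z e →
    Dn (fun j => ∃ e', St F x (Z.erase t) e' ∧ Pth (gam G) (Nd F x Z Y) e e' j) 2 (Nd F x Z Y).card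

def M2 (F : Finset V → Prop) (x : V) (Z Y : Finset V) : Prop :=
  ∀ t ∈ Y, F (Z.erase t) → ∀ e, St F x (Z.erase t) e →
    Dn (fun j => ∃ e', St F x Z e' ∧ Pth (gam G) (Nd F x Z Y) e e' j) 2 (Nd F x Z Y).card

def HH (F : Finset V → Prop) (x : V) (Z Y : Finset V) : Prop :=
  F (Z.erase x) → Dn (Pth (gam G) (Nd F x Z Y) Z (Z.erase x)) 2 (Nd F x Z Y).card

def VV (F : Finset V → Prop) (x : V) (Z Y : Finset V) : Prop :=
  F Z → (F (Z.erase x) ∨ ∀ f ∈ Y, ¬ F (Z.erase f)) → ∀ e, St F x Z e →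
    Dn (fun j => ∃ e', St F x Z e' ∧ Pth (gam G) (Nd F x Z Y) e e' j) 1 (Nd F x Z Y).card

variable {G}

theorem HH.vv {F : Finset V → Prop} (hup : ∀ X X', X ⊆ X' → F X → F X') {x : V} {Z Y : Finset V}
    (h : HH G F x Z Y) : VV G F x Z Y := by
  intro hZ hc e he
  have h1 : Dn (fun j => ∃ e', St F x Z e' ∧ Pth (gam G) (Nd F x Z Y) e e' j) 1 1 :=
    Dn.single ⟨e, he, Pth.single (he.mem (top_mem hZ))⟩
  by_cases hx : F (Z.erase x)
  · have h2 := h hx
    refine h1.glue (c := 2) ?_ (by omega) (by have := h2.1; omega)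
    rcases he with rfl | ⟨rfl, -⟩
    · exact h2.mono fun j hj => ⟨_, St.low hx, hj⟩
    · exact h2.mono fun j hj => ⟨_, St.self, hj.rev⟩
  · rw [Nd_card_one hup hZ hx (hc.resolve_left hx)]
    exact h1

section step
variable {F : Finset V → Prop} {x : V} {B Y0 : Finset V} (hb : Blk G F x B Y0)
  {Z Y : Finset V} (hB : B ⊆ Z) (hY0 : Y ⊆ Y0) (hYZ : Y ⊆ Z)
include hb hB hY0 hYZ

theorem m1_step
    (ih : ∀ t ∈ Y, M1 G F x Z (Y.erase t) ∧ VV G F x Z (Y.erase t) ∧
      M2 G F x (Z.erase t) (Y.erase t) ∧ VV G F x (Z.erase t) (Y.erase t)) : M1 G F x Z Y := by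
  intro t ht hFt e he
  obtain ⟨i1, v1, i2, v0⟩ := ih t ht
  have hxZ : x ∈ Z := hB hb.xB
  have htZ : t ∈ Z := hYZ ht
  have hxt : G.Adj x t := hb.adj t (hY0 ht)
  have hFZ : F Z := hb.up _ _ (Finset.erase_subset _ _) hFt
  have hcard := Nd_card (F := F) ht htZ hxt.ne.symm
  have h2 : Dn (fun j => ∃ e', St F x (Z.erase t) e' ∧ Pth (gam G) (Nd F x Z Y) e e' j) 2 2 :=
    Dn.single ⟨_, St.self, Pth.two (he.down hxZ htZ hxt) (he.mem (top_mem hFZ)) (erase_mem ht hFt)⟩
  by_cases hf : ∃ f ∈ Y.erase t, F ((Z.erase t).erase f)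
  · obtain ⟨f, hf, hFf⟩ := hf
    have hFf' : F (Z.erase f) := hb.up _ _ (Finset.erase_subset_erase _ (Finset.erase_subset _ _)) hFf
    have hft := (Finset.mem_erase.1 hf).1
    have hxf : G.Adj x f := hb.adj f (hY0 (Finset.mem_of_mem_erase hf))
    have h4 : Dn (fun j => ∃ e', St F x (Z.erase t) e' ∧ Pth (gam G) (Nd F x Z Y) e e' j) (2 + 2)
        (Nd F x Z Y).card := by
      rw [hcard]
      refine (i1 f hf hFf' e he).seq ?_
      rintro i ⟨e', he', hp⟩
      refine (i2 f hf hFf _ St.self).mono ?_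
      rintro j ⟨e'', he'', hq⟩
      refine ⟨e'', he'', hp.join hq ?_ (Nd_disj htZ hxt.ne.symm) Nd_sub1 (Nd_sub0 ht)⟩
      rw [Finset.erase_right_comm]
      exact he'.down (Finset.mem_erase.2 ⟨hxf.ne, hxZ⟩) (Finset.mem_erase.2 ⟨hft.symm, htZ⟩) hxt
    exact h2.glue h4 (by omega) (by have := h4.1; omega)
  · push Not at hf
    have w0 := v0 hFt (Or.inr hf) _ St.self
    by_cases hc : F (Z.erase x) ∨ ∀ f ∈ Y.erase t, ¬ F (Z.erase f)
    · rw [hcard]
      refine (v1 hFZ hc e he).seq (c := 1) ?_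
      rintro i ⟨e', he', hp⟩
      refine w0.mono ?_
      rintro j ⟨e'', he'', hq⟩
      exact ⟨e'', he'', hp.join hq (he'.down hxZ htZ hxt) (Nd_disj htZ hxt.ne.symm) Nd_sub1
        (Nd_sub0 ht)⟩
    · push Not at hc
      obtain ⟨hx, f, hf', hFf⟩ := hc
      have hft := (Finset.mem_erase.1 hf').1
      have hfY := Finset.mem_of_mem_erase hf'
      have htf : G.Adj t f := hb.cl Z hB t (hY0 ht) f (hY0 hfY) hft.symm hFt hFf (hf f hf')
      have h3 : Dn (fun j => ∃ e', St F x (Z.erase t) e' ∧ Pth (gam G) (Nd F x Z Y) e e' j) (2 + 1)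
          (Nd F x Z Y).card := by
        rw [hcard]
        refine (i1 f hf' hFf e he).seq ?_
        rintro i ⟨e', he', hp⟩
        refine w0.mono ?_
        rintro j ⟨e'', he'', hq⟩
        refine ⟨e'', he'', hp.join hq ?_ (Nd_disj htZ hxt.ne.symm) Nd_sub1 (Nd_sub0 ht)⟩
        rcases he' with rfl | ⟨rfl, h⟩
        · exact adj_slide (hYZ hfY) htZ htf.symm
        · exact absurd (hb.up _ _ (Finset.erase_subset_erase _ (Finset.erase_subset _ _)) h) hx
      exact h2.glue h3 (by omega) (by have := h3.1; omega)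

theorem m2_step
    (ih : ∀ t ∈ Y, M2 G F x Z (Y.erase t) ∧ VV G F x Z (Y.erase t) ∧
      M1 G F x (Z.erase t) (Y.erase t) ∧ VV G F x (Z.erase t) (Y.erase t)) : M2 G F x Z Y := by
  intro t ht hFt e he
  obtain ⟨i1, v1, i2, v0⟩ := ih t ht
  have hxZ : x ∈ Z := hB hb.xB
  have htZ : t ∈ Z := hYZ ht
  have hxt : G.Adj x t := hb.adj t (hY0 ht)
  have hFZ : F Z := hb.up _ _ (Finset.erase_subset _ _) hFt
  have hcard := Nd_card (F := F) ht htZ hxt.ne.symm
  rw [add_comm] at hcard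
  have hd : ∀ X, X ∈ (Nd F x (Z.erase t) (Y.erase t) : Set (Finset V)) →
      X ∈ (Nd F x Z (Y.erase t) : Set (Finset V)) → False :=
    fun X h1 h2 => Nd_disj htZ hxt.ne.symm X h2 h1
  have h2 : Dn (fun j => ∃ e', St F x Z e' ∧ Pth (gam G) (Nd F x Z Y) e e' j) 2 2 := by
    obtain ⟨e', he', ha⟩ := he.up (G := G) hb.up htZ hxt.ne.symm
    exact Dn.single ⟨_, he', Pth.two ha (he.mem (erase_mem ht hFt)) (he'.mem (top_mem hFZ))⟩
  by_cases hf : ∃ f ∈ Y.erase t, F ((Z.erase t).erase f)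
  · obtain ⟨f, hf, hFf⟩ := hf
    have hFf' : F (Z.erase f) := hb.up _ _ (Finset.erase_subset_erase _ (Finset.erase_subset _ _)) hFf
    have hft := (Finset.mem_erase.1 hf).1
    have h4 : Dn (fun j => ∃ e', St F x Z e' ∧ Pth (gam G) (Nd F x Z Y) e e' j) (2 + 2)
        (Nd F x Z Y).card := by
      rw [hcard]
      refine (i2 f hf hFf e he).seq ?_
      rintro i ⟨e', he', hp⟩
      rw [Finset.erase_right_comm] at he'
      obtain ⟨d, hd1, hd2⟩ := he'.up (G := G) hb.up (Finset.mem_erase.2 ⟨hft.symm, htZ⟩) hxt.ne.symm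
      refine (i1 f hf hFf' _ hd1).mono ?_
      rintro j ⟨e'', he'', hq⟩
      exact ⟨e'', he'', hp.join hq hd2 hd (Nd_sub0 ht) Nd_sub1⟩
    exact h2.glue h4 (by omega) (by have := h4.1; omega)
  · push Not at hf
    have w0 := v0 hFt (Or.inr hf) _ he
    by_cases hc : F (Z.erase x) ∨ ∀ f ∈ Y.erase t, ¬ F (Z.erase f)
    · rw [hcard]
      refine w0.seq (c := 1) ?_
      rintro i ⟨e', he', hp⟩
      obtain ⟨d, hd1, hd2⟩ := he'.up (G := G) hb.up htZ hxt.ne.symm
      refine (v1 hFZ hc d hd1).mono ?_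
      rintro j ⟨e'', he'', hq⟩
      exact ⟨e'', he'', hp.join hq hd2 hd (Nd_sub0 ht) Nd_sub1⟩
    · push Not at hc
      obtain ⟨hx, f, hf', hFf⟩ := hc
      have hft := (Finset.mem_erase.1 hf').1
      have hfY := Finset.mem_of_mem_erase hf'
      have htf : G.Adj t f := hb.cl Z hB t (hY0 ht) f (hY0 hfY) hft.symm hFt hFf (hf f hf')
      have h3 : Dn (fun j => ∃ e', St F x Z e' ∧ Pth (gam G) (Nd F x Z Y) e e' j) (1 + 2)
          (Nd F x Z Y).card := by
        rw [hcard]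
        refine w0.seq ?_
        rintro i ⟨e', he', hp⟩
        refine (i1 f hf' hFf _ St.self).mono ?_
        rintro j ⟨e'', he'', hq⟩
        refine ⟨e'', he'', hp.join hq ?_ hd (Nd_sub0 ht) Nd_sub1⟩
        rcases he' with rfl | ⟨rfl, h⟩
        · exact adj_slide htZ (hYZ hfY) htf
        · exact absurd (hb.up _ _ (Finset.erase_subset_erase _ (Finset.erase_subset _ _)) h) hx
      exact h2.glue h3 (by omega) (by have := h3.1; omega)

theorem hh_step (m1 : M1 G (fun X => F X ∧ x ∈ X) x Z Y)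
    (ih : ∀ t ∈ Y, HH G F x Z (Y.erase t) ∧
      M2 G F x (Z.erase t) (Y.erase t) ∧ VV G F x (Z.erase t) (Y.erase t)) : HH G F x Z Y := by
  intro hx
  have hxZ : x ∈ Z := hB hb.xB
  have hFZ : F Z := hb.up _ _ (Finset.erase_subset _ _) hx
  have hlow : Z.erase x ∈ Nd F x Z Y := (St.low hx).mem (top_mem hFZ)
  have h2 : Dn (Pth (gam G) (Nd F x Z Y) Z (Z.erase x)) 2 2 :=
    Dn.single (Pth.two (adj_erase hxZ) (top_mem hFZ) hlow)
  by_cases ht : ∃ t ∈ Y, F ((Z.erase t).erase x)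
  · obtain ⟨t, ht, hFtx⟩ := ht
    obtain ⟨i1, i2, v0⟩ := ih t ht
    have htZ : t ∈ Z := hYZ ht
    have hxt : G.Adj x t := hb.adj t (hY0 ht)
    have hFt : F (Z.erase t) := hb.up _ _ (Finset.erase_subset _ _) hFtx
    have hcard := Nd_card (F := F) ht htZ hxt.ne.symm
    have h1 := i1 hx
    obtain ⟨g, hg, hp⟩ := h1.top.rev.pop h1.1
    have hgm := hp.left
    have hgZ : g ⊆ Z := (mem_Nd.1 hgm.1).1
    -- entering the second half
    have key : ∃ d c, c ≤ 2 ∧ (gam G).Adj g d ∧ Dn (fun j => ∃ e', St F x (Z.erase t) e' ∧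
        Pth (gam G) (Nd F x (Z.erase t) (Y.erase t)) d e' j) c
          (Nd F x (Z.erase t) (Y.erase t)).card := by
      by_cases hgz : g = Z
      · exact ⟨_, 1, by omega, by rw [hgz]; exact adj_erase htZ, v0 hFt (Or.inl hFtx) _ St.self⟩
      · obtain ⟨l, hlZ, hlx, hl⟩ := adj_low hxZ hg hgZ hgz
        have hst : St F x (Z.erase l) g := by
          rcases hl with h | h
          · exact Or.inl h
          · exact Or.inr ⟨h, (mem_Nd.1 hgm.1).2.2⟩
        have hlY : l ∈ Y.erase t := by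
          by_contra hc
          have := hst.sub ((mem_Nd.1 hgm.1).2.1 l hlZ hlx hc)
          simp at this
        have hlt := (Finset.mem_erase.1 hlY).1
        have hFl : F (Z.erase l) := hb.up _ _ hst.sub (mem_Nd.1 hgm.1).2.2
        by_cases hF : F ((Z.erase t).erase l)
        · refine ⟨_, 2, le_rfl, ?_, i2 l hlY hF _ St.self⟩
          rw [Finset.erase_right_comm]
          exact hst.down (Finset.mem_erase.2 ⟨hlx.symm, hxZ⟩) (Finset.mem_erase.2 ⟨hlt.symm, htZ⟩) hxt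
        · have htl : G.Adj t l := hb.cl Z hB t (hY0 ht) l (hY0 (Finset.mem_of_mem_erase hlY))
            hlt.symm hFt hFl hF
          obtain ⟨d, hd1, hd2⟩ := hst.slide hlZ htZ hlx hxt.ne.symm htl.symm hFtx
          exact ⟨d, 1, by omega, hd2, v0 hFt (Or.inl hFtx) _ hd1⟩
    obtain ⟨d, c, hc, hgd, hD⟩ := key
    have hA : (Nd F x (Z.erase t) (Y.erase t) : Set (Finset V)) ⊆ Nd F x Z Y \ {Z.erase x} := by
      intro X hX
      refine ⟨Nd_sub0 ht hX, ?_⟩
      rintro rfl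
      have := (mem_Nd.1 hX).1 (Finset.mem_erase.2 ⟨hxt.ne.symm, htZ⟩)
      simp at this
    have h3 : Dn (Pth (gam G) (Nd F x Z Y) Z (Z.erase x)) (c + (Nd F x Z (Y.erase t)).card)
        ((Nd F x (Z.erase t) (Y.erase t)).card + (Nd F x Z (Y.erase t)).card) := by
      refine hD.shift _ ?_
      rintro j ⟨e', he', hq⟩
      have := (hp.rev.join hq hgd (fun X h1 h2 => Nd_disj htZ hxt.ne.symm X h1.1 h2)
        (Set.sdiff_subset_sdiff_left Nd_sub1) hA).snoc (he'.tolow hxZ htZ hxt) (by simp) hlow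
        Set.sdiff_subset
      have h5 := h1.1
      convert this using 1
      omega
    exact ((h1.mono fun j hj => hj.mono Nd_sub1).glue h3 (by omega) (by omega)).cast rfl (by omega)
  · push Not at ht
    rw [Nd_card_low hb.up hx ht]
    by_cases hs : ∃ t ∈ Y, F (Z.erase t)
    · obtain ⟨t, ht', hFt⟩ := hs
      have hxt : G.Adj x t := hb.adj t (hY0 ht')
      have h1 := m1 t ht' ⟨hFt, Finset.mem_erase.2 ⟨hxt.ne, hxZ⟩⟩ Z St.self
      refine h2.glue (h1.shift 1 ?_) (by omega) (by have := h1.1; omega)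
      rintro j ⟨e', he', hq⟩
      refine hq.snoc (he'.tolow hxZ (hYZ ht') hxt) (by simp [mem_Nd]) hlow ?_
      intro X hX
      rw [Finset.mem_coe, mem_Nd] at hX ⊢
      exact ⟨hX.1, hX.2.1, hX.2.2.1⟩
    · push Not at hs
      rw [Nd_card_one (F := fun X => F X ∧ x ∈ X) (fun X X' h h' => ⟨hb.up _ _ h h'.1, h h'.2⟩)
        ⟨hFZ, hxZ⟩ (by simp) fun f hf h => hs f hf h.1]
      exact h2

end step

theorem Blk.upper {F : Finset V → Prop} {x : V} {B Y0 : Finset V} (hb : Blk G F x B Y0) :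
    Blk G (fun X => F X ∧ x ∈ X) x B Y0 :=
  ⟨fun _ _ h h' => ⟨hb.up _ _ h h'.1, h h'.2⟩, hb.xB, hb.dis, hb.adj,
    fun Z hZ f hf g hg hfg h1 h2 h3 => hb.cl Z hZ f hf g hg hfg h1.1 h2.1 fun h => h3
      ⟨h, Finset.mem_erase.2 ⟨(hb.adj g hg).ne, h1.2⟩⟩⟩

theorem fibre {x : V} {B Y0 : Finset V} (n : ℕ) : ∀ (F : Finset V → Prop), Blk G F x B Y0 →
    ∀ Z Y : Finset V, Y.card = n → B ⊆ Z → Y ⊆ Y0 → Y ⊆ Z →
      M1 G F x Z Y ∧ M2 G F x Z Y ∧ HH G F x Z Y := by
  induction n using Nat.strong_induction_on with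
  | _ n ih =>
    have sub : ∀ (F : Finset V → Prop), Blk G F x B Y0 → ∀ Z Y : Finset V, Y.card = n → B ⊆ Z →
        Y ⊆ Y0 → Y ⊆ Z → ∀ t ∈ Y,
        (M1 G F x Z (Y.erase t) ∧ M2 G F x Z (Y.erase t) ∧ HH G F x Z (Y.erase t)) ∧
        (M1 G F x (Z.erase t) (Y.erase t) ∧ M2 G F x (Z.erase t) (Y.erase t) ∧
          HH G F x (Z.erase t) (Y.erase t)) := by
      intro F hb Z Y hn hB hY0 hYZ t ht
      have hlt : (Y.erase t).card < n := hn ▸ Finset.card_erase_lt_of_mem ht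
      refine ⟨ih _ hlt F hb Z _ rfl hB ((Finset.erase_subset _ _).trans hY0)
        ((Finset.erase_subset _ _).trans hYZ), ih _ hlt F hb _ _ rfl ?_
        ((Finset.erase_subset _ _).trans hY0) (Finset.erase_subset_erase _ hYZ)⟩
      exact fun v hv => Finset.mem_erase.2 ⟨fun h => hb.dis t (hY0 ht) (h ▸ hv), hB hv⟩
    have m1 : ∀ (F : Finset V → Prop), Blk G F x B Y0 → ∀ Z Y : Finset V, Y.card = n → B ⊆ Z →
        Y ⊆ Y0 → Y ⊆ Z → M1 G F x Z Y := by
      intro F hb Z Y hn hB hY0 hYZ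
      refine m1_step hb hB hY0 hYZ fun t ht => ?_
      obtain ⟨a, b⟩ := sub F hb Z Y hn hB hY0 hYZ t ht
      exact ⟨a.1, a.2.2.vv hb.up, b.2.1, b.2.2.vv hb.up⟩
    intro F hb Z Y hn hB hY0 hYZ
    refine ⟨m1 F hb Z Y hn hB hY0 hYZ, m2_step hb hB hY0 hYZ fun t ht => ?_,
      hh_step hb hB hY0 hYZ (m1 _ hb.upper Z Y hn hB hY0 hYZ) fun t ht => ?_⟩
    · obtain ⟨a, b⟩ := sub F hb Z Y hn hB hY0 hYZ t ht
      exact ⟨a.2.1, a.2.2.vv hb.up, b.1, b.2.2.vv hb.up⟩
    · obtain ⟨a, b⟩ := sub F hb Z Y hn hB hY0 hYZ t ht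
      exact ⟨a.2.2, b.2.1, b.2.2.vv hb.up⟩

end Pool.Agent.MP_e46b50_co

end

-- part MP_e46b50_co.Ends
section

/-! Paths in a fibre that avoid the two top states. -/

set_option autoImplicit false

namespace Pool.Agent.MP_e46b50_co

variable {V : Type} [DecidableEq V] {G : SimpleGraph V}
variable {F : Finset V → Prop} {x : V} {B Y0 : Finset V}

theorem Nd_empty_card (hup : ∀ X X', X ⊆ X' → F X → F X') {Z : Finset V} (hxZ : x ∈ Z)
    (hx : F (Z.erase x)) : (Nd F x Z ∅).card = 2 := by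
  rw [Nd_card_low hup hx (by simp), Nd_card_one (F := fun X => F X ∧ x ∈ X)
    (fun X X' h h' => ⟨hup _ _ h h'.1, h h'.2⟩) ⟨hup _ _ (Finset.erase_subset _ _) hx, hxZ⟩ (by simp)
    (by simp)]

theorem Nd_two_le (hup : ∀ X X', X ⊆ X' → F X → F X') {Z Y : Finset V} (hxZ : x ∈ Z)
    (hx : F (Z.erase x)) : 2 ≤ (Nd F x Z Y).card := by
  have hZ : F Z := hup _ _ (Finset.erase_subset _ _) hx
  exact (Pth.two (Γ := gam (⊥ : SimpleGraph V)) (A := (Nd F x Z Y : Set (Finset V)))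
    (adj_erase hxZ) (top_mem hZ) ((St.low hx).mem (top_mem hZ))).le_card

theorem erase_not_top {Z : Finset V} {x f : V} (hf : f ∈ Z) (hfx : f ≠ x) {X : Finset V}
    (hX : X ⊆ Z.erase f) : X ∉ ({Z, Z.erase x} : Set (Finset V)) := by
  rintro (rfl | rfl)
  · simpa using hX hf
  · simpa using hX (Finset.mem_erase.2 ⟨hfx, hf⟩)

theorem kk (hb : Blk G F x B Y0) {Z Y : Finset V} (hB : B ⊆ Z) (hY0 : Y ⊆ Y0) (hYZ : Y ⊆ Z)
    (hx : F (Z.erase x)) {f0 : V} (hf0 : f0 ∈ Y) (hF0 : F (Z.erase f0)) :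
    Dn (fun j => ∃ f ∈ Y, ∃ l ∈ Y, ∃ e, St F x (Z.erase l) e ∧
      Pth (gam G) (Nd F x Z Y \ {Z, Z.erase x}) (Z.erase f) e j) 1 ((Nd F x Z Y).card - 2) := by
  have hxZ : x ∈ Z := hB hb.xB
  have hZ : F Z := hb.up _ _ (Finset.erase_subset _ _) hx
  have hxf : G.Adj x f0 := hb.adj f0 (hY0 hf0)
  have hH := (fibre _ F hb Z Y rfl hB hY0 hYZ).2.2 hx
  have hm : Z.erase f0 ∈ (Nd F x Z Y : Set (Finset V)) \ {Z, Z.erase x} :=
    ⟨erase_mem hf0 hF0, erase_not_top (hYZ hf0) hxf.ne.symm le_rfl⟩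
  have h3 : 3 ≤ (Nd F x Z Y).card := by
    have h1 : Pth (gam G) {Z, Z.erase f0} Z (Z.erase f0) 2 :=
      Pth.two (adj_erase (hYZ hf0)) (by simp) (by simp)
    refine (h1.snoc (B := (Nd F x Z Y : Set (Finset V))) (adj_slide (hYZ hf0) hxZ hxf.symm)
      (erase_not_top hxZ hxf.ne le_rfl) ((St.low hx).mem (top_mem hZ)) ?_).le_card
    rintro y (rfl | rfl)
    · exact top_mem hZ
    · exact hm.1
  refine ⟨by omega, ⟨f0, hf0, f0, hf0, _, St.self, Pth.single hm⟩, fun k h1 h2 => ?_⟩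
  obtain ⟨j, h4, h5, h6, hp⟩ := hH.2.2 (k + 2) (by omega) (by omega)
  obtain ⟨g1, hg1, hq⟩ := hp.pop (by omega)
  obtain ⟨g2, hg2, hr⟩ := hq.rev.pop (by omega)
  have m1 := hr.right
  have m2 := hr.left
  obtain ⟨f, hfZ, rfl⟩ := adj_top hg1 (mem_Nd.1 m1.1.1).1
  obtain ⟨l, hlZ, hlx, hl⟩ := adj_low hxZ hg2 (mem_Nd.1 m2.1.1).1 m2.1.2
  have hst : St F x (Z.erase l) g2 := by
    rcases hl with h | h
    · exact Or.inl h
    · exact Or.inr ⟨h, (mem_Nd.1 m2.1.1).2.2⟩
  have hlY : l ∈ Y := by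
    by_contra hc
    have := hst.sub ((mem_Nd.1 m2.1.1).2.1 l hlZ hlx hc)
    simp at this
  have hfY : f ∈ Y := by
    by_contra hc
    have hfx : f ≠ x := by
      rintro rfl
      exact m1.2 rfl
    have := (mem_Nd.1 m1.1.1).2.1 f hfZ hfx hc
    simp at this
  refine ⟨j - 2, by omega, by omega, by omega, f, hfY, l, hlY, g2, hst, hr.rev.mono ?_⟩
  rintro y ⟨⟨h7, h8⟩, h9⟩
  exact ⟨h7, fun h => h.elim h8 h9⟩

theorem ky (hb : Blk G F x B Y0) {Z Y : Finset V} (hB : B ⊆ Z) (hY0 : Y ⊆ Y0) (hYZ : Y ⊆ Z)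
    (hx : F (Z.erase x)) {y : V} (hy : y ∈ Y) (hall : ∀ l ∈ Y, F ((Z.erase y).erase l)) :
    Dn (fun j => ∃ f ∈ Y, ∃ e, St F x (Z.erase y) e ∧
      Pth (gam G) (Nd F x Z Y \ {Z, Z.erase x}) (Z.erase f) e j) 1 ((Nd F x Z Y).card - 2) := by
  have hxZ : x ∈ Z := hB hb.xB
  have hyZ : y ∈ Z := hYZ hy
  have hxy : G.Adj x y := hb.adj y (hY0 hy)
  have hFy : F (Z.erase y) := hb.up _ _ (Finset.erase_subset _ _) (hall y hy)
  have hcard := Nd_card (F := F) hy hyZ hxy.ne.symm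
  have hB' : B ⊆ Z.erase y :=
    fun v hv => Finset.mem_erase.2 ⟨fun h => hb.dis y (hY0 hy) (h ▸ hv), hB hv⟩
  have h0 := fibre _ F hb (Z.erase y) (Y.erase y) rfl hB' ((Finset.erase_subset _ _).trans hY0)
    (Finset.erase_subset_erase _ hYZ)
  have hA : (Nd F x (Z.erase y) (Y.erase y) : Set (Finset V)) ⊆ Nd F x Z Y \ {Z, Z.erase x} :=
    fun X hX => ⟨Nd_sub0 hy hX, erase_not_top hyZ hxy.ne.symm (mem_Nd.1 hX).1⟩
  by_cases hE : Y.erase y = ∅
  · have h2 : (Nd F x Z (Y.erase y)).card = 2 := by rw [hE]; exact Nd_empty_card hb.up hxZ hx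
    refine ((h0.2.2.vv hb.up hFy (Or.inr (by simp [hE])) _ St.self).mono ?_).cast rfl (by omega)
    rintro j ⟨e, he, hp⟩
    exact ⟨y, hy, e, he, hp.mono hA⟩
  · obtain ⟨f0, hf0⟩ := Finset.nonempty_iff_ne_empty.2 hE
    have hf0' := Finset.mem_of_mem_erase hf0
    have hK := kk hb hB ((Finset.erase_subset y _).trans hY0) ((Finset.erase_subset _ _).trans hYZ)
      hx hf0 (hb.up _ _ (Finset.erase_subset_erase _ (Finset.erase_subset _ _)) (hall f0 hf0'))
    have h3 : Dn (fun j => ∃ f ∈ Y, ∃ e, St F x (Z.erase y) e ∧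
        Pth (gam G) (Nd F x Z Y \ {Z, Z.erase x}) (Z.erase f) e j) (1 + 2)
        ((Nd F x Z (Y.erase y)).card - 2 + (Nd F x (Z.erase y) (Y.erase y)).card) := by
      refine hK.seq ?_
      rintro i ⟨f, hf, l, hl, e, he, hp⟩
      have hl' := Finset.mem_erase.1 hl
      refine (h0.2.1 l hl (hall l hl'.2) _ St.self).mono ?_
      rintro j ⟨e', he', hq⟩
      refine ⟨f, Finset.mem_of_mem_erase hf, e', he', hp.join hq ?_
        (fun X h1 h2 => Nd_disj hyZ hxy.ne.symm X h1.1 h2) (Set.sdiff_subset_sdiff_left Nd_sub1) hA⟩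
      rw [Finset.erase_right_comm]
      exact he.down (Finset.mem_erase.2 ⟨(hb.adj l (hY0 hl'.2)).ne, hxZ⟩)
        (Finset.mem_erase.2 ⟨hl'.1.symm, hyZ⟩) hxy
    have h4 := hK.1
    have h5 := h3.1
    refine ((Dn.single ⟨y, hy, _, St.self, Pth.single (hA (top_mem hFy))⟩).glue h3 (by omega)
      (by omega)).cast rfl (by omega)

end Pool.Agent.MP_e46b50_co

end

-- part MP_e46b50_co.Global
section

/-! From a base family to the family with one more star block. -/

set_option autoImplicit false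

namespace Pool.Agent.MP_e46b50_co

variable {V : Type} [Fintype V] [DecidableEq V] (G : SimpleGraph V)

open Classical in
/-- the dominating sets containing all vertices outside `U`. -/
noncomputable def Fam (U : Finset V) : Finset (Finset V) :=
  Finset.univ.filter fun X => (∀ v, v ∉ U → v ∈ X) ∧ Dominating G X

/-- paths from the full set to a neighbour, of almost all lengths. -/
def GG (U : Finset V) : Prop :=
  (Fam G U).card = 1 ∨ Dn (fun j => ∃ b, (gam G).Adj Finset.univ b ∧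
    Pth (gam G) (Fam G U) Finset.univ b j) 2 (Fam G U).card

/-- paths avoiding the two top states whose ends are next to them. -/
def WW (U : Finset V) (x : V) (j : ℕ) : Prop :=
  ∃ a b, (gam G).Adj Finset.univ a ∧ (gam G).Adj (Finset.univ.erase x) a ∧
    ((gam G).Adj Finset.univ b ∨ (gam G).Adj (Finset.univ.erase x) b) ∧
    Pth (gam G) (Fam G U \ {Finset.univ, Finset.univ.erase x}) a b j

/-- the properties of a block. -/
structure Stp (U : Finset V) (x : V) (Y : Finset V) : Prop where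
  xU : x ∈ U
  YU : Y ⊆ U
  blk : Blk G (Dominating G) x (insert x Uᶜ) Y
  low : ∀ T ∈ Fam G (U \ insert x Y), Dominating G (T.erase x)

variable {G}

theorem mem_Fam {U X : Finset V} : X ∈ Fam G U ↔ (∀ v, v ∉ U → v ∈ X) ∧ Dominating G X := by
  simp [Fam]

theorem univ_mem_Fam {U : Finset V} : Finset.univ ∈ Fam G U :=
  mem_Fam.2 ⟨fun v _ => Finset.mem_univ v, fun v hv => absurd (Finset.mem_univ v) hv⟩

omit [Fintype V] [DecidableEq V] in
theorem Dominating.up {X X' : Finset V} (h : X ⊆ X') (hX : Dominating G X) : Dominating G X' :=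
  fun v hv => by
    obtain ⟨u, hu, huv⟩ := hX v fun h1 => hv (h h1)
    exact ⟨u, h hu, huv⟩

theorem cross {x t : V} {Y : Finset V} (hx : ¬ G.Adj t x) (hY : ∀ y ∈ Y, ¬ G.Adj t y)
    (ht : Dominating G (Finset.univ.erase t)) (X : Finset V) (hX : Dominating G X)
    (h : ∀ v, v ≠ x → v ∉ Y → v ∈ X) : Dominating G (X.erase t) := by
  intro v hv
  by_cases hvt : v = t
  · subst hvt
    obtain ⟨w, -, hw⟩ := ht v (by simp)
    exact ⟨w, Finset.mem_erase.2 ⟨hw.ne.symm, h w (fun h1 => hx (h1 ▸ hw)) fun h1 => hY w h1 hw⟩, hw⟩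
  · have hvX : v ∉ X := fun h1 => hv (Finset.mem_erase.2 ⟨hvt, h1⟩)
    obtain ⟨w, hw1, hw⟩ := hX v hvX
    refine ⟨w, Finset.mem_erase.2 ⟨?_, hw1⟩, hw⟩
    rintro rfl
    exact hvX (h v (fun h1 => hx (h1 ▸ hw.symm)) fun h1 => hY v h1 hw.symm)

section
variable {U : Finset V} {x : V} {Y : Finset V} (hs : Stp G U x Y)

theorem base_x {T : Finset V} (hT : T ∈ Fam G (U \ insert x Y)) : x ∈ T :=
  (mem_Fam.1 hT).1 x (by simp)

theorem base_Y {T : Finset V} (hT : T ∈ Fam G (U \ insert x Y)) : Y ⊆ T :=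
  fun y hy => (mem_Fam.1 hT).1 y (by simp [hy])

theorem base_B {T : Finset V} (hT : T ∈ Fam G (U \ insert x Y)) : insert x Uᶜ ⊆ T := by
  intro v hv
  rcases Finset.mem_insert.1 hv with rfl | hv
  · exact base_x hT
  · exact (mem_Fam.1 hT).1 v fun h => Finset.mem_compl.1 hv (Finset.mem_sdiff.1 h).1

theorem key_eq {T X : Finset V} (hT : T ∈ Fam G (U \ insert x Y))
    (hX : X ∈ Nd (Dominating G) x T Y) : X ∪ insert x Y = T := by
  rw [mem_Nd] at hX
  refine Finset.Subset.antisymm (Finset.union_subset hX.1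
    (Finset.insert_subset (base_x hT) (base_Y hT))) fun v hv => ?_
  by_cases h1 : v ∈ insert x Y
  · exact Finset.mem_union_right _ h1
  · rw [Finset.mem_insert, not_or] at h1
    exact Finset.mem_union_left _ (hX.2.1 v hv h1.1 h1.2)

include hs

theorem fib_sub {T X : Finset V} (hT : T ∈ Fam G (U \ insert x Y))
    (hX : X ∈ Nd (Dominating G) x T Y) : X ∈ Fam G U := by
  rw [mem_Nd] at hX
  refine mem_Fam.2 ⟨fun v hv => hX.2.1 v ((mem_Fam.1 hT).1 v fun h => hv (Finset.mem_sdiff.1 h).1)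
    (fun h => hv (h ▸ hs.xU)) fun h => hv (hs.YU h), hX.2.2⟩

theorem card_Fam : (Fam G U).card =
    ∑ T ∈ Fam G (U \ insert x Y), (Nd (Dominating G) x T Y).card := by
  rw [Finset.card_eq_sum_card_fiberwise (f := fun X => X ∪ insert x Y)
    (t := Fam G (U \ insert x Y))]
  · refine Finset.sum_congr rfl fun T hT => ?_
    congr 1
    ext X
    rw [Finset.mem_filter]
    constructor
    · rintro ⟨h1, rfl⟩
      refine mem_Nd.2 ⟨Finset.subset_union_left, fun v h2 h3 h4 => ?_, (mem_Fam.1 h1).2⟩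
      simpa [h3, h4] using h2
    · exact fun h => ⟨fib_sub hs hT h, key_eq hT h⟩
  · intro X hX
    rw [Finset.mem_coe, mem_Fam] at hX ⊢
    refine ⟨fun v hv => ?_, hX.2.up Finset.subset_union_left⟩
    by_cases h : v ∈ U
    · exact Finset.mem_union_right _ (by by_contra h1; exact hv (Finset.mem_sdiff.2 ⟨h, h1⟩))
    · exact Finset.mem_union_left _ (hX.1 v h)

theorem fib_vv {T : Finset V} (hT : T ∈ Fam G (U \ insert x Y)) {e : Finset V}
    (he : St (Dominating G) x T e) :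
    Dn (fun j => ∃ e', St (Dominating G) x T e' ∧ Pth (gam G) (Nd (Dominating G) x T Y) e e' j) 1
      (Nd (Dominating G) x T Y).card :=
  (fibre _ _ hs.blk T Y rfl (base_B hT) le_rfl (base_Y hT)).2.2.vv hs.blk.up (mem_Fam.1 hT).2
    (Or.inl (hs.low T hT)) e he

theorem st_step {a a' e : Finset V} (ha : a ∈ Fam G (U \ insert x Y))
    (ha' : a' ∈ Fam G (U \ insert x Y)) (h : (gam G).Adj a a') (he : St (Dominating G) x a e) :
    ∃ e', St (Dominating G) x a' e' ∧ (gam G).Adj e e' := by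
  rcases he with rfl | ⟨rfl, -⟩
  · exact ⟨a', St.self, h⟩
  · exact ⟨_, St.low (hs.low a' ha'), adj_both h (base_x ha) (base_x ha')⟩

theorem zig (Q : Finset V → Prop) (C : Set (Finset V)) {a b : Finset V} (p : (gam G).Walk a b) :
    p.IsPath → (∀ T ∈ p.support, T ∈ Fam G (U \ insert x Y)) →
    (∀ T ∈ p.support.tail, (Nd (Dominating G) x T Y : Set (Finset V)) ⊆ C) →
    ∀ (A : Set (Finset V)) (lo hi : ℕ), A ⊆ C → (∀ X ∈ A, X ∪ insert x Y ∉ p.support.tail) →
    Dn (fun j => ∃ s e, Q s ∧ St (Dominating G) x a e ∧ Pth (gam G) A s e j) lo hi →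
    Dn (fun j => ∃ s e, Q s ∧ St (Dominating G) x b e ∧ Pth (gam G) C s e j) (lo + p.length)
      (hi + (p.support.tail.map fun T => (Nd (Dominating G) x T Y).card).sum) := by
  induction p with
  | nil =>
    intro _ _ _ A lo hi hA _ h
    refine (h.mono ?_).cast (by simp) (by simp)
    rintro j ⟨s, e, h1, h2, h3⟩
    exact ⟨s, e, h1, h2, h3.mono hA⟩
  | @cons a a' b hadj q ih =>
    intro hp hsup hC A lo hi hA hk h
    rw [SimpleGraph.Walk.cons_isPath_iff] at hp
    simp only [SimpleGraph.Walk.support_cons, List.tail_cons] at hC hk ⊢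
    have ha : a ∈ Fam G (U \ insert x Y) := hsup a (by simp)
    have ha' : a' ∈ Fam G (U \ insert x Y) := hsup a' (by simp)
    have hnd := hp.1.support_nodup
    rw [← q.cons_tail_support, List.nodup_cons] at hnd
    have h1 : Dn (fun j => ∃ s e, Q s ∧ St (Dominating G) x a' e ∧
        Pth (gam G) (A ∪ Nd (Dominating G) x a' Y) s e j) (lo + 1)
        (hi + (Nd (Dominating G) x a' Y).card) := by
      refine h.seq ?_
      rintro i ⟨s, e, h1, h2, h3⟩
      obtain ⟨d, hd1, hd2⟩ := st_step hs ha ha' hadj h2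
      refine (fib_vv hs ha' hd1).mono ?_
      rintro j ⟨e', h4, h5⟩
      refine ⟨s, e', h1, h4, h3.join h5 hd2 (fun X h6 h7 => hk X h6 ?_) Set.subset_union_left
        Set.subset_union_right⟩
      rw [key_eq ha' h7]
      exact q.start_mem_support
    refine (ih hp.1 (fun T hT => hsup T (by simp [hT])) (fun T hT => hC T (List.mem_of_mem_tail hT))
      _ _ _ (Set.union_subset hA (hC a' q.start_mem_support)) ?_ h1).cast
      (by simp only [SimpleGraph.Walk.length_cons]; omega) ?_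
    · rintro X (hX | hX)
      · exact fun h => hk X hX (List.mem_of_mem_tail h)
      · rw [key_eq ha' hX]
        exact hnd.1
    · conv_rhs => rw [← q.cons_tail_support]
      simp only [List.map_cons, List.sum_cons]
      omega

theorem top_all {y l : V} (hy : y ∈ Y) (hl : l ∈ Y) :
    Dominating G ((Finset.univ.erase y).erase l) := by
  have h1 := hs.blk.adj y hy
  have h2 := hs.blk.adj l hl
  intro v hv
  refine ⟨x, by simp [h1.ne, h2.ne], ?_⟩
  by_cases h : v = l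
  · exact h ▸ h2.symm
  · have : v = y := by simpa [h] using hv
    exact this ▸ h1.symm

theorem enter {y0 : V} (hy0 : y0 ∈ Y) {t : V} (hc : Finset.univ.erase t ∈ Fam G (U \ insert x Y)) :
    ∃ lo, lo ≤ 3 ∧ Dn (fun j => ∃ s e, (∃ f ∈ Y, s = Finset.univ.erase f) ∧
      St (Dominating G) x (Finset.univ.erase t) e ∧
      Pth (gam G) ((Nd (Dominating G) x Finset.univ Y \ {Finset.univ, Finset.univ.erase x}) ∪
        Nd (Dominating G) x (Finset.univ.erase t) Y) s e j) lo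
      ((Nd (Dominating G) x Finset.univ Y).card - 2 +
        (Nd (Dominating G) x (Finset.univ.erase t) Y).card) := by
  have hu : Finset.univ ∈ Fam G (U \ insert x Y) := univ_mem_Fam
  have ht : t ∈ U \ insert x Y := by
    by_contra h
    simpa using (mem_Fam.1 hc).1 t h
  have ht' := (Finset.mem_sdiff.1 ht).2
  rw [Finset.mem_insert, not_or] at ht'
  have hd : ∀ X, X ∈ (Nd (Dominating G) x Finset.univ Y : Set (Finset V)) \
      {Finset.univ, Finset.univ.erase x} →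
      X ∈ (Nd (Dominating G) x (Finset.univ.erase t) Y : Set (Finset V)) → False := by
    intro X h1 h2
    have := (mem_Nd.1 h2).1 ((mem_Nd.1 h1.1).2.1 t (Finset.mem_univ t) ht'.1 ht'.2)
    simp at this
  have hK := fun y (hy : y ∈ Y) => ky hs.blk (base_B hu) le_rfl (base_Y hu) (hs.low _ hu) hy
    fun l hl => top_all hs hy hl
  by_cases ha : ∃ y ∈ Y, G.Adj t y
  · obtain ⟨y, hy, hty⟩ := ha
    refine ⟨1 + 1, by omega, (hK y hy).seq ?_⟩
    rintro i ⟨f, hf, e, he, hp⟩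
    obtain ⟨d, hd1, hd2⟩ := he.slide (Finset.mem_univ y) (Finset.mem_univ t)
      (hs.blk.adj y hy).ne.symm ht'.1 hty.symm (hs.low _ hc)
    refine (fib_vv hs hc hd1).mono ?_
    rintro j ⟨e', he', hq⟩
    exact ⟨_, e', ⟨f, hf, rfl⟩, he', hp.join hq hd2 hd Set.subset_union_left Set.subset_union_right⟩
  push Not at ha
  refine ⟨1 + 2, by omega, (hK y0 hy0).seq ?_⟩
  rintro i ⟨f, hf, e, he, hp⟩
  have hem := mem_Nd.1 hp.right.1
  have hy0t : y0 ≠ t := fun h => ht'.2 (h ▸ hy0)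
  have key : Dominating G ((Finset.univ.erase t).erase y0) ∧
      ∃ d, St (Dominating G) x ((Finset.univ.erase t).erase y0) d ∧ (gam G).Adj e d := by
    by_cases hxt : G.Adj x t
    · have h1 := hs.blk.adj y0 hy0
      refine ⟨fun v hv => ⟨x, by simp [h1.ne, hxt.ne], ?_⟩, _, St.self, ?_⟩
      · by_cases h : v = y0
        · exact h ▸ h1.symm
        · have : v = t := by simpa [h] using hv
          exact this ▸ hxt.symm
      · rw [Finset.erase_right_comm]
        exact he.down (by simp [h1.ne]) (by simp [hy0t.symm]) hxt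
    · have hx := cross (fun h => hxt h.symm) ha (mem_Fam.1 hc).2
      refine ⟨?_, e.erase t, ?_, adj_erase (hem.2.1 t (Finset.mem_univ t) ht'.1 ht'.2)⟩
      · rw [Finset.erase_right_comm]
        refine hx _ ((top_all hs hy0 hy0).up (Finset.erase_subset _ _)) fun v _ h => ?_
        exact Finset.mem_erase.2 ⟨fun h1 => h (h1 ▸ hy0), Finset.mem_univ v⟩
      · have h1 := hx e hem.2.2 fun v => hem.2.1 v (Finset.mem_univ v)
        rcases he with rfl | ⟨rfl, -⟩
        · exact Or.inl (Finset.erase_right_comm)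
        · refine Or.inr ⟨?_, h1⟩
          rw [Finset.erase_right_comm, Finset.erase_right_comm (a := y0)]
  obtain ⟨hF, d, hst, hed⟩ := key
  refine (((fibre _ _ hs.blk _ Y rfl (base_B hc) le_rfl (base_Y hc)).2.1 y0 hy0 hF _ hst).mono ?_)
  rintro j ⟨e', he', hq⟩
  exact ⟨_, e', ⟨f, hf, rfl⟩, he', hp.join hq hed hd Set.subset_union_left Set.subset_union_right⟩

theorem card_anch : (Fam G U \ {Finset.univ, Finset.univ.erase x}).card = (Fam G U).card - 2 := by
  have hu : Finset.univ ∈ Fam G (U \ insert x Y) := univ_mem_Fam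
  rw [Finset.card_sdiff_of_subset, Finset.card_pair (Finset.erase_ne_self.2 (Finset.mem_univ x)).symm]
  intro X hX
  rcases Finset.mem_insert.1 hX with rfl | hX
  · exact univ_mem_Fam
  · rw [Finset.mem_singleton.1 hX]
    exact fib_sub hs hu ((St.low (hs.low _ hu)).mem (top_mem (mem_Fam.1 hu).2))

theorem ww_base {y0 : V} (hy0 : y0 ∈ Y) {k : ℕ} (hk : 2 ≤ k) {b : Finset V}
    (hb : (gam G).Adj Finset.univ b)
    (hp : Pth (gam G) (Fam G (U \ insert x Y)) Finset.univ b k) :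
    ∃ lo hi, lo ≤ k + 1 ∧ 2 * k - 1 ≤ hi ∧ hi ≤ (Fam G U).card - 2 ∧
      (k = (Fam G (U \ insert x Y)).card → hi = (Fam G U).card - 2) ∧ Dn (WW G U x) lo hi := by
  have hu : Finset.univ ∈ Fam G (U \ insert x Y) := univ_mem_Fam
  obtain ⟨t, -, rfl⟩ := adj_top hb (Finset.subset_univ _)
  obtain ⟨T, hT, hq⟩ := hp.pop hk
  obtain ⟨p, hp1, hp2, hp3⟩ := hq.rev
  have hc : Finset.univ.erase t ∈ Fam G (U \ insert x Y) := hp.right
  have hTm : T ∈ Fam G (U \ insert x Y) := hq.left.1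
  obtain ⟨lo, hlo, hD⟩ := enter hs hy0 hc
  have hsub : ∀ T ∈ p.support, (Nd (Dominating G) x T Y : Set (Finset V)) ⊆
      Fam G U \ {Finset.univ, Finset.univ.erase x} := by
    intro T hT X hX
    refine ⟨fib_sub hs (hp2 T hT).1 hX, fun h => (hp2 T hT).2 ?_⟩
    rw [← key_eq (hp2 T hT).1 hX]
    rcases h with rfl | rfl
    · simp
    · exact key_eq hu ((St.low (hs.low _ hu)).mem (top_mem (mem_Fam.1 hu).2))
  have hnd := hp1.support_nodup
  rw [← p.cons_tail_support, List.nodup_cons] at hnd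
  have hZ := zig hs _ (Fam G U \ {Finset.univ, Finset.univ.erase x}) p hp1 (fun T hT => (hp2 T hT).1)
    (fun T hT => hsub T (List.mem_of_mem_tail hT)) _ _ _
    (Set.union_subset (Set.sdiff_subset_sdiff_left fun X hX => fib_sub hs hu hX)
      (hsub _ p.start_mem_support)) (by
      rintro X (hX | hX)
      · rw [key_eq hu hX.1]
        exact fun h => (hp2 _ (List.mem_of_mem_tail h)).2 rfl
      · rw [key_eq hc hX]
        exact hnd.1) hD
  have hW := hZ.mono (Q := WW G U x) (by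
    rintro j ⟨s, e, ⟨f, hf, rfl⟩, he, hr⟩
    refine ⟨_, e, adj_erase (Finset.mem_univ f),
      adj_slide (Finset.mem_univ x) (Finset.mem_univ f) (hs.blk.adj f hf), ?_, hr⟩
    rcases he with rfl | ⟨rfl, -⟩
    · exact Or.inl hT
    · exact Or.inr (adj_both hT (Finset.mem_univ x) (base_x hTm)))
  have h3 := (kk hs.blk (base_B hu) le_rfl (base_Y hu) (hs.low _ hu) hy0
    ((top_all hs hy0 hy0).up (Finset.erase_subset _ _))).1
  have h2 := Nd_two_le (Y := Y) hs.blk.up (base_x hc) (hs.low _ hc)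
  have hlen : p.support.tail.length = p.length := by simp
  have hsum : p.support.tail.length * 2 ≤
      (p.support.tail.map fun T => (Nd (Dominating G) x T Y).card).sum := by
    have := List.card_nsmul_le_sum (p.support.tail.map fun T => (Nd (Dominating G) x T Y).card) 2
      (by
        intro n hn
        obtain ⟨T, hT, rfl⟩ := List.mem_map.1 hn
        have hT' := (hp2 T (List.mem_of_mem_tail hT)).1
        exact Nd_two_le hs.blk.up (base_x hT') (hs.low _ hT'))
    simpa using this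
  refine ⟨_, _, by omega, by omega, ?_, fun hm => ?_, hW⟩
  · obtain ⟨a, b, -, -, -, h⟩ := hW.top
    rw [← card_anch hs]
    refine Pth.le_card (Γ := gam G) (a := a) (b := b) ?_
    simpa using h
  · have hn : (Finset.univ :: p.support).Nodup :=
      List.nodup_cons.2 ⟨fun h => (hp2 _ h).2 rfl, hp1.support_nodup⟩
    have he : (Finset.univ :: p.support).toFinset = Fam G (U \ insert x Y) := by
      refine Finset.eq_of_subset_of_card_le (fun T hT => ?_) ?_
      · rcases List.mem_cons.1 (List.mem_toFinset.1 hT) with rfl | h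
        · exact hu
        · exact (hp2 T h).1
      · rw [List.toFinset_card_of_nodup hn]
        simp only [List.length_cons, SimpleGraph.Walk.length_support]
        omega
    rw [card_Fam hs, ← he, List.sum_toFinset _ hn]
    conv_rhs => rw [← p.cons_tail_support]
    simp only [List.map_cons, List.sum_cons]
    omega

theorem ww_all {y0 : V} (hy0 : y0 ∈ Y) (hG : GG G (U \ insert x Y)) :
    Dn (WW G U x) 1 ((Fam G U).card - 2) := by
  have hu : Finset.univ ∈ Fam G (U \ insert x Y) := univ_mem_Fam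
  have hK := (kk hs.blk (base_B hu) le_rfl (base_Y hu) (hs.low _ hu) hy0
    ((top_all hs hy0 hy0).up (Finset.erase_subset _ _))).mono (Q := WW G U x) (by
      rintro j ⟨f, hf, l, hl, e, he, hp⟩
      exact ⟨_, e, adj_erase (Finset.mem_univ f),
        adj_slide (Finset.mem_univ x) (Finset.mem_univ f) (hs.blk.adj f hf),
        Or.inr (he.tolow (Finset.mem_univ x) (Finset.mem_univ l) (hs.blk.adj l hl)).symm,
        hp.mono (Set.sdiff_subset_sdiff_left fun X hX => fib_sub hs hu hX)⟩)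
  rcases hG with hG | hG
  · obtain ⟨T, hT⟩ := Finset.card_eq_one.1 hG
    rw [hT, Finset.mem_singleton] at hu
    rw [card_Fam hs, hT, Finset.sum_singleton, ← hu]
    exact hK
  · have hm := hG.1
    obtain ⟨b, hb, hp⟩ := hG.top
    obtain ⟨lo, hi, h1, h2, h3, h4, h5⟩ := ww_base hs hy0 hm hb hp
    have h6 := h4 rfl
    refine ⟨by omega, hK.2.1, fun j hj1 hj2 => ?_⟩
    by_cases hj : j = 1
    · exact ⟨1, by omega, by omega, by omega, hK.2.1⟩
    have key : ∃ lo hi, lo ≤ j + 1 ∧ j ≤ hi ∧ hi ≤ (Fam G U).card - 2 ∧ Dn (WW G U x) lo hi := by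
      by_cases hjm : (Fam G (U \ insert x Y)).card ≤ j
      · exact ⟨lo, hi, by omega, by omega, h3, h5⟩
      · by_cases hj2 : j = 2
        · obtain ⟨b, hb, hp⟩ := hG.2.1
          obtain ⟨lo, hi, h1, h2, h3, -, h5⟩ := ww_base hs hy0 le_rfl hb hp
          exact ⟨lo, hi, by omega, by omega, h3, h5⟩
        · obtain ⟨k, hk1, hk2, hk3, b, hb, hp⟩ := hG.2.2 (j - 1) (by omega) (by omega)
          obtain ⟨lo, hi, h1, h2, h3, -, h5⟩ := ww_base hs hy0 (by omega) hb hp
          exact ⟨lo, hi, by omega, by omega, h3, h5⟩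
    obtain ⟨lo, hi, h1, h2, h3, h5⟩ := key
    by_cases hl : lo ≤ j
    · obtain ⟨i, hi1, hi2, hi3, hi4⟩ := h5.2.2 j hl h2
      exact ⟨i, hi1, hi2, by omega, hi4⟩
    · exact ⟨lo, by omega, h1, h5.1.trans h3, h5.2.1⟩

end

end Pool.Agent.MP_e46b50_co

end

-- part MP_e46b50_co.Main
section

/-! The induction over the blocks and the conversion to cycles of the TARS-graph. -/

set_option autoImplicit false

namespace Pool.Agent.MP_e46b50_co

variable {V : Type} [Fintype V] [DecidableEq V] {G : SimpleGraph V}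

section
variable {U : Finset V} {x : V}

theorem ladder (hs : Stp G U x ∅) {a b : Finset V} (p : (gam G).Walk a b) :
    p.IsPath → (∀ T ∈ p.support, T ∈ Fam G (U \ insert x ∅)) →
    Dn (Pth (gam G) {X | X ∈ Fam G U ∧ X ∪ insert x ∅ ∈ p.support} a (a.erase x)) 2
      (2 * (p.length + 1)) := by
  have two : ∀ a ∈ Fam G (U \ insert x ∅), (a ∈ Fam G U ∧ a ∪ insert x ∅ = a) ∧
      (a.erase x ∈ Fam G U ∧ a.erase x ∪ insert x ∅ = a) := by
    intro a ha
    have h1 : a ∈ Nd (Dominating G) x a ∅ := top_mem (mem_Fam.1 ha).2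
    have h2 := (St.low (hs.low a ha)).mem h1
    exact ⟨⟨fib_sub hs ha h1, key_eq ha h1⟩, fib_sub hs ha h2, key_eq ha h2⟩
  induction p with
  | @nil a =>
    intro _ h
    have ha := h a (by simp)
    obtain ⟨h1, h2⟩ := two a ha
    exact Dn.single (Pth.two (adj_erase (base_x ha)) ⟨h1.1, by rw [h1.2]; simp⟩
      ⟨h2.1, by rw [h2.2]; simp⟩)
  | @cons a a' b hadj q ih =>
    intro hp h
    rw [SimpleGraph.Walk.cons_isPath_iff] at hp
    have ha := h a (by simp)
    have ha' := h a' (by simp)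
    obtain ⟨h1, h2⟩ := two a ha
    have m1 : a ∈ {X | X ∈ Fam G U ∧ X ∪ insert x ∅ ∈ (SimpleGraph.Walk.cons hadj q).support} :=
      ⟨h1.1, by rw [h1.2]; simp⟩
    have m2 : a.erase x ∈
        {X | X ∈ Fam G U ∧ X ∪ insert x ∅ ∈ (SimpleGraph.Walk.cons hadj q).support} :=
      ⟨h2.1, by rw [h2.2]; simp⟩
    refine ((Dn.single (Pth.two (adj_erase (base_x ha)) m1 m2)).glue
      ((ih hp.1 fun T hT => h T (by simp [hT])).shift 2 fun j hj => ?_) (by omega) (by omega)).cast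
      rfl (by simp only [SimpleGraph.Walk.length_cons]; omega)
    refine (hj.snoc (B := {X | X ∈ Fam G U ∧ X ∪ insert x ∅ ∈ q.support} ∪ {a.erase x})
      (adj_both hadj (base_x ha) (base_x ha')).symm (fun hh => hp.2 (h2.2 ▸ hh.2)) (Or.inr rfl)
      Set.subset_union_left).cons hadj ?_ m1 ?_
    · rintro (hh | hh)
      · exact hp.2 (h1.2 ▸ hh.2)
      · exact Finset.erase_ne_self.2 (base_x ha) hh.symm
    · rintro X (hX | rfl)
      · exact ⟨hX.1, by simp only [SimpleGraph.Walk.support_cons]; exact List.mem_cons_of_mem _ hX.2⟩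
      · exact m2

theorem gg_empty (hs : Stp G U x ∅) (hG : GG G (U \ insert x ∅)) : GG G U := by
  have hc : (Fam G U).card = 2 * (Fam G (U \ insert x ∅)).card := by
    rw [card_Fam hs, Finset.sum_congr rfl fun T hT =>
      Nd_empty_card hs.blk.up (base_x hT) (hs.low T hT)]
    simp [mul_comm]
  have : ∃ b, Pth (gam G) (Fam G (U \ insert x ∅)) Finset.univ b
      (Fam G (U \ insert x ∅)).card := by
    rcases hG with h | h
    · exact ⟨_, h ▸ Pth.single univ_mem_Fam⟩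
    · obtain ⟨b, -, hb⟩ := h.top
      exact ⟨b, hb⟩
  obtain ⟨b, p, h1, h2, h3⟩ := this
  refine Or.inr (((ladder hs p h1 h2).mono fun j hj => ?_).cast rfl (by omega))
  exact ⟨_, adj_erase (Finset.mem_univ x), hj.mono fun X hX => hX.1⟩

theorem ww_two {j : ℕ} (hx : Finset.univ.erase x ∈ Fam G U) (h : WW G U x j) :
    ∃ b, (gam G).Adj Finset.univ b ∧ Pth (gam G) (Fam G U) Finset.univ b (j + 2) := by
  obtain ⟨a, b, h1, h2, h3, hp⟩ := h
  have hne : Finset.univ ≠ Finset.univ.erase x := (Finset.erase_ne_self.2 (Finset.mem_univ x)).symm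
  have hA : (Fam G U : Set (Finset V)) \ {Finset.univ, Finset.univ.erase x} ⊆
      Fam G U \ {Finset.univ} := fun X hX => ⟨hX.1, fun h => hX.2 (Or.inl h)⟩
  have hm : Finset.univ.erase x ∈ (Fam G U : Set (Finset V)) \ {Finset.univ} := ⟨hx, hne.symm⟩
  rcases h3 with h3 | h3
  · exact ⟨b, h3, (hp.cons h2 (by simp) hm hA).cons (adj_erase (Finset.mem_univ x))
      (by simp) univ_mem_Fam Set.sdiff_subset⟩
  · exact ⟨_, adj_erase (Finset.mem_univ x), (hp.snoc h3.symm (by simp) hm hA).cons h1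
      (by simp) univ_mem_Fam Set.sdiff_subset⟩

theorem gg_of_ww (hx : Finset.univ.erase x ∈ Fam G U) (h : Dn (WW G U x) 1 ((Fam G U).card - 2)) :
    GG G U := by
  have h1 := h.1
  refine Or.inr (((Dn.single ⟨_, adj_erase (Finset.mem_univ x), Pth.two
    (adj_erase (Finset.mem_univ x)) univ_mem_Fam hx⟩).glue (h.shift 2 fun j hj => ww_two hx hj)
    (by omega) (by omega)).cast rfl (by omega))

/-- cycles of all lengths. -/
def Pan (G : SimpleGraph V) (U : Finset V) : Prop :=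
  ∀ l, 3 ≤ l → l ≤ (Fam G U).card → ∃ a b, (gam G).Adj b a ∧ Pth (gam G) (Fam G U) a b l

theorem pan_of_ww (hx : Finset.univ.erase x ∈ Fam G U) (h : Dn (WW G U x) 1 ((Fam G U).card - 2)) :
    Pan G U := by
  intro l h1 h2
  obtain ⟨j, h3, h4, h5, hw⟩ := h.2.2 (l - 2) (by omega) (by omega)
  by_cases hj : j + 2 = l
  · obtain ⟨b, hb, hp⟩ := ww_two hx hw
    exact ⟨_, b, hb.symm, hj ▸ hp⟩
  · have hl : l = j + 1 := by omega
    obtain ⟨a, b, h1, h2, h3, hp⟩ := hw
    rcases h3 with h3 | h3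
    · exact ⟨_, b, h3.symm, hl ▸ hp.cons h1 (by simp) univ_mem_Fam Set.sdiff_subset⟩
    · exact ⟨_, b, h3.symm, hl ▸ hp.cons h2 (by simp) hx Set.sdiff_subset⟩

theorem Fam_iso (hx : ∀ v, ¬ G.Adj x v) : Fam G U = Fam G (U \ insert x ∅) := by
  ext X
  rw [mem_Fam, mem_Fam]
  refine and_congr_left fun hX => ⟨fun h v hv => ?_, fun h v hv => h v fun h1 =>
    hv (Finset.mem_sdiff.1 h1).1⟩
  by_cases h1 : v = x
  · by_contra h2
    obtain ⟨u, -, hu⟩ := hX v h2
    exact hx u (h1 ▸ hu)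
  · exact h v fun h2 => hv (Finset.mem_sdiff.2 ⟨h2, by simpa using h1⟩)

theorem stp_of {Y : Finset V} (hx : x ∈ U) (hY : Y ⊆ U) (hadj : ∀ y ∈ Y, G.Adj x y)
    (h1 : ∃ w, G.Adj x w ∧ (w ∈ Y ∨ w ∉ U))
    (h2 : ∀ v ∈ U, v ∉ Y → G.Adj x v → ∃ w, G.Adj v w ∧ (w ∈ Y ∨ w ∉ U))
    (h3 : ∀ z ∈ U, z ≠ x → z ∉ Y → ¬ G.Adj x z → (∀ w, G.Adj z w → w ∈ U) →
      ∀ f ∈ Y, ∀ g ∈ Y, f ≠ g → G.Adj z f → G.Adj z g → G.Adj f g) : Stp G U x Y := by
  refine ⟨hx, hY, ⟨fun _ _ => Dominating.up, by simp, fun y hy => ?_, hadj, ?_⟩, fun T hT v hv => ?_⟩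
  · simp [(hadj y hy).ne.symm, hY hy]
  · intro Z hZ f hf g hg hfg hF hG hn
    have hxZ : x ∈ (Z.erase f).erase g := by
      simp [(hadj f hf).ne, (hadj g hg).ne, hZ (Finset.mem_insert_self _ _)]
    unfold Dominating at hn
    push Not at hn
    obtain ⟨v, hv, hno⟩ := hn
    have hxv : ¬ G.Adj x v := fun h => hno x hxZ h.symm
    have hvY : v ∉ Y := fun h => hxv (hadj v h)
    have hvf : v ≠ f := fun h => hvY (h ▸ hf)
    have hvg : v ≠ g := fun h => hvY (h ▸ hg)
    have hvZ : v ∉ Z := fun h => hv (by simp [hvf, hvg, h])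
    have hout : ∀ w, w ∉ U → w ∈ (Z.erase f).erase g := fun w hw => by
      have h4 : w ≠ f := fun h => hw (h ▸ hY hf)
      have h5 : w ≠ g := fun h => hw (h ▸ hY hg)
      simp [h4, h5, hZ (Finset.mem_insert_of_mem (Finset.mem_compl.2 hw))]
    refine h3 v (by by_contra h; exact hv (hout v h)) (fun h => hv (h ▸ hxZ)) hvY hxv
      (fun w hw => by by_contra h; exact hno w (hout w h) hw) f hf g hg hfg ?_ ?_
    · obtain ⟨u, hu, hvu⟩ := hG v fun h => hvZ (Finset.mem_of_mem_erase h)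
      by_contra h
      rw [Finset.mem_erase] at hu
      exact hno u (by simp [hu.1, hu.2, show u ≠ f from fun h6 => h (h6 ▸ hvu)]) hvu
    · obtain ⟨u, hu, hvu⟩ := hF v fun h => hvZ (Finset.mem_of_mem_erase h)
      by_contra h
      exact hno u (Finset.mem_erase.2 ⟨fun h6 => h (h6 ▸ hvu), hu⟩) hvu
  · have hin : ∀ w, (w ∈ Y ∨ w ∉ U) → w ∈ T.erase x := by
      rintro w (hw | hw)
      · exact Finset.mem_erase.2 ⟨(hadj w hw).ne.symm, base_Y hT hw⟩
      · exact Finset.mem_erase.2 ⟨fun h => hw (h ▸ hx),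
          base_B hT (Finset.mem_insert_of_mem (Finset.mem_compl.2 hw))⟩
    by_cases hvx : v = x
    · obtain ⟨w, hw, hw'⟩ := h1
      exact ⟨w, hin w hw', hvx ▸ hw⟩
    · have hvT : v ∉ T := fun h => hv (Finset.mem_erase.2 ⟨hvx, h⟩)
      obtain ⟨u, hu, hvu⟩ := (mem_Fam.1 hT).2 v hvT
      by_cases hux : u = x
      · obtain ⟨w, hw, hw'⟩ := h2 v (by by_contra h; exact hv (hin v (Or.inr h)))
          (fun h => hvT (base_Y hT h)) (hux ▸ hvu.symm)
        exact ⟨w, hin w hw', hw⟩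
      · exact ⟨u, Finset.mem_erase.2 ⟨hux, hu⟩, hvu⟩

theorem low_top {Y : Finset V} (hs : Stp G U x Y) : Finset.univ.erase x ∈ Fam G U :=
  fib_sub hs univ_mem_Fam ((St.low (hs.low _ univ_mem_Fam)).mem
    (top_mem (mem_Fam.1 (univ_mem_Fam (G := G) (U := U))).2))

theorem gg_step {Y : Finset V} (hs : Stp G U x Y) (hG : GG G (U \ insert x Y)) : GG G U := by
  rcases Y.eq_empty_or_nonempty with rfl | ⟨y, hy⟩
  · exact gg_empty hs hG
  · exact gg_of_ww (low_top hs) (ww_all hs hy hG)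

end

theorem Fam_empty : (Fam G ∅).card = 1 := by
  rw [Finset.card_eq_one]
  refine ⟨Finset.univ, Finset.eq_singleton_iff_unique_mem.2 ⟨univ_mem_Fam, fun X hX => ?_⟩⟩
  exact Finset.eq_univ_of_forall fun v => (mem_Fam.1 hX).1 v (by simp)

theorem blocks (r : V → ℕ) (c : ℕ → V) (h0 : ∀ v, r (c (r v)) = r v)
    (h1 : ∀ v, v ≠ c (r v) → G.Adj (c (r v)) v)
    (h2 : ∀ x v, c (r x) = x → G.Adj x v → ∃ w, G.Adj x w ∧ r w ≤ r x)
    (h3 : ∀ x v, c (r x) = x → G.Adj x v → r x < r v → ∃ w, w ≠ x ∧ G.Adj v w ∧ r w ≤ r x)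
    (h4 : ∀ z f g, r f = r g → r f < r z → f ≠ g → G.Adj z f → G.Adj z g → ¬ G.Adj z (c (r f)) →
      (∀ w, G.Adj z w → r f ≤ r w) → G.Adj f g) (m : ℕ) :
    ∀ k, (∀ v, r v < k + m) → GG G (Finset.univ.filter fun v => k ≤ r v) ∧
      ((∀ v w, r v < k → ¬ G.Adj v w) → Pan G (Finset.univ.filter fun v => k ≤ r v)) := by
  induction m with
  | zero =>
    intro k hk
    have : (Finset.univ.filter fun v => k ≤ r v) = ∅ := by
      refine Finset.filter_eq_empty_iff.2 fun v _ => ?_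
      have := hk v
      omega
    rw [this]
    refine ⟨Or.inl Fam_empty, fun _ l h1 h2 => ?_⟩
    rw [Fam_empty] at h2
    omega
  | succ m ih =>
    intro k hk
    obtain ⟨i1, i2⟩ := ih (k + 1) fun v => by have := hk v; omega
    by_cases he : ∃ v0, r v0 = k
    swap
    · push Not at he
      have : (Finset.univ.filter fun v => k ≤ r v) = Finset.univ.filter fun v => k + 1 ≤ r v := by
        refine Finset.filter_congr fun v _ => ?_
        have := he v
        omega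
      rw [this]
      exact ⟨i1, fun h => i2 fun v w hv => h v w (by have := he v; omega)⟩
    obtain ⟨v0, hv0⟩ := he
    have hx : r (c k) = k := by rw [← hv0]; exact h0 v0
    have hY : ∀ y, y ∈ (Finset.univ.filter fun v => r v = k).erase (c k) ↔ y ≠ c k ∧ r y = k := by
      simp
    have hadj : ∀ y ∈ (Finset.univ.filter fun v => r v = k).erase (c k), G.Adj (c k) y := by
      intro y hy
      obtain ⟨h5, h6⟩ := (hY y).1 hy
      have := h1 y (by rwa [h6])
      rwa [h6] at this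
    have hU : (Finset.univ.filter fun v => k ≤ r v) \
        insert (c k) ((Finset.univ.filter fun v => r v = k).erase (c k)) =
        Finset.univ.filter fun v => k + 1 ≤ r v := by
      rw [Finset.insert_erase (by simp [hx])]
      ext v
      simp only [Finset.mem_sdiff, Finset.mem_filter, Finset.mem_univ, true_and]
      omega
    by_cases hiso : ∀ v, ¬ G.Adj (c k) v
    · have hE : (Finset.univ.filter fun v => r v = k).erase (c k) = ∅ :=
        Finset.eq_empty_of_forall_notMem fun y hy => hiso y (hadj y hy)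
      have hF : Fam G (Finset.univ.filter fun v => k ≤ r v) =
          Fam G (Finset.univ.filter fun v => k + 1 ≤ r v) := by
        rw [Fam_iso hiso, ← hU, hE]
      unfold GG Pan at *
      rw [hF]
      refine ⟨i1, fun h => i2 fun v w hv => ?_⟩
      by_cases h5 : r v = k
      · have : v = c k := by
          by_contra h6
          exact hiso v (hadj v ((hY v).2 ⟨h6, h5⟩))
        exact this ▸ hiso w
      · exact h v w (by omega)
    · push Not at hiso
      obtain ⟨v1, hv1⟩ := hiso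
      obtain ⟨w, hw, hw'⟩ := h2 (c k) v1 (by rw [hx]) hv1
      rw [hx] at hw'
      have hin : ∀ w, w ≠ c k → r w ≤ k → w ∈ (Finset.univ.filter fun v => r v = k).erase (c k) ∨
          w ∉ Finset.univ.filter fun v => k ≤ r v := by
        intro w h5 h6
        rw [hY]
        simp only [Finset.mem_filter, Finset.mem_univ, true_and]
        by_cases h7 : r w = k
        · exact Or.inl ⟨h5, h7⟩
        · exact Or.inr (by omega)
      have hs : Stp G (Finset.univ.filter fun v => k ≤ r v) (c k)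
          ((Finset.univ.filter fun v => r v = k).erase (c k)) := by
        refine stp_of (by simp [hx]) (fun y hy => by simp [((hY y).1 hy).2]) hadj
          ⟨w, hw, hin w hw.ne.symm hw'⟩ (fun v hv hv' hxv => ?_)
          fun z hz hzx hzY hxz hall f hf g hg hfg hzf hzg => ?_
        · rw [hY] at hv'
          have h5 : r v ≠ k := fun h => hv' ⟨hxv.ne.symm, h⟩
          have h6 : k ≤ r v := by simpa using hv
          obtain ⟨u, hu1, hu2, hu3⟩ := h3 (c k) v (by rw [hx]) hxv (by omega)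
          exact ⟨u, hu2, hin u hu1 (hx ▸ hu3)⟩
        · rw [hY] at hzY hf hg
          have h5 : r z ≠ k := fun h => hzY ⟨hzx, h⟩
          have h6 : k ≤ r z := by simpa using hz
          refine h4 z f g (by omega) (by omega) hfg hzf hzg (by rw [hf.2]; exact fun h => hxz h.symm)
            fun u hu => ?_
          simpa [hf.2] using hall u hu
      rw [← hU] at i1
      refine ⟨gg_step hs i1, fun h => pan_of_ww (low_top hs) (ww_all hs (y0 := w) ?_ i1)⟩
      refine (hY w).2 ⟨hw.ne.symm, ?_⟩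
      by_contra h5
      exact h w _ (by omega) hw.symm

omit [Fintype V] in
theorem lift_walk {a b : Finset V} (p : (gam G).Walk a b) :
    ∀ (ha : Dominating G a) (hb : Dominating G b), (∀ y ∈ p.support, Dominating G y) →
      ∃ q : (tars G).Walk ⟨a, ha⟩ ⟨b, hb⟩, q.support.map Subtype.val = p.support := by
  induction p with
  | nil => exact fun _ _ _ => ⟨.nil, rfl⟩
  | @cons a a' b hadj p ih =>
    intro ha hb h
    have ha' : Dominating G a' := h a' (by simp)
    obtain ⟨q, hq⟩ := ih ha' hb fun y hy => h y (by simp [hy])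
    exact ⟨.cons ⟨fun he => hadj.1 (congrArg Subtype.val he), hadj.2⟩ q, by simp [hq]⟩

theorem cycle_of {β : Type} {Γ : SimpleGraph β} {a b : β} (q : Γ.Walk a b) (hq : q.IsPath)
    (h2 : 2 ≤ q.length) (h : Γ.Adj b a) : (SimpleGraph.Walk.cons h q).IsCycle := by
  rw [SimpleGraph.Walk.cons_isCycle_iff]
  refine ⟨hq, fun he => ?_⟩
  cases q with
  | nil => simp at h2
  | @cons _ d _ h' q =>
    rw [SimpleGraph.Walk.cons_isPath_iff] at hq
    rw [SimpleGraph.Walk.edges_cons, List.mem_cons] at he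
    rcases he with he | he
    · have hd : b = d := by
        rw [Sym2.eq_swap] at he
        exact Sym2.congr_right.1 he
      subst hd
      have := Pth.eq_one (Γ := Γ) (A := Set.univ) ⟨q, hq.1, fun _ _ => trivial, rfl⟩
      simp only [SimpleGraph.Walk.length_cons] at h2
      omega
    · exact hq.2 (q.snd_mem_support_of_mem_edges he)

theorem pan_tars (h : Pan G Finset.univ) (l : ℕ) (h1 : 3 ≤ l)
    (h2 : l ≤ Nat.card {D : Finset V // Dominating G D}) :
    ∃ D, ∃ c : (tars G).Walk D D, c.IsCycle ∧ c.length = l := by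
  classical
  have hc : Nat.card {D : Finset V // Dominating G D} = (Fam G Finset.univ).card := by
    rw [Nat.card_eq_fintype_card, Fintype.card_subtype]
    congr 1
    ext X
    simp [mem_Fam]
  obtain ⟨a, b, hab, p, hp1, hp2, hp3⟩ := h l h1 (hc ▸ h2)
  have hd : ∀ y ∈ p.support, Dominating G y := fun y hy => (mem_Fam.1 (hp2 y hy)).2
  obtain ⟨q, hq⟩ := lift_walk p (hd a p.start_mem_support) (hd b p.end_mem_support) hd
  have hl : q.length = p.length := by
    have := congrArg List.length hq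
    simpa using this
  have hqp : q.IsPath := by
    rw [SimpleGraph.Walk.isPath_def]
    exact List.Nodup.of_map Subtype.val (hq ▸ hp1.support_nodup)
  have hadj : (tars G).Adj ⟨b, hd b p.end_mem_support⟩ ⟨a, hd a p.start_mem_support⟩ :=
    ⟨fun he => hab.1 (congrArg Subtype.val he), hab.2⟩
  exact ⟨_, .cons hadj q, cycle_of q hqp (by omega) hadj, by
    simp only [SimpleGraph.Walk.length_cons]; omega⟩

end Pool.Agent.MP_e46b50_co

end
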